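import Pool.Agent.P.MP_9ec3f0_nt.SY.Val

namespace Pool.Agent.P.MP_9ec3f0_nt.SY

open NumberField IsDedekindDomain Finset Module

section Ext
variable {F M : Type} [Field F] [NumberField F] [Field M] [NumberField M] [Algebra F M]

namespace ExtAux

theorem liesOver (w : Pr M) : w.asIdeal.LiesOver (dn F w).asIdeal := ⟨rfl⟩

theorem exists_pow (w : Pr M) : ∃ e : ℕ, 0 < e ∧
    ∀ x : F, w.valuation M (algebraMap F M x) = (dn F w).valuation F x ^ e := by
  have := liesOver (F := F) w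
  exact ⟨(dn F w).asIdeal.ramificationIdx' w.asIdeal, Nat.pos_of_ne_zero
    (Ideal.IsDedekindDomain.ramificationIdx'_ne_zero_of_liesOver w.asIdeal (dn F w).ne_bot),
    fun x => (HeightOneSpectrum.valuation_liesOver M (dn F w) w x).symm⟩

theorem dn_eq_iff {w : Pr M} {v : Pr F} : dn F w = v ↔ w.asIdeal.LiesOver v.asIdeal := by
  constructor
  · rintro rfl
    exact liesOver w
  · intro h
    exact HeightOneSpectrum.ext h.over.symm

theorem mem_cj (σ : M ≃ₐ[F] M) (w : Pr M) (x : 𝓞 M) :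
    x ∈ (cj σ w).asIdeal ↔ (RingOfIntegers.mapRingEquiv σ.toRingEquiv).symm x ∈ w.asIdeal :=
  Iff.rfl

theorem cj_asIdeal (σ : M ≃ₐ[F] M) (w : Pr M) :
    (cj σ w).asIdeal = w.asIdeal.map (RingOfIntegers.mapRingEquiv σ.toRingEquiv) := by
  ext x
  rw [mem_cj, Ideal.symm_apply_mem_of_equiv_iff]

theorem eq_of_le_iff {a b : WithZero (Multiplicative ℤ)} (ha : a ≤ 1) (hb : b ≤ 1) (ha0 : a ≠ 0)
    (hb0 : b ≠ 0)
    (h : ∀ n : ℕ, a ≤ WithZero.exp (-(n : ℤ)) ↔ b ≤ WithZero.exp (-(n : ℤ))) : a = b := by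
  rw [← WithZero.exp_log ha0] at ha h ⊢
  rw [← WithZero.exp_log hb0] at hb h ⊢
  rw [← WithZero.exp_zero, WithZero.exp_le_exp] at ha hb
  simp only [WithZero.exp_le_exp] at h
  have h1 := (h (-WithZero.log a).toNat).1 (by omega)
  have h2 := (h (-WithZero.log b).toNat).2 (by omega)
  congr 1
  omega

theorem intVal_cj (σ : M ≃ₐ[F] M) (w : Pr M) (x : 𝓞 M) :
    (cj σ w).intValuation (RingOfIntegers.mapRingEquiv σ.toRingEquiv x) = w.intValuation x := by
  rcases eq_or_ne x 0 with rfl | hx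
  · simp
  refine eq_of_le_iff (HeightOneSpectrum.intValuation_le_one _ _)
    (HeightOneSpectrum.intValuation_le_one _ _)
    (HeightOneSpectrum.intValuation_ne_zero _ _ (by simpa using hx))
    (HeightOneSpectrum.intValuation_ne_zero _ _ hx) fun n => ?_
  rw [HeightOneSpectrum.intValuation_le_pow_iff_mem, HeightOneSpectrum.intValuation_le_pow_iff_mem,
    cj_asIdeal, ← Ideal.map_pow, ← Ideal.symm_apply_mem_of_equiv_iff, RingEquiv.symm_apply_apply]

theorem exists_unif (v : Pr F) : ∃ π : F, ord v π = 1 := by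
  obtain ⟨π, hπ⟩ := v.valuation_exists_uniformizer F
  exact ⟨π, by rw [ord, hπ, WithZero.log_exp, neg_neg]⟩

end ExtAux

open ExtAux

theorem exists_e (w : Pr M) :
    ∃ e : ℕ, 0 < e ∧ ∀ x : F, ord w (algebraMap F M x) = e * ord (dn F w) x := by
  obtain ⟨e, he, h⟩ := exists_pow (F := F) w
  refine ⟨e, he, fun x => ?_⟩
  rw [ord, ord, h, WithZero.log_pow]
  simp

theorem val_algebraMap_le_one_iff (w : Pr M) (x : F) :
    w.valuation M (algebraMap F M x) ≤ 1 ↔ (dn F w).valuation F x ≤ 1 := by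
  obtain ⟨e, he, h⟩ := exists_pow (F := F) w
  rw [h, pow_le_one_iff he.ne']

theorem val_algebraMap_lt_one_iff (w : Pr M) (x : F) :
    w.valuation M (algebraMap F M x) < 1 ↔ (dn F w).valuation F x < 1 := by
  obtain ⟨e, he, h⟩ := exists_pow (F := F) w
  rw [h, pow_lt_one_iff he.ne']

theorem val_algebraMap_eq_one_iff (w : Pr M) (x : F) :
    w.valuation M (algebraMap F M x) = 1 ↔ (dn F w).valuation F x = 1 := by
  rw [le_antisymm_iff, le_antisymm_iff, ← not_lt (a := w.valuation M _),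
    ← not_lt (a := (dn F w).valuation F _), val_algebraMap_le_one_iff, val_algebraMap_lt_one_iff]

theorem exists_above (M : Type) [Field M] [NumberField M] [Algebra F M] (v : Pr F) :
    ∃ w : Pr M, dn F w = v := by
  have := v.isMaximal
  obtain ⟨P, hP, hl⟩ := Ideal.exists_maximal_ideal_liesOver_of_isIntegral (S := 𝓞 M) v.asIdeal
  exact ⟨⟨P, hP.isPrime, Ideal.ne_bot_of_liesOver_of_ne_bot v.ne_bot P⟩, dn_eq_iff.2 hl⟩

theorem finite_above (M : Type) [Field M] [NumberField M] [Algebra F M] (S : Finset (Pr F)) :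
    {w : Pr M | dn F w ∈ S}.Finite := by
  have h1 : ∀ v : Pr F, {w : Pr M | dn F w = v}.Finite := by
    intro v
    have := v.isMaximal
    refine Set.Finite.of_finite_image (f := fun w : Pr M => w.asIdeal)
      ((IsDedekindDomain.primesOver_finite v.asIdeal (𝓞 M)).subset ?_) fun _ _ _ _ h => HeightOneSpectrum.ext h
    rintro _ ⟨w, hw, rfl⟩
    exact ⟨w.isPrime, dn_eq_iff.1 hw⟩
  refine (S.finite_toSet.biUnion fun v _ => h1 v).subset fun w hw => ?_
  exact Set.mem_biUnion hw rfl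

theorem card_above_le (v : Pr F) (T : Finset (Pr M)) (hT : ∀ w ∈ T, dn F w = v) :
    T.card ≤ finrank F M := by
  have := v.isMaximal
  have : NoZeroSMulDivisors (𝓞 F) (𝓞 M) := ⟨fun {c x} h => by
    rw [Algebra.smul_def, mul_eq_zero] at h
    exact h.imp_left fun h => (FaithfulSMul.algebraMap_injective (𝓞 F) (𝓞 M)) (by simpa using h)⟩
  refine le_trans ?_ (Ideal.card_primesOverFinset_le_finrank (𝓞 M) F M v.ne_bot)
  refine card_le_card_of_injOn (fun w => w.asIdeal) (fun w hw => ?_)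
    fun _ _ _ _ h => HeightOneSpectrum.ext h
  exact (IsDedekindDomain.mem_primesOverFinset_iff v.ne_bot _).2 ⟨w.isPrime, dn_eq_iff.1 (hT w hw)⟩

theorem val_cj (σ : M ≃ₐ[F] M) (w : Pr M) (x : M) :
    (cj σ w).valuation M (σ x) = w.valuation M x := by
  obtain ⟨a, b, hb, rfl⟩ := IsFractionRing.div_surjective (A := 𝓞 M) x
  have h : ∀ y : 𝓞 M, (cj σ w).valuation M (σ (algebraMap (𝓞 M) M y)) =
      w.valuation M (algebraMap (𝓞 M) M y) := fun y => by
    rw [HeightOneSpectrum.valuation_of_algebraMap, ← intVal_cj σ w y,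
      ← HeightOneSpectrum.valuation_of_algebraMap (K := M)]
    rfl
  rw [map_div₀, map_div₀, map_div₀, h, h]

theorem ord_cj (σ : M ≃ₐ[F] M) (w : Pr M) (x : M) : ord (cj σ w) (σ x) = ord w x := by
  rw [ord, ord, val_cj]

theorem cj_one (w : Pr M) : cj (1 : M ≃ₐ[F] M) w = w := by
  ext x
  rw [mem_cj]
  exact Iff.rfl

theorem cj_mul (σ τ : M ≃ₐ[F] M) (w : Pr M) : cj (σ * τ) w = cj σ (cj τ w) := by
  ext x
  rw [mem_cj, mem_cj, mem_cj]
  exact Iff.rfl

theorem dn_cj (σ : M ≃ₐ[F] M) (w : Pr M) : dn F (cj σ w) = dn F w := by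
  refine HeightOneSpectrum.eq_of_valuation_isEquiv_valuation (K := F) ?_
  rw [Valuation.isEquiv_iff_val_lt_one]
  intro x
  rw [← val_algebraMap_lt_one_iff, ← val_algebraMap_lt_one_iff, ← val_cj σ w, AlgEquiv.commutes]

theorem fixes_iff (σ : M ≃ₐ[F] M) (w : Pr M) :
    Fixes σ w ↔ ∀ x : M, w.valuation M (σ x) = w.valuation M x := by
  constructor
  · intro h x
    rw [← val_cj σ w x, show cj σ w = w from h]
  · intro h
    refine HeightOneSpectrum.eq_of_valuation_isEquiv_valuation (K := M) ?_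
    rw [Valuation.isEquiv_iff_val_lt_one]
    intro x
    obtain ⟨y, rfl⟩ := σ.surjective x
    rw [val_cj, h]

theorem exists_cj_eq [IsGalois F M] {w w' : Pr M} (h : dn F w = dn F w') :
    ∃ σ : M ≃ₐ[F] M, cj σ w = w' := by
  have := liesOver (F := F) w'
  have := dn_eq_iff.1 h
  have := w.isPrime
  have := w'.isPrime
  obtain ⟨σ, hσ⟩ := Ideal.exists_smul_eq_of_isGaloisGroup (dn F w').asIdeal w.asIdeal w'.asIdeal
    (M ≃ₐ[F] M)
  refine ⟨σ, HeightOneSpectrum.ext ?_⟩
  rw [← hσ, cj_asIdeal]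
  rfl

theorem ord_of_unrP {w : Pr M} (h : UnrP F w) (x : F) :
    ord w (algebraMap F M x) = ord (dn F w) x := by
  obtain ⟨e, -, he⟩ := exists_e (F := F) w
  obtain ⟨π, hπ⟩ := h
  rw [he] at hπ
  have h1 : (e : ℤ) = 1 := Int.eq_one_of_mul_eq_one_right (by positivity) hπ
  rw [he, h1, one_mul]

theorem UnrAt.algebraMap {w : Pr M} {a : F} (h : UnrAt (dn F w) a) :
    UnrAt w (algebraMap F M a) := by
  obtain ⟨ξ, μ, h0, rfl, h1, h2⟩ := h
  refine ⟨Algebra.algebraMap F M ξ, Algebra.algebraMap F M μ, by simpa using h0,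
    by simp [map_ofNat], (val_algebraMap_le_one_iff w μ).2 h1, ?_⟩
  have := (val_algebraMap_eq_one_iff w _).2 h2
  simpa [map_ofNat] using this

theorem SplitAt.algebraMap {w : Pr M} {a : F} (h : SplitAt (dn F w) a) :
    SplitAt w (algebraMap F M a) := by
  obtain ⟨ξ, μ, h0, rfl, h1⟩ := h
  exact ⟨Algebra.algebraMap F M ξ, Algebra.algebraMap F M μ, by simpa using h0,
    by simp [map_ofNat], (val_algebraMap_lt_one_iff w μ).2 h1⟩

theorem UnrAt.cj {w : Pr M} {a : M} (h : UnrAt w a) (σ : M ≃ₐ[F] M) :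
    UnrAt (cj σ w) (σ a) := by
  obtain ⟨ξ, μ, h0, rfl, h1, h2⟩ := h
  refine ⟨σ ξ, σ μ, by simpa using h0, by simp [map_ofNat], by rwa [val_cj], ?_⟩
  rw [← val_cj σ w] at h2
  simpa [map_ofNat] using h2

theorem unr_self (F : Type) [Field F] [NumberField F] : Unr F F := fun w => exists_unif w

variable {E : Type} [Field E] [NumberField E] [Algebra E F] [Algebra E M] [IsScalarTower E F M]

theorem dn_dn (w : Pr M) : dn E (dn F w) = dn E w := by
  refine HeightOneSpectrum.eq_of_valuation_isEquiv_valuation (K := E) ?_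
  rw [Valuation.isEquiv_iff_val_lt_one]
  intro x
  rw [← val_algebraMap_lt_one_iff, ← val_algebraMap_lt_one_iff, ← val_algebraMap_lt_one_iff,
    ← IsScalarTower.algebraMap_apply]

theorem Unr.trans (h1 : Unr E F) (h2 : Unr F M) : Unr E M := by
  intro w
  obtain ⟨π, hπ⟩ := h1 (dn F w)
  exact ⟨π, by rw [IsScalarTower.algebraMap_apply E F M, ord_of_unrP (h2 w), hπ]⟩

theorem Unr.top (h : Unr E M) : Unr F M := by
  intro w
  obtain ⟨π, hπ⟩ := h w
  exact ⟨algebraMap E F π, by rwa [← IsScalarTower.algebraMap_apply]⟩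

theorem Unr.bot (M : Type) [Field M] [NumberField M] [Algebra F M] [Algebra E M]
    [IsScalarTower E F M] (h : Unr E M) : Unr E F := by
  intro v
  obtain ⟨w, rfl⟩ := exists_above M v
  obtain ⟨π, hπ⟩ := h w
  exact ⟨π, by
    rw [← ord_of_unrP (Unr.top (F := F) h w), ← IsScalarTower.algebraMap_apply, hπ]⟩

end Ext

end Pool.Agent.P.MP_9ec3f0_nt.SY
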