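import Pool.Agent.P.MP_9ec3f0_nt.SY.Val

/-! The rank of the group of `S`-units, and the index of the squares. -/

namespace Pool.Agent.P.MP_9ec3f0_nt.SY

open NumberField IsDedekindDomain Finset Module

namespace SUnitAux

variable {K : Type} [Field K] [NumberField K]

/-- An element whose only zero is `v`. -/
theorem exists_pure (v : Pr K) :
    ∃ x : K, x ≠ 0 ∧ ord v x ≠ 0 ∧ ∀ w, w ≠ v → ord w x = 0 := by
  classical
  have hv : v.asIdeal ∈ nonZeroDivisors (Ideal (𝓞 K)) :=
    mem_nonZeroDivisors_of_ne_zero v.ne_bot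
  have hh : 0 < Fintype.card (ClassGroup (𝓞 K)) := Fintype.card_pos
  have h1 : ClassGroup.mk0 (⟨v.asIdeal, hv⟩ ^ Fintype.card (ClassGroup (𝓞 K))) = 1 := by
    rw [map_pow, pow_card_eq_one]
  obtain ⟨g, hg⟩ : (v.asIdeal ^ Fintype.card (ClassGroup (𝓞 K))).IsPrincipal :=
    (ClassGroup.mk0_eq_one_iff (pow_mem hv _)).1 h1
  have hg0 : g ≠ 0 := by
    rintro rfl
    exact pow_ne_zero _ v.ne_bot (by simpa using hg)
  have hgK : algebraMap (𝓞 K) K g ≠ 0 := by simpa using hg0
  have hmem : g ∈ v.asIdeal ^ Fintype.card (ClassGroup (𝓞 K)) := by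
    rw [hg]; exact Submodule.mem_span_singleton_self g
  refine ⟨algebraMap (𝓞 K) K g, hgK, fun h => ?_, fun w hw => ?_⟩
  · rw [← val_eq_one_iff v hgK, HeightOneSpectrum.valuation_eq_one_iff_notMem] at h
    exact h (Ideal.pow_le_self hh.ne' hmem)
  · rw [← val_eq_one_iff w hgK, HeightOneSpectrum.valuation_eq_one_iff_notMem]
    intro hw'
    have h2 : v.asIdeal ^ Fintype.card (ClassGroup (𝓞 K)) ≤ w.asIdeal := by
      rw [hg]; exact (Submodule.span_singleton_le_iff_mem _ _).2 hw'
    have h3 : v.asIdeal ≤ w.asIdeal := w.isPrime.le_of_pow_le h2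
    exact hw (HeightOneSpectrum.ext (v.isMaximal.eq_of_le w.isPrime.ne_top h3).symm)

/-- The orders at the primes of `S`. -/
noncomputable def ordMap (S : Finset (Pr K)) : Additive (SU S) →ₗ[ℤ] (S → ℤ) :=
  AddMonoidHom.toIntLinearMap
    { toFun := fun x v => ord v.1 (((Additive.toMul x : SU S) : Kˣ) : K)
      map_zero' := by
        funext v
        simpa using ord_one v.1
      map_add' := fun x y => by
        funext v
        simpa using ord_mul v.1 (Units.ne_zero _) (Units.ne_zero _) }

theorem ord_unit (v : Pr K) (u : (𝓞 K)ˣ) : ord v (algebraMap (𝓞 K) K u) = 0 := by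
  rw [← val_eq_one_iff v (by simp), HeightOneSpectrum.valuation_eq_one_iff_notMem]
  exact fun h => v.isPrime.ne_top (Ideal.eq_top_of_isUnit_mem _ h u.isUnit)

/-- The units of the ring of integers, as `S`-units. -/
noncomputable def unitMap (S : Finset (Pr K)) : Additive (𝓞 K)ˣ →ₗ[ℤ] Additive (SU S) :=
  AddMonoidHom.toIntLinearMap (MonoidHom.toAdditive
    ((Units.map (algebraMap (𝓞 K) K).toMonoidHom).codRestrict (SU S) fun u =>
      (mem_SU S _).2 fun v _ => ord_unit v u))

theorem unitMap_apply (S : Finset (Pr K)) (u : Additive (𝓞 K)ˣ) :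
    (((Additive.toMul (unitMap S u) : SU S) : Kˣ) : K) =
      algebraMap (𝓞 K) K (Additive.toMul u : (𝓞 K)ˣ) := rfl

theorem unitMap_injective (S : Finset (Pr K)) : Function.Injective (unitMap S) := by
  intro u u' h
  have h1 := unitMap_apply S u
  rw [h, unitMap_apply] at h1
  exact Additive.toMul.injective (Units.ext (RingOfIntegers.coe_injective h1).symm)

theorem range_unitMap (S : Finset (Pr K)) :
    LinearMap.range (unitMap S) = LinearMap.ker (ordMap S) := by
  apply le_antisymm
  · rintro _ ⟨u, rfl⟩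
    funext v
    exact ord_unit v.1 _
  · intro x hx
    set y : Kˣ := ((Additive.toMul x : SU S) : Kˣ) with hy
    have h0 : ∀ v : Pr K, ord v (y : K) = 0 := fun v => by
      by_cases hv : v ∈ S
      · exact congrFun hx ⟨v, hv⟩
      · exact (mem_SU S y).1 (Additive.toMul x).2 v hv
    obtain ⟨a, ha⟩ := HeightOneSpectrum.mem_integers_of_valuation_le_one (R := 𝓞 K) K (y : K)
      fun v => ((val_eq_one_iff v y.ne_zero).2 (h0 v)).le
    obtain ⟨b, hb⟩ := HeightOneSpectrum.mem_integers_of_valuation_le_one (R := 𝓞 K) K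
      ((y : K)⁻¹) fun v => ((val_eq_one_iff v (inv_ne_zero y.ne_zero)).2 (by
        rw [ord_inv, h0, neg_zero])).le
    have hab : a * b = 1 := RingOfIntegers.coe_injective (by
      rw [map_mul, ha, hb, map_one, mul_inv_cancel₀ y.ne_zero])
    refine ⟨Additive.ofMul (Units.mkOfMulEqOne a b hab), ?_⟩
    exact Additive.toMul.injective (Subtype.ext (Units.ext ha))

theorem finrank_range_ordMap (S : Finset (Pr K)) :
    finrank ℤ (LinearMap.range (ordMap S)) = S.card := by
  classical
  apply le_antisymm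
  · simpa using (LinearMap.range (ordMap S)).finrank_le
  choose x hx0 hx1 hx2 using fun v : Pr K => exists_pure v
  let u : S → Additive (SU S) := fun v => Additive.ofMul ⟨Units.mk0 (x v) (hx0 v),
    (mem_SU S _).2 fun w hw => hx2 v w fun h => hw (h ▸ v.2)⟩
  have hu : ∀ v w : S, ordMap S (u v) w = ord w.1 (x v) := fun _ _ => rfl
  have hli : LinearIndependent ℤ fun v : S =>
      (⟨ordMap S (u v), LinearMap.mem_range_self _ _⟩ : LinearMap.range (ordMap S)) := by
    refine LinearIndependent.of_comp (LinearMap.range (ordMap S)).subtype ?_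
    refine Fintype.linearIndependent_iff.2 fun g hg w => ?_
    have h1 := congrFun hg w
    rw [Finset.sum_apply, Finset.sum_eq_single w] at h1
    · exact (mul_eq_zero.1 h1).resolve_right (hx1 w)
    · intro v _ hv
      change g v * ord w.1 (x v) = 0
      rw [hx2 v w fun h => hv (Subtype.ext h.symm), mul_zero]
    · simp
  simpa using hli.fintype_card_le_finrank

/-- The index of `n M` in a finitely generated abelian group. -/
theorem index_nsmul (M : Type) [AddCommGroup M] [Module.Finite ℤ M] {n : ℕ} (hn : n ≠ 0) :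
    (nsmulAddMonoidHom (α := M) n).range.index =
      n ^ finrank ℤ M * Nat.card (nsmulAddMonoidHom (α := M) n).ker := by
  set T : Submodule ℤ M := Submodule.torsion ℤ M with hT
  set D := (nsmulAddMonoidHom (α := M) n).range with hD
  have hfin : Finite T := Module.finite_of_fg_torsion T (Submodule.torsion_isTorsion)
  have h1 : D.map T.mkQ.toAddMonoidHom = (nsmulAddMonoidHom (α := M ⧸ T) n).range := by
    apply le_antisymm
    · rintro _ ⟨_, ⟨x, rfl⟩, rfl⟩
      exact ⟨T.mkQ x, by simp⟩
    · rintro _ ⟨y, rfl⟩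
      obtain ⟨x, rfl⟩ := T.mkQ_surjective y
      exact ⟨n • x, ⟨x, rfl⟩, by simp⟩
  have h2 : (D ⊔ T.toAddSubgroup).index = n ^ finrank ℤ M := by
    have h3 := AddSubgroup.index_map D T.mkQ.toAddMonoidHom
    rw [h1, AddSubgroup.index_range_nsmul, finrank_quotient_eq_of_le_torsion le_rfl,
      AddMonoidHom.range_eq_top.2 T.mkQ_surjective, AddSubgroup.index_top, mul_one] at h3
    rw [h3]
    congr 2
    ext x
    simp
  have h4 : D.addSubgroupOf T.toAddSubgroup =
      (nsmulAddMonoidHom (α := T.toAddSubgroup) n).range := by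
    apply le_antisymm
    · rintro ⟨t, ht⟩ ⟨x, hx⟩
      have hx' : n • x = t := hx
      obtain ⟨⟨m, hm⟩, hmt⟩ := ht
      refine ⟨⟨x, ⟨m * n, mul_mem hm (mem_nonZeroDivisors_of_ne_zero (by exact_mod_cast hn))⟩,
        ?_⟩, Subtype.ext hx'⟩
      change (m * n : ℤ) • x = 0
      rw [mul_smul, natCast_zsmul, hx']
      exact hmt
    · rintro _ ⟨x, rfl⟩
      exact ⟨x.1, rfl⟩
  have : Finite T.toAddSubgroup := hfin
  have h5 : Nat.card (nsmulAddMonoidHom (α := T.toAddSubgroup) n).ker =
      Nat.card (nsmulAddMonoidHom (α := M) n).ker := by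
    refine Nat.card_congr
      { toFun := fun x => ⟨x.1.1, congrArg Subtype.val x.2⟩
        invFun := fun x => ⟨⟨x.1, ⟨n, mem_nonZeroDivisors_of_ne_zero (by exact_mod_cast hn)⟩,
          (natCast_zsmul x.1 n).trans x.2⟩, Subtype.ext x.2⟩
        left_inv := fun _ => rfl
        right_inv := fun _ => rfl }
  rw [← AddSubgroup.relIndex_mul_index (le_sup_left : D ≤ D ⊔ T.toAddSubgroup), h2,
    AddSubgroup.relIndex_sup_left, AddSubgroup.relIndex, h4, AddSubgroup.index_range, h5, mul_comm]

end SUnitAux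

open SUnitAux

section SUnit
variable {K : Type} [Field K] [NumberField K]

theorem su_finite (S : Finset (Pr K)) : Module.Finite ℤ (Additive (SU S)) := by
  refine ⟨(⊤ : Submodule ℤ (Additive (SU S))).fg_of_fg_map_of_fg_inf_ker (ordMap S)
    (IsNoetherian.noetherian _) ?_⟩
  rw [top_inf_eq, ← range_unitMap, LinearMap.range_eq_map]
  exact Module.Finite.fg_top.map _

theorem su_finrank (S : Finset (Pr K)) :
    finrank ℤ (Additive (SU S)) = Units.rank K + S.card := by
  have := su_finite S
  rw [← Submodule.finrank_quotient_add_finrank (LinearMap.ker (ordMap S)),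
    (ordMap S).quotKerEquivRange.finrank_eq, finrank_range_ordMap, ← range_unitMap,
    LinearMap.finrank_range_of_inj (unitMap_injective S), Units.finrank_eq, add_comm]

theorem index_sq {L : Type} [Field L] [CharZero L] (A : Subgroup Lˣ)
    [Module.Finite ℤ (Additive A)] (h : -1 ∈ A) :
    (powMonoidHom 2 : A →* A).range.index = 2 ^ (finrank ℤ (Additive A) + 1) := by
  have h1 := index_nsmul (Additive A) two_ne_zero
  have h2 : Nat.card (nsmulAddMonoidHom (α := Additive A) 2).ker = 2 := by
    refine Nat.card_eq_two_iff.2 ⟨0, ⟨Additive.ofMul ⟨-1, h⟩,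
      Additive.toMul.injective (Subtype.ext (by simp))⟩, fun h0 => ?_, ?_⟩
    · have h3 : ((1 : Lˣ) : L) = ((-1 : Lˣ) : L) :=
        congrArg (fun x : Additive A => (((Additive.toMul x : A) : Lˣ) : L))
          (congrArg Subtype.val h0)
      simp only [Units.val_one, Units.val_neg] at h3
      exact two_ne_zero (α := L) (by linear_combination h3)
    · refine Set.eq_univ_of_forall fun x => ?_
      have h3 : (((Additive.toMul x.1 : A) : Lˣ) : L) ^ 2 = 1 :=
        congrArg (fun x : Additive A => (((Additive.toMul x : A) : Lˣ) : L)) x.2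
      rcases mul_self_eq_one_iff.1 ((sq _).symm.trans h3) with h4 | h4
      · exact Or.inl (Subtype.ext (Additive.toMul.injective (Subtype.ext (Units.ext h4))))
      · exact Or.inr (Subtype.ext (Additive.toMul.injective (Subtype.ext (Units.ext h4))))
  rw [h2, ← pow_succ] at h1
  rw [← h1, ← Subgroup.index_toAddSubgroup]
  rfl

end SUnit

end Pool.Agent.P.MP_9ec3f0_nt.SY
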