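import Pool.Agent.P.MP_9ec3f0_nt.SY.Defs

namespace Pool.Agent.P.MP_9ec3f0_nt.SY

open NumberField IsDedekindDomain Finset Module

namespace FrobAux

theorem ram_one_of_unrP {k L : Type} [Field k] [NumberField k] [Field L] [NumberField L]
    [Algebra k L] (w : Pr L) (h : UnrP k w) :
    (dn k w).asIdeal.ramificationIdx' w.asIdeal = 1 := by
  obtain ⟨π, hπ⟩ := h
  have hl : w.asIdeal.LiesOver (dn k w).asIdeal := ⟨rfl⟩
  have hv := HeightOneSpectrum.valuation_liesOver L (dn k w) w π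
  unfold ord at hπ
  rw [← hv, WithZero.log_pow] at hπ
  simp only [nsmul_eq_mul] at hπ
  have h1 : (((dn k w).asIdeal.ramificationIdx' w.asIdeal : ℕ) : ℤ) ∣ 1 :=
    ⟨- WithZero.log ((dn k w).valuation k π), by linarith⟩
  have h2 : ((dn k w).asIdeal.ramificationIdx' w.asIdeal : ℕ) ∣ 1 := by exact_mod_cast h1
  exact Nat.dvd_one.mp h2

theorem isUnramifiedAt_of_unrP {k L : Type} [Field k] [NumberField k] [Field L] [NumberField L]
    [Algebra k L] (w : Pr L) (h : UnrP k w) : Algebra.IsUnramifiedAt (𝓞 k) w.asIdeal := by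
  have hl : w.asIdeal.LiesOver (dn k w).asIdeal := ⟨rfl⟩
  have h1 := ram_one_of_unrP w h
  rw [Ideal.ramificationIdx'_eq_ramificationIdx _ _ (dn k w).ne_bot] at h1
  have hfin : Finite ((𝓞 k) ⧸ w.asIdeal.under (𝓞 k)) :=
    Ideal.finiteQuotientOfFreeOfNeBot _ (dn k w).ne_bot
  exact Ideal.ramificationIdx_eq_one_iff.mp h1

attribute [local instance] FractionRing.liftAlgebra in
theorem different_eq_top {k L : Type} [Field k] [NumberField k] [Field L] [NumberField L]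
    [Algebra k L] (hunr : Unr k L) : differentIdeal (𝓞 k) (𝓞 L) = ⊤ := by
  by_contra hne
  obtain ⟨P, hP, hle⟩ := Ideal.exists_le_maximal _ hne
  have hP0 : P ≠ ⊥ := Ring.ne_bot_of_isMaximal_of_not_isField hP (RingOfIntegers.not_isField L)
  let w : Pr L := ⟨P, hP.isPrime, hP0⟩
  have h := isUnramifiedAt_of_unrP w (hunr w)
  exact (not_dvd_differentIdeal_iff.mpr h) (Ideal.dvd_iff_le.mpr hle)

end FrobAux

theorem natAbs_discr_of_unr {k L : Type} [Field k] [NumberField k] [Field L] [NumberField L]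
    [Algebra k L] (hunr : Unr k L) :
    (discr L).natAbs = (discr k).natAbs ^ finrank k L := by
  rw [natAbs_discr_eq_absNorm_differentIdeal_mul_natAbs_discr_pow k (𝓞 k) L (𝓞 L),
    FrobAux.different_eq_top hunr]
  simp

namespace FrobAux

section
variable {R : Type} [CommRing R] [IsDedekindDomain R] [CharZero R] (p : ℕ) [hp : Fact p.Prime]
  (v : HeightOneSpectrum R)

omit [IsDedekindDomain R] [CharZero R] in
theorem int_mem_iff (hP : (p : R) ∈ v.asIdeal) (m : ℤ) : (m : R) ∈ v.asIdeal ↔ (p : ℤ) ∣ m := by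
  constructor
  · intro hm
    by_contra hnd
    have hpr : Prime (p : ℤ) := Nat.prime_iff_prime_int.mp hp.out
    have hco : IsCoprime (p : ℤ) m := (Prime.coprime_iff_not_dvd hpr).mpr hnd
    obtain ⟨a, b, hab⟩ := hco
    have h1 : (1 : R) ∈ v.asIdeal := by
      have : (1 : R) = (a : R) * (p : R) + (b : R) * (m : R) := by
        have := congrArg (Int.cast : ℤ → R) hab
        push_cast at this
        exact this.symm
      rw [this]
      exact v.asIdeal.add_mem (v.asIdeal.mul_mem_left _ hP) (v.asIdeal.mul_mem_left _ hm)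
    exact v.isPrime.ne_top ((Ideal.eq_top_iff_one _).mpr h1)
  · rintro ⟨c, rfl⟩
    push_cast
    exact v.asIdeal.mul_mem_right _ hP

theorem val_p (hP : (p : R) ∈ v.asIdeal) (hP2 : (p : R) ∉ v.asIdeal ^ 2) :
    v.intValuation (p : R) = WithZero.exp (-1 : ℤ) := by
  have h1 : v.intValuation (p : R) ≤ WithZero.exp (-((1 : ℕ) : ℤ)) := by
    rw [v.intValuation_le_pow_iff_mem]; simpa using hP
  have h2 : ¬ v.intValuation (p : R) ≤ WithZero.exp (-((2 : ℕ) : ℤ)) := by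
    rw [v.intValuation_le_pow_iff_mem]; exact hP2
  have h0 : v.intValuation (p : R) ≠ 0 := by
    exact v.intValuation_ne_zero _ (by exact_mod_cast hp.out.ne_zero)
  rw [← WithZero.exp_log h0] at h1 h2 ⊢
  rw [WithZero.exp_le_exp] at h1 h2
  congr 1
  push_cast at h1 h2
  omega

theorem mul_mem_pow (hP : (p : R) ∈ v.asIdeal) (hP2 : (p : R) ∉ v.asIdeal ^ 2) (n : ℕ) (y : R)
    (h : (p : R) ^ n * y ∈ v.asIdeal ^ (n + 1)) : y ∈ v.asIdeal := by
  rw [← v.intValuation_le_pow_iff_mem, map_mul, map_pow, val_p p v hP hP2] at h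
  have h' : v.intValuation y ≤ WithZero.exp (-((1 : ℕ) : ℤ)) := by
    by_cases h0 : v.intValuation y = 0
    · rw [h0]; exact zero_le
    rw [← WithZero.exp_log h0] at h ⊢
    rw [← WithZero.exp_nsmul, ← WithZero.exp_add, WithZero.exp_le_exp] at h
    rw [WithZero.exp_le_exp]
    simp only [nsmul_eq_mul] at h
    push_cast at h ⊢
    linarith
  rw [v.intValuation_le_pow_iff_mem] at h'
  simpa using h'

theorem int_mem_pow_iff (hP : (p : R) ∈ v.asIdeal) (hP2 : (p : R) ∉ v.asIdeal ^ 2) (n : ℕ)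
    (m : ℤ) : (m : R) ∈ v.asIdeal ^ n ↔ (p : ℤ) ^ n ∣ m := by
  constructor
  · intro hm
    induction n with
    | zero => simp
    | succ n ih =>
      obtain ⟨c, rfl⟩ := ih (Ideal.pow_le_pow_right (Nat.le_succ n) hm)
      push_cast at hm
      have := (int_mem_iff p v hP c).mp (mul_mem_pow p v hP hP2 n _ hm)
      rw [pow_succ]
      exact mul_dvd_mul_left _ this
  · rintro ⟨c, rfl⟩
    push_cast
    exact Ideal.mul_mem_right _ _ (Ideal.pow_mem_pow hP n)

omit [CharZero R] in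
theorem exists_int_mod (hP : (p : R) ∈ v.asIdeal) (hf : ∀ x : R, x ^ p - x ∈ v.asIdeal) (x : R) :
    ∃ m : ℤ, x - m ∈ v.asIdeal := by
  have hmax : v.asIdeal.IsMaximal := v.isMaximal
  let _ : Field (R ⧸ v.asIdeal) := Ideal.Quotient.field _
  have hc : CharP (R ⧸ v.asIdeal) p := by
    apply (CharP.charP_iff_prime_eq_zero hp.out).mpr
    rw [← map_natCast (Ideal.Quotient.mk v.asIdeal), Ideal.Quotient.eq_zero_iff_mem]
    exact hP
  have hx : (Ideal.Quotient.mk v.asIdeal x) ^ p = Ideal.Quotient.mk v.asIdeal x := by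
    rw [← map_pow, Ideal.Quotient.eq]; exact hf x
  obtain ⟨m, hm⟩ := (mem_bot_iff_intCast p _).mp
    ((Subfield.mem_bot_iff_pow_eq_self (R ⧸ v.asIdeal) p).mpr hx)
  refine ⟨m, ?_⟩
  rw [← Ideal.Quotient.eq, ← hm, map_intCast]

omit [CharZero R] hp in
theorem pow_decomp (hP : (p : R) ∈ v.asIdeal) (hP2 : (p : R) ∉ v.asIdeal ^ 2) (n : ℕ) (x : R)
    (hx : x ∈ v.asIdeal ^ n) : ∃ y : R, x - (p : R) ^ n * y ∈ v.asIdeal ^ (n + 1) := by
  obtain ⟨I, hI⟩ : v.asIdeal ∣ Ideal.span {(p : R)} :=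
    Ideal.dvd_iff_le.mpr ((Ideal.span_singleton_le_iff_mem _).mpr hP)
  have hIP : ¬ I ≤ v.asIdeal := by
    intro h
    apply hP2
    have : Ideal.span {(p : R)} ≤ v.asIdeal ^ 2 := by
      rw [hI, pow_two]; exact Ideal.mul_mono_right h
    exact this (Ideal.mem_span_singleton_self _)
  have hco : I ⊔ v.asIdeal = ⊤ := by
    by_contra hne
    have := v.isMaximal.eq_of_le hne le_sup_right
    exact hIP (this ▸ le_sup_left)
  have hco' : I ^ n ⊔ v.asIdeal = ⊤ := Ideal.pow_sup_eq_top hco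
  have heq : v.asIdeal ^ n = Ideal.span {(p : R) ^ n} ⊔ v.asIdeal ^ (n + 1) := by
    rw [← Ideal.span_singleton_pow, hI, mul_pow, pow_succ, ← Ideal.mul_sup, hco', Ideal.mul_top]
  rw [heq] at hx
  obtain ⟨a, ha, b, hb, rfl⟩ := Submodule.mem_sup.mp hx
  obtain ⟨y, rfl⟩ := Ideal.mem_span_singleton'.mp ha
  refine ⟨y, ?_⟩
  have : y * (p : R) ^ n + b - (p : R) ^ n * y = b := by ring
  rw [this]; exact hb

omit [CharZero R] in
theorem exists_int_mod_pow (hP : (p : R) ∈ v.asIdeal) (hP2 : (p : R) ∉ v.asIdeal ^ 2)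
    (hf : ∀ x : R, x ^ p - x ∈ v.asIdeal) (n : ℕ) (x : R) :
    ∃ m : ℤ, x - m ∈ v.asIdeal ^ n := by
  induction n with
  | zero => exact ⟨0, by simp⟩
  | succ n ih =>
    obtain ⟨m, hm⟩ := ih
    obtain ⟨y, hy⟩ := pow_decomp p v hP hP2 n _ hm
    obtain ⟨m', hm'⟩ := exists_int_mod p v hP hf y
    refine ⟨m + (p : ℤ) ^ n * m', ?_⟩
    have : x - ((m + (p : ℤ) ^ n * m' : ℤ) : R) =
        (x - m - (p : R) ^ n * y) + (p : R) ^ n * (y - m') := by push_cast; ring
    rw [this]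
    refine Ideal.add_mem _ hy ?_
    rw [pow_succ]
    exact Ideal.mul_mem_mul (Ideal.pow_mem_pow hP n) hm'

theorem exists_hom (hP : (p : R) ∈ v.asIdeal) (hP2 : (p : R) ∉ v.asIdeal ^ 2)
    (hf : ∀ x : R, x ^ p - x ∈ v.asIdeal) (n : ℕ) :
    ∃ f : R →+* ZMod (p ^ n), ∀ (x : R) (m : ℤ), x - m ∈ v.asIdeal ^ n → f x = m := by
  let g : ℤ →+* R ⧸ v.asIdeal ^ n := Int.castRingHom _
  have hg : Function.Surjective g := by
    intro z
    obtain ⟨x, rfl⟩ := Ideal.Quotient.mk_surjective z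
    obtain ⟨m, hm⟩ := exists_int_mod_pow p v hP hP2 hf n x
    refine ⟨m, ?_⟩
    have : g m = Ideal.Quotient.mk _ (m : R) := by simp [g]
    rw [this, eq_comm, Ideal.Quotient.eq]; exact hm
  have hker : RingHom.ker g ≤ RingHom.ker (Int.castRingHom (ZMod (p ^ n))) := by
    intro m hm
    rw [RingHom.mem_ker] at hm ⊢
    have h1 : g m = Ideal.Quotient.mk _ (m : R) := by simp [g]
    rw [h1, Ideal.Quotient.eq_zero_iff_mem, int_mem_pow_iff p v hP hP2] at hm
    simp only [eq_intCast]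
    rw [ZMod.intCast_zmod_eq_zero_iff_dvd]
    exact_mod_cast hm
  refine ⟨(g.liftOfSurjective hg ⟨_, hker⟩).comp (Ideal.Quotient.mk _), fun x m hm => ?_⟩
  have h1 : Ideal.Quotient.mk (v.asIdeal ^ n) x = g m := by
    have : g m = Ideal.Quotient.mk _ (m : R) := by simp [g]
    rw [this, Ideal.Quotient.eq]; exact hm
  rw [RingHom.comp_apply, h1, RingHom.liftOfSurjective_comp_apply]
  simp

theorem exists_padic_hom (hP : (p : R) ∈ v.asIdeal) (hP2 : (p : R) ∉ v.asIdeal ^ 2)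
    (hf : ∀ x : R, x ^ p - x ∈ v.asIdeal) :
    ∃ F : R →+* ℤ_[p], Function.Injective F := by
  choose f hfs using exists_hom p v hP hP2 hf
  have hcompat : ∀ (k1 k2 : ℕ) (hk : k1 ≤ k2),
      (ZMod.castHom (pow_dvd_pow p hk) (ZMod (p ^ k1))).comp (f k2) = f k1 := by
    intro k1 k2 hk
    ext x
    obtain ⟨m, hm⟩ := exists_int_mod_pow p v hP hP2 hf k2 x
    rw [RingHom.comp_apply, hfs k2 x m hm, hfs k1 x m (Ideal.pow_le_pow_right hk hm), map_intCast]
  refine ⟨PadicInt.lift hcompat, ?_⟩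
  rw [injective_iff_map_eq_zero]
  intro x hx
  have hmem : ∀ n, x ∈ v.asIdeal ^ n := by
    intro n
    obtain ⟨m, hm⟩ := exists_int_mod_pow p v hP hP2 hf n x
    have h1 : f n x = 0 := by
      rw [← PadicInt.lift_spec hcompat n, RingHom.comp_apply, hx, map_zero]
    rw [hfs n x m hm, ZMod.intCast_zmod_eq_zero_iff_dvd] at h1
    have h2 : (m : R) ∈ v.asIdeal ^ n :=
      (int_mem_pow_iff p v hP hP2 n m).mpr (by exact_mod_cast h1)
    simpa using Ideal.add_mem _ hm h2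
  have : x ∈ (⨅ n : ℕ, v.asIdeal ^ n) := Ideal.mem_iInf.mpr hmem
  rw [Ideal.iInf_pow_eq_bot_of_isDomain _ v.isPrime.ne_top] at this
  exact this

end

end FrobAux

theorem embed_padic (K : Type) [Field K] [NumberField K] (p : ℕ) [Fact p.Prime]
    (hp : ¬ (p : ℤ) ∣ discr K) (P : Ideal (𝓞 K)) [P.IsPrime] (hP : (p : 𝓞 K) ∈ P)
    (hf : ∀ x : 𝓞 K, x ^ p - x ∈ P) : Nonempty (K →+* ℚ_[p]) := by
  have hpp : p.Prime := Fact.out
  have hpr : Prime (p : ℤ) := Nat.prime_iff_prime_int.mp hpp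
  have hP0 : P ≠ ⊥ := by
    intro h
    rw [h, Ideal.mem_bot] at hP
    exact hpp.ne_zero (by exact_mod_cast hP)
  let v : HeightOneSpectrum (𝓞 K) := ⟨P, inferInstance, hP0⟩
  have hunr : Algebra.IsUnramifiedAt ℤ P :=
    (not_dvd_discr_iff_forall_mem K (𝓞 K) hpr).mp hp P inferInstance (by exact_mod_cast hP)
  have hl : P.LiesOver (Ideal.span {(p : ℤ)}) :=
    (Ideal.liesOver_span_iff (Ideal.IsPrime.ne_top inferInstance) hpr).mpr (by exact_mod_cast hP)
  have he : (Ideal.span {(p : ℤ)}).ramificationIdx' P = 1 := by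
    rw [Ideal.ramificationIdx'_eq_ramificationIdx _ _ (by simpa using hpp.ne_zero)]
    exact Ideal.ramificationIdx_eq_one P ℤ
  have hP2 : (p : 𝓞 K) ∉ P ^ 2 := by
    intro h
    have hle : (Ideal.span {(p : ℤ)}).map (algebraMap ℤ (𝓞 K)) ≤ P := by
      rw [Ideal.map_span, Set.image_singleton, Ideal.span_singleton_le_iff_mem]
      simpa using hP
    refine (Ideal.ramificationIdx'_ne_one_iff hle).mpr ?_ he
    rw [Ideal.map_span, Set.image_singleton, Ideal.span_singleton_le_iff_mem]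
    simpa using h
  obtain ⟨F, hF⟩ := FrobAux.exists_padic_hom p v hP hP2 hf
  have hinj : Function.Injective ((algebraMap ℤ_[p] ℚ_[p]).comp F) :=
    (FaithfulSMul.algebraMap_injective ℤ_[p] ℚ_[p]).comp hF
  exact ⟨IsFractionRing.lift (A := 𝓞 K) (K := K) hinj⟩

theorem exists_subfield (L : Type) [Field L] [NumberField L] [IsGalois ℚ L] (p : ℕ) [Fact p.Prime]
    (hp : ¬ (p : ℤ) ∣ discr L) (a j : ℕ) (hexp : ∀ g : L ≃ₐ[ℚ] L, g ^ 2 ^ a = 1)
    (hj : 2 ^ (a + j) ≤ finrank ℚ L) :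
    ∃ K : IntermediateField ℚ L, finrank ℚ K = 2 ^ j ∧ Nonempty (K →+* ℚ_[p]) := by
  have hpp : p.Prime := Fact.out
  have hpr : Prime (p : ℤ) := Nat.prime_iff_prime_int.mp hpp
  have h2 : Fact (Nat.Prime 2) := ⟨Nat.prime_two⟩
  have hmax : (Ideal.span {(p : ℤ)}).IsMaximal :=
    PrincipalIdealRing.isMaximal_of_irreducible hpr.irreducible
  obtain ⟨Q, hQ, hQl⟩ := Ideal.exists_maximal_ideal_liesOver_of_isIntegral
    (Ideal.span {(p : ℤ)}) (S := 𝓞 L)
  have hQu : Q.under ℤ = Ideal.span {(p : ℤ)} := hQl.over.symm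
  have hpQ : (p : 𝓞 L) ∈ Q := by
    have : (p : ℤ) ∈ Q.under ℤ := by rw [hQu]; exact Ideal.mem_span_singleton_self _
    simpa [Ideal.under, Ideal.mem_comap] using this
  have hQ0 : Q ≠ ⊥ := Ring.ne_bot_of_isMaximal_of_not_isField hQ (RingOfIntegers.not_isField L)
  have hfin : Finite ((𝓞 L) ⧸ Q) := Ideal.finiteQuotientOfFreeOfNeBot _ hQ0
  obtain ⟨φ, hφ⟩ := IsArithFrobAt.exists_of_isInvariant ℤ (L ≃ₐ[ℚ] L) Q
  have hcard : Nat.card (ℤ ⧸ Q.under ℤ) = p := by
    rw [hQu, Nat.card_congr (Int.quotientSpanNatEquivZMod p).toEquiv, Nat.card_zmod]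
  have hG : IsPGroup 2 (L ≃ₐ[ℚ] L) := fun g => ⟨a, hexp g⟩
  obtain ⟨N, hN⟩ := IsPGroup.iff_card.mp hG
  have hNL : finrank ℚ L = 2 ^ N := by rw [← hN, IsGalois.card_aut_eq_finrank]
  have haN : a + j ≤ N := by
    rw [hNL] at hj
    exact (Nat.pow_le_pow_iff_right (by norm_num)).mp hj
  obtain ⟨b, hb, hb'⟩ := (Nat.dvd_prime_pow Nat.prime_two).mp (orderOf_dvd_of_pow_eq_one (hexp φ))
  obtain ⟨H, hH, hφH⟩ := Sylow.exists_subgroup_card_pow_prime_le 2 (n := b) (m := N - j)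
    (by rw [hN]; exact pow_dvd_pow 2 (Nat.sub_le _ _)) (Subgroup.zpowers φ)
    (by rw [Nat.card_zpowers, hb']) (by omega)
  have hφH' : φ ∈ H := hφH (Subgroup.mem_zpowers φ)
  let K := IntermediateField.fixedField H
  have hKL : finrank K L = 2 ^ (N - j) := by
    rw [← hH]; exact IntermediateField.finrank_fixedField_eq_card H
  have hK : finrank ℚ K = 2 ^ j := by
    have h1 := Module.finrank_mul_finrank ℚ K L
    rw [hKL, hNL] at h1
    have h3 : 2 ^ N = 2 ^ j * 2 ^ (N - j) := by rw [← pow_add]; congr 1; omega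
    rw [h3] at h1
    exact Nat.eq_of_mul_eq_mul_right (by positivity) h1
  refine ⟨K, hK, ?_⟩
  have hpK : ¬ (p : ℤ) ∣ discr K := fun h => hp (h.trans (discr_dvd_discr K L))
  refine embed_padic K p hpK (Q.under (𝓞 K)) ?_ ?_
  · simpa [Ideal.under, Ideal.mem_comap] using hpQ
  · intro x
    have h1 := hφ (algebraMap (𝓞 K) (𝓞 L) x)
    rw [hcard] at h1
    have h3 : φ • (algebraMap (𝓞 K) (𝓞 L) x) = algebraMap (𝓞 K) (𝓞 L) x := by
      apply RingOfIntegers.ext
      have h4 : φ ((x : K) : L) = ((x : K) : L) := (x : K).2 ⟨φ, hφH'⟩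
      exact h4
    rw [MulSemiringAction.toAlgHom_apply, h3] at h1
    rw [Ideal.under, Ideal.mem_comap, map_sub, map_pow]
    simpa using Q.neg_mem h1

end Pool.Agent.P.MP_9ec3f0_nt.SY
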