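import Pool.Agent.P.MP_9ec3f0_nt.SY.Val

namespace Pool.Agent.P.MP_9ec3f0_nt.SY

open NumberField IsDedekindDomain Finset Module

namespace LocalIndexAux

open WithZero

variable {K : Type} [Field K] [NumberField K]

/-- The subgroup of elements split at `v`. -/
def Hv (v : Pr K) : Subgroup Kˣ where
  carrier := {x | SplitAt v (x : K)}
  mul_mem' := by
    intro a b ha hb
    simpa using SplitAt.mul ha hb
  one_mem' := by
    have := splitAt_sq v (one_ne_zero : (1 : K) ≠ 0)
    simpa using this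
  inv_mem' := by
    intro a ha
    simpa using SplitAt.inv ha

theorem mem_Hv (v : Pr K) (x : Kˣ) : x ∈ Hv v ↔ SplitAt v (x : K) := Iff.rfl

theorem finite_quot (v : Pr K) (n : ℕ) : Finite (𝓞 K ⧸ v.asIdeal ^ n) := by
  rw [← Ideal.absNorm_ne_zero_iff, Ne, Ideal.absNorm_eq_zero_iff]
  exact pow_ne_zero n v.ne_bot

theorem norm_pos (v : Pr K) : 0 < Ideal.absNorm v.asIdeal := by
  rw [Nat.pos_iff_ne_zero, Ne, Ideal.absNorm_eq_zero_iff]
  exact v.ne_bot

theorem card_map (v : Pr K) (e : ℕ) :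
    Nat.card ((v.asIdeal ^ (e + 1)).map (Ideal.Quotient.mk (v.asIdeal ^ (2 * e + 1)))) =
      Ideal.absNorm v.asIdeal ^ e := by
  have hle : v.asIdeal ^ (2 * e + 1) ≤ v.asIdeal ^ (e + 1) := Ideal.pow_le_pow_right (by omega)
  have h1 := Submodule.card_eq_card_quotient_mul_card
    ((v.asIdeal ^ (e + 1)).map (Ideal.Quotient.mk (v.asIdeal ^ (2 * e + 1))))
  have h2 := Nat.card_congr (DoubleQuot.quotQuotEquivQuotOfLE hle).toEquiv
  have h3 : ∀ n : ℕ, Nat.card (𝓞 K ⧸ v.asIdeal ^ n) = Ideal.absNorm v.asIdeal ^ n := by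
    intro n
    rw [← map_pow, Ideal.absNorm_apply, Submodule.cardQuot_apply]
  rw [h2, h3, h3] at h1
  have hp := norm_pos v
  have h4 : Ideal.absNorm v.asIdeal ^ (2 * e + 1) =
      Ideal.absNorm v.asIdeal ^ e * Ideal.absNorm v.asIdeal ^ (e + 1) := by
    rw [← pow_add]; congr 1; omega
  rw [h4] at h1
  exact (Nat.eq_of_mul_eq_mul_right (pow_pos hp _) h1).symm

theorem mem_or (v : Pr K) (e : ℕ) (a b : 𝓞 K) (h : a * b ∈ v.asIdeal ^ (2 * e + 1)) :
    a ∈ v.asIdeal ^ (e + 1) ∨ b ∈ v.asIdeal ^ (e + 1) := by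
  by_contra hc
  push Not at hc
  obtain ⟨ha, hb⟩ := hc
  rw [← v.intValuation_le_pow_iff_mem] at h ha hb
  have ha0 : v.intValuation a ≠ 0 := by
    intro h0; rw [h0] at ha; exact ha zero_le
  have hb0 : v.intValuation b ≠ 0 := by
    intro h0; rw [h0] at hb; exact hb zero_le
  rw [map_mul] at h
  rw [← exp_log ha0] at ha h
  rw [← exp_log hb0] at hb h
  rw [← exp_add, exp_le_exp] at h
  rw [exp_le_exp] at ha hb
  push_cast at h ha hb
  omega

theorem card_ker (v : Pr K) (e : ℕ) :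
    Nat.card (powMonoidHom 2 : (𝓞 K ⧸ v.asIdeal ^ (2 * e + 1))ˣ →*
      (𝓞 K ⧸ v.asIdeal ^ (2 * e + 1))ˣ).ker ≤ 2 * Ideal.absNorm v.asIdeal ^ e := by
  classical
  have := finite_quot v (2 * e + 1)
  set R := 𝓞 K ⧸ v.asIdeal ^ (2 * e + 1)
  set J : Ideal R := (v.asIdeal ^ (e + 1)).map (Ideal.Quotient.mk (v.asIdeal ^ (2 * e + 1)))
  have key : ∀ y : (powMonoidHom 2 : Rˣ →* Rˣ).ker,
      ((y : Rˣ) : R) - 1 ∈ J ∨ ((y : Rˣ) : R) + 1 ∈ J := by
    intro y
    have hy : ((y : Rˣ) : R) ^ 2 = 1 := by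
      have := y.2
      rw [MonoidHom.mem_ker, powMonoidHom_apply] at this
      rw [← Units.val_pow_eq_pow_val, this, Units.val_one]
    obtain ⟨a, ha⟩ := Ideal.Quotient.mk_surjective ((y : Rˣ) : R)
    have hm : (a - 1) * (a + 1) ∈ v.asIdeal ^ (2 * e + 1) := by
      rw [← Ideal.Quotient.eq_zero_iff_mem, map_mul, map_sub, map_add, map_one, ha]
      linear_combination hy
    rcases mem_or v e _ _ hm with h | h
    · left
      have := Ideal.mem_map_of_mem (Ideal.Quotient.mk (v.asIdeal ^ (2 * e + 1))) h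
      rwa [map_sub, map_one, ha] at this
    · right
      have := Ideal.mem_map_of_mem (Ideal.Quotient.mk (v.asIdeal ^ (2 * e + 1))) h
      rwa [map_add, map_one, ha] at this
  let f : (powMonoidHom 2 : Rˣ →* Rˣ).ker → J ⊕ J := fun y =>
    if h : ((y : Rˣ) : R) - 1 ∈ J then Sum.inl ⟨_, h⟩ else Sum.inr ⟨_, (key y).resolve_left h⟩
  have hf : Function.Injective f := by
    intro y z hyz
    simp only [f] at hyz
    apply Subtype.ext
    apply Units.ext
    split_ifs at hyz with h1 h2 h2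
    · have := congrArg Subtype.val (Sum.inl_injective hyz)
      simpa using this
    · have := congrArg Subtype.val (Sum.inr_injective hyz)
      simpa using this
  have := Nat.card_le_card_of_injective f hf
  rw [Nat.card_sum, card_map] at this
  exact this.trans (le_of_eq (two_mul _).symm)

theorem exists_e (v : Pr K) : ∃ e : ℕ, v.intValuation (2 : 𝓞 K) = exp (-(e : ℤ)) :=
  ⟨_, v.intValuation_if_neg two_ne_zero⟩

theorem index_Hv (v : Pr K) (e : ℕ) (he : v.intValuation (2 : 𝓞 K) = exp (-(e : ℤ))) :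
    (Hv v).index ≠ 0 ∧ (Hv v).index ≤ 4 * Ideal.absNorm v.asIdeal ^ e := by
  classical
  have := finite_quot v (2 * e + 1)
  have : v.asIdeal.IsMaximal := v.isMaximal
  have hk := card_ker v e
  set R := 𝓞 K ⧸ v.asIdeal ^ (2 * e + 1)
  set sq : Rˣ →* Rˣ := powMonoidHom 2 with hsq
  have hidx : Nat.card (Rˣ ⧸ sq.range) = Nat.card sq.ker := Subgroup.index_range
  obtain ⟨π, hπ⟩ := v.valuation_exists_uniformizer K
  have hπ0 : π ≠ 0 := by
    intro h; rw [h, map_zero] at hπ; exact exp_ne_zero hπ.symm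
  have h2K : v.valuation K (2 : K) = exp (-(e : ℤ)) := by
    rw [← he, ← v.valuation_of_algebraMap (K := K)]
    rfl
  have hlift : ∀ y : Rˣ, ∃ z : 𝓞 K, Ideal.Quotient.mk (v.asIdeal ^ (2 * e + 1)) z = (y : R) ∧
      v.valuation K (z : K) = 1 := by
    intro y
    obtain ⟨z, hz⟩ := Ideal.Quotient.mk_surjective (y : R)
    refine ⟨z, hz, ?_⟩
    have hu : IsUnit (Ideal.Quotient.mk (v.asIdeal ^ (2 * e + 1)) z) := hz ▸ y.isUnit
    rw [Ideal.Quotient.isUnit_mk_pow_iff_notMem _ (by omega)] at hu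
    have := (v.intValuation_eq_one_iff_mem_primeCompl z).2 hu
    rw [← this, ← v.valuation_of_algebraMap (K := K)]
  choose z hz hzv using hlift
  have hz0 : ∀ y, (z y : K) ≠ 0 := by
    intro y h
    have := hzv y
    rw [h, map_zero] at this
    exact zero_ne_one this
  let φ : Fin 2 × (Rˣ ⧸ sq.range) → Kˣ ⧸ Hv v := fun p =>
    QuotientGroup.mk (Units.mk0 (π ^ (p.1 : ℕ) * (z p.2.out : K))
      (mul_ne_zero (pow_ne_zero _ hπ0) (hz0 _)))
  have hφ : Function.Surjective φ := by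
    intro c
    obtain ⟨x, rfl⟩ := QuotientGroup.mk_surjective c
    have hx0 : v.valuation K (x : K) ≠ 0 := (Valuation.ne_zero_iff _).2 x.ne_zero
    obtain ⟨m, hm⟩ : ∃ m : ℤ, v.valuation K (x : K) = exp (-m) :=
      ⟨-log (v.valuation K (x : K)), by rw [neg_neg, exp_log hx0]⟩
    obtain ⟨k, b, hb⟩ : ∃ (k : ℤ) (b : Fin 2), m = 2 * k + (b : ℕ) := by
      rcases Int.emod_two_eq_zero_or_one m with h | h
      · exact ⟨m / 2, 0, by simp; omega⟩
      · exact ⟨m / 2, 1, by simp; omega⟩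
    set x' : K := (x : K) / π ^ m with hx'
    have hx'v : v.valuation K x' = 1 := by
      rw [hx', map_div₀, map_zpow₀, hπ, hm, ← exp_zsmul]
      simp
    obtain ⟨a, ha⟩ := v.exists_valuation_sub_lt_of_integer hx'v.le
      (Units.mk0 (exp (-((2 * e + 1 : ℕ) : ℤ))) exp_ne_zero)
    rw [Units.val_mk0] at ha
    have hlt1 : exp (-((2 * e + 1 : ℕ) : ℤ)) < (1 : ℤᵐ⁰) := by
      rw [← exp_zero, exp_lt_exp]; push_cast; omega
    have hav : v.valuation K (algebraMap (𝓞 K) K a) = 1 := by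
      have h1 : algebraMap (𝓞 K) K a = x' + (algebraMap (𝓞 K) K a - x') := by ring
      rw [h1, Valuation.map_add_eq_of_lt_left _ (by rw [hx'v]; exact ha.trans hlt1), hx'v]
    have hau : IsUnit (Ideal.Quotient.mk (v.asIdeal ^ (2 * e + 1)) a) := by
      rw [Ideal.Quotient.isUnit_mk_pow_iff_notMem _ (by omega)]
      apply (v.intValuation_eq_one_iff_mem_primeCompl a).1
      rw [← hav, ← v.valuation_of_algebraMap (K := K)]
    set q : Rˣ ⧸ sq.range := QuotientGroup.mk hau.unit with hq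
    obtain ⟨s, hs⟩ : ∃ s : Rˣ, hau.unit = q.out * s ^ 2 := by
      have h1 : (QuotientGroup.mk q.out : Rˣ ⧸ sq.range) = QuotientGroup.mk hau.unit := by
        rw [QuotientGroup.out_eq']
      rw [QuotientGroup.eq] at h1
      obtain ⟨s, hs⟩ := h1
      refine ⟨s, ?_⟩
      have hs' : s ^ 2 = q.out⁻¹ * hau.unit := hs
      rw [hs']; group
    have hmem : a - z q.out * z s ^ 2 ∈ v.asIdeal ^ (2 * e + 1) := by
      rw [← Ideal.Quotient.eq_zero_iff_mem, map_sub, map_mul, map_pow, hz, hz, sub_eq_zero]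
      have := congrArg Units.val hs
      simpa using this
    have hmv : v.valuation K (algebraMap (𝓞 K) K a - (z q.out : K) * (z s : K) ^ 2) ≤
        exp (-((2 * e + 1 : ℕ) : ℤ)) := by
      rw [← v.intValuation_le_pow_iff_mem, ← v.valuation_of_algebraMap (K := K)] at hmem
      simpa using hmem
    have hdiff : v.valuation K (x' - (z q.out : K) * (z s : K) ^ 2) ≤
        exp (-((2 * e + 1 : ℕ) : ℤ)) := by
      have h1 : x' - (z q.out : K) * (z s : K) ^ 2 =
          (algebraMap (𝓞 K) K a - (z q.out : K) * (z s : K) ^ 2) -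
            (algebraMap (𝓞 K) K a - x') := by ring
      rw [h1]
      exact (Valuation.map_sub _ _ _).trans (max_le hmv ha.le)
    refine ⟨(b, q), ?_⟩
    simp only [φ]
    rw [QuotientGroup.eq, mem_Hv]
    have hzq := hz0 q.out
    have hzs := hz0 s
    refine ⟨π ^ k * (z s : K),
      (x' - (z q.out : K) * (z s : K) ^ 2) / (4 * ((z q.out : K) * (z s : K) ^ 2)),
      mul_ne_zero (zpow_ne_zero _ hπ0) hzs, ?_, ?_⟩
    · have hx : (x : K) = x' * ((π ^ k) ^ 2 * π ^ (b : ℕ)) := by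
        rw [hx', hb, zpow_add₀ hπ0, zpow_natCast, mul_comm (2 : ℤ) k, zpow_mul]
        have : (π ^ k) ^ (2 : ℤ) = (π ^ k) ^ 2 := by norm_cast
        rw [this]
        field_simp
      simp only [Units.val_mul, Units.val_inv_eq_inv_val, Units.val_mk0]
      rw [hx]
      field_simp
      ring
    · have h4 : v.valuation K (4 * ((z q.out : K) * (z s : K) ^ 2)) = exp (-((2 * e : ℕ) : ℤ)) := by
        have : (4 : K) = 2 * 2 := by norm_num
        rw [this, map_mul, map_mul, map_mul, map_pow, hzv, hzv, h2K, ← exp_add]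
        simp only [one_pow, mul_one]
        congr 1
        push_cast; ring
      rw [map_div₀, h4, div_lt_one₀ (by exact zero_lt_iff.2 exp_ne_zero)]
      refine hdiff.trans_lt ?_
      rw [exp_lt_exp]; push_cast; omega
  have : Finite (Kˣ ⧸ Hv v) := Finite.of_surjective φ hφ
  refine ⟨Subgroup.index_ne_zero_of_finite, ?_⟩
  have := Nat.card_le_card_of_surjective φ hφ
  rw [Nat.card_prod, hidx, Nat.card_fin] at this
  change Nat.card (Kˣ ⧸ Hv v) ≤ _
  refine this.trans ((Nat.mul_le_mul_left 2 hk).trans (le_of_eq ?_))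
  ring

end LocalIndexAux

open LocalIndexAux in
theorem local_index {K : Type} [Field K] [NumberField K] (S : Finset (Pr K)) :
    ∃ H : Subgroup Kˣ, (∀ x : Kˣ, x ∈ H ↔ ∀ v ∈ S, SplitAt v (x : K)) ∧ H.index ≠ 0 ∧
      H.index ≤ 4 ^ S.card * 2 ^ finrank ℚ K := by
  classical
  choose e he using fun v : Pr K => exists_e v
  refine ⟨⨅ v : S, Hv v.1, ?_, ?_, ?_⟩
  · intro x
    simp [Subgroup.mem_iInf, mem_Hv]
  · exact Subgroup.index_iInf_ne_zero fun v => (index_Hv v.1 _ (he v.1)).1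
  · refine (Subgroup.index_iInf_le _).trans ?_
    refine (Finset.prod_le_prod' fun v _ => (index_Hv v.1 _ (he v.1)).2).trans ?_
    rw [Finset.prod_coe_sort S (fun v => 4 * Ideal.absNorm v.asIdeal ^ e v),
      Finset.prod_mul_distrib, Finset.prod_const]
    refine Nat.mul_le_mul_left _ ?_
    have hd : ∏ v ∈ S, v.asIdeal ^ e v ∣ Ideal.span {((2 : ℕ) : 𝓞 K)} := by
      refine Finset.prod_dvd_of_coprime ?_ ?_
      · intro v _ w _ hvw
        exact HeightOneSpectrum.isCoprime_pow_of_ne v w hvw _ _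
      · intro v _
        rw [← v.intValuation_le_pow_iff_dvd]
        exact (he v).le
    have := map_dvd Ideal.absNorm hd
    rw [Ideal.absNorm_span_natCast, RingOfIntegers.rank, map_prod] at this
    simp only [map_pow] at this
    exact Nat.le_of_dvd (by positivity) this

end Pool.Agent.P.MP_9ec3f0_nt.SY
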