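import Pool.Agent.P.MP_9ec3f0_nt.SY.Inert
import Pool.Agent.P.MP_9ec3f0_nt.SY.LocalIndex

namespace Pool.Agent.P.MP_9ec3f0_nt.SY

open NumberField IsDedekindDomain Finset Module

namespace HasseAux

section Group

variable {G : Type} [CommGroup G] {A B : Subgroup G}

lemma rel_dvd_two (h : ∀ x ∈ B, ∀ y ∈ B, x ∉ A → y ∉ A → x * y ∈ A) : A.relIndex B ∣ 2 := by
  rw [Subgroup.relIndex_dvd_two_iff]
  by_cases e : ∃ x ∈ B, x ∉ A
  · obtain ⟨x, hx, hx'⟩ := e
    refine ⟨x, hx, fun y hy => ?_⟩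
    by_cases e' : y ∈ A
    exacts [Or.inr e', Or.inl (h y hy x hx e' hx')]
  · refine ⟨1, B.one_mem, fun y hy => Or.inr ?_⟩
    by_contra e'
    exact e ⟨y, hy, e'⟩

lemma rel_le_two (h : ∀ x ∈ B, ∀ y ∈ B, x ∉ A → y ∉ A → x * y ∈ A) : A.relIndex B ≤ 2 :=
  Nat.le_of_dvd two_pos (rel_dvd_two h)

lemma rel_eq_two (h : ∀ x ∈ B, ∀ y ∈ B, x ∉ A → y ∉ A → x * y ∈ A) {x : G} (hx : x ∈ B)
    (hx' : x ∉ A) : A.relIndex B = 2 :=
  ((Nat.dvd_prime Nat.prime_two).1 (rel_dvd_two h)).resolve_left fun e =>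
    hx' (Subgroup.relIndex_eq_one.1 e hx)

lemma exists_reps (h : A.relIndex B ≠ 0) : ∃ X : Finset G, X.card = A.relIndex B ∧
    (∀ x ∈ X, x ∈ B) ∧ ∀ x ∈ X, ∀ y ∈ X, x ≠ y → x / y ∉ A := by
  classical
  have : Finite (B ⧸ A.subgroupOf B) := Subgroup.index_ne_zero_iff_finite.1 h
  let _ : Fintype (B ⧸ A.subgroupOf B) := Fintype.ofFinite _
  let f : B ⧸ A.subgroupOf B → G := fun q => (q.out : B)
  have hf : Function.Injective f := fun q q' e => Quotient.out_injective (Subtype.ext e)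
  refine ⟨Finset.univ.image f, ?_, ?_, ?_⟩
  · rw [Finset.card_image_of_injective _ hf, Finset.card_univ, ← Nat.card_eq_fintype_card]
    rfl
  · intro x hx
    obtain ⟨q, -, rfl⟩ := Finset.mem_image.1 hx
    exact (q.out : B).2
  · intro x hx y hy hne hm
    obtain ⟨q, -, rfl⟩ := Finset.mem_image.1 hx
    obtain ⟨q', -, rfl⟩ := Finset.mem_image.1 hy
    apply hne
    have : (q'.out : B)⁻¹ * q.out ∈ A.subgroupOf B := by
      rw [Subgroup.mem_subgroupOf]
      simpa [f, div_eq_mul_inv, mul_comm] using hm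
    have h2 := QuotientGroup.eq.2 this
    rw [QuotientGroup.out_eq', QuotientGroup.out_eq'] at h2
    rw [h2]

end Group

section Field

variable {K : Type} [Field K] [NumberField K]

/-- Elements that are split at all primes of `T`. -/
def HT (T : Finset (Pr K)) : Subgroup Kˣ where
  carrier := {x | ∀ v ∈ T, SplitAt v (x : K)}
  one_mem' := fun v _ => by simpa using splitAt_sq v (one_ne_zero (α := K))
  mul_mem' := fun {x y} hx hy v hv => by simpa using (hx v hv).mul (hy v hv)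
  inv_mem' := fun {x} hx v hv => by simpa using (hx v hv).inv

lemma mem_HT {T : Finset (Pr K)} {x : Kˣ} : x ∈ HT T ↔ ∀ v ∈ T, SplitAt v (x : K) := Iff.rfl

lemma HT_insert [DecidableEq (Pr K)] (v : Pr K) (T : Finset (Pr K)) :
    HT (insert v T) = HT {v} ⊓ HT T := by
  ext x
  simp [mem_HT]

/-- Elements of even order at all primes of `T`. -/
def Ev (T : Finset (Pr K)) : Subgroup Kˣ where
  carrier := {x | ∀ v ∈ T, Even (ord v (x : K))}
  one_mem' := fun v _ => by simp [ord_one]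
  mul_mem' := fun {x y} hx hy v hv => by
    rw [Units.val_mul, ord_mul v x.ne_zero y.ne_zero]
    exact (hx v hv).add (hy v hv)
  inv_mem' := fun {x} hx v hv => by
    rw [Units.val_inv_eq_inv_val, ord_inv]
    exact (hx v hv).neg

lemma mem_Ev {T : Finset (Pr K)} {x : Kˣ} : x ∈ Ev T ↔ ∀ v ∈ T, Even (ord v (x : K)) := Iff.rfl

lemma index_Ev (T : Finset (Pr K)) : (Ev T).index = 2 ^ T.card := by
  classical
  induction T using Finset.induction_on with
  | empty =>
    rw [Finset.card_empty, pow_zero, Subgroup.index_eq_one, eq_top_iff]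
    intro x _ v hv
    simp at hv
  | insert v T hv ih =>
    have e : Ev (insert v T) = Ev {v} ⊓ Ev T := by
      ext x
      simp [mem_Ev]
    obtain ⟨x, hx, hx'⟩ := exists_ord_eq (insert v T) (fun u => if u = v then 1 else 0)
    have h2 : (Ev {v}).relIndex (Ev T) = 2 := by
      refine rel_eq_two (x := Units.mk0 x hx) (fun y _ z _ hy hz => ?_) (fun u hu => ?_) ?_
      · simp only [mem_Ev, Finset.mem_singleton, forall_eq, Int.not_even_iff_odd] at hy hz ⊢
        rw [Units.val_mul, ord_mul v y.ne_zero z.ne_zero]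
        exact hy.add_odd hz
      · have hne : u ≠ v := fun e => hv (e ▸ hu)
        rw [Units.val_mk0, hx' u (Finset.mem_insert_of_mem hu), if_neg hne]
        exact Even.zero
      · simp only [mem_Ev, Finset.mem_singleton, forall_eq, Units.val_mk0]
        rw [hx' v (Finset.mem_insert_self _ _), if_pos rfl]
        exact Int.not_even_one
    rw [e, ← Subgroup.relIndex_mul_index (inf_le_right : Ev {v} ⊓ Ev T ≤ Ev T),
      Subgroup.inf_relIndex_right, h2, ih, Finset.card_insert_of_notMem hv, pow_succ']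

variable (K) in
/-- The squares. -/
def Sq : Subgroup Kˣ := (powMonoidHom 2 : Kˣ →* Kˣ).range

omit [NumberField K] in
lemma mem_Sq {x : Kˣ} : x ∈ Sq K ↔ IsSquare (x : K) := by
  constructor
  · rintro ⟨y, rfl⟩
    exact ⟨y, by simp [sq]⟩
  · rintro ⟨y, hy⟩
    have : y ≠ 0 := by
      rintro rfl
      exact x.ne_zero (by simpa using hy)
    exact ⟨Units.mk0 y this, Units.ext (by simp [hy, sq])⟩

lemma relIndex_Sq (S : Finset (Pr K)) :
    (Sq K).relIndex (SU S) = 2 ^ (Units.rank K + S.card + 1) := by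
  have := su_finite S
  have h1 : (-1 : Kˣ) ∈ SU S := (mem_SU S _).2 fun v _ => by simp [ord_neg, ord_one]
  rw [← su_finrank, ← index_sq (SU S) h1, Subgroup.relIndex]
  congr 1
  ext x
  rw [Subgroup.mem_subgroupOf]
  constructor
  · rintro ⟨y, hy⟩
    refine ⟨⟨y, (mem_SU S y).2 fun v hv => ?_⟩, Subtype.ext hy⟩
    have h2 := (mem_SU S _).1 x.2 v hv
    rw [← hy, powMonoidHom_apply, Units.val_pow_eq_pow_val, ord_pow] at h2
    omega
  · rintro ⟨y, hy⟩
    exact ⟨y, congrArg Subtype.val hy⟩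

lemma val_SU {S : Finset (Pr K)} {x : Kˣ} (hx : x ∈ SU S) {v : Pr K} (hv : v ∉ S) :
    v.valuation K (x : K) = 1 := (val_eq_one_iff v x.ne_zero).2 ((mem_SU S x).1 hx v hv)

lemma two_step {S : Finset (Pr K)} {v : Pr K} (hv : v ∉ S) (h2 : v.valuation K 2 = 1)
    {B : Subgroup Kˣ} (hB : B ≤ SU S) :
    ∀ x ∈ B, ∀ y ∈ B, x ∉ HT {v} → y ∉ HT {v} → x * y ∈ HT {v} := by
  intro x hx y hy hx' hy'
  simp only [mem_HT, Finset.mem_singleton, forall_eq] at hx' hy' ⊢
  exact splitAt_mul_of_not h2 (val_SU (hB hx) hv) (val_SU (hB hy) hv) hx' hy'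

lemma relIndex_HT_le {S : Finset (Pr K)} (h2 : ∀ v, v ∉ S → v.valuation K 2 = 1)
    (T : Finset (Pr K)) (hT : ∀ v ∈ T, v ∉ S) : (HT T).relIndex (SU S) ≤ 2 ^ T.card := by
  classical
  induction T using Finset.induction_on with
  | empty =>
    rw [Finset.card_empty, pow_zero]
    exact (Subgroup.relIndex_eq_one.2 fun x _ v hv => by simp at hv).le
  | insert v T hv ih =>
    have hvS := hT v (Finset.mem_insert_self _ _)
    rw [HT_insert, Finset.card_insert_of_notMem hv, pow_succ']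
    exact Subgroup.relIndex_inf_le.trans (Nat.mul_le_mul
      (rel_le_two (two_step hvS (h2 v hvS) le_rfl))
      (ih fun u hu => hT u (Finset.mem_insert_of_mem hu)))

end Field

variable {F M : Type} [Field F] [NumberField F] [Field M] [NumberField M] [Algebra F M]

lemma fixed_card (Q : Quad F M) (R : Finset (Pr F)) :
    ∃ P : Finset (Pr M), P.card ≤ R.card ∧ ∀ w, dn F w ∈ R → Fixes Q.σ w → w ∈ P := by
  classical
  refine ⟨(finite_above M R).toFinset.filter (Fixes Q.σ), ?_, fun w h1 h2 => by simp [h1, h2]⟩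
  refine Finset.card_le_card_of_injOn (dn F) (fun w hw => ?_) (fun w hw w' _ e => ?_)
  · simp only [Finset.coe_filter, Set.Finite.mem_toFinset, Set.mem_setOf_eq] at hw
    exact hw.1
  · simp only [Finset.coe_filter, Set.Finite.mem_toFinset, Set.mem_setOf_eq] at hw
    rcases Q.eq_or_cj e with e' | e'
    · exact e'.symm
    · rw [e', hw.2]

/-- The norms. -/
def Nm (Q : Quad F M) : Subgroup Fˣ where
  carrier := {x | ∃ z : M, z * Q.σ z = algebraMap F M x}
  one_mem' := ⟨1, by simp⟩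
  mul_mem' := by
    rintro x y ⟨z, hz⟩ ⟨t, ht⟩
    exact ⟨z * t, by rw [Units.val_mul, map_mul, map_mul, ← hz, ← ht]; ring⟩
  inv_mem' := by
    rintro x ⟨z, hz⟩
    exact ⟨z⁻¹, by rw [Units.val_inv_eq_inv_val, map_inv₀, map_inv₀, ← hz, mul_inv]⟩

/-- `lemmaA` in terms of indices. -/
lemma lemmaA' [IsTotallyComplex F] (Q : Quad F M) (S : Finset (Pr F)) (hS : ClassGen S)
    (hunr : ∀ w : Pr M, dn F w ∉ S → UnrP F w) (R : Finset (Pr F))
    (hR : ∀ w : Pr M, dn F w ∈ S → Fixes Q.σ w → dn F w ∈ R) {A B : Subgroup Fˣ}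
    (hB : B ≤ SU S) (hA : ∀ x ∈ B, x ∈ Nm Q → x ∈ A) (h0 : A.relIndex B ≠ 0) :
    2 * A.relIndex B ≤ 2 ^ R.card := by
  classical
  obtain ⟨P, p1, p2⟩ := fixed_card Q R
  obtain ⟨X, x1, x2, x3⟩ := exists_reps h0
  have := lemmaA Q S hS hunr P (fun w h1 h2 => p2 w (hR w h1 h2) h2) (X.image Units.val)
    (fun x hx => by
      obtain ⟨y, hy, rfl⟩ := Finset.mem_image.1 hx
      exact ⟨y.ne_zero, (mem_SU S y).1 (hB (x2 y hy))⟩)
    (fun x hx y hy hne hz => by
      obtain ⟨x, hx', rfl⟩ := Finset.mem_image.1 hx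
      obtain ⟨y, hy', rfl⟩ := Finset.mem_image.1 hy
      refine x3 x hx' y hy' (fun e => hne (by rw [e])) (hA _ (B.div_mem (x2 x hx') (x2 y hy')) ?_)
      obtain ⟨z, hz⟩ := hz
      exact ⟨z, by rw [hz, Units.val_div_eq_div_val]⟩)
  rw [Finset.card_image_of_injective _ Units.val_injective, x1] at this
  exact this.trans (Nat.pow_le_pow_right two_pos p1)

/-- Elements that become squares in `M`. -/
def Wq (Q : Quad F M) : Subgroup Fˣ where
  carrier := {x | IsSquare (algebraMap F M x)}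
  one_mem' := by simp
  mul_mem' := fun {x y} hx hy => by
    have := IsSquare.mul hx hy
    simpa using this
  inv_mem' := fun {x} hx => by
    have := IsSquare.inv hx
    simpa using this

lemma exists_T [IsTotallyComplex F] (Q : Quad F M) (S : Finset (Pr F))
    (h2 : ∀ v, v ∉ S → v.valuation F 2 = 1) (ha : ∀ v, v ∉ S → v.valuation F Q.a = 1)
    (i : ℕ) (hi : i ≤ Units.rank F + S.card) :
    ∃ T : Finset (Pr F), T.card = i ∧ (∀ v ∈ T, v ∉ S ∧ SplitAt v Q.a) ∧
      (HT T).relIndex (SU S) = 2 ^ i := by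
  classical
  have : IsTotallyComplex M := isTotallyComplex_of_algebra F M
  induction i with
  | zero =>
    exact ⟨∅, rfl, by simp, Subgroup.relIndex_eq_one.2 fun x _ v hv => by simp at hv⟩
  | succ i ih =>
    obtain ⟨T, t1, t2, t3⟩ := ih (by omega)
    have hex : ∃ u ∈ HT T ⊓ SU S, u ∉ Wq Q := by
      by_contra hc
      have hle : HT T ⊓ SU S ≤ Wq Q := fun u hu => by
        by_contra h
        exact hc ⟨u, hu, h⟩
      have e1 := Subgroup.relIndex_le_of_le_left (L := SU S) hle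
        (by rw [Subgroup.inf_relIndex_right, t3]; positivity)
      rw [Subgroup.inf_relIndex_right, t3] at e1
      have e2 : Sq F ≤ Wq Q := fun x hx => (Q.isSquare_iff x).2 (Or.inl (mem_Sq.1 hx))
      have e3 := Subgroup.relIndex_inf_mul_relIndex (Sq F) (Wq Q) (SU S)
      rw [inf_eq_left.2 e2, relIndex_Sq] at e3
      have e4 : (Sq F).relIndex (Wq Q ⊓ SU S) ≤ 2 := rel_le_two fun x hx y hy hx' hy' => by
        rw [mem_Sq] at hx' hy' ⊢
        obtain ⟨p, hp⟩ := ((Q.isSquare_iff x).1 hx.1).resolve_left hx'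
        obtain ⟨q, hq⟩ := ((Q.isSquare_iff y).1 hy.1).resolve_left hy'
        have := Q.a_ne
        refine ⟨p * q / Q.a, ?_⟩
        rw [Units.val_mul]
        field_simp
        linear_combination (q * q) * hp + (x * Q.a) * hq
      have e5 := Nat.mul_le_mul e4 e1
      rw [e3, ← pow_succ'] at e5
      have := (Nat.pow_le_pow_iff_right one_lt_two).1 e5
      omega
    obtain ⟨u, hu, hu'⟩ := hex
    obtain ⟨w, w1, -, -, w4⟩ := exists_inert (algebraMap F M u) hu'
      (finite_above M (S ∪ T)).toFinset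
    simp only [Set.Finite.mem_toFinset, Set.mem_setOf_eq, Finset.mem_union, not_or] at w1
    have n1 : ¬ SplitAt (dn F w) (u : F) := fun h => w4 h.algebraMap
    have n2 : SplitAt (dn F w) Q.a := by
      by_contra h
      have h3 := (splitAt_mul_of_not (h2 _ w1.1) (val_SU hu.2 w1.1) (ha _ w1.1) n1 h).algebraMap
      have h4 := h3.mul (splitAt_sq w Q.r_ne).inv
      rw [map_mul, ← Q.r_sq, mul_inv_cancel_right₀ (pow_ne_zero 2 Q.r_ne)] at h4
      exact w4 h4
    refine ⟨insert (dn F w) T, by rw [Finset.card_insert_of_notMem w1.2, t1], ?_, ?_⟩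
    · intro v hv
      rcases Finset.mem_insert.1 hv with rfl | hv
      exacts [⟨w1.1, n2⟩, t2 v hv]
    · rw [HT_insert, ← Subgroup.relIndex_inf_mul_relIndex, t3, pow_succ',
        rel_eq_two (two_step w1.1 (h2 _ w1.1) inf_le_right) hu (by simpa [mem_HT] using n1)]

lemma sq_of_split [IsTotallyComplex F] (S T : Finset (Pr F)) (hS : ClassGen S)
    (h2 : ∀ v, v ∉ S → v.valuation F 2 = 1) (hT : ∀ v ∈ T, v ∉ S)
    (hi : (HT T).relIndex (SU S) = 2 ^ T.card) {b : F} (hb : b ≠ 0)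
    (hb1 : ∀ v, v ∉ S → v ∉ T → ord v b = 0) (hb2 : ∀ v ∈ S, SplitAt v b) : IsSquare b := by
  classical
  by_contra hn
  obtain ⟨M', _, _, _, Q, rfl⟩ := exists_quad_ext F b hn
  let R := T.filter (fun v => Odd (ord v Q.a))
  have hR : R ⊆ T := Finset.filter_subset _ _
  have e1 : HT T = HT R ⊓ HT (T \ R) := by
    ext x
    simp only [Subgroup.mem_inf, mem_HT, Finset.mem_sdiff]
    refine ⟨fun h => ⟨fun v hv => h v (hR hv), fun v hv => h v hv.1⟩, fun h v hv => ?_⟩
    by_cases e : v ∈ R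
    exacts [h.1 v e, h.2 v ⟨hv, e⟩]
  have e2 := Subgroup.relIndex_inf_le (H := HT R) (K := HT (T \ R)) (L := SU S)
  have e3 := relIndex_HT_le h2 (T \ R) fun v hv => hT v (Finset.mem_sdiff.1 hv).1
  rw [← e1, hi, ← Finset.card_sdiff_add_card_eq_card hR, pow_add, mul_comm] at e2
  have e4 : 2 ^ R.card ≤ (HT R).relIndex (SU S) :=
    Nat.le_of_mul_le_mul_right (e2.trans (Nat.mul_le_mul_left _ e3)) (by positivity)
  have e5 := lemmaA' Q (S ∪ R) (hS.mono Finset.subset_union_left) (fun w hw => ?_) R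
    (fun w hw hf => ?_) (A := HT R) (B := SU S) (fun x hx => ?_) (fun x hx hN v hv => ?_)
    (by have : 0 < 2 ^ R.card := by positivity
        omega)
  · have : 0 < 2 ^ R.card := by positivity
    omega
  · rw [Finset.mem_union, not_or] at hw
    refine Q.unrP_of_unrAt (unrAt_of_odd (h2 _ hw.1) hb ?_)
    by_cases e : dn F w ∈ T
    · by_contra h
      exact hw.2 (Finset.mem_filter.2 ⟨e, Int.not_even_iff_odd.1 h⟩)
    · rw [hb1 _ hw.1 e]
      exact Even.zero
  · exact (Finset.mem_union.1 hw).resolve_left fun h => Q.not_fixes_of_splitAt (hb2 _ h) hf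
  · exact (mem_SU _ x).2 fun v hv =>
      (mem_SU _ x).1 hx v fun h => hv (Finset.mem_union_left _ h)
  · obtain ⟨z, hz⟩ := hN
    have hvS := hT v (hR hv)
    exact Q.splitAt_of_norm (h2 v hvS) (Finset.mem_filter.1 hv).2 (val_SU hx hvS) hz

end HasseAux

open HasseAux

theorem hasse_norm {F M : Type} [Field F] [NumberField F] [Field M] [NumberField M] [Algebra F M]
    [IsTotallyComplex F] (Q : Quad F M) (hunr : Unr F M) (b : F) (hb : b ≠ 0)
    (hloc : ∀ w : Pr M, Fixes Q.σ w → Even (ord w (algebraMap F M b))) :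
    ∃ x : M, x * Q.σ x = algebraMap F M b := by
  classical
  by_contra hn
  obtain ⟨S0, hS0⟩ := exists_classGen F
  have two : (2 : F) ≠ 0 := two_ne_zero
  let S : Finset (Pr F) := S0 ∪ (finite_ord two).toFinset ∪ (finite_ord Q.a_ne).toFinset ∪
    (finite_ord hb).toFinset
  have hS : ClassGen S := hS0.mono fun v hv => by simp [S, hv]
  have hout : ∀ v, v ∉ S → ord v (2 : F) = 0 ∧ ord v Q.a = 0 ∧ ord v b = 0 := by
    intro v hv
    simp only [S, Finset.mem_union, Set.Finite.mem_toFinset, Set.mem_setOf_eq, not_or,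
      not_not] at hv
    exact ⟨hv.1.1.2, hv.1.2, hv.2⟩
  have h2 : ∀ v, v ∉ S → v.valuation F 2 = 1 := fun v hv =>
    (val_eq_one_iff v two).2 (hout v hv).1
  have ha : ∀ v, v ∉ S → v.valuation F Q.a = 1 := fun v hv =>
    (val_eq_one_iff v Q.a_ne).2 (hout v hv).2.1
  obtain ⟨T, t1, t2, t3⟩ := exists_T Q S h2 ha _ le_rfl
  obtain ⟨H, H1, H2, H3⟩ := local_index S
  have hrank : finrank ℚ F = 2 * (Units.rank F + 1) := by
    have h1 := InfinitePlace.card_eq_nrRealPlaces_add_nrComplexPlaces F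
    have h3 : 0 < Fintype.card (InfinitePlace F) := Fintype.card_pos
    rw [IsTotallyComplex.nrRealPlaces_eq_zero, zero_add] at h1
    rw [IsTotallyComplex.finrank, Units.rank]
    omega
  have hdis : Disjoint S T := Finset.disjoint_right.2 fun v hv => (t2 v hv).1
  have e1 : H.relIndex (SU (S ∪ T)) = (Sq F).relIndex (SU (S ∪ T)) := by
    rw [← Subgroup.inf_relIndex_right, ← Subgroup.inf_relIndex_right (Sq F)]
    congr 1
    ext x
    simp only [Subgroup.mem_inf, and_congr_left_iff, H1, mem_Sq]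
    intro hx
    constructor
    · exact sq_of_split S T hS h2 (fun v hv => (t2 v hv).1) (by rw [t3, t1]) x.ne_zero
        fun v h1 h3 => (mem_SU _ x).1 hx v (by simp [h1, h3])
    · rintro ⟨y, hy⟩ v _
      have : y ≠ 0 := by
        rintro rfl
        exact x.ne_zero (by simpa using hy)
      rw [hy, ← sq]
      exact splitAt_sq v this
  rw [relIndex_Sq, Finset.card_union_of_disjoint hdis, t1] at e1
  have e2 := Subgroup.relIndex_mul_index (le_sup_right : H ≤ SU (S ∪ T) ⊔ H)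
  rw [Subgroup.relIndex_sup_right, e1] at e2
  have e3 : (SU (S ∪ T) ⊔ H).index ≤ 2 := by
    refine Nat.le_of_mul_le_mul_left (c := 2 ^ (Units.rank F + (S.card +
      (Units.rank F + S.card)) + 1)) ?_ (by positivity)
    rw [e2, ← pow_succ]
    refine H3.trans (le_of_eq ?_)
    rw [hrank, show (4 : ℕ) = 2 ^ 2 from rfl, ← pow_mul, ← pow_add]
    congr 1
    ring
  have e4 : (SU (S ∪ T) ⊔ H).index ≠ 0 := fun h => H2 (by rw [← e2, h, mul_zero])
  let R := S.filter (fun v => ∃ w : Pr M, dn F w = v ∧ Fixes Q.σ w)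
  have hev : ∀ x : Fˣ, (∀ w : Pr M, Fixes Q.σ w → Even (ord w (algebraMap F M x))) →
      x ∈ Ev R := by
    intro x hx v hv
    obtain ⟨-, w, rfl, hw⟩ := Finset.mem_filter.1 hv
    rw [← ord_of_unrP (hunr w)]
    exact hx w hw
  have e5 : H ≤ Ev R := fun x hx v hv =>
    ((H1 x).1 hx v (Finset.mem_filter.1 hv).1).unrAt.even
  have e6 : Nm Q ≤ Ev R := by
    rintro x ⟨z, hz⟩
    exact hev x fun w hw => hz ▸ Q.even_ord_norm hw z
  have e7 : Sq F ≤ Nm Q := by
    rintro x ⟨y, rfl⟩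
    exact ⟨algebraMap F M y, by simp [sq]⟩
  have e8 := Subgroup.relIndex_mul_index (le_sup_right : Ev R ≤ SU (S ∪ T) ⊔ Ev R)
  rw [Subgroup.relIndex_sup_right, index_Ev] at e8
  have e9 : (SU (S ∪ T) ⊔ Ev R).index ≤ 2 :=
    (Nat.le_of_dvd (Nat.pos_of_ne_zero e4)
      (Subgroup.index_dvd_of_le (sup_le_sup_left e5 _))).trans e3
  have e10 : (Nm Q).relIndex (SU (S ∪ T)) ≠ 0 := fun h => by
    have := Subgroup.relIndex_dvd_of_le_left (SU (S ∪ T)) e7
    rw [h, relIndex_Sq, zero_dvd_iff] at this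
    exact absurd this (by positivity)
  have e11 := Subgroup.relIndex_inf_mul_relIndex (Nm Q) (Ev R) (SU (S ∪ T))
  rw [inf_eq_left.2 e6] at e11
  have e12 : (Nm Q).relIndex (Ev R ⊓ SU (S ∪ T)) ≠ 1 := fun h => by
    have hm : Units.mk0 b hb ∈ Ev R ⊓ SU (S ∪ T) :=
      ⟨hev _ hloc, (mem_SU _ _).2 fun v hv =>
        (hout v fun h1 => hv (Finset.mem_union_left _ h1)).2.2⟩
    exact hn (Subgroup.relIndex_eq_one.1 h hm)
  have e13 : (Nm Q).relIndex (Ev R ⊓ SU (S ∪ T)) ≠ 0 := fun h => e10 (by rw [← e11, h, zero_mul])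
  have e14 := lemmaA' Q (S ∪ T) (hS.mono Finset.subset_union_left) (fun w _ => hunr w) R
    (fun w hw hf => Finset.mem_filter.2 ⟨(Finset.mem_union.1 hw).resolve_right fun h =>
      Q.not_fixes_of_splitAt (t2 _ h).2 hf, w, rfl, hf⟩) (A := Nm Q) le_rfl (fun _ _ h => h) e10
  have e15 := Nat.mul_le_mul_left ((Ev R).relIndex (SU (S ∪ T))) e9
  have e16 := Nat.mul_le_mul_right ((Ev R).relIndex (SU (S ∪ T)))
    (show 2 ≤ (Nm Q).relIndex (Ev R ⊓ SU (S ∪ T)) by omega)
  omega

end Pool.Agent.P.MP_9ec3f0_nt.SY
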