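import Pool.Agent.P.MP_9ec3f0_nt.SY.Quad

namespace Pool.Agent.P.MP_9ec3f0_nt.SY

open NumberField IsDedekindDomain Finset Module

namespace AdjoinAux

open Polynomial

theorem exists_ext (L : Type) [Field L] [NumberField L] (Y : Finset L)
    (hY : ∀ y ∈ Y, ∀ w : Pr L, UnrAt w y) :
    ∃ (M : Type) (_ : Field M) (_ : NumberField M) (_ : Algebra L M),
      Unr L M ∧ (∀ y ∈ Y, IsSquare (algebraMap L M y)) ∧
      ∀ S : Subalgebra L M, (∀ r : M, ∀ y ∈ Y, r ^ 2 = algebraMap L M y → r ∈ S) → S = ⊤ := by
  classical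
  induction Y using Finset.induction_on with
  | empty =>
    exact ⟨L, inferInstance, inferInstance, inferInstance, unr_self L, by simp, fun S _ =>
      Algebra.eq_top_iff.2 fun x => S.algebraMap_mem x⟩
  | insert y Y _ ih =>
    obtain ⟨M, _, _, _, h1, h2, h3⟩ := ih fun z hz => hY z (mem_insert_of_mem hz)
    by_cases hy : IsSquare (algebraMap L M y)
    · refine ⟨M, inferInstance, inferInstance, inferInstance, h1, fun z hz => ?_,
        fun S hS => h3 S fun r z hz => hS r z (mem_insert_of_mem hz)⟩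
      rcases mem_insert.1 hz with rfl | hz
      · exact hy
      · exact h2 z hz
    obtain ⟨M', _, _, _, Q, hQ⟩ := exists_quad_ext M _ hy
    let _ : Algebra L M' := ((algebraMap M M').comp (algebraMap L M)).toAlgebra
    have : IsScalarTower L M M' := IsScalarTower.of_algebraMap_eq fun _ => rfl
    have hr : Q.r ^ 2 = algebraMap L M' y := by
      rw [Q.r_sq, hQ]
      rfl
    refine ⟨M', inferInstance, inferInstance, inferInstance, h1.trans fun w => ?_, fun z hz => ?_,
      fun S hS => ?_⟩
    · refine Q.unrP_of_unrAt ?_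
      rw [hQ]
      exact (hY y (mem_insert_self _ _) _).algebraMap
    · rcases mem_insert.1 hz with rfl | hz
      · exact ⟨Q.r, by rw [← hr, sq]⟩
      · exact (h2 z hz).map (algebraMap M M')
    · have h4 := h3 (S.comap (IsScalarTower.toAlgHom L M M')) fun r z hz e =>
        hS (algebraMap M M' r) z (mem_insert_of_mem hz) (by rw [← map_pow, e]; rfl)
      have h5 : ∀ a : M, algebraMap M M' a ∈ S := fun a => Algebra.eq_top_iff.1 h4 a
      refine Algebra.eq_top_iff.2 fun x => ?_
      obtain ⟨a, b, rfl⟩ := Q.exists_coords x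
      exact S.add_mem (h5 a) (S.mul_mem (h5 b) (hS _ y (mem_insert_self _ _) hr))

theorem splits_root {L M : Type} [Field L] [NumberField L] [IsGalois ℚ L] [Field M]
    [NumberField M] [Algebra L M] {y : L}
    (h : ∀ g : L ≃ₐ[ℚ] L, IsSquare (algebraMap L M (g y))) {r : M}
    (hr : r ^ 2 = algebraMap L M y) : ((minpoly ℚ r).map (algebraMap ℚ M)).Splits := by
  have hi : IsIntegral ℚ y := Algebra.IsIntegral.isIntegral y
  have hm := (minpoly.monic hi).map (algebraMap ℚ L)
  have hs := (Normal.splits (inferInstance : Normal ℚ L) y).eq_prod_roots_of_monic hm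
  have hd : minpoly ℚ r ∣ (minpoly ℚ y).comp (X ^ 2) := by
    refine minpoly.dvd ℚ r ?_
    rw [aeval_comp]
    simp only [map_pow, aeval_X, hr]
    rw [aeval_algebraMap_apply, minpoly.aeval, map_zero]
  have hne : ((minpoly ℚ y).comp (X ^ 2)).map (algebraMap ℚ M) ≠ 0 :=
    (((minpoly.monic hi).comp (monic_X_pow 2) (by simp)).map _).ne_zero
  refine Splits.of_dvd ?_ hne (Polynomial.map_dvd _ hd)
  rw [Polynomial.map_comp, IsScalarTower.algebraMap_eq ℚ L M, ← Polynomial.map_map, hs,
    Polynomial.map_multiset_prod, multiset_prod_comp]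
  refine Splits.multisetProd fun f hf => ?_
  simp only [Multiset.map_map, Multiset.mem_map, Function.comp] at hf
  obtain ⟨z, hz, rfl⟩ := hf
  obtain ⟨g, rfl⟩ := minpoly.exists_algEquiv_of_root' hi.isAlgebraic (x := z) (by
    rw [← eval_map_algebraMap]
    exact ((mem_roots hm.ne_zero).1 hz))
  obtain ⟨s, hs⟩ := h g
  have : (Polynomial.map (algebraMap L M) (X - C (g y))).comp
      (Polynomial.map ((algebraMap L M).comp (algebraMap ℚ L)) (X ^ 2)) =
      (X - C s) * (X + C s) := by
    simp only [Polynomial.map_sub, map_X, map_C, Polynomial.map_pow, sub_comp, X_comp, C_comp]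
    rw [hs, map_mul]
    ring
  rw [this]
  exact (Splits.X_sub_C s).mul (Splits.X_add_C s)

end AdjoinAux

open AdjoinAux in
theorem adjoin_step (L : Type) [Field L] [NumberField L] [IsGalois ℚ L] (X : Finset L)
    (hX : ∀ x ∈ X, ∀ w : Pr L, UnrAt w x) :
    ∃ (L' : Type) (_ : Field L') (_ : NumberField L') (_ : Algebra L L'),
      IsGalois ℚ L' ∧ Unr L L' ∧ (∀ x ∈ X, IsSquare (algebraMap L L' x)) ∧
      ∀ g : L' ≃ₐ[L] L', g ^ 2 = 1 := by
  classical
  set Y : Finset L := (univ ×ˢ X).image fun p : (L ≃ₐ[ℚ] L) × L => p.1 p.2 with hY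
  have mem : ∀ y, y ∈ Y ↔ ∃ g : L ≃ₐ[ℚ] L, ∃ x ∈ X, g x = y := fun y => by simp [hY]
  obtain ⟨M, _, _, _, h1, h2, h3⟩ := exists_ext L Y fun y hy w => by
    obtain ⟨g, x, hx, rfl⟩ := (mem y).1 hy
    have := (hX x hx (cj g⁻¹ w)).cj g
    rwa [← cj_mul, mul_inv_cancel, cj_one] at this
  refine ⟨M, inferInstance, inferInstance, inferInstance, ?_, h1,
    fun x hx => h2 x ((mem x).2 ⟨1, x, hx, rfl⟩), fun g => ?_⟩
  · have : Normal ℚ M := by
      refine normal_iff.2 fun x => ⟨Algebra.IsIntegral.isIntegral x, ?_⟩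
      let T : Set M := Set.range (algebraMap L M) ∪ {r | ∃ y ∈ Y, r ^ 2 = algebraMap L M y}
      let S : Subalgebra L M :=
        { (IntermediateField.adjoin ℚ T).toSubfield.toSubring with
          algebraMap_mem' := fun l => IntermediateField.subset_adjoin ℚ T (Or.inl ⟨l, rfl⟩) }
      have hS := h3 S fun r y hy e => IntermediateField.subset_adjoin ℚ T (Or.inr ⟨y, hy, e⟩)
      refine IntermediateField.splits_of_mem_adjoin ℚ M (S := T)
        (fun z hz => ⟨Algebra.IsIntegral.isIntegral z, ?_⟩) (Algebra.eq_top_iff.1 hS x)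
      rcases hz with ⟨l, rfl⟩ | ⟨y, hy, e⟩
      · rw [minpoly.algebraMap_eq (algebraMap L M).injective, IsScalarTower.algebraMap_eq ℚ L M,
          ← Polynomial.map_map]
        exact (Normal.splits (inferInstance : Normal ℚ L) l).map _
      · refine splits_root (fun g => h2 _ ?_) e
        obtain ⟨g', x, hx, rfl⟩ := (mem y).1 hy
        exact (mem _).2 ⟨g * g', x, hx, rfl⟩
    exact IsGalois.mk
  · have hS := h3 (AlgHom.equalizer ((g ^ 2 : M ≃ₐ[L] M) : M →ₐ[L] M) (AlgHom.id L M))
      fun r y _ e => by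
        have k : g r ^ 2 = r ^ 2 := by rw [← map_pow, e, AlgEquiv.commutes]
        change g (g r) = r
        rcases sq_eq_sq_iff_eq_or_eq_neg.1 k with k | k
        · rw [k, k]
        · rw [k, map_neg, k, neg_neg]
    ext x
    exact Algebra.eq_top_iff.1 hS x

theorem four_le_finrank {L L' : Type} [Field L] [NumberField L] [Field L'] [NumberField L']
    [Algebra L L'] {α β : L} (hα : ¬ IsSquare α) (hβ : ¬ IsSquare β) (hαβ : ¬ IsSquare (α * β))
    (h1 : IsSquare (algebraMap L L' α)) (h2 : IsSquare (algebraMap L L' β)) :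
    4 ≤ finrank L L' := by
  obtain ⟨r, hr⟩ := h1
  obtain ⟨s, hs⟩ := h2
  have inj := (algebraMap L L').injective
  have key : ∀ a b : L, algebraMap L L' a + algebraMap L L' b * r = 0 → a = 0 ∧ b = 0 := by
    intro a b h
    have hb : b = 0 := by
      by_contra hb
      refine hα ⟨a / b, inj ?_⟩
      have : algebraMap L L' b ≠ 0 := (map_ne_zero _).2 hb
      rw [hr, map_mul, map_div₀]
      field_simp
      linear_combination (algebraMap L L' b * r - algebraMap L L' a) * h
    rw [hb, map_zero, zero_mul, add_zero] at h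
    exact ⟨(map_eq_zero _).1 h, hb⟩
  have : Module.Finite L L' := Module.Finite.of_restrictScalars_finite ℚ L L'
  have li : LinearIndependent L ![1, r, s, r * s] := by
    refine Fintype.linearIndependent_iff.2 fun g hg => ?_
    simp only [Fin.sum_univ_four, Algebra.smul_def, Matrix.cons_val_zero, Matrix.cons_val_one,
      Matrix.cons_val, mul_one] at hg
    obtain ⟨k1, k2⟩ := key ((g 0 * g 2 - g 1 * g 3 * α) ^ 2 + (g 1 * g 2 - g 0 * g 3) ^ 2 * α -
        β * (g 2 ^ 2 - g 3 ^ 2 * α) ^ 2)
        (2 * (g 0 * g 2 - g 1 * g 3 * α) * (g 1 * g 2 - g 0 * g 3)) (by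
      simp only [map_sub, map_add, map_mul, map_pow, map_ofNat, hr, hs]
      generalize algebraMap L L' (g 0) = a at *
      generalize algebraMap L L' (g 1) = b at *
      generalize algebraMap L L' (g 2) = c at *
      generalize algebraMap L L' (g 3) = d at *
      linear_combination (c - d * r) ^ 2 * (a + b * r - (c + d * r) * s) * hg)
    have hN : g 2 ^ 2 - g 3 ^ 2 * α = 0 := by
      by_contra hN
      generalize g 2 ^ 2 - g 3 ^ 2 * α = N at *
      generalize g 0 * g 2 - g 1 * g 3 * α = u at *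
      generalize g 1 * g 2 - g 0 * g 3 = v at *
      rcases mul_eq_zero.1 k2 with k | k
      · have k' : u = 0 := (mul_eq_zero.1 k).resolve_left two_ne_zero
        refine hαβ ⟨v * α / N, ?_⟩
        field_simp
        rw [k'] at k1
        linear_combination -α * k1
      · refine hβ ⟨u / N, ?_⟩
        field_simp
        rw [k] at k1
        linear_combination -k1
    have h3 : g 3 = 0 := by
      by_contra h3
      refine hα ⟨g 2 / g 3, ?_⟩
      field_simp
      linear_combination -hN
    have h2 : g 2 = 0 := by simpa [h3] using hN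
    rw [h2, h3, map_zero, zero_mul, zero_mul, add_zero, add_zero] at hg
    obtain ⟨h0, h1⟩ := key _ _ hg
    intro i
    fin_cases i <;> assumption
  simpa using li.fintype_card_le_finrank

end Pool.Agent.P.MP_9ec3f0_nt.SY
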