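import Pool.Agent.P.MP_9ec3f0_nt.SY.Quad

namespace Pool.Agent.P.MP_9ec3f0_nt.SY

open NumberField IsDedekindDomain Finset Module

namespace BaseAux

variable {K : Type} [Field K] [NumberField K]

theorem val_int_le (v : Pr K) (n : ℤ) : v.valuation K (n : K) ≤ 1 := by
  have h := v.valuation_le_one (K := K) (n : 𝓞 K)
  simpa using h

theorem val_eq_one_of_coprime (v : Pr K) {a b : ℤ} (h : IsCoprime a b)
    (ha : v.valuation K (a : K) < 1) : v.valuation K (b : K) = 1 := by
  refine le_antisymm (val_int_le v b) ?_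
  by_contra hb
  rw [not_le] at hb
  obtain ⟨s, t, e⟩ := h
  have e' : (s : K) * a + t * b = 1 := by exact_mod_cast congrArg (Int.cast : ℤ → K) e
  have h1 : v.valuation K ((s : K) * a) < 1 := by
    rw [map_mul]
    exact lt_of_le_of_lt (mul_le_of_le_one_left' (val_int_le v s)) ha
  have h2 : v.valuation K ((t : K) * b) < 1 := by
    rw [map_mul]
    exact lt_of_le_of_lt (mul_le_of_le_one_left' (val_int_le v t)) hb
  have h3 := Valuation.map_add_lt _ h1 h2
  rw [e', map_one] at h3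
  exact lt_irrefl _ h3

/-- At a prime above `2`, the order of `2` divides the order of every nonzero integer. -/
theorem ord_two_dvd (v : Pr K) (h : 0 < ord v (2 : K)) (n : ℕ) (hn : n ≠ 0) :
    ord v (2 : K) ∣ ord v (n : K) := by
  obtain ⟨j, m, hm, rfl⟩ := Nat.exists_eq_two_pow_mul_odd hn
  have hm0 : (m : K) ≠ 0 := by
    rintro e
    have : m = 0 := by exact_mod_cast e
    simp [this] at hm
  have hc : IsCoprime (2 : ℤ) (m : ℤ) := by
    obtain ⟨t, rfl⟩ := hm
    exact ⟨-t, 1, by push_cast; ring⟩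
  have h1 := val_eq_one_of_coprime v hc
    (by simpa using (val_lt_one_iff v (two_ne_zero (α := K))).2 h)
  have h2 : ord v (m : K) = 0 := (val_eq_one_iff v hm0).1 (by simpa using h1)
  push_cast
  rw [ord_mul v (pow_ne_zero _ two_ne_zero) hm0, ord_pow, h2, add_zero]
  exact Dvd.intro_left _ rfl

theorem ord_two_rat (v : Pr ℚ) : ord v (2 : ℚ) ≤ 1 := by
  by_contra h
  rw [not_le] at h
  obtain ⟨x, hx0, hx⟩ := exists_ord_eq {v} (fun _ => 1)
  have h1 : ord v x = 1 := hx v (Finset.mem_singleton_self v)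
  have hn : x.num ≠ 0 := Rat.num_ne_zero.2 hx0
  have hd : (x.den : ℚ) ≠ 0 := by exact_mod_cast x.den_ne_zero
  have h2 := ord_two_dvd v (by omega) x.den x.den_ne_zero
  have h3 := ord_two_dvd v (by omega) x.num.natAbs (Int.natAbs_ne_zero.2 hn)
  have h4 : ord v (x.num.natAbs : ℚ) = ord v (x.num : ℚ) := by
    rcases Int.natAbs_eq x.num with e | e
    · conv_rhs => rw [e]
      simp
    · conv_rhs => rw [e]
      rw [Int.cast_neg, ord_neg]
      simp
  have h5 : ord v x = ord v (x.num : ℚ) - ord v (x.den : ℚ) := by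
    rw [← ord_div v (by exact_mod_cast hn) hd, Rat.num_div_den]
  have h6 : ord v (2 : ℚ) ∣ 1 := by
    rw [← h1, h5]
    exact dvd_sub (h4 ▸ h3) h2
  have := Int.le_of_dvd one_pos h6
  omega

theorem unrAt_int (v : Pr K) (t : ℤ) (h : v.valuation K ((1 + 4 * t : ℤ) : K) = 1) :
    UnrAt v ((1 + 4 * t : ℤ) : K) := by
  refine ⟨1, (t : K), one_ne_zero, by push_cast; ring, val_int_le v t, ?_⟩
  simpa using h

/-- The nine primes congruent to `1` modulo `4`. -/
def P9 : Finset ℕ := {5, 13, 17, 29, 37, 41, 53, 61, 73}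

theorem P9_card : P9.card = 9 := by decide

theorem P9_prime : ∀ l ∈ P9, l.Prime := by
  intro l hl
  simp only [P9, Finset.mem_insert, Finset.mem_singleton] at hl
  rcases hl with rfl | rfl | rfl | rfl | rfl | rfl | rfl | rfl | rfl <;> norm_num

theorem P9_fact : ∀ l ∈ P9, ∃ t c : ℤ, (l : ℤ) = 1 + 4 * t ∧ (l : ℤ) * c = 34418796151155 ∧
    IsCoprime (l : ℤ) c ∧ IsCoprime (l : ℤ) 2 := by
  intro l hl
  refine ⟨(l : ℤ) / 4, 34418796151155 / (l : ℤ), ?_⟩
  simp only [P9, Finset.mem_insert, Finset.mem_singleton] at hl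
  simp only [Int.isCoprime_iff_gcd_eq_one]
  rcases hl with rfl | rfl | rfl | rfl | rfl | rfl | rfl | rfl | rfl <;> norm_num

theorem fact_prod (T : Finset ℕ) (hT : ∀ l ∈ T, l.Prime) (p : ℕ) :
    (∏ l ∈ T, l).factorization p = if p ∈ T then 1 else 0 := by
  rw [Nat.factorization_prod (fun l hl => (hT l hl).ne_zero), Finsupp.finsetSum_apply,
    Finset.sum_congr rfl (g := fun l => if p = l then 1 else 0)]
  · simp
  · intro l hl
    rw [(hT l hl).factorization, Finsupp.single_apply]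
    simp [eq_comm]

theorem not_sq_rat {T T' : Finset ℕ} (hT : ∀ l ∈ T, l.Prime) (hT' : ∀ l ∈ T', l.Prime)
    (hne : T ≠ T') : ¬ IsSquare (((∏ l ∈ T, l : ℕ) : ℚ) / ((∏ l ∈ T', l : ℕ) : ℚ)) := by
  have h0 : (∏ l ∈ T, l) ≠ 0 := Finset.prod_ne_zero_iff.2 fun l hl => (hT l hl).ne_zero
  have h0' : (∏ l ∈ T', l) ≠ 0 := Finset.prod_ne_zero_iff.2 fun l hl => (hT' l hl).ne_zero
  rintro ⟨s, hs⟩
  have h1 : IsSquare ((((∏ l ∈ T, l) * (∏ l ∈ T', l) : ℕ)) : ℚ) := by
    refine ⟨s * ((∏ l ∈ T', l : ℕ) : ℚ), ?_⟩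
    have : ((∏ l ∈ T', l : ℕ) : ℚ) ≠ 0 := by exact_mod_cast h0'
    rw [div_eq_iff this] at hs
    rw [Nat.cast_mul, hs]
    ring
  obtain ⟨n, hn⟩ := Rat.isSquare_natCast_iff.1 h1
  have hn0 : n ≠ 0 := by
    rintro rfl
    exact mul_ne_zero h0 h0' (by simpa using hn)
  apply hne
  ext p
  have h2 := congrArg (fun x => x.factorization p) hn
  simp only [Nat.factorization_mul h0 h0', Nat.factorization_mul hn0 hn0, Finsupp.add_apply,
    fact_prod T hT, fact_prod T' hT'] at h2
  by_cases a : p ∈ T <;> by_cases b : p ∈ T' <;> simp [a, b] at h2 ⊢ <;> omega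

end BaseAux

open BaseAux in
theorem base_field :
    ∃ (k : Type) (_ : Field k) (_ : NumberField k), IsTotallyComplex k ∧ finrank ℚ k = 2 ∧
      IsGalois ℚ k ∧ (∀ v : Pr k, ord v (2 : k) ≤ 1) ∧
      ∃ X : Finset k, 2 ^ 9 ≤ X.card ∧ (∀ x ∈ X, x ≠ 0 ∧ ∀ v : Pr k, UnrAt v x) ∧
        ∀ x ∈ X, ∀ y ∈ X, x ≠ y → ¬ IsSquare (x / y) := by
  classical
  have hneg : ∀ x : ℚ, x < 0 → ¬ IsSquare x := by
    rintro x hx ⟨y, rfl⟩
    exact absurd hx (not_lt.2 (mul_self_nonneg y))
  obtain ⟨k, _, _, inst, Q, hQ⟩ := exists_quad_ext ℚ (-34418796151155) (hneg _ (by norm_num))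
  obtain rfl : inst = DivisionRing.toRatAlgebra := Subsingleton.elim _ _
  have hr : Q.r ^ 2 = -34418796151155 := by
    rw [Q.r_sq, hQ]
    simp
  have hsq : ∀ T ∈ P9.powerset, ∀ T' ∈ P9.powerset, T ≠ T' →
      ¬ IsSquare (((∏ l ∈ T, l : ℕ) : k) / ((∏ l ∈ T', l : ℕ) : k)) := by
    intro T hT T' hT' hne
    have h1 : ∀ l ∈ T, l.Prime := fun l hl => P9_prime l (Finset.mem_powerset.1 hT hl)
    have h2 : ∀ l ∈ T', l.Prime := fun l hl => P9_prime l (Finset.mem_powerset.1 hT' hl)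
    have e : ((∏ l ∈ T, l : ℕ) : k) / ((∏ l ∈ T', l : ℕ) : k) =
        algebraMap ℚ k (((∏ l ∈ T, l : ℕ) : ℚ) / ((∏ l ∈ T', l : ℕ) : ℚ)) := by
      rw [map_div₀, map_natCast, map_natCast]
    rw [e, Q.isSquare_iff, hQ]
    rintro (h | h)
    · exact not_sq_rat h1 h2 hne h
    · refine hneg _ (mul_neg_of_pos_of_neg (div_pos ?_ ?_) (by norm_num)) h
      · exact_mod_cast Finset.prod_pos fun l hl => (h1 l hl).pos
      · exact_mod_cast Finset.prod_pos fun l hl => (h2 l hl).pos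
  have hunr : ∀ l ∈ P9, ∀ v : Pr k, UnrAt v (l : k) := by
    intro l hl v
    obtain ⟨t, c, h1, h2, h3, h4⟩ := P9_fact l hl
    have hl0 : (l : k) ≠ 0 := by exact_mod_cast (P9_prime l hl).ne_zero
    rcases (val_int_le v (l : ℤ)).eq_or_lt with h | h
    · have := unrAt_int v t (h1 ▸ h)
      rw [← h1] at this
      simpa using this
    · have hc0 : (c : k) ≠ 0 := by
        intro e
        have : c = 0 := by exact_mod_cast e
        simp [this] at h2
      have a := val_eq_one_of_coprime v h3 h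
      have b := val_eq_one_of_coprime v h4 h
      refine unrAt_of_odd (by simpa using b) hl0 ⟨ord v Q.r, ?_⟩
      have e : Q.r ^ 2 = -((l : k) * c) := by
        rw [hr]
        have : ((l : ℤ) : k) * c = 34418796151155 := by exact_mod_cast congrArg (Int.cast : ℤ → k) h2
        simpa using this.symm
      have := ord_pow v Q.r 2
      rw [e, ord_neg, ord_mul v hl0 hc0, (val_eq_one_iff v hc0).1 a] at this
      push_cast at this
      omega
  refine ⟨k, inferInstance, inferInstance, ⟨fun w => ?_⟩, Q.finrank_eq, Q.isGalois, fun v => ?_,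
    P9.powerset.image (fun T => ((∏ l ∈ T, l : ℕ) : k)), ?_, ?_, ?_⟩
  · rw [← InfinitePlace.not_isReal_iff_isComplex]
    intro hw
    have := congrArg (InfinitePlace.embedding_of_isReal hw) hr
    rw [map_pow, map_neg, map_ofNat] at this
    have h := sq_nonneg (InfinitePlace.embedding_of_isReal hw Q.r)
    rw [this] at h
    norm_num at h
  · by_cases h : ord v (2 : k) ≤ 0
    · omega
    have h1 : v.valuation k (algebraMap ℚ k 2) < 1 := by
      rw [map_ofNat, val_lt_one_iff v two_ne_zero]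
      omega
    rw [val_algebraMap_lt_one_iff] at h1
    have h2 := val_eq_one_of_coprime (dn ℚ v) (a := 2) (b := 1 + 4 * (-8604699037789))
      (by rw [Int.isCoprime_iff_gcd_eq_one]; norm_num) (by simpa using h1)
    have h3 := unrAt_int _ _ h2
    have h4 : UnrP ℚ v := Q.unrP_of_unrAt (by rw [hQ]; convert h3 using 1; norm_num)
    have h5 := ord_of_unrP h4 2
    rw [map_ofNat] at h5
    rw [h5]
    exact ord_two_rat _
  · rw [Finset.card_image_of_injOn, Finset.card_powerset, P9_card]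
    intro T hT T' hT' e
    by_contra hne
    refine hsq T hT T' hT' hne ?_
    have e' : ((∏ l ∈ T, l : ℕ) : k) = ((∏ l ∈ T', l : ℕ) : k) := e
    rw [e']
    by_cases h0 : ((∏ l ∈ T', l : ℕ) : k) = 0
    · rw [h0, div_zero]
      exact IsSquare.zero
    · rw [div_self h0]
      exact IsSquare.one
  · intro x hx
    obtain ⟨T, hT, rfl⟩ := Finset.mem_image.1 hx
    have key : ∀ v : Pr k, UnrAt v ((∏ l ∈ T, l : ℕ) : k) := by
      intro v
      rw [Nat.cast_prod]
      refine Finset.prod_induction _ (fun y => UnrAt v y) (fun a b => UnrAt.mul) ?_ ?_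
      · simpa using (splitAt_sq v (one_ne_zero (α := k))).unrAt
      · exact fun l hl => hunr l (Finset.mem_powerset.1 hT hl) v
    refine ⟨?_, key⟩
    exact_mod_cast Finset.prod_ne_zero_iff.2
      fun l hl => (P9_prime l (Finset.mem_powerset.1 hT hl)).ne_zero
  · intro x hx y hy hxy
    obtain ⟨T, hT, rfl⟩ := Finset.mem_image.1 hx
    obtain ⟨T', hT', rfl⟩ := Finset.mem_image.1 hy
    exact hsq T hT T' hT' (fun e => hxy (by rw [e]))

end Pool.Agent.P.MP_9ec3f0_nt.SY
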