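import Pool.Agent.P.MP_9ec3f0_nt.SY.Step
import Pool.Agent.P.MP_9ec3f0_nt.SY.Adjoin
import Pool.Agent.P.MP_9ec3f0_nt.SY.Base
import Pool.Agent.P.MP_9ec3f0_nt.SY.Frob

namespace Pool.Agent.P.MP_9ec3f0_nt.SY

open NumberField IsDedekindDomain Finset Module

namespace TowerAux

theorem exp_step {K L : Type} [Field K] [NumberField K] [Field L] [NumberField L] [Algebra K L]
    [IsGalois ℚ K] {n : ℕ} (h1 : ∀ g : K ≃ₐ[ℚ] K, g ^ n = 1) (h2 : ∀ g : L ≃ₐ[K] L, g ^ 2 = 1)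
    (g : L ≃ₐ[ℚ] L) : g ^ (n * 2) = 1 := by
  have e : AlgEquiv.restrictNormalHom K (g ^ n) = 1 := by rw [map_pow]; exact h1 _
  have hfix : ∀ x : K, (g ^ n) (algebraMap K L x) = algebraMap K L x := by
    intro x
    have h := AlgEquiv.restrictNormal_commutes (g ^ n) K x
    have e' : (g ^ n).restrictNormal K = 1 := e
    rw [e'] at h
    exact h.symm
  let g' : L ≃ₐ[K] L := AlgEquiv.ofRingEquiv (f := (g ^ n).toRingEquiv) hfix
  have h3 := h2 g'
  rw [pow_mul]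
  ext x
  have h4 : (g' ^ 2) x = x := by rw [h3]; rfl
  rw [pow_two] at h4 ⊢
  exact h4

theorem isPGroup {k L : Type} [Field k] [NumberField k] [Field L] [NumberField L] [Algebra k L]
    {n : ℕ} (h : ∀ g : L ≃ₐ[ℚ] L, g ^ 2 ^ n = 1) : IsPGroup 2 (L ≃ₐ[k] L) := by
  intro g
  refine ⟨n, ?_⟩
  have key : ∀ (m : ℕ) (x : L), (g ^ m) x = ((g.restrictScalars ℚ) ^ m) x := by
    intro m
    induction m with
    | zero => intro x; rfl
    | succ m ih => intro x; rw [pow_succ, pow_succ]; exact ih _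
  ext x
  rw [key, h]; rfl

theorem level {k : Type} [Field k] [NumberField k] [IsTotallyComplex k] [IsGalois ℚ k]
    (hk : finrank ℚ k = 2) (h2 : ∀ v : Pr k, ord v (2 : k) ≤ 1) (X Y : Finset k)
    (hX : 2 ^ 9 ≤ X.card)
    (hY : Nat.card (powMonoidHom 2 : ClassGroup (𝓞 k) →* ClassGroup (𝓞 k)).ker ≤ 16 * Y.card)
    (hX1 : ∀ x ∈ X, x ≠ 0 ∧ ∀ v : Pr k, UnrAt v x) (hY1 : ∀ x ∈ Y, x ≠ 0 ∧ ∀ v : Pr k, UnrAt v x)
    (hX2 : ∀ x ∈ X, ∀ y ∈ X, x ≠ y → ¬ IsSquare (x / y))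
    (hY2 : ∀ x ∈ Y, ∀ y ∈ Y, x ≠ y → ¬ IsSquare (x / y)) (i : ℕ) :
    ∃ (L : Type) (_ : Field L) (_ : NumberField L) (_ : Algebra k L), IsGalois ℚ L ∧ Unr k L ∧
      (∀ x ∈ X, IsSquare (algebraMap k L x)) ∧ (∀ x ∈ Y, IsSquare (algebraMap k L x)) ∧
      (∀ g : L ≃ₐ[ℚ] L, g ^ 2 ^ (i + 2) = 1) ∧ 4 ^ i ≤ finrank ℚ L := by
  classical
  induction i with
  | zero =>
    obtain ⟨L, _, _, _, g1, g2, g3, g4⟩ := adjoin_step k (X ∪ Y) (fun x hx => by
      rcases mem_union.1 hx with h | h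
      exacts [(hX1 x h).2, (hY1 x h).2])
    refine ⟨L, inferInstance, inferInstance, inferInstance, g1, g2,
      fun x hx => g3 x (mem_union_left _ hx), fun x hx => g3 x (mem_union_right _ hx),
      fun g => ?_, finrank_pos⟩
    refine exp_step (K := k) (n := 2) (fun s => ?_) g4 g
    rw [← hk, ← IsGalois.card_aut_eq_finrank]
    exact pow_card_eq_one'
  | succ i ih =>
    obtain ⟨L, _, _, _, g1, g2, g3, g4, g5, g6⟩ := ih
    haveI : IsGalois k L := IsGalois.tower_top_of_isGalois ℚ k L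
    have c1 := card_le_hom (L := L) X (fun x hx => (hX1 x hx).1) g3 hX2
    have c2 := card_le_hom (L := L) Y (fun x hx => (hY1 x hx).1) g4 hY2
    obtain ⟨α, β, a1, a2, a3, a4, a5⟩ := tower_step hk h2 (isPGroup g5) g2 (hX.trans c1)
      (hY.trans (Nat.mul_le_mul_left _ c2))
    obtain ⟨L', _, _, _, f1, f2, f3, f4⟩ := adjoin_step L {α, β} (fun x hx => by
      rcases mem_insert.1 hx with h | h
      · rw [h]; exact a1
      · rw [mem_singleton.1 h]; exact a2)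
    letI : Algebra k L' := ((algebraMap L L').comp (algebraMap k L)).toAlgebra
    haveI : IsScalarTower k L L' := IsScalarTower.of_algebraMap_eq fun _ => rfl
    have h4 := four_le_finrank a3 a4 a5 (f3 α (by simp)) (f3 β (by simp))
    refine ⟨L', inferInstance, inferInstance, inferInstance, f1, g2.trans f2,
      fun x hx => (g3 x hx).map (algebraMap L L'), fun x hx => (g4 x hx).map (algebraMap L L'),
      fun g => ?_, ?_⟩
    · have := exp_step g5 f4 g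
      rwa [← pow_succ] at this
    · rw [← finrank_mul_finrank ℚ L L', pow_succ]
      exact Nat.mul_le_mul g6 h4

end TowerAux

theorem tower : ∃ D : ℕ, 0 < D ∧ ∀ (p : ℕ) [Fact p.Prime], ¬ p ∣ D → ∀ j : ℕ,
    ∃ (K : Type) (_ : Field K) (_ : NumberField K), finrank ℚ K = 2 ^ j ∧
      (discr K).natAbs ≤ D ^ 2 ^ j ∧ Nonempty (K →+* ℚ_[p]) := by
  obtain ⟨k, _, _, h1, hk, hgal, h2, X, hX, hX1, hX2⟩ := base_field
  obtain ⟨Y, hY, hY1, hY2⟩ := base_family hk h2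
  have hD : 0 < (discr k).natAbs := Int.natAbs_pos.2 (discr_ne_zero k)
  refine ⟨(discr k).natAbs, hD, fun p hp hpD j => ?_⟩
  obtain ⟨L, _, _, _, g1, g2, -, -, g5, g6⟩ :=
    TowerAux.level hk h2 X Y hX hY hX1 hY1 hX2 hY2 (j + 2)
  have hL := natAbs_discr_of_unr g2
  have hpL : ¬ (p : ℤ) ∣ discr L := by
    rw [Int.natCast_dvd, hL]
    exact fun h => hpD (hp.out.dvd_of_dvd_pow h)
  have e : 2 ^ (j + 2 + 2 + j) = 4 ^ (j + 2) := by
    rw [show (4 : ℕ) = 2 ^ 2 from rfl, ← pow_mul]; congr 1; ring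
  obtain ⟨K, hK, hemb⟩ := exists_subfield L p hpL (j + 2 + 2) j g5 (e ▸ g6)
  refine ⟨K, inferInstance, inferInstance, hK, ?_, hemb⟩
  have h3 := natAbs_discr_eq_absNorm_differentIdeal_mul_natAbs_discr_pow K (𝓞 K) L (𝓞 L)
  have h4 : (discr K).natAbs ^ finrank K L ≤ (discr L).natAbs :=
    Nat.le_of_dvd (Int.natAbs_pos.2 (discr_ne_zero L)) (h3 ▸ Dvd.intro_left _ rfl)
  have h5 : finrank k L ≤ 2 ^ j * finrank K L := by
    rw [← hK, finrank_mul_finrank, ← finrank_mul_finrank ℚ k L, hk]; omega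
  have h6 : (discr K).natAbs ^ finrank K L ≤ ((discr k).natAbs ^ 2 ^ j) ^ finrank K L := by
    rw [← pow_mul]
    exact h4.trans (hL ▸ Nat.pow_le_pow_right hD h5)
  exact (Nat.pow_le_pow_iff_left (finrank_pos (R := K) (M := L)).ne').1 h6

end Pool.Agent.P.MP_9ec3f0_nt.SY
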