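import Pool.Agent.P.MP_9ec3f0_nt.SY.OrdSmall
import Pool.Agent.P.MP_9ec3f0_nt.SY.Tower

namespace Pool.Agent.P.MP_9ec3f0_nt.SY

open NumberField IsDedekindDomain Finset Module

namespace OrdAux

theorem rank_bounds (K : Type) [Field K] [NumberField K] :
    finrank ℚ K ≤ 2 * Units.rank K + 2 ∧ Units.rank K ≤ finrank ℚ K := by
  have h1 := InfinitePlace.card_add_two_mul_card_eq_rank K
  have h2 := InfinitePlace.card_eq_nrRealPlaces_add_nrComplexPlaces K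
  unfold Units.rank
  omega

/-- The real inequality behind `ord_large`. -/
theorem main_ineq {C1 c G Λ L : ℝ} {d n m : ℕ} (hC1 : 1 ≤ C1) (hc : c = 1 / (28800 * C1 ^ 2))
    (hG : 1 ≤ c * G) (hGΛ : G ≤ Λ) (hd1 : (d : ℝ) ≤ c * G) (hd2 : c * G ≤ 2 * d)
    (hn1 : d ≤ 2 * n + 2) (hn2 : n ≤ d) (hm1 : 1 ≤ m) (hm2 : (m : ℝ) ≤ 2 * Λ) (hL : 0 ≤ L) :
    4 ^ (n + m) * (Real.exp G * C1 ^ d * ((d : ℝ) ^ m * L)
        * (2400 * ((n + m : ℕ) : ℝ) / G) ^ (n + m - 1))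
      ≤ 3 * C1 ^ 2 * Λ * Real.exp (G * (1 - c / 4)) * ((3 * Λ) ^ m * L) := by
  have hC2 : 1 ≤ C1 ^ 2 := one_le_pow₀ hC1
  have hc0 : 0 < c := by rw [hc]; positivity
  have hcC : 28800 * C1 ^ 2 * c = 1 := by rw [hc]; field_simp
  have hc1 : 28800 * c ≤ 1 := by nlinarith only [hcC, hC2, hc0]
  have hG0 : 0 < G := by
    by_contra h
    have := mul_nonpos_of_nonneg_of_nonpos hc0.le (not_lt.1 h)
    linarith
  have hG1 : c * G ≤ G := by nlinarith only [hc1, hG0]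
  have hΛ1 : 1 ≤ Λ := by linarith
  set a := c * G with ha
  set r : ℝ := ((n + m : ℕ) : ℝ) with hr
  have hrnm : r = n + m := by rw [hr]; push_cast; ring
  have hm1' : (1 : ℝ) ≤ m := by exact_mod_cast hm1
  have hn0 : (0 : ℝ) ≤ n := Nat.cast_nonneg n
  have hna : (n : ℝ) ≤ a := le_trans (by exact_mod_cast hn2) hd1
  have hr1 : 1 ≤ r := by linarith
  have hr3 : r ≤ 3 * Λ := by linarith
  set x := 9600 * r / G with hx
  have hx0 : 0 < x := by positivity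
  -- absorb the factor `4 ^ r`
  have e1 : (4 : ℝ) ^ (n + m) * (2400 * r / G) ^ (n + m - 1) ≤ Λ * (x ^ n * x ^ m) := by
    obtain ⟨k, hk⟩ : ∃ k, n + m = k + 1 := ⟨n + m - 1, by omega⟩
    rw [← pow_add, hk, Nat.add_sub_cancel, pow_succ, pow_succ]
    have e : (4 : ℝ) ^ k * 4 * (2400 * r / G) ^ k = x ^ k * 4 := by
      rw [hx, show 9600 * r / G = 4 * (2400 * r / G) by ring, mul_pow]; ring
    have h4 : 4 ≤ Λ * x := by
      rw [hx, mul_div_assoc', le_div_iff₀ hG0]; nlinarith only [hr1, hGΛ, hΛ1]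
    rw [e]
    calc x ^ k * 4 ≤ x ^ k * (Λ * x) := by gcongr
      _ = _ := by ring
  -- the unit part
  have e2 : C1 ^ d * x ^ n ≤ 3 * C1 ^ 2 * Real.exp (-(G * (c / 4))) * 3 ^ m := by
    have a0 : 0 < a := by linarith
    have h1 : r ≤ a * Real.exp (m / a) := by
      have := Real.add_one_le_exp (m / a)
      have e : a * (m / a + 1) = m + a := by field_simp
      linarith only [mul_le_mul_of_nonneg_left this a0.le, e, hrnm, hna]
    have h2 : C1 ^ 2 * x ≤ Real.exp (-1) * Real.exp (m / a) := by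
      have h3 : C1 ^ 2 * x ≤ 1 / 3 * Real.exp (m / a) := by
        rw [hx, mul_div_assoc', div_le_iff₀ hG0]
        calc C1 ^ 2 * (9600 * r) ≤ C1 ^ 2 * (9600 * (a * Real.exp (m / a))) := by gcongr
          _ = (28800 * C1 ^ 2 * c) * (1 / 3 * Real.exp (m / a) * G) := by rw [ha]; ring
          _ = _ := by rw [hcC, one_mul]
      refine h3.trans (mul_le_mul_of_nonneg_right ?_ (Real.exp_pos _).le)
      rw [Real.exp_neg, one_div]
      exact inv_anti₀ (Real.exp_pos _) (by linarith [Real.exp_one_lt_d9])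
    have h4 : (C1 ^ 2 * x) ^ n ≤ Real.exp (1 - G * (c / 4) + m) := by
      refine (pow_le_pow_left₀ (by positivity) h2 n).trans ?_
      rw [← Real.exp_add, ← Real.exp_nat_mul, Real.exp_le_exp]
      have h5 : (n : ℝ) * (m / a) ≤ m := by
        rw [mul_div_assoc', div_le_iff₀ a0]; nlinarith only [hna, hm1']
      have h6 : (d : ℝ) ≤ 2 * n + 2 := by exact_mod_cast hn1
      have h7 : G * (c / 4) = a / 4 := by rw [ha]; ring
      linarith only [h5, h6, h7, hd2]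
    have h7 : Real.exp m ≤ 3 ^ m := by
      rw [← mul_one (m : ℝ), Real.exp_nat_mul]
      exact pow_le_pow_left₀ (by positivity) (by linarith [Real.exp_one_lt_d9]) m
    have h8 : Real.exp 1 ≤ 3 := by linarith [Real.exp_one_lt_d9]
    calc C1 ^ d * x ^ n ≤ C1 ^ (2 * n + 2) * x ^ n := by
          gcongr
      _ = C1 ^ 2 * (C1 ^ 2 * x) ^ n := by rw [mul_pow, ← pow_mul]; ring
      _ ≤ C1 ^ 2 * (Real.exp 1 * Real.exp (-(G * (c / 4))) * Real.exp m) := by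
          rw [← Real.exp_add, ← Real.exp_add]
          exact mul_le_mul_of_nonneg_left h4 (by positivity)
      _ ≤ C1 ^ 2 * (3 * Real.exp (-(G * (c / 4))) * 3 ^ m) := by gcongr
      _ = _ := by ring
  -- the prime part
  have e3 : (3 : ℝ) ^ m * ((d : ℝ) ^ m * x ^ m) ≤ (3 * Λ) ^ m := by
    rw [← mul_pow, ← mul_pow]
    refine pow_le_pow_left₀ (by positivity) ?_ m
    have : (d : ℝ) * x ≤ Λ := by
      rw [hx, mul_div_assoc', div_le_iff₀ hG0]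
      calc (d : ℝ) * (9600 * r) ≤ a * (9600 * (3 * Λ)) := by gcongr
        _ = (28800 * c) * (Λ * G) := by rw [ha]; ring
        _ ≤ 1 * (Λ * G) := by gcongr
        _ = _ := one_mul _
    linarith
  calc (4 : ℝ) ^ (n + m) * (Real.exp G * C1 ^ d * ((d : ℝ) ^ m * L)
        * (2400 * r / G) ^ (n + m - 1))
      = Real.exp G * C1 ^ d * ((d : ℝ) ^ m * L) * (4 ^ (n + m) * (2400 * r / G) ^ (n + m - 1)) := by
        ring
    _ ≤ Real.exp G * C1 ^ d * ((d : ℝ) ^ m * L) * (Λ * (x ^ n * x ^ m)) := by gcongr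
    _ = Real.exp G * Λ * L * (C1 ^ d * x ^ n) * ((d : ℝ) ^ m * x ^ m) := by ring
    _ ≤ Real.exp G * Λ * L * (3 * C1 ^ 2 * Real.exp (-(G * (c / 4))) * 3 ^ m)
        * ((d : ℝ) ^ m * x ^ m) := by gcongr
    _ = 3 * C1 ^ 2 * Λ * (Real.exp G * Real.exp (-(G * (c / 4)))) * L
        * (3 ^ m * ((d : ℝ) ^ m * x ^ m)) := by ring
    _ ≤ 3 * C1 ^ 2 * Λ * (Real.exp G * Real.exp (-(G * (c / 4)))) * L * (3 * Λ) ^ m := by gcongr
    _ = _ := by
        rw [← Real.exp_add, show G + -(G * (c / 4)) = G * (1 - c / 4) by ring]; ring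

end OrdAux

open OrdAux in
theorem ord_large : ∃ δ : ℝ, 0 < δ ∧ δ ≤ 1 ∧ ∃ C : ℝ, 0 < C ∧
    ∀ (p : ℕ) (Pp : Finset ℕ) (u v : ℤ) (Λ : ℝ), p.Prime →
    (∀ l ∈ Pp, l.Prime) → p ∉ Pp → Pp.Nonempty → u ≠ 0 → v ≠ 0 → u ≠ v →
    (∀ l : ℕ, l.Prime → (l : ℤ) ∣ u * v → l ∈ Pp) → 1 ≤ Λ → Real.log p ≤ Λ →
    ∑ l ∈ Pp, Real.log l ≤ Λ → Real.log (|(u : ℝ)| + |(v : ℝ)|) ≤ Real.exp Λ →
    (padicValInt p (u - v) : ℝ) * Real.log p ≤
      C * Λ ^ 30 * (p : ℝ) ^ (1 - δ) * ∏ l ∈ Pp, (C * Λ * Real.log l) := by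
  obtain ⟨C, hC, H⟩ := padic_bound
  obtain ⟨Cs, hCs, Hs⟩ := ord_small
  obtain ⟨D, hD, HT⟩ := tower
  have hD1 : (1 : ℝ) ≤ D := by exact_mod_cast hD
  set C1 : ℝ := 500 * (D : ℝ) ^ 3 with hC1
  have hDC : (D : ℝ) ≤ C1 := by
    have : (D : ℝ) ^ 1 ≤ (D : ℝ) ^ 3 := pow_le_pow_right₀ hD1 (by norm_num)
    rw [pow_one] at this
    linarith
  have hC11 : 1 ≤ C1 := hD1.trans hDC
  have hC12 : C1 ≤ C1 ^ 2 := by nlinarith only [hC11]
  set c : ℝ := 1 / (28800 * C1 ^ 2) with hc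
  have hc0 : 0 < c := by positivity
  have hc1 : c ≤ 1 / 28800 := by
    rw [hc]; exact one_div_le_one_div_of_le (by norm_num) (by linarith only [hC11, hC12])
  set p0 : ℝ := Real.exp (1 / c) + 256 + D with hp0
  have hp01 : 1 ≤ p0 := by have := Real.exp_pos (1 / c); linarith
  set C2 : ℝ := 3 * C1 ^ 2 + 9 with hC2
  have hC20 : 0 < C2 := by positivity
  set C3 : ℝ := C * C2 ^ 12 * (1 + 3 * C1 ^ 2) with hC3
  have hC30 : 0 < C3 := by positivity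
  have hCp : 0 < Cs * p0 := by positivity
  refine ⟨c / 4, by positivity, by linarith, Cs * p0 + C3 + 8, by positivity, ?_⟩
  intro p Pp u v Λ hp hP hpP hne hu hv huv hdiv hΛ hlp hsum hht
  have : Fact p.Prime := ⟨hp⟩
  set m := Pp.card with hm
  have hm1 : 1 ≤ m := Finset.card_pos.2 hne
  have hm2 : (m : ℝ) ≤ 2 * Λ := card_le hP hsum
  have hp2 : (2 : ℝ) ≤ p := by exact_mod_cast hp.two_le
  have hpp : (0 : ℝ) < p := by linarith
  set L := ∏ l ∈ Pp, Real.log l with hL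
  have hL1 : 1 ≤ 2 ^ m * L := one_le_prod hP
  have hL0 : 0 ≤ L := Finset.prod_nonneg fun l hl => by linarith [half_le_log (hP l hl)]
  have hLe : L ≤ Real.exp Λ := prod_log_le hP hsum
  have hq1 : 1 ≤ (p : ℝ) ^ (1 - c / 4) := Real.one_le_rpow (by linarith) (by linarith)
  rw [prod_const_mul, ← hm, ← hL]
  by_cases hsm : (p : ℝ) ≤ p0
  · refine (Hs p Pp u v Λ hp hP hpP hne hu hv huv hdiv hΛ hlp hsum hht).trans ?_
    rw [prod_const_mul, ← hm, ← hL]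
    have h1 : Cs ≤ (Cs * p0 + C3 + 8) * Λ :=
      le_trans (by linarith only [le_mul_of_one_le_right hCs.le hp01, hC30])
        (le_mul_of_one_le_right (by positivity) hΛ)
    calc Cs * Λ ^ 30 * p * (Cs ^ m * L) ≤ Cs * Λ ^ 30 * p0 * (Cs ^ m * L) := by gcongr
      _ = (Cs * p0) * Λ ^ 30 * 1 * (Cs ^ m * L) := by ring
      _ ≤ _ := by gcongr; linarith
  push Not at hsm
  set G := Real.log p with hG
  have hexp := Real.exp_pos (1 / c)
  have hG1 : 1 ≤ c * G := by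
    have h1 : 1 / c ≤ G := by
      rw [hG, Real.le_log_iff_exp_le hpp]; linarith
    rwa [div_le_iff₀' hc0] at h1
  have hG0 : 0 < G := by
    by_contra h
    have := mul_nonpos_of_nonneg_of_nonpos hc0.le (not_lt.1 h)
    linarith
  have hpD : ¬ p ∣ D := fun h => by
    have : (p : ℝ) ≤ D := by exact_mod_cast Nat.le_of_dvd hD h
    linarith
  have hfl : ⌊c * G⌋₊ ≠ 0 := by
    have := Nat.floor_pos.2 hG1; omega
  obtain ⟨K, _, _, hd, hdisc, ⟨ι⟩⟩ := HT p hpD (Nat.log 2 ⌊c * G⌋₊)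
  rw [← hd] at hdisc
  set d := finrank ℚ K with hdd
  have hd1 : (d : ℝ) ≤ c * G := by
    have h1 : d ≤ ⌊c * G⌋₊ := hd ▸ Nat.pow_log_le_self 2 hfl
    exact le_trans (by exact_mod_cast h1) (Nat.floor_le (by linarith))
  have hd2 : c * G ≤ 2 * d := by
    have h1 : ⌊c * G⌋₊ + 1 ≤ 2 * d := by
      have := Nat.lt_pow_succ_log_self (b := 2) (by norm_num) ⌊c * G⌋₊
      rw [pow_succ, ← hd] at this
      omega
    have h2 : ((⌊c * G⌋₊ + 1 : ℕ) : ℝ) ≤ ((2 * d : ℕ) : ℝ) := by exact_mod_cast h1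
    push_cast at h2
    linarith [Nat.lt_floor_add_one (c * G)]
  obtain ⟨hn1, hn2⟩ := rank_bounds K
  set n := Units.rank K with hn
  have hn3 : (n : ℝ) ≤ c * G := le_trans (by exact_mod_cast hn2) hd1
  have hcG : c * G ≤ G / 28800 := by nlinarith only [hc1, hG0]
  have hcG0 : 0 ≤ c * G := by positivity
  set Z : ℝ := Real.exp G * C1 ^ d * ((d : ℝ) ^ m * L)
    * (2400 * ((n + m : ℕ) : ℝ) / G) ^ (n + m - 1) with hZ
  have hZ0 : 0 ≤ Z := by positivity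
  have hq : Real.exp (G * (1 - c / 4)) = (p : ℝ) ^ (1 - c / 4) := by
    rw [Real.rpow_def_of_pos hpp]
  have hZ1 : 4 ^ (n + m) * Z ≤ 3 * C1 ^ 2 * Λ * (p : ℝ) ^ (1 - c / 4) * ((3 * Λ) ^ m * L) := by
    rw [← hq]
    exact main_ineq hC11 hc hG1 hlp hd1 hd2 hn1 hn2 hm1 hm2 hL0
  have hΛ2 : Λ ≤ Λ ^ 2 := by nlinarith only [hΛ]
  have hC29 : 9 * Λ ^ 2 ≤ C2 * Λ ^ 2 := by
    have : 9 ≤ C2 := by linarith only [hC2, sq_nonneg C1]
    gcongr
  have hZ2 : Z ≤ Real.exp (C2 * Λ ^ 2) := by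
    have h1 : 3 * C1 ^ 2 ≤ Real.exp (3 * C1 ^ 2 * Λ ^ 2) := by
      have := Real.add_one_le_exp (3 * C1 ^ 2 * Λ ^ 2)
      have : 3 * C1 ^ 2 * 1 ≤ 3 * C1 ^ 2 * Λ ^ 2 := by gcongr; linarith
      linarith
    have h2 : Λ ≤ Real.exp Λ := by linarith [Real.add_one_le_exp Λ]
    have h3 : (p : ℝ) ^ (1 - c / 4) ≤ Real.exp Λ := by
      rw [← hq, Real.exp_le_exp]; linarith only [hcG0, hlp]
    have h4 : (3 * Λ) ^ m ≤ Real.exp (6 * Λ ^ 2) :=
      (pow_le_exp (by linarith) m).trans (Real.exp_le_exp.2 (by nlinarith only [hm2, hΛ]))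
    calc Z ≤ 4 ^ (n + m) * Z := le_mul_of_one_le_left hZ0 (one_le_pow₀ (by norm_num))
      _ ≤ Real.exp (3 * C1 ^ 2 * Λ ^ 2) * Real.exp Λ * Real.exp Λ
          * (Real.exp (6 * Λ ^ 2) * Real.exp Λ) := hZ1.trans (by gcongr)
      _ ≤ _ := by
          simp only [← Real.exp_add]
          rw [Real.exp_le_exp, hC2]; linarith only [hΛ2]
  have key := H K p ι D 1 Pp u v (C2 * Λ ^ 2) Z hD hdisc
    (by have : (256 : ℝ) ≤ p := by linarith
        rw [pow_one]; exact_mod_cast this)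
    (by rw [Nat.cast_one, one_mul]; linarith) hP hpP hne hu hv huv hdiv
    (by rw [hZ, Real.exp_log hpp, prod_const_mul, pow_one, Nat.cast_one, one_mul])
    (by linarith) (by push_cast; linarith) (by rw [Nat.cast_one, one_mul]; linarith)
    (by have h1 := Real.log_le_sub_one_of_pos (by linarith : (0 : ℝ) < D)
        have h2 : C2 * 1 ≤ C2 * Λ ^ 2 := by gcongr; linarith
        linarith only [h1, h2, hC2, hDC, hC12, hC11])
    (hht.trans (Real.exp_le_exp.2 (by linarith))) hZ2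
  refine (val_le p huv (not_dvd_right hp hpP hdiv) key).trans ?_
  have h1 : (4 : ℝ) ^ (n + m) * (1 + Z)
      ≤ (1 + 3 * C1 ^ 2) * Λ * (p : ℝ) ^ (1 - c / 4) * ((8 * Λ) ^ m * L) := by
    have a0 : (4 : ℝ) ^ n ≤ (p : ℝ) ^ (1 - c / 4) := by
      have b1 : (4 : ℝ) ≤ Real.exp 4 := by linarith [Real.add_one_le_exp 4]
      calc (4 : ℝ) ^ n ≤ Real.exp (n * 4) := pow_le_exp (by norm_num) n
        _ ≤ _ := by rw [← hq, Real.exp_le_exp]; linarith only [hn3, hcG, hG0]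
    have a1 : (4 : ℝ) ^ (n + m) ≤ Λ * (p : ℝ) ^ (1 - c / 4) * ((8 * Λ) ^ m * L) := by
      calc (4 : ℝ) ^ (n + m) ≤ 4 ^ (n + m) * (2 ^ m * L) :=
            le_mul_of_one_le_right (by positivity) hL1
        _ = 1 * 4 ^ n * ((8 * 1) ^ m * L) := by
            rw [show (8 * 1 : ℝ) = 4 * 2 by norm_num, mul_pow, pow_add]; ring
        _ ≤ _ := by gcongr
    have a2 : (4 : ℝ) ^ (n + m) * Z
        ≤ 3 * C1 ^ 2 * Λ * (p : ℝ) ^ (1 - c / 4) * ((8 * Λ) ^ m * L) :=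
      hZ1.trans (by gcongr; norm_num)
    linarith
  have h2 : Λ ^ 25 ≤ Λ ^ 30 := pow_le_pow_right₀ hΛ (by norm_num)
  calc C * (C2 * Λ ^ 2) ^ 12 * 4 ^ (n + m) * (1 + Z)
      = C * C2 ^ 12 * Λ ^ 24 * (4 ^ (n + m) * (1 + Z)) := by ring
    _ ≤ C * C2 ^ 12 * Λ ^ 24
        * ((1 + 3 * C1 ^ 2) * Λ * (p : ℝ) ^ (1 - c / 4) * ((8 * Λ) ^ m * L)) := by gcongr
    _ = C3 * Λ ^ 25 * (p : ℝ) ^ (1 - c / 4) * ((8 * Λ) ^ m * L) := by rw [hC3]; ring
    _ ≤ _ := by gcongr <;> linarith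

end Pool.Agent.P.MP_9ec3f0_nt.SY
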