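import Pool.Agent.P.MP_9ec3f0_nt.SY.RealBound
import Pool.Agent.P.MP_9ec3f0_nt.SY.OrdLarge

namespace Pool.Agent.P.MP_9ec3f0_nt.SY

open NumberField IsDedekindDomain Finset Module

namespace AbcAux

theorem fact_le (S : Finset ℕ) (hS : ∀ l ∈ S, 1 ≤ l) : S.card.factorial ≤ ∏ l ∈ S, l := by
  induction S using Finset.induction_on_max with
  | empty => simp
  | insert a s hs ih =>
    have ha : a ∉ s := fun h => lt_irrefl _ (hs a h)
    rw [Finset.card_insert_of_notMem ha, Finset.prod_insert ha, Nat.factorial_succ]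
    have h1 : s ⊆ Finset.Ico 1 a :=
      fun x hx => Finset.mem_Ico.2 ⟨hS x (mem_insert_of_mem hx), hs x hx⟩
    have h2 := Finset.card_le_card h1
    rw [Nat.card_Ico] at h2
    have h3 := hS a (mem_insert_self _ _)
    exact Nat.mul_le_mul (by omega) (ih fun l hl => hS l (mem_insert_of_mem hl))

theorem prod_div_le (S : Finset ℕ) (hS : ∀ l ∈ S, 1 ≤ l) {B : ℝ} (hB : 0 ≤ B) :
    ∏ l ∈ S, (B / l) ≤ Real.exp B := by
  rw [Finset.prod_div_distrib, Finset.prod_const]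
  refine le_trans ?_ (Real.pow_div_factorial_le_exp B hB S.card)
  have h2 : (S.card.factorial : ℝ) ≤ ∏ l ∈ S, (l : ℝ) := by
    rw [← Nat.cast_prod]; exact_mod_cast fact_le S hS
  have h3 : (0 : ℝ) < S.card.factorial := by exact_mod_cast Nat.factorial_pos _
  gcongr

theorem prod_log_le (S : Finset ℕ) (hS : ∀ l ∈ S, 1 ≤ l) {A θ : ℝ} (hA : 0 ≤ A)
    (hθ : 7 / 24 ≤ θ) :
    ∏ l ∈ S, (A * Real.log l) ≤ (∏ l ∈ S, (l : ℝ)) ^ θ * Real.exp ((24 * A) ^ 4) := by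
  have h1 : ∀ l ∈ S, (1 : ℝ) ≤ l := fun l hl => by exact_mod_cast hS l hl
  have h2 : ∏ l ∈ S, (24 * A / (l : ℝ) ^ (1 / 4 : ℝ)) ≤ Real.exp ((24 * A) ^ 4) := by
    refine le_of_pow_le_pow_left₀ (n := 4) (by norm_num) (Real.exp_pos _).le ?_
    rw [← Finset.prod_pow]
    have h3 : ∏ l ∈ S, (24 * A / (l : ℝ) ^ (1 / 4 : ℝ)) ^ 4 = ∏ l ∈ S, ((24 * A) ^ 4 / l) := by
      refine Finset.prod_congr rfl fun l hl => ?_
      rw [div_pow, ← Real.rpow_natCast ((l : ℝ) ^ (1 / 4 : ℝ)), ← Real.rpow_mul (by positivity)]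
      norm_num
    rw [h3]
    exact (prod_div_le S hS (by positivity)).trans
      (le_self_pow₀ (Real.one_le_exp (by positivity)) (by norm_num))
  refine le_trans ?_ (mul_le_mul_of_nonneg_left h2 (by positivity))
  rw [← Real.finsetProd_rpow _ _ (fun l _ => by positivity), ← Finset.prod_mul_distrib]
  refine Finset.prod_le_prod (fun l hl => mul_nonneg hA (Real.log_nonneg (h1 l hl))) fun l hl => ?_
  have h0 : (0 : ℝ) < l := zero_lt_one.trans_le (h1 l hl)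
  have h4 := Real.log_le_rpow_div h0.le (show (0 : ℝ) < 1 / 24 by norm_num)
  have h5 : (l : ℝ) ^ (1 / 24 : ℝ) * (l : ℝ) ^ (1 / 4 : ℝ) ≤ (l : ℝ) ^ θ := by
    rw [← Real.rpow_add h0]
    exact Real.rpow_le_rpow_of_exponent_le (h1 l hl) (by linarith)
  have h6 : (0 : ℝ) < (l : ℝ) ^ (1 / 4 : ℝ) := by positivity
  rw [← mul_div_assoc, le_div_iff₀ h6]
  have h7 : Real.log l * (l : ℝ) ^ (1 / 4 : ℝ) ≤ 24 * (l : ℝ) ^ θ := by nlinarith
  nlinarith [mul_le_mul_of_nonneg_left h7 hA]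

theorem ord_mean : ∃ δ : ℝ, 0 < δ ∧ δ ≤ 1 ∧ ∃ C : ℝ, 1 ≤ C ∧
    ∀ (p : ℕ) (Pp : Finset ℕ) (u v : ℤ) (μ : ℝ), p.Prime →
    (∀ l ∈ Pp, l.Prime) → p ∉ Pp → Pp.Nonempty → u ≠ 0 → v ≠ 0 → u ≠ v →
    (∀ l : ℕ, l.Prime → (l : ℤ) ∣ u * v → l ∈ Pp) → 1 ≤ μ → Real.log p ≤ μ ^ 8 →
    ∑ l ∈ Pp, Real.log l ≤ μ ^ 8 → Real.log (|(u : ℝ)| + |(v : ℝ)|) ≤ Real.exp (μ ^ 8) →
    (padicValInt p (u - v) : ℝ) * Real.log p ≤
      C * (μ ^ 8) ^ 30 * (p : ℝ) ^ (1 - δ / 8) * ∏ l ∈ Pp, (C * μ * Real.log l) := by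
  obtain ⟨C₁, hC₁, h₁⟩ := ord_small
  obtain ⟨δ, hδ, hδ1, C₂, hC₂, h₂⟩ := ord_large
  refine ⟨δ, hδ, hδ1, C₁ + C₂ + 1, by linarith, ?_⟩
  intro p Pp u v μ hp hP hpP hne hu hv huv hdiv hμ hl hs hx
  have hΛ : 1 ≤ μ ^ 8 := one_le_pow₀ hμ
  have k₁ := h₁ p Pp u v _ hp hP hpP hne hu hv huv hdiv hΛ hl hs hx
  have k₂ := h₂ p Pp u v _ hp hP hpP hne hu hv huv hdiv hΛ hl hs hx
  set C := C₁ + C₂ + 1 with hC
  have hp0 : (0 : ℝ) < p := by exact_mod_cast hp.pos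
  have hlog : ∀ l : ℕ, 0 ≤ Real.log l := Real.log_natCast_nonneg
  set T := C * (μ ^ 8) ^ 30 * p * ∏ l ∈ Pp, (C * Real.log l) with hT
  have hC0 : 0 < C := by positivity
  have hT0 : 0 ≤ T := by
    have := Finset.prod_nonneg (s := Pp) (f := fun l : ℕ => C * Real.log l)
      fun l _ => mul_nonneg hC0.le (hlog l)
    positivity
  set w := μ ^ Pp.card / (p : ℝ) ^ (δ / 8) with hw
  have hw0 : 0 < w := by positivity
  have e1 : C * (μ ^ 8) ^ 30 * (p : ℝ) ^ (1 - δ / 8) * ∏ l ∈ Pp, (C * μ * Real.log l) = T * w := by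
    have : ∏ l ∈ Pp, (C * μ * Real.log l) = μ ^ Pp.card * ∏ l ∈ Pp, (C * Real.log l) := by
      rw [← Finset.prod_const, ← Finset.prod_mul_distrib]
      exact Finset.prod_congr rfl fun l _ => by ring
    rw [this, Real.rpow_sub hp0, Real.rpow_one, hT, hw]; ring
  have e2 : C * (μ ^ 8) ^ 30 * (p : ℝ) ^ (1 - δ) * ∏ l ∈ Pp, (C * μ ^ 8 * Real.log l) =
      T * w ^ 8 := by
    have : ∏ l ∈ Pp, (C * μ ^ 8 * Real.log l) =
        (μ ^ 8) ^ Pp.card * ∏ l ∈ Pp, (C * Real.log l) := by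
      rw [← Finset.prod_const, ← Finset.prod_mul_distrib]
      exact Finset.prod_congr rfl fun l _ => by ring
    have h8 : ((p : ℝ) ^ (δ / 8)) ^ 8 = (p : ℝ) ^ δ := by
      rw [← Real.rpow_natCast, ← Real.rpow_mul hp0.le]; norm_num
    rw [this, Real.rpow_sub hp0, Real.rpow_one, hT, hw, div_pow, h8]; ring
  have b1 : (padicValInt p (u - v) : ℝ) * Real.log p ≤ T := by
    refine k₁.trans ?_
    have : C₁ ≤ C := by rw [hC]; linarith
    refine mul_le_mul (by gcongr) (Finset.prod_le_prod (fun l _ => mul_nonneg hC₁.le (hlog l))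
      fun l _ => mul_le_mul_of_nonneg_right this (hlog l))
      (Finset.prod_nonneg fun l _ => mul_nonneg hC₁.le (hlog l)) (by positivity)
  have b2 : (padicValInt p (u - v) : ℝ) * Real.log p ≤ T * w ^ 8 := by
    refine k₂.trans ?_
    rw [← e2]
    have : C₂ ≤ C := by rw [hC]; linarith
    refine mul_le_mul (by gcongr) (Finset.prod_le_prod
      (fun l _ => mul_nonneg (by positivity) (hlog l))
      fun l _ => mul_le_mul_of_nonneg_right (by gcongr) (hlog l))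
      (Finset.prod_nonneg fun l _ => mul_nonneg (by positivity) (hlog l)) (by positivity)
  rw [e1]
  rcases le_total 1 w with h | h
  · exact b1.trans (le_mul_of_one_le_right hT0 h)
  · exact b2.trans (mul_le_mul_of_nonneg_left (pow_le_of_le_one hw0.le h (by norm_num)) hT0)

theorem prod_three (P : Finset ℕ) (hP : ∀ l ∈ P, l.Prime) {p q r : ℕ} (hp : p ∈ P) (hq : q ∈ P)
    (hr : r ∈ P) (hpq : p < q) (hpr : p < r) (hqr : q ≠ r) {A θ Λ : ℝ} (hA : 0 ≤ A)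
    (hθ : 7 / 24 ≤ θ) (hΛ : ∑ l ∈ P, Real.log l ≤ Λ) :
    (p : ℝ) ^ (3 * θ) * ∏ l ∈ P.erase p, (A * Real.log l) ≤
      (A * Λ) ^ 2 * Real.exp ((24 * A) ^ 4) * (∏ l ∈ P, (l : ℝ)) ^ θ := by
  have hq' : q ∈ P.erase p := mem_erase.2 ⟨hpq.ne', hq⟩
  have hr' : r ∈ (P.erase p).erase q := mem_erase.2 ⟨hqr.symm, mem_erase.2 ⟨hpr.ne', hr⟩⟩
  have hlog : ∀ l : ℕ, 0 ≤ Real.log l := Real.log_natCast_nonneg
  have hle : ∀ l ∈ P, Real.log l ≤ Λ := fun l hl =>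
    (Finset.single_le_sum (f := fun l : ℕ => Real.log l) (fun l _ => hlog l) hl).trans hΛ
  rw [← Finset.mul_prod_erase _ _ hq', ← Finset.mul_prod_erase _ _ hr',
    ← Finset.mul_prod_erase _ _ hp, ← Finset.mul_prod_erase _ _ hq',
    ← Finset.mul_prod_erase _ _ hr']
  set S := ((P.erase p).erase q).erase r with hS
  have h1 := prod_log_le S (fun l hl => (hP l (mem_of_mem_erase (mem_of_mem_erase
    (mem_of_mem_erase hl)))).one_le) hA hθ
  have hQ : 0 ≤ ∏ l ∈ S, (l : ℝ) := Finset.prod_nonneg fun l _ => by positivity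
  set Q := ∏ l ∈ S, (l : ℝ)
  have h2 : (p : ℝ) ^ (3 * θ) * Q ^ θ ≤ (p * (q * (r * Q))) ^ θ := by
    rw [Real.rpow_mul (by positivity), ← Real.mul_rpow (by positivity) hQ]
    refine Real.rpow_le_rpow (by positivity) ?_ (by linarith)
    have a1 : (p : ℝ) ≤ q := by exact_mod_cast hpq.le
    have a2 : (p : ℝ) ≤ r := by exact_mod_cast hpr.le
    have : (p : ℝ) ^ (3 : ℝ) * Q = p * (p * (p * Q)) := by
      rw [show (3 : ℝ) = ((3 : ℕ) : ℝ) by norm_num, Real.rpow_natCast]; ring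
    rw [this]; gcongr
  have a1 := hle q hq
  have a2 := hle r hr
  have a3 := hlog q
  have a4 := hlog r
  have a5 : 0 ≤ Λ := a3.trans a1
  calc (p : ℝ) ^ (3 * θ) * (A * Real.log q * (A * Real.log r * ∏ l ∈ S, (A * Real.log l)))
      ≤ (p : ℝ) ^ (3 * θ) * (A * Λ * (A * Λ * (Q ^ θ * Real.exp ((24 * A) ^ 4)))) := by
        have := Finset.prod_nonneg (s := S) (f := fun l : ℕ => A * Real.log l)
          fun l _ => mul_nonneg hA (hlog l)
        gcongr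
    _ = (A * Λ) ^ 2 * Real.exp ((24 * A) ^ 4) * ((p : ℝ) ^ (3 * θ) * Q ^ θ) := by ring
    _ ≤ _ := by gcongr

theorem three : ∃ θ : ℝ, 7 / 24 ≤ θ ∧ θ < 1 / 3 ∧ ∃ C : ℝ, 1 ≤ C ∧
    ∀ (P : Finset ℕ) (u v : ℤ) (μ : ℝ), (∀ l ∈ P, l.Prime) → u ≠ 0 → v ≠ 0 → u ≠ v →
    IsCoprime u v → (∀ l : ℕ, l.Prime → (l : ℤ) ∣ u * v * (u - v) → l ∈ P) →
    (∀ p : ℕ, p.Prime → (p : ℤ) ∣ u - v → ∃ q r : ℕ, q.Prime ∧ r.Prime ∧ (q : ℤ) ∣ u ∧
      (r : ℤ) ∣ v ∧ p ≤ q ∧ p ≤ r) → 1 ≤ μ →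
    ∑ l ∈ P, Real.log l ≤ μ ^ 8 → Real.log (|(u : ℝ)| + |(v : ℝ)|) ≤ Real.exp (μ ^ 8) →
    Real.log ((u - v).natAbs : ℕ) ≤
      2 * C ^ 3 * (μ ^ 8) ^ 34 * Real.exp ((24 * (C * μ)) ^ 4) * (∏ l ∈ P, (l : ℝ)) ^ θ := by
  obtain ⟨δ, hδ, hδ1, C, hC, h⟩ := ord_mean
  refine ⟨(1 - δ / 8) / 3, by linarith, by linarith, C, hC, ?_⟩
  intro P u v μ hP hu hv huv hcop hdiv hmax hμ hs hx
  have hlog : ∀ l : ℕ, 0 ≤ Real.log l := Real.log_natCast_nonneg
  have hnd : ∀ l : ℕ, l.Prime → (l : ℤ) ∣ u → (l : ℤ) ∣ v → False := fun l hl h1 h2 =>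
    (Nat.prime_iff_prime_int.1 hl).not_isUnit (hcop.isUnit_of_dvd' h1 h2)
  have hΛ : 1 ≤ μ ^ 8 := one_le_pow₀ hμ
  set M := C ^ 3 * (μ ^ 8) ^ 33 * Real.exp ((24 * (C * μ)) ^ 4) *
    (∏ l ∈ P, (l : ℝ)) ^ ((1 - δ / 8) / 3) with hM
  have hM0 : 0 ≤ M := by
    have : 0 ≤ ∏ l ∈ P, (l : ℝ) := Finset.prod_nonneg fun l _ => by positivity
    positivity
  have hsub : (u - v).natAbs.primeFactors ⊆ P := fun p hp => by
    obtain ⟨h1, h2, -⟩ := Nat.mem_primeFactors.1 hp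
    exact hdiv p h1 (Dvd.dvd.mul_left (Int.natCast_dvd.2 h2) _)
  have key : ∀ p ∈ (u - v).natAbs.primeFactors,
      ((u - v).natAbs.factorization p : ℝ) * Real.log p ≤ M * (2 * Real.log p) := by
    intro p hp
    obtain ⟨h1, h2, -⟩ := Nat.mem_primeFactors.1 hp
    have h3 : (p : ℤ) ∣ u - v := Int.natCast_dvd.2 h2
    obtain ⟨q, r, hq, hr, hqu, hrv, hpq, hpr⟩ := hmax p h1 h3
    have n1 : ¬ (p : ℤ) ∣ u := fun h4 => hnd p h1 h4 (by simpa using h4.sub h3)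
    have n2 : ¬ (p : ℤ) ∣ v := fun h4 => hnd p h1 (by simpa using h3.add h4) h4
    have hpq' : p < q := lt_of_le_of_ne hpq fun e => n1 (e ▸ hqu)
    have hpr' : p < r := lt_of_le_of_ne hpr fun e => n2 (e ▸ hrv)
    have hqr : q ≠ r := fun e => hnd q hq hqu (e ▸ hrv)
    have hqP : q ∈ P := hdiv q hq ((hqu.mul_right _).mul_right _)
    have hrP : r ∈ P := hdiv r hr ((hrv.mul_left _).mul_right _)
    have hpP := hsub hp
    have k := h p (P.erase p) u v μ h1 (fun l hl => hP l (mem_of_mem_erase hl))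
      (notMem_erase _ _) ⟨q, mem_erase.2 ⟨hpq'.ne', hqP⟩⟩ hu hv huv
      (fun l hl hd => mem_erase.2 ⟨fun e => by
        subst e
        exact ((Nat.prime_iff_prime_int.1 hl).dvd_or_dvd hd).elim n1 n2,
        hdiv l hl (hd.mul_right _)⟩) hμ
      ((Finset.single_le_sum (f := fun l : ℕ => Real.log l) (fun l _ => hlog l) hpP).trans hs)
      ((Finset.sum_le_sum_of_subset_of_nonneg (erase_subset _ _) fun l _ _ => hlog l).trans hs) hx
    have k2 := prod_three P hP hpP hqP hrP hpq' hpr' hqr (A := C * μ) (θ := (1 - δ / 8) / 3)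
      (by positivity) (by linarith) hs
    rw [show 3 * ((1 - δ / 8) / 3) = 1 - δ / 8 by ring] at k2
    rw [Nat.factorization_def _ h1]
    have k3 : (1 : ℝ) ≤ 2 * Real.log p := by
      have : (2 : ℝ) ≤ p := by exact_mod_cast h1.two_le
      have := Real.log_le_log (by norm_num) this
      linarith [Real.log_two_gt_d9]
    refine le_trans ?_ (le_mul_of_one_le_right hM0 k3)
    refine k.trans ?_
    rw [mul_assoc]
    refine (mul_le_mul_of_nonneg_left k2 (by positivity)).trans ?_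
    have k4 : μ ^ 2 ≤ μ ^ 8 := pow_le_pow_right₀ hμ (by norm_num)
    have : 0 ≤ ∏ l ∈ P, (l : ℝ) := Finset.prod_nonneg fun l _ => by positivity
    calc _ = C ^ 3 * ((μ ^ 8) ^ 32 * μ ^ 2) * Real.exp ((24 * (C * μ)) ^ 4) *
          (∏ l ∈ P, (l : ℝ)) ^ ((1 - δ / 8) / 3) := by ring
      _ ≤ C ^ 3 * ((μ ^ 8) ^ 32 * μ ^ 8) * Real.exp ((24 * (C * μ)) ^ 4) *
          (∏ l ∈ P, (l : ℝ)) ^ ((1 - δ / 8) / 3) := by gcongr
      _ = M := by rw [hM]; ring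
  rw [Real.log_nat_eq_sum_factorization, Finsupp.sum, Nat.support_factorization]
  refine (Finset.sum_le_sum key).trans ?_
  rw [← Finset.mul_sum, ← Finset.mul_sum]
  have := (Finset.sum_le_sum_of_subset_of_nonneg hsub fun l _ _ => hlog l).trans hs
  calc _ ≤ M * (2 * μ ^ 8) := by gcongr
    _ = _ := by rw [hM]; ring

theorem real_part : ∃ C : ℝ, 1 ≤ C ∧ ∀ (P : Finset ℕ) (a b : ℕ) (μ θ : ℝ), (∀ l ∈ P, l.Prime) →
    0 < a → 0 < b → (∀ l : ℕ, l.Prime → l ∣ b * (a + b) → l ∈ P) → 1 ≤ μ → 7 / 24 ≤ θ →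
    ∑ l ∈ P, Real.log l ≤ μ ^ 8 → Real.log (2 * (a + b : ℕ)) ≤ Real.exp (μ ^ 8) →
    Real.log (a + b : ℕ) ≤ Real.log a + 1 +
      C * (μ ^ 8) ^ 30 * Real.exp ((24 * (C * μ)) ^ 4) * (∏ l ∈ P, (l : ℝ)) ^ θ := by
  obtain ⟨C₀, hC₀, h⟩ := real_bound
  refine ⟨C₀ + 1, by linarith, ?_⟩
  intro P a b μ θ hP ha hb hdiv hμ hθ hs hx
  have ha' : (0 : ℝ) < a := by exact_mod_cast ha
  have hb' : (0 : ℝ) < b := by exact_mod_cast hb
  have hlog : ∀ l : ℕ, 0 ≤ Real.log l := Real.log_natCast_nonneg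
  have k := h P b (a + b) (μ ^ 8) hP hb (by omega) (by omega) hdiv (one_le_pow₀ hμ) hs
    (le_trans (Real.log_le_log (by positivity) (by push_cast; linarith)) hx)
  set W := (C₀ + 1) * (μ ^ 8) ^ 30 * Real.exp ((24 * ((C₀ + 1) * μ)) ^ 4) *
    (∏ l ∈ P, (l : ℝ)) ^ θ with hW
  have h0 : 0 ≤ ∏ l ∈ P, (C₀ * Real.log l) :=
    Finset.prod_nonneg fun l _ => mul_nonneg hC₀.le (hlog l)
  have h1 : C₀ * (μ ^ 8) ^ 30 * ∏ l ∈ P, (C₀ * Real.log l) ≤ W := by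
    have h2 := prod_log_le P (fun l hl => (hP l hl).one_le) (A := (C₀ + 1) * μ) (by positivity) hθ
    have h3 : ∏ l ∈ P, (C₀ * Real.log l) ≤ ∏ l ∈ P, ((C₀ + 1) * μ * Real.log l) :=
      Finset.prod_le_prod (fun l _ => mul_nonneg hC₀.le (hlog l))
        fun l _ => mul_le_mul_of_nonneg_right (by nlinarith) (hlog l)
    rw [hW, mul_assoc _ (Real.exp _), mul_comm (Real.exp _)]
    exact mul_le_mul (by gcongr; linarith) (h3.trans h2) h0 (by positivity)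
  have hW0 : 0 ≤ W := le_trans (by positivity) h1
  have h4 : |Real.log ((b : ℝ) / (a + b : ℕ))| ≤ a / b := by
    rw [← inv_div, Real.log_inv, abs_neg, abs_of_nonneg (Real.log_nonneg (by
      rw [one_le_div hb']; push_cast; linarith))]
    refine (Real.log_le_sub_one_of_pos (by positivity)).trans (le_of_eq ?_)
    push_cast; field_simp; ring
  have h5 : Real.exp (-W) ≤ a / b := (Real.exp_le_exp.2 (by linarith)).trans (k.trans h4)
  rw [Real.exp_neg, inv_eq_one_div, div_le_div_iff₀ (Real.exp_pos _) hb'] at h5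
  have h6 : ((a + b : ℕ) : ℝ) ≤ a * (Real.exp 1 * Real.exp W) := by
    have := Real.one_le_exp hW0
    have h7 : (2 : ℝ) ≤ Real.exp 1 := by linarith [Real.add_one_le_exp 1]
    have h8 : (a : ℝ) * (2 * Real.exp W) ≤ a * (Real.exp 1 * Real.exp W) := by gcongr
    push_cast; nlinarith
  have h9 := Real.log_le_log (by positivity) h6
  rw [Real.log_mul ha'.ne' (by positivity), ← Real.exp_add, Real.log_exp] at h9
  linarith

theorem exists_top {n : ℕ} (hn : 1 < n) :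
    ∃ q : ℕ, q.Prime ∧ q ∣ n ∧ ∀ p : ℕ, p.Prime → p ∣ n → p ≤ q := by
  obtain ⟨q, hq, h⟩ := Finset.exists_max_image n.primeFactors id (Nat.nonempty_primeFactors.2 hn)
  obtain ⟨h1, h2, h3⟩ := Nat.mem_primeFactors.1 hq
  exact ⟨q, h1, h2, fun p hp hd => h p (Nat.mem_primeFactors.2 ⟨hp, hd, h3⟩)⟩

theorem one_le_rad {P : Finset ℕ} (hP : ∀ l ∈ P, l.Prime) : 1 ≤ ∏ l ∈ P, (l : ℝ) := by
  rw [← Nat.cast_prod]
  exact_mod_cast Finset.prod_pos fun l hl => (hP l hl).pos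

theorem main : ∃ θ : ℝ, 0 < θ ∧ θ < 1 / 3 ∧ ∃ C : ℝ, 1 ≤ C ∧
    ∀ (P : Finset ℕ) (a b : ℕ) (μ : ℝ), (∀ l ∈ P, l.Prime) → 0 < a → 0 < b → Nat.Coprime a b →
    (∀ l : ℕ, l.Prime → l ∣ a * b * (a + b) → l ∈ P) → 1 ≤ μ →
    ∑ l ∈ P, Real.log l ≤ μ ^ 8 → Real.log (2 * (a + b : ℕ)) ≤ Real.exp (μ ^ 8) →
    Real.log (a + b : ℕ) ≤
      4 * (C ^ 3 * ((μ ^ 8) ^ 34 * Real.exp ((24 * (C * μ)) ^ 4)) * (∏ l ∈ P, (l : ℝ)) ^ θ) := by
  obtain ⟨θ, hθ, hθ', C₁, hC₁, h₁⟩ := three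
  obtain ⟨C₂, hC₂, h₂⟩ := real_part
  refine ⟨θ, by linarith, hθ', C₁ + C₂, by linarith, ?_⟩
  intro P a b μ hP ha hb hab hdiv hμ hs hx
  set C := C₁ + C₂ with hC
  have hR : 1 ≤ (∏ l ∈ P, (l : ℝ)) ^ θ := Real.one_le_rpow (one_le_rad hP) (by linarith)
  have ra := h₂ P a b μ θ hP ha hb
    (fun l hl hd => hdiv l hl (by rw [mul_assoc]; exact hd.mul_left _)) hμ hθ hs hx
  have rb := h₂ P b a μ θ hP hb ha
    (fun l hl hd => hdiv l hl (by rw [mul_comm a b, mul_assoc, add_comm a b]; exact hd.mul_left _))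
    hμ hθ hs (by rwa [add_comm b a])
  rw [add_comm b a] at rb
  have h₃ := fun u v => h₁ P u v μ hP
  clear h₁ h₂
  set R := (∏ l ∈ P, (l : ℝ)) ^ θ
  have hΛ : 1 ≤ μ ^ 8 := one_le_pow₀ hμ
  have c1 : C₁ ≤ C := by linarith
  have c2 : C₂ ≤ C := by linarith
  have c3 : 1 ≤ C := by linarith
  set M := C ^ 3 * ((μ ^ 8) ^ 34 * Real.exp ((24 * (C * μ)) ^ 4)) * R with hM
  have m1 : 2 * C₁ ^ 3 * (μ ^ 8) ^ 34 * Real.exp ((24 * (C₁ * μ)) ^ 4) * R ≤ 2 * M := by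
    calc _ ≤ 2 * C ^ 3 * (μ ^ 8) ^ 34 * Real.exp ((24 * (C * μ)) ^ 4) * R := by gcongr
      _ = _ := by rw [hM]; ring
  have m2 : C₂ * (μ ^ 8) ^ 30 * Real.exp ((24 * (C₂ * μ)) ^ 4) * R ≤ M := by
    have h1 := c2.trans (le_self_pow₀ c3 (show 3 ≠ 0 by norm_num))
    have h2 : (μ ^ 8) ^ 30 ≤ (μ ^ 8) ^ 34 := pow_le_pow_right₀ hΛ (by norm_num)
    calc _ ≤ C ^ 3 * (μ ^ 8) ^ 34 * Real.exp ((24 * (C * μ)) ^ 4) * R := by
          refine mul_le_mul_of_nonneg_right (mul_le_mul (mul_le_mul h1 h2 (by positivity)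
            (by positivity)) (by gcongr) (by positivity) (by positivity)) (by positivity)
      _ = _ := by rw [hM]; ring
  have m3 : 1 ≤ M := one_le_mul_of_one_le_of_one_le (one_le_mul_of_one_le_of_one_le
    (one_le_pow₀ c3) (one_le_mul_of_one_le_of_one_le (one_le_pow₀ hΛ)
      (Real.one_le_exp (by positivity)))) hR
  clear_value M
  suffices Real.log a ≤ 2 * M ∨ Real.log b ≤ 2 * M ∨ Real.log (a + b : ℕ) ≤ 2 * M by
    rcases this with h | h | h <;> linarith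
  rcases (show a = 1 ∨ 1 < a by omega) with rfl | ha1
  · left; simp; linarith
  rcases (show b = 1 ∨ 1 < b by omega) with rfl | hb1
  · right; left; simp; linarith
  obtain ⟨qa, a1, a2, a3⟩ := exists_top ha1
  obtain ⟨qb, b1, b2, b3⟩ := exists_top hb1
  obtain ⟨qc, e1, e2, e3⟩ := exists_top (show 1 < a + b by omega)
  have ha' : (0 : ℝ) < a := by exact_mod_cast ha
  have hb' : (0 : ℝ) < b := by exact_mod_cast hb
  have hdiv' : ∀ (l : ℕ) (z : ℤ), l.Prime → z.natAbs = a * b * (a + b) → (l : ℤ) ∣ z → l ∈ P :=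
    fun l z hl hz hd => hdiv l hl (hz ▸ Int.natCast_dvd.1 hd)
  have hx' : ∀ t : ℝ, 0 < t → t ≤ 2 * (a + b) → Real.log t ≤ Real.exp (μ ^ 8) := fun t h0 h =>
    le_trans (Real.log_le_log h0 (by push_cast; linarith)) hx
  have hcop : IsCoprime (a : ℤ) (b : ℤ) := Nat.isCoprime_iff_coprime.2 hab
  by_cases ca : qa ≤ qb ∧ qa ≤ qc
  · left
    have e : ((a + b : ℕ) : ℤ) - b = a := by push_cast; ring
    have k := h₃ (a + b : ℕ) b (by omega) (by omega) (by omega)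
      (Nat.isCoprime_iff_coprime.2 (by simpa using hab))
      (fun l hl => hdiv' l _ hl (by rw [e]; simp only [Int.natAbs_mul, Int.natAbs_natCast]; ring))
      (fun p hp hd => ⟨qc, qb, e1, b1, Int.natCast_dvd_natCast.2 e2, Int.natCast_dvd_natCast.2 b2,
        (a3 p hp (Int.natCast_dvd_natCast.1 (e ▸ hd))).trans ca.2,
        (a3 p hp (Int.natCast_dvd_natCast.1 (e ▸ hd))).trans ca.1⟩) hμ hs
      (by push_cast; rw [abs_of_pos (by positivity), abs_of_pos hb']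
          exact hx' _ (by positivity) (by linarith))
    rw [e, Int.natAbs_natCast] at k
    exact k.trans m1
  by_cases cb : qb ≤ qa ∧ qb ≤ qc
  · right; left
    have e : ((a + b : ℕ) : ℤ) - a = b := by push_cast; ring
    have k := h₃ (a + b : ℕ) a (by omega) (by omega) (by omega)
      (Nat.isCoprime_iff_coprime.2 (by simpa using hab.symm))
      (fun l hl => hdiv' l _ hl (by rw [e]; simp only [Int.natAbs_mul, Int.natAbs_natCast]; ring))
      (fun p hp hd => ⟨qc, qa, e1, a1, Int.natCast_dvd_natCast.2 e2, Int.natCast_dvd_natCast.2 a2,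
        (b3 p hp (Int.natCast_dvd_natCast.1 (e ▸ hd))).trans cb.2,
        (b3 p hp (Int.natCast_dvd_natCast.1 (e ▸ hd))).trans cb.1⟩) hμ hs
      (by push_cast; rw [abs_of_pos (by positivity), abs_of_pos ha']
          exact hx' _ (by positivity) (by linarith))
    rw [e, Int.natAbs_natCast] at k
    exact k.trans m1
  · right; right
    have e : (a : ℤ) - -b = (a + b : ℕ) := by push_cast; ring
    have k := h₃ a (-b) (by omega) (by omega) (by omega) hcop.neg_right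
      (fun l hl => hdiv' l _ hl (by
        rw [e]; simp only [Int.natAbs_mul, Int.natAbs_neg, Int.natAbs_natCast]))
      (fun p hp hd => ⟨qa, qb, a1, b1, Int.natCast_dvd_natCast.2 a2,
        (Int.natCast_dvd_natCast.2 b2).neg_right,
        (e3 p hp (Int.natCast_dvd_natCast.1 (e ▸ hd))).trans (by omega),
        (e3 p hp (Int.natCast_dvd_natCast.1 (e ▸ hd))).trans (by omega)⟩) hμ hs
      (by push_cast; rw [abs_neg, abs_of_pos ha', abs_of_pos hb']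
          exact hx' _ (by positivity) (by linarith))
    rw [e, Int.natAbs_natCast] at k
    exact k.trans m1

theorem absorb (C : ℝ) {η : ℝ} (hη : 0 < η) : ∃ D : ℝ, 0 < D ∧ ∀ μ : ℝ,
    (μ ^ 8) ^ 34 * Real.exp ((24 * (C * μ)) ^ 4) ≤ D * Real.exp (η * μ ^ 8) := by
  refine ⟨(Nat.factorial 34 : ℝ) / (η / 2) ^ 34 * Real.exp (((24 * C) ^ 4) ^ 2 / (2 * η)),
    by positivity, fun μ => ?_⟩
  have h1 := Real.pow_div_factorial_le_exp (η / 2 * μ ^ 8) (by positivity) 34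
  have h2 : (μ ^ 8) ^ 34 ≤ (Nat.factorial 34 : ℝ) / (η / 2) ^ 34 * Real.exp (η / 2 * μ ^ 8) := by
    rw [div_le_iff₀ (by positivity), mul_pow] at h1
    rw [div_mul_eq_mul_div, le_div_iff₀ (by positivity)]
    linarith
  have h3 : (24 * (C * μ)) ^ 4 ≤ ((24 * C) ^ 4) ^ 2 / (2 * η) + η / 2 * μ ^ 8 := by
    rw [← sub_le_iff_le_add, le_div_iff₀ (by positivity)]
    nlinarith [sq_nonneg (η * μ ^ 4 - (24 * C) ^ 4)]
  calc _ ≤ (Nat.factorial 34 : ℝ) / (η / 2) ^ 34 * Real.exp (η / 2 * μ ^ 8) *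
        Real.exp (((24 * C) ^ 4) ^ 2 / (2 * η) + η / 2 * μ ^ 8) := by gcongr
    _ = _ := by
      rw [Real.exp_add, show η * μ ^ 8 = η / 2 * μ ^ 8 + η / 2 * μ ^ 8 by ring, Real.exp_add]; ring

end AbcAux

theorem abc_bound : ∃ δ : ℝ, 0 < δ ∧ ∃ C : ℝ, ∀ a b c : ℕ, 0 < a → 0 < b → a + b = c →
    Nat.Coprime a b →
    Real.log c ≤ C * ((∏ p ∈ (a * b * c).primeFactors, p : ℕ) : ℝ) ^ (1 / 3 - δ) := by
  obtain ⟨θ, hθ0, hθ, C, hC, h⟩ := AbcAux.main
  set η := (1 / 3 - θ) / 2 with hη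
  have hη0 : 0 < η := by linarith
  have hη1 : 0 < 1 - η := by linarith
  obtain ⟨D, hD, hab⟩ := AbcAux.absorb C hη0
  refine ⟨1 / 3 - (θ + η) / (1 - η), ?_, (24 * C ^ 3 * D) ^ (1 / (1 - η)), ?_⟩
  · rw [sub_pos, div_lt_iff₀ hη1]; linarith
  rintro a b _ ha hb rfl hcop
  rw [sub_sub_cancel, Nat.cast_prod]
  set P := (a * b * (a + b)).primeFactors with hP
  have hPp : ∀ l ∈ P, l.Prime := fun l hl => Nat.prime_of_mem_primeFactors hl
  have hR := AbcAux.one_le_rad hPp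
  have hlR : ∑ l ∈ P, Real.log l = Real.log (∏ l ∈ P, (l : ℝ)) :=
    (Real.log_prod fun l hl => by exact_mod_cast (hPp l hl).ne_zero).symm
  have hc : (2 : ℝ) ≤ (a + b : ℕ) := by exact_mod_cast (by omega : 2 ≤ a + b)
  have hH : Real.log 2 ≤ Real.log (a + b : ℕ) := Real.log_le_log (by norm_num) hc
  have hl2 := Real.log_two_gt_d9
  have h2c : Real.log (2 * (a + b : ℕ)) ≤ 2 * Real.log (a + b : ℕ) := by
    rw [Real.log_mul (by norm_num) (by linarith)]; linarith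
  have k := fun μ => h P a b μ hPp ha hb hcop
    fun l hl hd => Nat.mem_primeFactors.2 ⟨hl, hd, by positivity⟩
  rw [hlR] at k
  set R := ∏ l ∈ P, (l : ℝ)
  set H := Real.log (a + b : ℕ)
  have hH0 : 0 < H := by linarith
  have hE : 6 * H ≤ 6 * H * R := le_mul_of_one_le_right (by positivity) hR
  have hΛ : 1 ≤ Real.log (6 * H * R) := by
    rw [Real.le_log_iff_exp_le (by positivity)]
    linarith [Real.exp_one_lt_d9]
  have hμ : (Real.log (6 * H * R) ^ (1 / 8 : ℝ)) ^ 8 = Real.log (6 * H * R) := by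
    rw [← Real.rpow_natCast, ← Real.rpow_mul (by linarith)]; norm_num
  have k1 := k (Real.log (6 * H * R) ^ (1 / 8 : ℝ)) (Real.one_le_rpow hΛ (by norm_num))
    (by rw [hμ]; exact Real.log_le_log (by linarith) (by nlinarith))
    (by rw [hμ, Real.exp_log (by positivity)]; linarith)
  have k2 := hab (Real.log (6 * H * R) ^ (1 / 8 : ℝ))
  have k3 : Real.exp (η * (Real.log (6 * H * R) ^ (1 / 8 : ℝ)) ^ 8) ≤ 6 * H ^ η * R ^ η := by
    rw [hμ, mul_comm η, ← Real.rpow_def_of_pos (by positivity),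
      Real.mul_rpow (by positivity) (by positivity), Real.mul_rpow (by positivity) (by positivity)]
    have : (6 : ℝ) ^ η ≤ 6 := Real.rpow_le_self_of_one_le (by norm_num) (by linarith)
    gcongr
  have k4 : H ≤ 24 * C ^ 3 * D * R ^ (θ + η) * H ^ η := by
    refine k1.trans ?_
    have k7 := k2.trans (mul_le_mul_of_nonneg_left k3 hD.le)
    calc _ ≤ 4 * (C ^ 3 * (D * (6 * H ^ η * R ^ η)) * R ^ θ) :=
          mul_le_mul_of_nonneg_left (mul_le_mul_of_nonneg_right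
            (mul_le_mul_of_nonneg_left k7 (by positivity)) (by positivity)) (by norm_num)
      _ = _ := by rw [Real.rpow_add (by linarith)]; ring
  have k5 : H ^ (1 - η) ≤ 24 * C ^ 3 * D * R ^ (θ + η) := by
    rw [Real.rpow_sub hH0, Real.rpow_one, div_le_iff₀ (by positivity)]; exact k4
  have k6 := Real.rpow_le_rpow (by positivity) k5 (show 0 ≤ 1 / (1 - η) by positivity)
  rw [← Real.rpow_mul hH0.le, mul_one_div_cancel hη1.ne', Real.rpow_one,
    Real.mul_rpow (by positivity) (by positivity), ← Real.rpow_mul (by linarith),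
    mul_one_div] at k6
  exact k6

end Pool.Agent.P.MP_9ec3f0_nt.SY
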