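import Pool.Agent.P.MP_9ec3f0_nt.SY.Defs

namespace Pool.Agent.P.MP_9ec3f0_nt.SY

open NumberField IsDedekindDomain Finset Module

namespace CoordAux

/-- A basis of the span taken from the family, with all coordinates at most `1`. -/
theorem spanner {V α : Type} [AddCommGroup V] [Module ℚ V] (T : Finset α) (v : α → V) :
    ∃ (k : ℕ) (b : Fin k → α) (c : Fin k → V →ₗ[ℚ] ℚ), (∀ i, b i ∈ T) ∧
      (∀ i j, c i (v (b j)) = if j = i then 1 else 0) ∧
      ∀ a ∈ T, (∀ i, |c i (v a)| ≤ 1) ∧ v a = ∑ i, c i (v a) • v (b i) := by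
  classical
  set s : Set V := v '' (T : Set α) with hs
  have hsfin : s.Finite := T.finite_toSet.image v
  have : Module.Finite ℚ (Submodule.span ℚ s) := Module.Finite.span_of_finite ℚ hsfin
  set U : Submodule ℚ V := Submodule.span ℚ s with hU
  let e := Module.finBasis ℚ U
  let v' : T → U := fun a => ⟨v a, Submodule.subset_span ⟨a, a.2, rfl⟩⟩
  obtain ⟨f, hf, hfspan, hfli⟩ := Submodule.exists_fun_fin_finrank_span_eq ℚ s
  have hf' : ∀ i, ∃ a : T, v a = f i := fun i => by
    obtain ⟨a, ha, h⟩ := hf i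
    exact ⟨⟨a, ha⟩, h⟩
  choose b0 hb0 using hf'
  have hli0 : LinearIndependent ℚ (fun i => v' (b0 i)) := by
    apply LinearIndependent.of_comp U.subtype
    have : (U.subtype ∘ fun i => v' (b0 i)) = f := by
      funext i; exact hb0 i
    rw [this]; exact hfli
  have hsp0 : Submodule.span ℚ (Set.range fun i => v' (b0 i)) = ⊤ := by
    apply hli0.span_eq_top_of_card_eq_finrank'
    simp [U]
  have hdet0 : e.det (fun i => v' (b0 i)) ≠ 0 :=
    ((Module.Basis.is_basis_iff_det e).mp ⟨hli0, hsp0⟩).ne_zero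
  have : Nonempty (Fin (finrank ℚ U) → T) := ⟨b0⟩
  obtain ⟨b, hb⟩ := Finite.exists_max (fun b : Fin (finrank ℚ U) → T => |e.det (fun i => v' (b i))|)
  have hdet : e.det (fun i => v' (b i)) ≠ 0 := by
    intro h
    have := hb b0
    simp only [h, abs_zero] at this
    exact hdet0 (abs_nonpos_iff.mp this)
  obtain ⟨hli, hsp⟩ := (Module.Basis.is_basis_iff_det e).mpr (isUnit_iff_ne_zero.mpr hdet)
  let B := Module.Basis.mk hli hsp.ge
  have hext : ∀ i, ∃ g : V →ₗ[ℚ] ℚ, g.comp U.subtype = B.coord i := fun i =>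
    LinearMap.exists_extend _
  choose c hc using hext
  have hc' : ∀ i (a : T), c i (v a) = B.coord i (v' a) := fun i a => by
    rw [← hc i]; rfl
  refine ⟨finrank ℚ U, fun i => b i, c, fun i => (b i).2, ?_, ?_⟩
  · intro i j
    rw [hc']
    have : v' (b j) = B j := by simp [B]
    rw [this, Module.Basis.coord_apply, B.repr_self, Finsupp.single_apply]
  · intro a ha
    refine ⟨fun i => ?_, ?_⟩
    · have h1 := congrArg (fun φ => φ (v' ⟨a, ha⟩))
        (Module.Basis.det_smul_mk_coord_eq_det_update e hli hsp.ge i)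
      simp only [LinearMap.smul_apply, smul_eq_mul, MultilinearMap.toLinearMap_apply] at h1
      have h2 := hb (Function.update b i ⟨a, ha⟩)
      have h3 : (fun j => v' (Function.update b i ⟨a, ha⟩ j)) =
          Function.update (fun j => v' (b j)) i (v' ⟨a, ha⟩) := by
        funext j
        by_cases hj : j = i
        · subst hj; simp
        · simp [Function.update_of_ne hj]
      simp only [h3] at h2
      have h4 : e.det (Function.update (fun j => v' (b j)) i (v' ⟨a, ha⟩)) =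
          e.det (fun j => v' (b j)) * B.coord i (v' ⟨a, ha⟩) := h1.symm
      rw [h4, abs_mul] at h2
      have h5 : 0 < |e.det (fun j => v' (b j))| := abs_pos.mpr hdet
      have h6 := hc' i ⟨a, ha⟩
      simp only at h6
      rw [h6]
      by_contra hcon
      push Not at hcon
      nlinarith
    · have h1 := congrArg U.subtype (B.sum_repr (v' ⟨a, ha⟩))
      rw [map_sum] at h1
      have h2 : v a = U.subtype (v' ⟨a, ha⟩) := rfl
      rw [h2, ← h1]
      refine Finset.sum_congr rfl fun i _ => ?_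
      rw [map_smul, h1, ← h2]
      have h6 := hc' i ⟨a, ha⟩
      simp only at h6
      rw [h6, Module.Basis.coord_apply]
      congr 1
      simp [B, v']

/-- A discrete group of rational vectors containing the integer vectors. -/
theorem exists_index {J : Type} [Fintype J] (Γ : AddSubgroup (J → ℚ)) (Q : ℕ) (hQ : 0 < Q)
    (hZ : ∀ n : J → ℤ, (fun j => (n j : ℚ)) ∈ Γ)
    (hd : ∀ x ∈ Γ, (∀ j, |x j| < 1 / Q) → x = 0) :
    ∃ I : ℕ, 1 ≤ I ∧ I ≤ Q ^ Fintype.card J ∧ ∀ x ∈ Γ, ∀ j, ∃ n : ℤ, (I : ℚ) * x j = n := by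
  classical
  let Z : AddSubgroup (J → ℚ) :=
    { carrier := {x | ∀ j, ∃ n : ℤ, x j = n}
      zero_mem' := fun j => ⟨0, by simp⟩
      add_mem' := fun {x y} hx hy j => by
        obtain ⟨m, hm⟩ := hx j
        obtain ⟨n, hn⟩ := hy j
        exact ⟨m + n, by simp [hm, hn]⟩
      neg_mem' := fun {x} hx j => by
        obtain ⟨m, hm⟩ := hx j
        exact ⟨-m, by simp [hm]⟩ }
  have hQ' : (0 : ℚ) < Q := by exact_mod_cast hQ
  have hlt : ∀ t : ℚ, ⌊(Q : ℚ) * Int.fract t⌋₊ < Q := fun t => by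
    rw [Nat.floor_lt (mul_nonneg hQ'.le (Int.fract_nonneg t))]
    have := Int.fract_lt_one t
    nlinarith
  let cell : (J → ℚ) → J → Fin Q := fun x j => ⟨⌊(Q : ℚ) * Int.fract (x j)⌋₊, hlt _⟩
  have key : ∀ x ∈ Γ, ∀ y ∈ Γ, cell x = cell y → -x + y ∈ Z := by
    intro x hx y hy hxy
    have hmem : (-x + y) - (fun j => ((⌊y j⌋ - ⌊x j⌋ : ℤ) : ℚ)) ∈ Γ :=
      Γ.sub_mem (Γ.add_mem (Γ.neg_mem hx) hy) (hZ _)
    have h0 := hd _ hmem (fun j => by
      have h1 : ⌊(Q : ℚ) * Int.fract (x j)⌋₊ = ⌊(Q : ℚ) * Int.fract (y j)⌋₊ :=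
        congrArg Fin.val (congrFun hxy j)
      have a1 := Nat.floor_le (mul_nonneg hQ'.le (Int.fract_nonneg (x j)))
      have a2 := Nat.lt_floor_add_one ((Q : ℚ) * Int.fract (x j))
      have a3 := Nat.floor_le (mul_nonneg hQ'.le (Int.fract_nonneg (y j)))
      have a4 := Nat.lt_floor_add_one ((Q : ℚ) * Int.fract (y j))
      rw [h1] at a1 a2
      have e1 : ((-x + y) - (fun j => ((⌊y j⌋ - ⌊x j⌋ : ℤ) : ℚ))) j =
          Int.fract (y j) - Int.fract (x j) := by
        simp only [Pi.sub_apply, Pi.add_apply, Pi.neg_apply, Int.fract]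
        push_cast
        ring
      rw [e1, abs_lt, lt_div_iff₀ hQ', neg_lt, lt_div_iff₀ hQ']
      constructor <;> nlinarith)
    intro j
    refine ⟨⌊y j⌋ - ⌊x j⌋, ?_⟩
    have := congrFun h0 j
    simp only [Pi.sub_apply, Pi.zero_apply] at this
    exact sub_eq_zero.mp this
  let g : Γ ⧸ Z.addSubgroupOf Γ → J → Fin Q := fun q => cell (q.out : Γ)
  have hg : Function.Injective g := by
    intro q q' h
    have := key _ (q.out).2 _ (q'.out).2 h
    rw [← q.out_eq', ← q'.out_eq']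
    exact QuotientAddGroup.eq.mpr (AddSubgroup.mem_addSubgroupOf.mpr this)
  have : Finite (Γ ⧸ Z.addSubgroupOf Γ) := Finite.of_injective g hg
  refine ⟨Z.relIndex Γ, ?_, ?_, ?_⟩
  · exact Nat.card_pos (α := Γ ⧸ Z.addSubgroupOf Γ)
  · have := Nat.card_le_card_of_injective g hg
    have e : Z.relIndex Γ = Nat.card (Γ ⧸ Z.addSubgroupOf Γ) := rfl
    rw [e]
    simpa using this
  · intro x hx j
    obtain ⟨n, hn⟩ := AddSubgroup.nsmul_relIndex_mem Z hx j
    exact ⟨n, by simpa using hn⟩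

section H
variable {A : Type} [CommGroup A] (H : A → ℝ → Prop)

theorem H_pow (Hone : H 1 0) (Hmul : ∀ θ η a b, H θ a → H η b → H (θ * η) (a + b))
    {θ : A} {a : ℝ} (h : H θ a) (n : ℕ) : H (θ ^ n) (n * a) := by
  induction n with
  | zero => simpa using Hone
  | succ n ih =>
    have := Hmul _ _ _ _ ih h
    rw [pow_succ]
    convert this using 1
    push_cast; ring

theorem H_zpow (Hone : H 1 0) (Hmul : ∀ θ η a b, H θ a → H η b → H (θ * η) (a + b))
    (Hinv : ∀ θ a, H θ a → H θ⁻¹ a) {θ : A} {a : ℝ} (h : H θ a) (n : ℤ) :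
    H (θ ^ n) (|(n : ℝ)| * a) := by
  obtain ⟨m, rfl | rfl⟩ := n.eq_nat_or_neg
  · simpa using H_pow H Hone Hmul h m
  · simpa using Hinv _ _ (H_pow H Hone Hmul h m)

theorem H_prod (Hone : H 1 0) (Hmul : ∀ θ η a b, H θ a → H η b → H (θ * η) (a + b))
    {J : Type} (s : Finset J) (g : J → A) (h : J → ℝ) (hg : ∀ j ∈ s, H (g j) (h j)) :
    H (∏ j ∈ s, g j) (∑ j ∈ s, h j) := by
  classical
  induction s using Finset.induction_on with
  | empty => simpa using Hone
  | insert j s hj ih =>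
    rw [Finset.prod_insert hj, Finset.sum_insert hj]
    exact Hmul _ _ _ _ (hg j (Finset.mem_insert_self _ _))
      (ih fun i hi => hg i (Finset.mem_insert_of_mem hi))

variable {W : Type} [AddCommGroup W] [Module ℚ W]

theorem prod_eq_of (f : Additive A →+ W) (hf : Function.Injective f) {J : Type} [Fintype J]
    (g : J → A) (n : J → ℤ) (a : A) (D : ℕ)
    (h : (D : ℚ) • f (Additive.ofMul a) = ∑ j, (n j : ℚ) • f (Additive.ofMul (g j))) :
    a ^ D = ∏ j, g j ^ n j := by
  apply Additive.ofMul.injective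
  apply hf
  rw [ofMul_pow, ofMul_prod, map_nsmul, map_sum, ← Nat.cast_smul_eq_nsmul ℚ, h]
  refine Finset.sum_congr rfl fun j _ => ?_
  rw [ofMul_zpow, map_zsmul, Int.cast_smul_eq_zsmul]

theorem H_comb (Hone : H 1 0) (Hmul : ∀ θ η a b, H θ a → H η b → H (θ * η) (a + b))
    (Hinv : ∀ θ a, H θ a → H θ⁻¹ a)
    (Hroot : ∀ θ (n : ℕ) a, 0 < n → H (θ ^ n) (n * a) → H θ a)
    (f : Additive A →+ W) (hf : Function.Injective f) {J : Type} [Fintype J]
    (g : J → A) (h : J → ℝ) (hg : ∀ j, H (g j) (h j)) (x : J → ℚ) (a : A)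
    (ha : f (Additive.ofMul a) = ∑ j, x j • f (Additive.ofMul (g j))) :
    H a (∑ j, |(x j : ℝ)| * h j) := by
  classical
  set D : ℕ := ∏ j, (x j).den with hD
  have hDpos : 0 < D := Finset.prod_pos fun j _ => (x j).den_pos
  have hint : ∀ j, ∃ n : ℤ, (D : ℚ) * x j = n := fun j => by
    obtain ⟨m, hm⟩ : (x j).den ∣ D := Finset.dvd_prod_of_mem _ (Finset.mem_univ j)
    refine ⟨m * (x j).num, ?_⟩
    rw [hm]
    push_cast
    rw [← Rat.mul_den_eq_num (x j)]
    ring
  choose n hn using hint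
  have e1 : a ^ D = ∏ j, g j ^ n j := by
    apply prod_eq_of f hf
    rw [ha, Finset.smul_sum]
    refine Finset.sum_congr rfl fun j _ => ?_
    rw [smul_smul, hn]
  apply Hroot a D _ hDpos
  rw [e1]
  have := H_prod H Hone Hmul Finset.univ (fun j => g j ^ n j) (fun j => |(n j : ℝ)| * h j)
    (fun j _ => H_zpow H Hone Hmul Hinv (hg j) (n j))
  convert this using 1
  rw [Finset.mul_sum]
  refine Finset.sum_congr rfl fun j _ => ?_
  have e2 : (n j : ℝ) = D * (x j : ℝ) := by
    have := congrArg (fun t : ℚ => (t : ℝ)) (hn j)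
    simpa using this.symm
  rw [e2, abs_mul, Nat.abs_cast]
  ring

end H

open scoped TensorProduct in
theorem exists_hull (M : Type) [AddCommGroup M] (hM : ∀ (n : ℕ) (x : M), 0 < n → n • x = 0 → x = 0) :
    ∃ (W : Type) (_ : AddCommGroup W) (_ : Module ℚ W) (f : M →+ W), Function.Injective f := by
  refine ⟨ℚ ⊗[ℤ] M, inferInstance, inferInstance, (TensorProduct.mk ℤ ℚ M 1).toAddMonoidHom, ?_⟩
  rw [injective_iff_map_eq_zero]
  intro x hx
  have hx' : TensorProduct.mk ℤ ℚ M 1 x = 0 := hx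
  obtain ⟨⟨s, hs⟩, h⟩ := (IsLocalizedModule.eq_zero_iff (nonZeroDivisors ℤ) _).mp hx'
  have hs0 : s ≠ 0 := nonZeroDivisors.ne_zero hs
  have h' : s • x = 0 := h
  apply hM s.natAbs x (Int.natAbs_pos.mpr hs0)
  rw [← natCast_zsmul]
  rcases Int.natAbs_eq s with e | e
  · rw [← e]; exact h'
  · have : (s.natAbs : ℤ) = -s := by omega
    rw [this, neg_smul, h', neg_zero]

theorem coord_aux {A : Type} [CommGroup A] (H : A → ℝ → Prop) (Hone : H 1 0)
    (Hmono : ∀ θ a b, H θ a → a ≤ b → H θ b)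
    (Hmul : ∀ θ η a b, H θ a → H η b → H (θ * η) (a + b)) (Hinv : ∀ θ a, H θ a → H θ⁻¹ a)
    (Hroot : ∀ θ (n : ℕ) a, 0 < n → H (θ ^ n) (n * a) → H θ a)
    (gap : ∀ θ a, θ ≠ 1 → H θ a → 1 / 2 ≤ a) (r : ℕ)
    (hrank : ∀ s : Fin (r + 1) → A, ∃ n : Fin (r + 1) → ℤ, n ≠ 0 ∧ ∏ i, s i ^ n i = 1)
    (ξ : A) (hξ : ξ ≠ 1) (hx Y : ℝ) (hY : 0 ≤ Y) (Hξ : H ξ hx) (L : Finset A)
    (hL : ∀ θ ∈ L, H θ Y) (Q : ℕ) (hQ : 2 * (r * Y + hx) < Q) :
    ∃ (k I : ℕ) (φ : Fin k → (Additive A →+ ℚ)) (l : A → Fin k → ℤ) (l0 : A → ℤ)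
      (b : Fin k → A), k + 1 ≤ r ∧ 1 ≤ I ∧ I ≤ Q ^ r ∧ (∀ i, φ i (Additive.ofMul ξ) = 0) ∧
      ∀ θ ∈ L, (∀ i, φ i (Additive.ofMul θ) = l θ i ∧ |l θ i| ≤ I) ∧ |l0 θ| ≤ Q * I ∧
        θ ^ I = ξ ^ l0 θ * ∏ i, b i ^ l θ i := by
  classical
  have hx2 : 1 / 2 ≤ hx := gap ξ hx hξ Hξ
  have hrY : 0 ≤ (r : ℝ) * Y := mul_nonneg (Nat.cast_nonneg r) hY
  have hQR : (0 : ℝ) < Q := by linarith
  have hQ0 : 0 < Q := by exact_mod_cast hQR
  have htf : ∀ (n : ℕ) (x : Additive A), 0 < n → n • x = 0 → x = 0 := by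
    intro n x hn h
    by_contra hne
    have h1 : (Additive.toMul x) ^ n = 1 := by
      rw [← toMul_nsmul, h]; rfl
    have h2 : H (Additive.toMul x) 0 := by
      apply Hroot _ n 0 hn
      rw [h1, mul_zero]; exact Hone
    have := gap _ 0 (fun e => hne (by simpa using e)) h2
    norm_num at this
  obtain ⟨W, _, _, f, hf⟩ := exists_hull (Additive A) htf
  set w : W := f (Additive.ofMul ξ) with hw
  have hw0 : w ≠ 0 := fun h => hξ (by
    have := hf (h.trans (map_zero f).symm)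
    simpa using this)
  let π := (Submodule.span ℚ {w}).mkQ
  have hπw : π w = 0 := by
    simp [π]
  obtain ⟨k, b, c, hbL, hcb, hc⟩ := spanner L (fun a => π (f (Additive.ofMul a)))
  let g : Option (Fin k) → A := fun j => j.elim ξ b
  have hcoord : ∀ (x : Option (Fin k) → ℚ) (i : Fin k),
      c i (π (∑ j, x j • f (Additive.ofMul (g j)))) = x (some i) := by
    intro x i
    rw [Fintype.sum_option, map_add, map_add, map_sum, map_sum]
    simp only [g, Option.elim, map_smul, ← hw, hπw, map_zero, smul_zero, zero_add, hcb]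
    simp
  have hind : ∀ x : Option (Fin k) → ℚ, ∑ j, x j • f (Additive.ofMul (g j)) = 0 → x = 0 := by
    intro x hx0
    have h1 : ∀ i, x (some i) = 0 := fun i => by
      rw [← hcoord x i, hx0, map_zero, map_zero]
    rw [Fintype.sum_option] at hx0
    simp only [h1, zero_smul, Finset.sum_const_zero, add_zero, g, Option.elim, ← hw] at hx0
    funext j
    cases j with
    | none => exact (smul_eq_zero.mp hx0).resolve_right hw0
    | some i => exact h1 i
  have hk : k + 1 ≤ r := by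
    by_contra hcon
    have hli : LinearIndependent ℚ (fun j => f (Additive.ofMul (g j))) :=
      Fintype.linearIndependent_iff.mpr fun x hx0 j => congrFun (hind x hx0) j
    obtain ⟨e⟩ : Nonempty (Fin (r + 1) ↪ Option (Fin k)) := by
      apply Function.Embedding.nonempty_of_card_le
      simp only [Fintype.card_fin, Fintype.card_option]
      omega
    obtain ⟨n, hn, hrel⟩ := hrank (fun i => g (e i))
    have h2 := Fintype.linearIndependent_iff.mp (hli.comp e e.injective) (fun i => (n i : ℚ)) (by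
      have := congrArg (fun t => f (Additive.ofMul t)) hrel
      simp only [ofMul_prod, map_sum, ofMul_zpow, map_zsmul, ofMul_one, map_zero] at this
      rw [← this]
      refine Finset.sum_congr rfl fun i _ => ?_
      rw [Int.cast_smul_eq_zsmul]; rfl)
    apply hn
    funext i
    exact_mod_cast h2 i
  have hkR : (k : ℝ) + 1 ≤ r := by exact_mod_cast hk
  let Γ : AddSubgroup (Option (Fin k) → ℚ) :=
    { carrier := {x | ∃ a : Additive A, f a = ∑ j, x j • f (Additive.ofMul (g j))}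
      zero_mem' := ⟨0, by simp⟩
      add_mem' := fun {x y} ⟨a, ha⟩ ⟨a', ha'⟩ => ⟨a + a', by
        rw [map_add, ha, ha', ← Finset.sum_add_distrib]
        refine Finset.sum_congr rfl fun j _ => ?_
        rw [Pi.add_apply, add_smul]⟩
      neg_mem' := fun {x} ⟨a, ha⟩ => ⟨-a, by
        rw [map_neg, ha, ← Finset.sum_neg_distrib]
        refine Finset.sum_congr rfl fun j _ => ?_
        rw [Pi.neg_apply, neg_smul]⟩ }
  obtain ⟨I, hI1, hIQ, hI⟩ := exists_index Γ Q hQ0
    (fun n => ⟨∑ j, n j • Additive.ofMul (g j), by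
      rw [map_sum]
      refine Finset.sum_congr rfl fun j _ => ?_
      rw [map_zsmul, Int.cast_smul_eq_zsmul]⟩)
    (by
      rintro x ⟨a, ha⟩ hsmall
      have h1 := H_comb H Hone Hmul Hinv Hroot f hf g (fun j => j.elim hx (fun _ => Y))
        (fun j => by
          cases j with
          | none => exact Hξ
          | some i => exact hL _ (hbL i)) x (Additive.toMul a) ha
      have hs : ∀ j, |(x j : ℝ)| ≤ 1 / Q := fun j => by
        have : ((|x j| : ℚ) : ℝ) < ((1 / Q : ℚ) : ℝ) := by exact_mod_cast hsmall j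
        push_cast at this
        exact this.le
      have h2 : ∑ j, |(x j : ℝ)| * (Option.elim j hx (fun _ => Y)) ≤ (r * Y + hx) / Q := by
        rw [Fintype.sum_option]
        simp only [Option.elim]
        have b1 : |(x none : ℝ)| * hx ≤ 1 / Q * hx :=
          mul_le_mul_of_nonneg_right (hs _) (by linarith)
        have b2 : ∑ i : Fin k, |(x (some i) : ℝ)| * Y ≤ ∑ _i : Fin k, 1 / Q * Y :=
          Finset.sum_le_sum fun i _ => mul_le_mul_of_nonneg_right (hs _) hY
        rw [Finset.sum_const, Finset.card_univ, Fintype.card_fin, nsmul_eq_mul] at b2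
        have b3 : (k : ℝ) * (1 / Q * Y) ≤ r * (1 / Q * Y) :=
          mul_le_mul_of_nonneg_right (by linarith) (by positivity)
        have b4 : (r * Y + hx) / Q = 1 / Q * hx + r * (1 / Q * Y) := by ring
        linarith
      have h3 : Additive.toMul a = 1 := by
        by_contra hne
        have h4 := gap _ _ hne (Hmono _ _ _ h1 h2)
        rw [le_div_iff₀ hQR] at h4
        linarith
      have h4 : a = 0 := by simpa using h3
      apply hind x
      rw [← ha, h4, map_zero])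
  have hx0 : ∀ θ : A, ∃ t : ℚ, θ ∈ L → f (Additive.ofMul θ) =
      t • w + ∑ i, c i (π (f (Additive.ofMul θ))) • f (Additive.ofMul (b i)) := by
    intro θ
    by_cases hθ : θ ∈ L
    · have h1 : π (f (Additive.ofMul θ) -
          ∑ i, c i (π (f (Additive.ofMul θ))) • f (Additive.ofMul (b i))) = 0 := by
        rw [map_sub, map_sum]
        simp only [map_smul]
        exact sub_eq_zero.mpr (hc θ hθ).2
      have h2 := (Submodule.Quotient.mk_eq_zero _).mp h1
      obtain ⟨t, ht⟩ := Submodule.mem_span_singleton.mp h2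
      exact ⟨t, fun _ => by rw [ht]; abel⟩
    · exact ⟨0, fun h => absurd h hθ⟩
  choose t ht using hx0
  let X : A → Option (Fin k) → ℚ := fun θ j =>
    j.elim (t θ) (fun i => c i (π (f (Additive.ofMul θ))))
  have hX : ∀ θ ∈ L, f (Additive.ofMul θ) = ∑ j, X θ j • f (Additive.ofMul (g j)) := by
    intro θ hθ
    rw [Fintype.sum_option]
    exact ht θ hθ
  have hn : ∀ θ j, ∃ n : ℤ, θ ∈ L → (I : ℚ) * X θ j = n := by
    intro θ j
    by_cases hθ : θ ∈ L
    · obtain ⟨n, hn⟩ := hI (X θ) ⟨_, hX θ hθ⟩ j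
      exact ⟨n, fun _ => hn⟩
    · exact ⟨0, fun h => absurd h hθ⟩
  choose n hn using hn
  have hIq : (0 : ℚ) ≤ I := Nat.cast_nonneg I
  refine ⟨k, I, fun i => (((I : ℚ) • c i).comp π).toAddMonoidHom.comp f, fun θ i => n θ (some i),
    fun θ => n θ none, b, hk, hI1, ?_, ?_, ?_⟩
  · refine hIQ.trans (Nat.pow_le_pow_right hQ0 ?_)
    simpa using hk
  · intro i
    change (I : ℚ) • c i (π w) = 0
    rw [hπw, map_zero, smul_zero]
  · intro θ hθ
    refine ⟨fun i => ⟨hn θ (some i) hθ, ?_⟩, ?_, ?_⟩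
    · have h1 : |((n θ (some i) : ℤ) : ℚ)| ≤ I := by
        rw [← hn θ (some i) hθ, abs_mul, abs_of_nonneg hIq]
        exact mul_le_of_le_one_right hIq ((hc θ hθ).1 i)
      exact_mod_cast h1
    · have h0 : |t θ| ≤ Q := by
        by_cases htz : t θ = 0
        · rw [htz, abs_zero]; exact Nat.cast_nonneg Q
        · have h1 := H_comb H Hone Hmul Hinv Hroot f hf
            (fun j : Option (Fin k) => j.elim θ b) (fun _ => Y)
            (fun j => by
              cases j with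
              | none => exact hL θ hθ
              | some i => exact hL _ (hbL i))
            (fun j => j.elim (t θ)⁻¹ (fun i => -((t θ)⁻¹ * c i (π (f (Additive.ofMul θ)))))) ξ
            (by
              rw [Fintype.sum_option]
              simp only [Option.elim]
              have e : t θ • w = f (Additive.ofMul θ) -
                  ∑ i, c i (π (f (Additive.ofMul θ))) • f (Additive.ofMul (b i)) :=
                eq_sub_of_add_eq (ht θ hθ).symm
              have e2 : w = (t θ)⁻¹ • (t θ • w) := by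
                rw [smul_smul, inv_mul_cancel₀ htz, one_smul]
              refine e2.trans ?_
              rw [e, smul_sub, Finset.smul_sum, sub_eq_add_neg, ← Finset.sum_neg_distrib]
              simp only [neg_smul, smul_smul])
          have h2 := gap _ _ hξ h1
          rw [Fintype.sum_option] at h2
          simp only [Option.elim] at h2
          have hT : (0 : ℝ) < |(t θ : ℝ)| := abs_pos.mpr (by exact_mod_cast htz)
          have b2 : ∑ i : Fin k, |((-((t θ)⁻¹ * c i (π (f (Additive.ofMul θ)))) : ℚ) : ℝ)| * Y ≤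
              ∑ _i : Fin k, |(t θ : ℝ)|⁻¹ * Y := by
            refine Finset.sum_le_sum fun i _ => mul_le_mul_of_nonneg_right ?_ hY
            have : ((|c i (π (f (Additive.ofMul θ)))| : ℚ) : ℝ) ≤ ((1 : ℚ) : ℝ) := by
              exact_mod_cast (hc θ hθ).1 i
            push_cast at this ⊢
            rw [abs_neg, abs_mul, abs_inv]
            exact mul_le_of_le_one_right (by positivity) this
          rw [Finset.sum_const, Finset.card_univ, Fintype.card_fin, nsmul_eq_mul] at b2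
          have b1 : |(((t θ)⁻¹ : ℚ) : ℝ)| = |(t θ : ℝ)|⁻¹ := by
            push_cast; rw [abs_inv]
          rw [b1] at h2
          have b3 : 1 / 2 ≤ (r * Y) / |(t θ : ℝ)| := by
            have b4 : ((k : ℝ) + 1) * (|(t θ : ℝ)|⁻¹ * Y) ≤ r * (|(t θ : ℝ)|⁻¹ * Y) :=
              mul_le_mul_of_nonneg_right hkR (by positivity)
            have b5 : (r * Y) / |(t θ : ℝ)| = r * (|(t θ : ℝ)|⁻¹ * Y) := by ring
            linarith
          rw [le_div_iff₀ hT] at b3
          have b6 : |(t θ : ℝ)| ≤ Q := by linarith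
          exact_mod_cast b6
      have h1 : |((n θ none : ℤ) : ℚ)| ≤ Q * I := by
        rw [← hn θ none hθ, abs_mul, abs_of_nonneg hIq, mul_comm]
        exact mul_le_mul_of_nonneg_right h0 hIq
      exact_mod_cast h1
    · have := prod_eq_of f hf g (n θ) θ I (by
        rw [hX θ hθ, Finset.smul_sum]
        refine Finset.sum_congr rfl fun j _ => ?_
        rw [smul_smul, hn θ j hθ])
      rw [this, Fintype.prod_option]
      rfl

end CoordAux

theorem coord {A : Type} [CommGroup A] (H : A → ℝ → Prop) (Hone : H 1 0)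
    (Hmono : ∀ θ a b, H θ a → a ≤ b → H θ b)
    (Hmul : ∀ θ η a b, H θ a → H η b → H (θ * η) (a + b)) (Hinv : ∀ θ a, H θ a → H θ⁻¹ a)
    (Hroot : ∀ θ (n : ℕ) a, 0 < n → H (θ ^ n) (n * a) → H θ a)
    (gap : ∀ θ a, θ ≠ 1 → H θ a → 1 / 2 ≤ a) (r : ℕ) (hr : 1 ≤ r)
    (hrank : ∀ s : Fin (r + 1) → A, ∃ n : Fin (r + 1) → ℤ, n ≠ 0 ∧ ∏ i, s i ^ n i = 1)
    (ξ : A) (hξ : ξ ≠ 1) (hx Y : ℝ) (hY : 0 ≤ Y) (Hξ : H ξ hx) (L : Finset A)
    (hL : ∀ θ ∈ L, H θ Y) (Q : ℕ) (hQ : 2 * (r * Y + hx) < Q) :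
    ∃ (I : ℕ) (φ : Fin (r - 1) → (Additive A →+ ℚ)) (l : A → Fin (r - 1) → ℤ) (l0 : A → ℤ)
      (b : Fin (r - 1) → A), 1 ≤ I ∧ I ≤ Q ^ r ∧ (∀ i, φ i (Additive.ofMul ξ) = 0) ∧
      ∀ θ ∈ L, (∀ i, φ i (Additive.ofMul θ) = l θ i ∧ |l θ i| ≤ I) ∧ |l0 θ| ≤ Q * I ∧
        θ ^ I = ξ ^ l0 θ * ∏ i, b i ^ l θ i := by
  obtain ⟨k, I, φ, l, l0, b, hk, hI1, hIQ, hφ, hmain⟩ :=
    CoordAux.coord_aux H Hone Hmono Hmul Hinv Hroot gap r hrank ξ hξ hx Y hY Hξ L hL Q hQ
  have hk' : k ≤ r - 1 := by omega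
  refine ⟨I, fun i => if h : (i : ℕ) < k then φ ⟨i, h⟩ else 0,
    fun θ i => if h : (i : ℕ) < k then l θ ⟨i, h⟩ else 0, l0,
    fun i => if h : (i : ℕ) < k then b ⟨i, h⟩ else 1, hI1, hIQ, ?_, ?_⟩
  · intro i
    by_cases h : (i : ℕ) < k
    · simp only [h, dif_pos]; exact hφ _
    · simp [h]
  · intro θ hθ
    obtain ⟨h1, h2, h3⟩ := hmain θ hθ
    refine ⟨fun i => ?_, h2, ?_⟩
    · by_cases h : (i : ℕ) < k
      · simp only [h, dif_pos]; exact h1 _
      · simp [h]
    · rw [h3]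
      congr 1
      refine Fintype.prod_of_injective (Fin.castLE hk') (Fin.castLE_injective hk') _ _ ?_ ?_
      · intro i hi
        have h : ¬ (i : ℕ) < k := fun h => hi ⟨⟨i, h⟩, rfl⟩
        simp [h]
      · intro i
        simp [i.2]

end Pool.Agent.P.MP_9ec3f0_nt.SY
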