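import Pool.Agent.P.MP_9ec3f0_nt.SY.Height

namespace Pool.Agent.P.MP_9ec3f0_nt.SY

open NumberField IsDedekindDomain Finset Module

namespace SiegelAux

/-- box principle for finitely many real functions -/
theorem box {ι κ : Type} [Fintype ι] [Fintype κ] [DecidableEq ι] (P M : ℕ)
    (f : (ι → ℕ) → κ → ℝ) (hf : ∀ c : ι → ℕ, (∀ i, c i ≤ P) → ∀ k, |f c k| ≤ M)
    (hc : (2 * M + 1) ^ Fintype.card κ < (P + 1) ^ Fintype.card ι) :
    ∃ c c' : ι → ℕ, c ≠ c' ∧ (∀ i, c i ≤ P) ∧ (∀ i, c' i ≤ P) ∧ ∀ k, |f c k - f c' k| < 1 := by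
  classical
  have hcard : (Fintype.piFinset fun _ : κ => Finset.Icc (-(M : ℤ)) M).card <
      (Fintype.piFinset fun _ : ι => Finset.range (P + 1)).card := by
    rw [Fintype.card_piFinset, Fintype.card_piFinset]
    simp only [Int.card_Icc, Finset.card_range, Finset.prod_const, Finset.card_univ]
    have : ((M : ℤ) + 1 - -(M : ℤ)).toNat = 2 * M + 1 := by omega
    rwa [this]
  obtain ⟨c, hc1, c', hc2, hne, he⟩ := Finset.exists_ne_map_eq_of_card_lt_of_maps_to hcard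
    (f := fun c k => ⌊f c k⌋) (by
      intro c hc
      have hc' : ∀ i, c i ≤ P := fun i => by
        have := Fintype.mem_piFinset.1 hc i
        simp only [Finset.mem_range] at this
        omega
      refine Finset.mem_coe.2 (Fintype.mem_piFinset.2 fun k => ?_)
      have := abs_le.1 (hf c hc' k)
      rw [Finset.mem_Icc, Int.le_floor]
      refine ⟨by push_cast; exact this.1, ?_⟩
      have h2 : (⌊f c k⌋ : ℝ) ≤ M := (Int.floor_le _).trans this.2
      exact_mod_cast h2)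
  refine ⟨c, c', hne, fun i => ?_, fun i => ?_, fun k => ?_⟩
  · have := Fintype.mem_piFinset.1 hc1 i
    simp only [Finset.mem_range] at this
    omega
  · have := Fintype.mem_piFinset.1 hc2 i
    simp only [Finset.mem_range] at this
    omega
  · exact Int.abs_sub_lt_one_of_floor_eq_floor (congrFun he k)

/-- an element whose conjugates are all small vanishes -/
theorem eq_zero_of_small {K : Type} [Field K] [NumberField K] {N : ℕ} {δ x : K}
    {m : (K →+* ℂ) → ℝ} {Y : ℝ} (hY : 0 ≤ Y) (hN : 0 < N) (hδ : δ ≠ 0) (hm : ∀ σ, 0 < m σ)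
    (hp : ∏ σ : K →+* ℂ, (‖σ δ‖ * m σ ^ N) ≤ Real.exp (N * Y)) {s S₀ : ℕ} (hs : s ≤ S₀)
    (hi : IsIntegral ℤ (δ ^ s * x ^ N))
    (hx : ∀ σ : K →+* ℂ, ‖σ x‖ < Real.exp (-(Y * S₀ / finrank ℚ K)) * m σ ^ s) : x = 0 := by
  by_contra h0
  have hy : δ ^ s * x ^ N ≠ 0 := mul_ne_zero (pow_ne_zero _ hδ) (pow_ne_zero _ h0)
  have h1 := one_le_prod_embeddings hi hy
  have hd : (0 : ℝ) < finrank ℚ K := by exact_mod_cast finrank_pos
  have h2 : ∏ σ : K →+* ℂ, ‖σ (δ ^ s * x ^ N)‖ <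
      ∏ σ : K →+* ℂ, ((‖σ δ‖ * m σ ^ N) ^ s * Real.exp (-(Y * S₀ / finrank ℚ K)) ^ N) := by
    refine Finset.prod_lt_prod_of_nonempty
      (fun σ _ => norm_pos_iff.2 ((map_ne_zero σ).2 hy)) (fun σ _ => ?_) Finset.univ_nonempty
    have a1 : 0 < ‖σ δ‖ := norm_pos_iff.2 ((map_ne_zero σ).2 hδ)
    have a2 := pow_lt_pow_left₀ (hx σ) (norm_nonneg _) hN.ne'
    rw [map_mul, map_pow, map_pow, norm_mul, norm_pow, norm_pow]
    calc ‖σ δ‖ ^ s * ‖σ x‖ ^ N < ‖σ δ‖ ^ s * (Real.exp (-(Y * S₀ / finrank ℚ K)) * m σ ^ s) ^ N := by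
          gcongr
      _ = _ := by ring
  rw [Finset.prod_mul_distrib, Finset.prod_pow, Finset.prod_const, Finset.card_univ,
    NumberField.Embeddings.card K ℂ] at h2
  have p1 : 0 ≤ ∏ σ : K →+* ℂ, (‖σ δ‖ * m σ ^ N) :=
    Finset.prod_nonneg fun σ _ => mul_nonneg (norm_nonneg _) (pow_nonneg (hm σ).le _)
  have h3 : (∏ σ : K →+* ℂ, (‖σ δ‖ * m σ ^ N)) ^ s *
      (Real.exp (-(Y * S₀ / finrank ℚ K)) ^ N) ^ finrank ℚ K ≤ 1 := by
    refine (mul_le_mul_of_nonneg_right (pow_le_pow_left₀ p1 hp s) (by positivity)).trans ?_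
    rw [← Real.exp_nat_mul, ← Real.exp_nat_mul, ← Real.exp_nat_mul, ← Real.exp_add,
      Real.exp_le_one_iff]
    have e : (finrank ℚ K : ℝ) * (N * -(Y * S₀ / finrank ℚ K)) = -(S₀ * (N * Y)) := by
      field_simp
    have hs' : (s : ℝ) ≤ S₀ := by exact_mod_cast hs
    have : (s : ℝ) * (N * Y) ≤ S₀ * (N * Y) := by gcongr
    rw [e]
    linarith
  linarith

theorem core {K : Type} [Field K] [NumberField K] {ι ε : Type} [Fintype ι] [Fintype ε]
    (θ : ι → K) (L : Set K) (Y : ℝ) (hY : 0 ≤ Y) (hH : Ht L Y) (hθ : ∀ i, θ i ∈ L)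
    (g : ε → ι → ℤ) (s : ε → ℕ) (B : ℝ) (hB1 : 1 ≤ B) (S₀ : ℕ)
    (hg : ∀ e i, |(g e i : ℝ)| ≤ B) (hs : ∀ e, s e ≤ S₀) (hT : 0 < Fintype.card ι)
    (hcard : 4 * finrank ℚ K * Fintype.card ε ≤ Fintype.card ι) :
    ∃ c : ι → ℤ, (∃ i, c i ≠ 0) ∧
      (∀ i, |(c i : ℝ)| ≤ 6 * Fintype.card ι * B * Real.exp (Y * S₀ / finrank ℚ K)) ∧
      ∀ e, ∑ i, (c i : K) * (g e i : K) * θ i ^ s e = 0 := by
  classical
  obtain ⟨N, δ, m, hN, hδ, hi, hm, hb, hp⟩ := hH
  set X := Real.exp (Y * S₀ / finrank ℚ K) with hX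
  have hX1 : 1 ≤ X := Real.one_le_exp (by positivity)
  have hT1 : (1 : ℝ) ≤ Fintype.card ι := by exact_mod_cast hT
  set W := Fintype.card ι * B * X with hW
  have hW1 : 1 ≤ W := one_le_mul_of_one_le_of_one_le (one_le_mul_of_one_le_of_one_le hT1 hB1) hX1
  set P := ⌈5 * W⌉₊ with hP
  have hP1 : 5 * W ≤ P := Nat.le_ceil _
  have hP2 : (P : ℝ) ≤ 6 * W := by
    have := Nat.ceil_lt_add_one (show 0 ≤ 5 * W by linarith)
    linarith
  set M := ⌈2 * (P * W)⌉₊ with hM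
  have hM1 : 2 * (P * W) ≤ M := Nat.le_ceil _
  have hM2 : 2 * M + 1 ≤ P ^ 2 := by
    have a1 := Nat.ceil_lt_add_one (show 0 ≤ 2 * (P * W) by positivity)
    have a2 : (5 : ℝ) ≤ P * W := by nlinarith
    have : (2 * M + 1 : ℝ) ≤ P ^ 2 := by nlinarith
    exact_mod_cast this
  have hP0 : 0 < P := by
    have : (0 : ℝ) < P := by linarith
    exact_mod_cast this
  let u : (ι → ℕ) → ε → (K →+* ℂ) → ℂ := fun c e σ =>
    σ (∑ i, ((c i : ℤ) : K) * (g e i : K) * θ i ^ s e) * ((2 * X / m σ ^ s e : ℝ) : ℂ)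
  have hu : ∀ c : ι → ℕ, (∀ i, c i ≤ P) → ∀ e σ, ‖u c e σ‖ ≤ M := by
    intro c hc e σ
    have hms : 0 < m σ ^ s e := pow_pos (hm σ) _
    have a1 : ‖σ (∑ i, ((c i : ℤ) : K) * (g e i : K) * θ i ^ s e)‖ ≤
        Fintype.card ι * (P * B * m σ ^ s e) := by
      rw [map_sum]
      refine (norm_sum_le _ _).trans ?_
      rw [← nsmul_eq_mul, ← Finset.card_univ]
      refine Finset.sum_le_card_nsmul _ _ _ fun i _ => ?_
      simp only [map_mul, map_intCast, map_pow, norm_mul, norm_pow, Complex.norm_intCast,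
        Int.cast_natCast, map_natCast, Complex.norm_natCast]
      have b1 : (c i : ℝ) ≤ P := by exact_mod_cast hc i
      have b2 := hg e i
      have b3 := hb _ (hθ i) σ
      gcongr
    simp only [u, norm_mul, Complex.norm_real, Real.norm_eq_abs]
    rw [abs_of_pos (by positivity)]
    refine le_trans ?_ hM1
    calc _ ≤ Fintype.card ι * (P * B * m σ ^ s e) * (2 * X / m σ ^ s e) := by gcongr
      _ = _ := by rw [hW]; field_simp
  obtain ⟨c, c', hne, hc, hc', hd⟩ := box (κ := ε × (K →+* ℂ) × Bool) P M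
    (fun c k => if k.2.2 then (u c k.1 k.2.1).re else (u c k.1 k.2.1).im)
    (fun c hc k => by
      split_ifs
      · exact (Complex.abs_re_le_norm _).trans (hu c hc _ _)
      · exact (Complex.abs_im_le_norm _).trans (hu c hc _ _))
    (by
      simp only [Fintype.card_prod, Fintype.card_bool, NumberField.Embeddings.card K ℂ]
      calc (2 * M + 1) ^ (Fintype.card ε * (finrank ℚ K * 2))
          ≤ (P ^ 2) ^ (Fintype.card ε * (finrank ℚ K * 2)) := by gcongr
        _ = P ^ (4 * finrank ℚ K * Fintype.card ε) := by rw [← pow_mul]; congr 1; ring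
        _ ≤ P ^ Fintype.card ι := Nat.pow_le_pow_right hP0 hcard
        _ < _ := Nat.pow_lt_pow_left (by omega) hT.ne')
  refine ⟨fun i => (c i : ℤ) - c' i, ?_, fun i => ?_, fun e => ?_⟩
  · by_contra h
    push Not at h
    exact hne (funext fun i => by have := h i; omega)
  · have b1 : (c i : ℝ) ≤ P := by exact_mod_cast hc i
    have b2 : (c' i : ℝ) ≤ P := by exact_mod_cast hc' i
    have b3 : (0 : ℝ) ≤ c i := by positivity
    have b4 : (0 : ℝ) ≤ c' i := by positivity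
    have e : 6 * Fintype.card ι * B * X = 6 * W := by rw [hW]; ring
    rw [e, abs_le]
    push_cast
    constructor <;> linarith
  · refine eq_zero_of_small hY hN hδ hm hp (hs e) ?_ fun σ => ?_
    · have := isIntegral_delta_sum (E := K) Finset.univ θ θ hN one_pos (fun i _ => hi _ (hθ i))
        (fun i _ => by simp) (fun i => ((c i : ℤ) - c' i) * g e i) (s e)
      simpa using this
    · have r1 := hd (e, σ, true)
      have r2 := hd (e, σ, false)
      simp only [if_true, Bool.false_eq_true, if_false] at r1 r2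
      rw [← Complex.sub_re] at r1
      rw [← Complex.sub_im] at r2
      have r3 := (Complex.norm_le_abs_re_add_abs_im (u c e σ - u c' e σ)).trans_lt
        (add_lt_add r1 r2)
      have hms : 0 < m σ ^ s e := pow_pos (hm σ) _
      have e1 : u c e σ - u c' e σ =
          σ (∑ i, (((c i : ℤ) - c' i : ℤ) : K) * (g e i : K) * θ i ^ s e) *
            ((2 * X / m σ ^ s e : ℝ) : ℂ) := by
        simp only [u]
        rw [← sub_mul, ← map_sub, ← Finset.sum_sub_distrib]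
        congr 2
        refine Finset.sum_congr rfl fun i _ => ?_
        push_cast
        ring
      rw [e1, norm_mul, Complex.norm_real, Real.norm_eq_abs, abs_of_pos (by positivity),
        ← lt_div_iff₀ (by positivity)] at r3
      refine r3.trans_eq ?_
      rw [Real.exp_neg, ← hX]
      field_simp
      norm_num

end SiegelAux

theorem siegel {K : Type} [Field K] [NumberField K] {ι ε : Type} (T : Finset ι) (θ : ι → K)
    (L : Set K) (Y : ℝ) (hY : 0 ≤ Y) (hH : Ht L Y) (hθ : ∀ i ∈ T, θ i ∈ L) (E : Finset ε)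
    (g : ε → ι → ℤ) (s : ε → ℕ) (B : ℝ) (hB1 : 1 ≤ B) (S₀ : ℕ)
    (hg : ∀ e ∈ E, ∀ i ∈ T, |(g e i : ℝ)| ≤ B) (hs : ∀ e ∈ E, s e ≤ S₀) (hT : 0 < T.card)
    (hcard : 4 * finrank ℚ K * E.card ≤ T.card) :
    ∃ c : ι → ℤ, (∃ i ∈ T, c i ≠ 0) ∧
      (∀ i ∈ T, |(c i : ℝ)| ≤ 6 * T.card * B * Real.exp (Y * S₀ / finrank ℚ K)) ∧
      ∀ e ∈ E, ∑ i ∈ T, (c i : K) * (g e i : K) * θ i ^ s e = 0 := by
  classical
  obtain ⟨c, ⟨i0, h0⟩, h1, h2⟩ := SiegelAux.core (ι := T) (ε := E) (fun i => θ i) L Y hY hH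
    (fun i => hθ i i.2) (fun e i => g e i) (fun e => s e) B hB1 S₀
    (fun e i => hg e e.2 i i.2) (fun e => hs e e.2) (by simpa using hT) (by simpa using hcard)
  refine ⟨fun i => if h : i ∈ T then c ⟨i, h⟩ else 0, ⟨i0, i0.2, by simpa using h0⟩,
    fun i hi => by simpa [hi] using h1 ⟨i, hi⟩, fun e he => ?_⟩
  rw [← Finset.sum_coe_sort, ← h2 ⟨e, he⟩]
  exact Finset.sum_congr rfl fun i _ => by simp

end Pool.Agent.P.MP_9ec3f0_nt.SY
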