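import Pool.Agent.P.MP_9ec3f0_nt.SY.Core3
import Pool.Agent.P.MP_9ec3f0_nt.SY.Siegel

/-! The abstract lower bound for a logarithm. -/

namespace Pool.Agent.P.MP_9ec3f0_nt.SY

open NumberField IsDedekindDomain Finset Module CoreAux

namespace CoreAux

theorem choose_bound (r T : ℕ) (hr : 1 ≤ r) (x : ℝ) (hx : 0 ≤ x) (hT : (T : ℝ) + r ≤ 218 * r * x) :
    ((r + T - 1).choose T : ℝ) ≤ 3 * (600 * x) ^ (r - 1) := by
  obtain ⟨k, rfl⟩ : ∃ k, r = k + 1 := ⟨r - 1, by omega⟩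
  have e1 : k + 1 + T - 1 = k + T := by omega
  rw [e1, Nat.add_sub_cancel, ← Nat.choose_symm_add]
  have h1 : ((k + T).choose k : ℝ) ≤ ((k + T : ℕ) : ℝ) ^ k / k.factorial :=
    Nat.choose_le_pow_div k (k + T)
  have h2 : ((k + T : ℕ) : ℝ) ≤ (218 * x) * ((k : ℝ) + 1) := by push_cast at hT ⊢; linarith
  have h3 : ((k : ℝ) + 1) ^ k / k.factorial ≤ Real.exp ((k : ℝ) + 1) :=
    Real.pow_div_factorial_le_exp _ (by positivity) k
  have h4 : Real.exp ((k : ℝ) + 1) = Real.exp 1 ^ k * Real.exp 1 := by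
    rw [Real.exp_add, ← Real.exp_nat_mul, mul_one]
  have h5 := Real.exp_one_lt_d9
  have h6 := Real.exp_pos 1
  calc ((k + T).choose k : ℝ) ≤ ((218 * x) * ((k : ℝ) + 1)) ^ k / k.factorial := by
        refine h1.trans ?_
        gcongr
    _ = (218 * x) ^ k * (((k : ℝ) + 1) ^ k / k.factorial) := by rw [mul_pow]; ring
    _ ≤ (218 * x) ^ k * (Real.exp 1 ^ k * Real.exp 1) := by rw [← h4]; gcongr
    _ = Real.exp 1 * (218 * Real.exp 1 * x) ^ k := by rw [mul_pow, mul_pow, mul_pow]; ring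
    _ ≤ 3 * (600 * x) ^ k := by gcongr <;> linarith

theorem le_exp_two_mul {Λ : ℝ} (h : 1 ≤ Λ) : 2 * Λ + 4 ≤ Real.exp (2 * Λ) := by
  have h1 := Real.quadratic_le_exp_of_nonneg (x := 2 * Λ) (by linarith)
  have h2 := Real.sum_le_exp_of_nonneg (x := 2 * Λ) (by linarith) 4
  simp only [Finset.sum_range_succ, Finset.sum_range_zero, Nat.factorial] at h2
  norm_num at h2
  nlinarith [mul_nonneg (sub_nonneg.2 h) (sub_nonneg.2 h), pow_le_pow_left₀ zero_le_one h 3]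

theorem twelve_le : (12 : ℝ) ≤ Real.exp 3 := by
  have h : Real.exp 3 = Real.exp 1 ^ 3 := by rw [← Real.exp_nat_mul]; norm_num
  have h1 := Real.exp_one_gt_d9
  rw [h]
  calc (12 : ℝ) ≤ 2.7 ^ 3 := by norm_num
    _ ≤ Real.exp 1 ^ 3 := by gcongr; linarith

theorem le_exp_seven : (800 : ℝ) ≤ Real.exp 7 := by
  have h : Real.exp 7 = Real.exp 1 ^ 7 := by rw [← Real.exp_nat_mul]; norm_num
  have h1 := Real.exp_one_gt_d9
  rw [h]
  calc (800 : ℝ) ≤ 2.7 ^ 7 := by norm_num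
    _ ≤ Real.exp 1 ^ 7 := by gcongr; linarith

theorem four_le_exp : (4 : ℝ) ≤ Real.exp 1.4 := by
  have h2 := Real.sum_le_exp_of_nonneg (x := 1.4) (by norm_num) 6
  simp only [Finset.sum_range_succ, Finset.sum_range_zero, Nat.factorial] at h2
  norm_num at h2 ⊢
  linarith

theorem Q_bound {r : ℕ} {Y hx Λ : ℝ} (hΛ : 1 ≤ Λ) (hr : (r : ℝ) ≤ Λ) (hY1 : 1 ≤ Y) (hx0 : 0 ≤ hx)
    (hYΛ : Y ≤ Real.exp Λ) (hxΛ : hx ≤ Real.exp Λ) :
    ((⌊2 * (r * Y + hx)⌋₊ + 1 : ℕ) : ℝ) ^ r ≤ Real.exp (3 * (r * Λ)) := by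
  have heΛ : 1 ≤ Real.exp Λ := Real.one_le_exp (by linarith)
  have hQe : ((⌊2 * (r * Y + hx)⌋₊ + 1 : ℕ) : ℝ) ≤ Real.exp (3 * Λ) := by
    have h2 : (⌊2 * (r * Y + hx)⌋₊ : ℝ) ≤ 2 * (r * Y + hx) := Nat.floor_le (by positivity)
    have h3 : r * Y ≤ Λ * Real.exp Λ := by gcongr
    have h4 := le_exp_two_mul hΛ
    have e : Real.exp (3 * Λ) = Real.exp (2 * Λ) * Real.exp Λ := by
      rw [← Real.exp_add]; congr 1; ring
    rw [e]
    push_cast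
    nlinarith
  calc _ ≤ Real.exp (3 * Λ) ^ r := by gcongr
    _ = _ := by rw [← Real.exp_nat_mul]; congr 1; ring

theorem N_bound {r : ℕ} {N d S x Λ : ℝ} (hΛ : 1 ≤ Λ) (hr : 1 ≤ r) (hd : 0 ≤ d) (hdS : d ≤ S)
    (hS : S ≤ Real.exp Λ) (hx0 : 0 ≤ x) (hx : x ≤ Real.exp Λ)
    (hN : N ≤ 12 * d * S * (600 * x) ^ (r - 1)) : N ≤ Real.exp (8 * (r * Λ)) := by
  have hS0 : 0 ≤ S := hd.trans hdS
  have h2 : 600 * x ≤ Real.exp (8 * Λ) := by
    have h3 : Real.exp 7 ≤ Real.exp (7 * Λ) := Real.exp_le_exp.2 (by linarith)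
    have h4 := le_exp_seven
    have e : Real.exp (8 * Λ) = Real.exp (7 * Λ) * Real.exp Λ := by
      rw [← Real.exp_add]; congr 1; ring
    rw [e]
    exact mul_le_mul (by linarith) hx hx0 (by positivity)
  have h3 : (12 : ℝ) * d * S ≤ Real.exp (8 * Λ) := by
    have h4 := twelve_le
    calc (12 : ℝ) * d * S ≤ Real.exp 3 * Real.exp Λ * Real.exp Λ := by
          gcongr
          exact hdS.trans hS
      _ = Real.exp (3 + Λ + Λ) := by rw [Real.exp_add, Real.exp_add]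
      _ ≤ _ := Real.exp_le_exp.2 (by linarith)
  calc N ≤ Real.exp (8 * Λ) * Real.exp (8 * Λ) ^ (r - 1) := by
        refine hN.trans ?_
        gcongr
    _ = Real.exp (8 * Λ) ^ r := by
        rw [← pow_succ', Nat.sub_add_cancel hr]
    _ = _ := by rw [← Real.exp_nat_mul]; congr 1; ring

theorem J_bound {T : ℕ} {r q x Y Λ : ℝ} (hΛ : 1 ≤ Λ) (hr : 1 ≤ r) (hq0 : 0 ≤ q)
    (hq : q ≤ Real.exp (3 * (r * Λ))) (hx1 : 1 ≤ x) (hxY : x ≤ Y) (hT : (T : ℝ) ≤ 216 * r * x + 1) :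
    q ^ T ≤ Real.exp (651 * (r ^ 2 * Λ * Y)) := by
  calc q ^ T ≤ Real.exp (3 * (r * Λ)) ^ T := by gcongr
    _ = Real.exp (T * (3 * (r * Λ))) := by rw [← Real.exp_nat_mul]
    _ ≤ _ := by
      refine Real.exp_le_exp.2 ?_
      have h2 : (T : ℝ) ≤ 217 * (r * Y) := by
        have h3 : r * x ≤ r * Y := by gcongr
        have h4 : 1 ≤ r * x := one_le_mul_of_one_le_of_one_le hr hx1
        linarith
      have h5 : 0 ≤ r * Λ := by positivity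
      calc (T : ℝ) * (3 * (r * Λ)) ≤ 217 * (r * Y) * (3 * (r * Λ)) := by gcongr
        _ = _ := by ring

theorem B_bound {N J d r S Y Λ : ℝ} (hΛ : 1 ≤ Λ) (hr : 1 ≤ r) (hd : 1 ≤ d) (hY : 1 ≤ Y)
    (hS : 1320 * d * r ^ 2 * Λ ≤ S) (hN1 : 1 ≤ N) (hJ1 : 1 ≤ J)
    (hN : N ≤ Real.exp (8 * (r * Λ))) (hJ : J ≤ Real.exp (651 * (r ^ 2 * Λ * Y))) :
    1 ≤ N * (6 * N * J * Real.exp (Y * S / d)) * J ∧
      d * Real.log (N * (6 * N * J * Real.exp (Y * S / d)) * J) ≤ 2 * (S * Y) := by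
  have hS0 : 0 ≤ S := le_trans (by positivity) hS
  have hex1 : 1 ≤ Real.exp (Y * S / d) := Real.one_le_exp (by positivity)
  have hB1 : 1 ≤ N * (6 * N * J * Real.exp (Y * S / d)) * J := by
    have h2 : (1 : ℝ) ≤ 6 * N := by linarith
    exact one_le_mul_of_one_le_of_one_le (one_le_mul_of_one_le_of_one_le hN1
      (one_le_mul_of_one_le_of_one_le (one_le_mul_of_one_le_of_one_le h2 hJ1) hex1)) hJ1
  refine ⟨hB1, ?_⟩
  have hrΛ : 1 ≤ r * Λ := one_le_mul_of_one_le_of_one_le hr hΛ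
  have hA : r * Λ ≤ r ^ 2 * Λ * Y := by
    have h3 : r ≤ r ^ 2 := by nlinarith
    calc r * Λ ≤ r ^ 2 * Λ := by gcongr
      _ ≤ _ := le_mul_of_one_le_right (by positivity) hY
  have h6 : (6 : ℝ) ≤ Real.exp 2 := by
    have e : Real.exp 2 = Real.exp 1 * Real.exp 1 := by rw [← Real.exp_add]; norm_num
    have := Real.exp_one_gt_d9
    rw [e]; nlinarith
  have h2 : N * (6 * N * J * Real.exp (Y * S / d)) * J ≤
      Real.exp (1320 * (r ^ 2 * Λ * Y) + Y * S / d) := by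
    calc N * (6 * N * J * Real.exp (Y * S / d)) * J
        = 6 * N * N * J * J * Real.exp (Y * S / d) := by ring
      _ ≤ Real.exp 2 * Real.exp (8 * (r * Λ)) * Real.exp (8 * (r * Λ)) *
          Real.exp (651 * (r ^ 2 * Λ * Y)) * Real.exp (651 * (r ^ 2 * Λ * Y)) *
          Real.exp (Y * S / d) := by gcongr
      _ ≤ _ := by
        simp only [← Real.exp_add]
        exact Real.exp_le_exp.2 (by linarith)
  have h3 := (Real.log_le_iff_le_exp (by linarith)).2 h2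
  have h4 : d * (1320 * (r ^ 2 * Λ * Y)) ≤ S * Y := by
    calc d * (1320 * (r ^ 2 * Λ * Y)) = (1320 * d * r ^ 2 * Λ) * Y := by ring
      _ ≤ S * Y := by gcongr
  have h5 : d * (Y * S / d) = S * Y := by field_simp
  calc d * Real.log _ ≤ d * (1320 * (r ^ 2 * Λ * Y) + Y * S / d) := by gcongr
    _ ≤ 2 * (S * Y) := by rw [mul_add]; linarith

theorem small_bound {r : ℕ} {B q ε S₀ Y Λ : ℝ} (hΛ : 1 ≤ Λ) (hr1 : (1 : ℝ) ≤ r) (hr : (r : ℝ) ≤ Λ)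
    (hY1 : 1 ≤ Y) (hYΛ : Y ≤ Real.exp Λ) (hSΛ : S₀ ≤ Real.exp Λ) (hS : 9 * (r * Λ) ≤ S₀)
    (hq0 : 0 ≤ q) (hq : q ≤ Real.exp (3 * (r * Λ))) (hε0 : 0 ≤ ε)
    (hε : ε < Real.exp (-(500 * 4 ^ r * S₀ * Y * Λ))) (hB : B ≤ Real.exp (2 * (S₀ * Y))) :
    q ^ 3 * ε ≤ 1 ∧ ∀ S t : ℕ, (S * t : ℝ) ≤ 20 * 4 ^ r * (S₀ * Y) →
      B * (q ^ 3 * ε * (40 * S * t : ℝ) ^ (2 * S * t)) ≤ Real.exp (-(4 * 4 ^ r * (S₀ * Y))) / 2 := by
  have hrΛ : 1 ≤ r * Λ := one_le_mul_of_one_le_of_one_le hr1 hΛ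
  have hS1 : 1 ≤ S₀ := by linarith
  have h4r : (1 : ℝ) ≤ 4 ^ r := one_le_pow₀ (by norm_num)
  have hSV : S₀ ≤ S₀ * Y := le_mul_of_one_le_right (by linarith) hY1
  obtain ⟨V, hVdef⟩ : ∃ V, V = S₀ * Y := ⟨_, rfl⟩
  obtain ⟨U, hU⟩ : ∃ U, U = 4 ^ r * V := ⟨_, rfl⟩
  have e0 : 500 * 4 ^ r * S₀ * Y * Λ = 500 * (U * Λ) := by rw [hU, hVdef]; ring
  have hUe : U ≤ Real.exp (1.4 * Λ) * (Real.exp Λ * Real.exp Λ) := by
    have h3 : (4 : ℝ) ^ r ≤ Real.exp (1.4 * Λ) := by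
      calc (4 : ℝ) ^ r ≤ Real.exp 1.4 ^ r := by gcongr; exact four_le_exp
        _ = Real.exp (r * 1.4) := by rw [← Real.exp_nat_mul]
        _ ≤ _ := Real.exp_le_exp.2 (by linarith)
    rw [hU, hVdef]
    gcongr
  rw [e0] at hε
  rw [← hVdef] at hSV hB ⊢
  have hVU : V ≤ U := by rw [hU]; exact le_mul_of_one_le_left (by linarith) h4r
  have hUΛ : U ≤ U * Λ := le_mul_of_one_le_right (by linarith) hΛ
  have he0 : q ^ 3 * ε ≤ Real.exp (-(499 * (U * Λ))) := by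
    have h2 : q ^ 3 ≤ Real.exp V := by
      calc q ^ 3 ≤ Real.exp (3 * (r * Λ)) ^ 3 := by gcongr
        _ = Real.exp (9 * (r * Λ)) := by rw [← Real.exp_nat_mul]; congr 1; push_cast; ring
        _ ≤ _ := Real.exp_le_exp.2 (by linarith)
    calc q ^ 3 * ε ≤ Real.exp V * Real.exp (-(500 * (U * Λ))) := by gcongr
      _ ≤ _ := by rw [← Real.exp_add]; exact Real.exp_le_exp.2 (by linarith)
  refine ⟨he0.trans (Real.exp_le_one_iff.2 (by linarith)), fun S t hSt => ?_⟩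
  have hSt' : (S * t : ℝ) ≤ 20 * U := by rw [hU]; linarith
  have h2 : (40 * S * t : ℝ) ≤ Real.exp (10.4 * Λ) := by
    have h4 := le_exp_seven
    calc (40 * S * t : ℝ) ≤ 800 * U := by linarith
      _ ≤ Real.exp 7 * (Real.exp (1.4 * Λ) * (Real.exp Λ * Real.exp Λ)) := by
          gcongr
          linarith
      _ ≤ _ := by
        simp only [← Real.exp_add]
        exact Real.exp_le_exp.2 (by linarith)
  have h3 : (40 * S * t : ℝ) ^ (2 * S * t) ≤ Real.exp (416 * (U * Λ)) := by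
    calc (40 * S * t : ℝ) ^ (2 * S * t) ≤ Real.exp (10.4 * Λ) ^ (2 * S * t) := by gcongr
      _ = Real.exp (((2 * S * t : ℕ) : ℝ) * (10.4 * Λ)) := by rw [← Real.exp_nat_mul]
      _ ≤ _ := by
        refine Real.exp_le_exp.2 ?_
        push_cast
        calc 2 * (S : ℝ) * t * (10.4 * Λ) = 2 * (S * t) * (10.4 * Λ) := by ring
          _ ≤ 2 * (20 * U) * (10.4 * Λ) := by gcongr
          _ = _ := by ring
  have e : 4 * 4 ^ r * V = 4 * U := by rw [hU]; ring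
  rw [e]
  calc B * (q ^ 3 * ε * (40 * S * t : ℝ) ^ (2 * S * t))
      ≤ Real.exp (2 * V) * (Real.exp (-(499 * (U * Λ))) * Real.exp (416 * (U * Λ))) := by gcongr
    _ ≤ Real.exp (-(4 * U)) * Real.exp (-1) := by
        simp only [← Real.exp_add]
        exact Real.exp_le_exp.2 (by linarith)
    _ ≤ Real.exp (-(4 * U)) * (1 / 2) := by
        have := Real.exp_neg_one_lt_d9
        gcongr
        linarith
    _ = _ := by ring

end CoreAux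

theorem core {K F : Type} [Field K] [NumberField K] [NormedField F] [CharZero F] [Algebra K F]
    (P : Setup K F) (ξ : P.A) (hξ : ξ ≠ 1) (hx Y Λ : ℝ) (S₀ : ℕ) (Hξ : Ht {1, P.val ξ} hx)
    (L : Finset P.A) (h1 : 1 ∈ L) (hH : Ht (P.val '' (L : Set P.A)) Y)
    (hΩ : ∀ θ ∈ L, ∀ θ' ∈ L, ‖P.lg θ - P.lg θ'‖ ≤ P.Ω Y) (hGY : P.G ≤ Y) (hΛ : 1 ≤ Λ)
    (hr : (P.r : ℝ) ≤ Λ) (hYΛ : Y ≤ Real.exp Λ) (hxΛ : hx ≤ Real.exp Λ)
    (hSΛ : (S₀ : ℝ) ≤ Real.exp Λ) (hS : 1320 * finrank ℚ K * (P.r : ℝ) ^ 2 * Λ ≤ S₀)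
    (hcard : 12 * finrank ℚ K * S₀ * (600 * Y / P.G) ^ (P.r - 1) ≤ L.card) :
    Real.exp (-(500 * 4 ^ P.r * S₀ * Y * Λ)) ≤ ‖P.lg ξ‖ := by
  classical
  by_contra hcon
  push Not at hcon
  have hG1 := P.hG
  have hG0 : 0 < P.G := by linarith
  have hY1 : 1 ≤ Y := by linarith
  have hr1 : (1 : ℝ) ≤ P.r := by exact_mod_cast P.hr
  set d : ℕ := finrank ℚ K with hd
  have hd1 : (1 : ℝ) ≤ d := by exact_mod_cast (finrank_pos : 0 < finrank ℚ K)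
  have hx0 : 0 ≤ hx := Hξ.nonneg (by simp)
  have hr2 : (P.r : ℝ) ≤ (P.r : ℝ) ^ 2 := by nlinarith
  have hdS : (1320 : ℝ) * (d * (P.r * Λ)) ≤ S₀ := by
    refine le_trans ?_ hS
    have : (1320 : ℝ) * d * (P.r : ℝ) ^ 2 * Λ = 1320 * (d * ((P.r : ℝ) ^ 2 * Λ)) := by ring
    rw [this]; gcongr
  have hrΛ : 1 ≤ P.r * Λ := by nlinarith
  have hdS' : (d : ℝ) ≤ S₀ := by nlinarith
  have hS1 : (1 : ℝ) ≤ S₀ := by linarith
  have hV1 : 1 ≤ S₀ * Y := one_le_mul_of_one_le_of_one_le hS1 hY1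
  set x : ℝ := Y / P.G with hxdef
  have hx1 : 1 ≤ x := by rw [hxdef, le_div_iff₀ hG0]; linarith
  have hxY : x ≤ Y := div_le_self (by linarith) hG1
  set T₀ : ℕ := ⌈72 * (2 * P.r + 1) * Y / P.G⌉₊ with hT₀
  have hT₀' : (T₀ : ℝ) ≤ 216 * P.r * x + 1 := by
    have h2 := Nat.ceil_lt_add_one (a := 72 * (2 * P.r + 1) * Y / P.G) (by positivity)
    have e : 72 * (2 * P.r + 1) * Y / P.G = 72 * (2 * P.r + 1) * x := by rw [hxdef]; ring
    rw [hT₀]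
    rw [e] at h2 ⊢
    nlinarith
  have hrx : 1 ≤ P.r * x := by nlinarith
  have hrx' : (P.r : ℝ) ≤ P.r * x := by nlinarith
  set Q : ℕ := ⌊2 * (P.r * Y + hx)⌋₊ + 1 with hQdef
  have hQ : 2 * (P.r * Y + hx) < Q := by rw [hQdef]; push_cast; exact Nat.lt_floor_add_one _
  have hQ1 : (1 : ℝ) ≤ Q := by rw [hQdef]; push_cast; linarith [Nat.cast_nonneg (α := ℝ) ⌊2 * (P.r * Y + hx)⌋₊]
  have hQr : (Q : ℝ) ^ P.r ≤ Real.exp (3 * (P.r * Λ)) := Q_bound hΛ hr hY1 hx0 hYΛ hxΛ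
  have hQr1 : (1 : ℝ) ≤ (Q : ℝ) ^ P.r := one_le_pow₀ hQ1
  set E : Finset (ℕ × Sym (Option (Fin (P.r - 1))) T₀) := Finset.Icc 1 S₀ ×ˢ Finset.univ with hE
  have hEcard : E.card = S₀ * (P.r + T₀ - 1).choose T₀ := by
    rw [hE, Finset.card_product, Nat.card_Icc, Finset.card_univ, Sym.card_sym_eq_choose]
    have := P.hr
    simp only [Fintype.card_option, Fintype.card_fin, Nat.add_sub_cancel]
    rw [Nat.sub_add_cancel this]
  set N : ℕ := 4 * d * E.card with hN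
  have hNle : (N : ℝ) ≤ 12 * d * S₀ * (600 * x) ^ (P.r - 1) := by
    have h2 := choose_bound P.r T₀ P.hr x (by linarith) (by linarith)
    rw [hN, hEcard]
    push_cast
    calc (4 : ℝ) * d * (S₀ * ((P.r + T₀ - 1).choose T₀ : ℝ))
        ≤ 4 * d * (S₀ * (3 * (600 * x) ^ (P.r - 1))) := by gcongr
      _ = _ := by ring
  have hN1 : 1 ≤ N := by
    have h2 : 0 < (P.r + T₀ - 1).choose T₀ := Nat.choose_pos (by have := P.hr; omega)
    have h3 : 0 < S₀ := by exact_mod_cast (by linarith : (0 : ℝ) < S₀)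
    have h4 : 0 < d := by exact_mod_cast (by linarith : (0 : ℝ) < d)
    rw [hN, hEcard]
    exact Nat.succ_le_of_lt (by positivity)
  have hNL : N ≤ L.card := by
    have e : 600 * Y / P.G = 600 * x := by rw [hxdef]; ring
    rw [e] at hcard
    exact_mod_cast hNle.trans hcard
  obtain ⟨L₁, hL₁1, hL₁L, hL₁c⟩ := Finset.exists_subsuperset_card_eq (s := {1}) (t := L)
    (by simpa using h1) (by simpa using hN1) hNL
  have h1₁ : (1 : P.A) ∈ L₁ := hL₁1 (by simp)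
  have hH₁ : Ht (P.val '' (L₁ : Set P.A)) Y := hH.mono (Set.image_mono hL₁L) le_rfl
  obtain ⟨I, φ, l, l0, b, h1I, hIQ, -, hφ, h⟩ :=
    exists_coord P ξ hξ hx Y Y Hξ Q hQ L₁ h1₁ hH₁ le_rfl
  have hIR : (I : ℝ) ≤ (Q : ℝ) ^ P.r := by exact_mod_cast hIQ
  obtain ⟨c, hc0, hc, hce⟩ := siegel L₁ P.val _ Y (by linarith) hH₁ (fun θ hθ => ⟨θ, hθ, rfl⟩) E
    (fun e θ => mono l e.2.1 θ) (fun e => e.1) (((Q : ℝ) ^ P.r) ^ T₀) (one_le_pow₀ hQr1) S₀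
    (fun e _ θ hθ => by
      have h2 := abs_mono_le l θ ((Q : ℝ) ^ P.r) hQr1 (fun i => by
        have := ((h θ hθ).1 i).2
        have h2 : |(l θ i : ℝ)| ≤ I := by exact_mod_cast this
        linarith) e.2.1
      rwa [e.2.2] at h2)
    (fun e he => (Finset.mem_Icc.1 (Finset.mem_product.1 he).1).2) (by omega) hL₁c.ge
  rw [hL₁c] at hc
  have hvan : Van P ξ L₁ c S₀ T₀ := by
    intro s hs1 hs2 _
    refine reduce ξ l l0 b I h1I L₁ (fun θ hθ => (h θ hθ).2.2) T₀ _ fun m hm => ?_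
    have h2 := hce (s, ⟨m, hm⟩) (by simp [hE, hs1, hs2])
    rw [← h2]
    exact Finset.sum_congr rfl fun θ _ => by ring
  have hN1R : (1 : ℝ) ≤ N := by exact_mod_cast hN1
  have hNe : (N : ℝ) ≤ Real.exp (8 * (P.r * Λ)) :=
    N_bound hΛ P.hr (by linarith) hdS' hSΛ (by linarith) (hxY.trans hYΛ) hNle
  have hJ1 : 1 ≤ ((Q : ℝ) ^ P.r) ^ T₀ := one_le_pow₀ hQr1
  have hJe := J_bound hΛ hr1 (by linarith) hQr hx1 hxY hT₀'
  obtain ⟨hB1, hBV⟩ := B_bound hΛ hr1 hd1 hY1 hS hN1R hJ1 hNe hJe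
  have hl := Real.log_nonneg hB1
  have hBe := (Real.log_le_iff_le_exp (lt_of_lt_of_le one_pos hB1)).1
    (le_trans (le_mul_of_one_le_left hl hd1) hBV)
  have h9 : 9 * (P.r * Λ) ≤ S₀ := by
    have : P.r * Λ ≤ d * (P.r * Λ) := le_mul_of_one_le_left (by linarith) hd1
    linarith
  obtain ⟨he, hsmall⟩ := small_bound hΛ hr1 hr hY1 hYΛ hSΛ h9 (by linarith) hQr (norm_nonneg _)
    hcon hBe
  let W : Par P ξ :=
    { hx := hx, Y := Y, V := S₀ * Y, B := _, Pc := _, N := N, Q := Q, T₀ := T₀, hξ := hξ,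
      Hξ := Hξ, hQ := hQ, hV := hV1, hPc := by positivity, hB1 := hB1, hB := le_rfl, hBV := hBV,
      he := he, hsmall := hsmall }
  obtain ⟨n, hn⟩ := pow_unbounded_of_one_lt (Y / (P.G / 2)) (by norm_num : (1 : ℝ) < 2)
  rw [div_lt_iff₀ (by linarith)] at hn
  exact stage P ξ W n Y S₀ T₀ L₁ c hn le_rfl rfl h1₁ hL₁c.le hc hc0 hH₁
    (fun θ hθ θ' hθ' => hΩ θ (hL₁L hθ) θ' (hL₁L hθ')) (Nat.le_ceil _) le_rfl hvan

end Pool.Agent.P.MP_9ec3f0_nt.SY
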