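import Pool.Agent.P.MP_9ec3f0_nt.SY.Defs

/-! Polynomial functions on a group and monomials in integer coordinates. -/

namespace Pool.Agent.P.MP_9ec3f0_nt.SY.CoreAux

open Finset

variable {A : Type} [CommGroup A]

theorem one_mem_aff (ξ : A) : (1 : A → ℚ) ∈ Aff ξ :=
  Submodule.subset_span (Set.mem_insert _ _)

theorem form_mem_aff (ξ : A) (φ : Additive A →+ ℚ) (h : φ (Additive.ofMul ξ) = 0) :
    (fun θ => φ (Additive.ofMul θ)) ∈ Aff ξ :=
  Submodule.subset_span (Set.mem_insert_of_mem _ ⟨φ, h, rfl⟩)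

theorem mul_mem_aff_pow (ξ : A) {T : ℕ} {g f : A → ℚ} (hg : g ∈ Aff ξ ^ T) (hf : f ∈ Aff ξ) :
    g * f ∈ Aff ξ ^ (T + 1) := by
  rw [pow_succ]
  exact Submodule.mul_mem_mul hg hf

theorem mem_aff_pow_succ (ξ : A) {T : ℕ} {g : A → ℚ} (hg : g ∈ Aff ξ ^ T) :
    g ∈ Aff ξ ^ (T + 1) := by
  simpa using mul_mem_aff_pow ξ hg (one_mem_aff ξ)

theorem mem_aff_pow_of_le (ξ : A) {T T' : ℕ} (h : T ≤ T') {g : A → ℚ} (hg : g ∈ Aff ξ ^ T) :
    g ∈ Aff ξ ^ T' := by
  induction h with
  | refl => exact hg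
  | step _ ih => exact mem_aff_pow_succ ξ ih

theorem one_mem_aff_pow (ξ : A) (T : ℕ) : (1 : A → ℚ) ∈ Aff ξ ^ T := by
  refine mem_aff_pow_of_le ξ (Nat.zero_le T) ?_
  rw [pow_zero]
  exact Submodule.one_le.mp le_rfl

/-- Substitution `θ = θ₁ η ^ q` is onto on affine functions. -/
theorem exists_subst_aff (ξ θ₁ : A) {q : ℕ} (hq : 0 < q) {f : A → ℚ} (hf : f ∈ Aff ξ) :
    ∃ f' ∈ Aff ξ, ∀ η, f' (θ₁ * η ^ q) = f η := by
  induction hf using Submodule.span_induction with
  | mem x hx =>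
    rcases hx with rfl | ⟨φ, hφ, rfl⟩
    · exact ⟨1, one_mem_aff ξ, fun _ => rfl⟩
    · refine ⟨(q : ℚ)⁻¹ • ((fun θ => φ (Additive.ofMul θ)) - φ (Additive.ofMul θ₁) • (1 : A → ℚ)),
        Submodule.smul_mem _ _ (Submodule.sub_mem _ (form_mem_aff ξ φ hφ)
          (Submodule.smul_mem _ _ (one_mem_aff ξ))), fun η => ?_⟩
      have hq' : (q : ℚ) ≠ 0 := by exact_mod_cast hq.ne'
      simp only [Pi.smul_apply, Pi.sub_apply, Pi.one_apply, smul_eq_mul, mul_one, ofMul_mul,
        ofMul_pow, map_add, map_nsmul, nsmul_eq_mul]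
      field_simp
      ring
  | zero => exact ⟨0, Submodule.zero_mem _, fun _ => rfl⟩
  | add x y _ _ hx hy =>
    obtain ⟨x', hx', ex⟩ := hx
    obtain ⟨y', hy', ey⟩ := hy
    exact ⟨x' + y', Submodule.add_mem _ hx' hy', fun η => by simp [ex, ey]⟩
  | smul a x _ hx =>
    obtain ⟨x', hx', ex⟩ := hx
    exact ⟨a • x', Submodule.smul_mem _ _ hx', fun η => by simp [ex]⟩

theorem exists_subst (ξ θ₁ : A) {q : ℕ} (hq : 0 < q) (T : ℕ) :
    ∀ g ∈ Aff ξ ^ T, ∃ g' ∈ Aff ξ ^ T, ∀ η, g' (θ₁ * η ^ q) = g η := by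
  induction T with
  | zero =>
    intro g hg
    rw [pow_zero, Submodule.mem_one] at hg
    obtain ⟨a, rfl⟩ := hg
    refine ⟨algebraMap ℚ (A → ℚ) a, ?_, fun _ => rfl⟩
    rw [pow_zero, Submodule.mem_one]
    exact ⟨a, rfl⟩
  | succ T ih =>
    intro g hg
    rw [pow_succ] at hg
    induction hg using Submodule.mul_induction_on' with
    | mem_mul_mem m hm n hn =>
      obtain ⟨m', hm', em⟩ := ih m hm
      obtain ⟨n', hn', en⟩ := exists_subst_aff ξ θ₁ hq hn
      exact ⟨m' * n', mul_mem_aff_pow ξ hm' hn', fun η => by simp [em, en]⟩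
    | add x _ y _ hx hy =>
      obtain ⟨x', hx', ex⟩ := hx
      obtain ⟨y', hy', ey⟩ := hy
      exact ⟨x' + y', Submodule.add_mem _ hx' hy', fun η => by simp [ex, ey]⟩

variable {k : ℕ}

/-- The generators `1, l_1, ..., l_k`. -/
def gen (l : A → Fin k → ℤ) (o : Option (Fin k)) (θ : A) : ℤ :=
  match o with
  | none => 1
  | some i => l θ i

/-- Monomials in the generators. -/
def mono (l : A → Fin k → ℤ) (m : Multiset (Option (Fin k))) (θ : A) : ℤ :=
  (m.map fun o => gen l o θ).prod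

omit [CommGroup A] in
theorem mono_cons (l : A → Fin k → ℤ) (o : Option (Fin k)) (m : Multiset (Option (Fin k)))
    (θ : A) : mono l (o ::ₘ m) θ = gen l o θ * mono l m θ := by
  simp [mono]

omit [CommGroup A] in
theorem abs_mono_le (l : A → Fin k → ℤ) (θ : A) (I : ℝ) (hI : 1 ≤ I) (h : ∀ i, |(l θ i : ℝ)| ≤ I)
    (m : Multiset (Option (Fin k))) : |(mono l m θ : ℝ)| ≤ I ^ Multiset.card m := by
  induction m using Multiset.induction_on with
  | empty => simp [mono]
  | cons o m ih =>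
    rw [mono_cons, Multiset.card_cons, pow_succ', Int.cast_mul, abs_mul]
    refine mul_le_mul ?_ ih (abs_nonneg _) (by linarith)
    cases o with
    | none => simpa [gen] using hI
    | some i => exact h i

theorem exists_mono_mem (ξ : A) (φ : Fin k → (Additive A →+ ℚ))
    (hφ : ∀ i, φ i (Additive.ofMul ξ) = 0) (l : A → Fin k → ℤ) (L : Finset A)
    (hl : ∀ θ ∈ L, ∀ i, φ i (Additive.ofMul θ) = l θ i) (m : Multiset (Option (Fin k))) :
    ∃ g ∈ Aff ξ ^ Multiset.card m, ∀ θ ∈ L, g θ = mono l m θ := by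
  induction m using Multiset.induction_on with
  | empty => exact ⟨1, one_mem_aff_pow ξ _, fun θ _ => by simp [mono]⟩
  | cons o m ih =>
    obtain ⟨g, hg, eg⟩ := ih
    rw [Multiset.card_cons]
    cases o with
    | none =>
      exact ⟨g, mem_aff_pow_succ ξ hg, fun θ hθ => by rw [mono_cons, eg θ hθ]; simp [gen]⟩
    | some i =>
      refine ⟨g * fun θ => φ i (Additive.ofMul θ), mul_mem_aff_pow ξ hg (form_mem_aff ξ _ (hφ i)),
        fun θ hθ => ?_⟩
      rw [mono_cons, Pi.mul_apply, eg θ hθ, hl θ hθ i]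
      simp [gen, mul_comm]

/-- A form killing `ξ` is, on `L`, a combination of the coordinates. -/
theorem form_eq (ξ : A) (l : A → Fin k → ℤ) (l0 : A → ℤ) (b : Fin k → A) (I : ℕ) (hI : 1 ≤ I)
    (θ : A) (h : θ ^ I = ξ ^ l0 θ * ∏ i, b i ^ l θ i) (φ : Additive A →+ ℚ)
    (hφ : φ (Additive.ofMul ξ) = 0) :
    φ (Additive.ofMul θ) = ∑ i, φ (Additive.ofMul (b i)) / I * l θ i := by
  have h1 := congrArg (fun x => φ (Additive.ofMul x)) h
  simp only [ofMul_pow, ofMul_mul, ofMul_zpow, ofMul_prod, map_nsmul, map_add, map_zsmul, map_sum,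
    hφ, smul_zero, zero_add, nsmul_eq_mul, zsmul_eq_mul] at h1
  have hI' : (I : ℚ) ≠ 0 := by exact_mod_cast (by omega : I ≠ 0)
  apply mul_left_cancel₀ hI'
  rw [h1, Finset.mul_sum]
  refine Finset.sum_congr rfl fun i _ => ?_
  field_simp

/-- It is enough to test vanishing on monomials. -/
theorem reduce {R : Type} [Field R] [CharZero R] (ξ : A) (l : A → Fin k → ℤ) (l0 : A → ℤ)
    (b : Fin k → A) (I : ℕ) (hI : 1 ≤ I) (L : Finset A)
    (h : ∀ θ ∈ L, θ ^ I = ξ ^ l0 θ * ∏ i, b i ^ l θ i) (T : ℕ) :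
    ∀ u : A → R, (∀ m : Multiset (Option (Fin k)), Multiset.card m = T →
      ∑ θ ∈ L, (mono l m θ : R) * u θ = 0) →
      ∀ g ∈ Aff ξ ^ T, ∑ θ ∈ L, (g θ : R) * u θ = 0 := by
  induction T with
  | zero =>
    intro u hu g hg
    rw [pow_zero, Submodule.mem_one] at hg
    obtain ⟨a, rfl⟩ := hg
    have h0 := hu 0 rfl
    simp only [mono, Multiset.map_zero, Multiset.prod_zero, Int.cast_one, one_mul] at h0
    have : ∀ θ, (algebraMap ℚ (A → ℚ) a) θ = a := fun _ => rfl
    simp only [this, ← Finset.mul_sum, h0, mul_zero]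
  | succ T ih =>
    intro u hu g hg
    rw [pow_succ] at hg
    induction hg using Submodule.mul_induction_on' with
    | mem_mul_mem g₁ hg₁ f hf =>
      have key : ∀ m : Multiset (Option (Fin k)), Multiset.card m = T →
          ∑ θ ∈ L, (mono l m θ : R) * ((f θ : R) * u θ) = 0 := by
        intro m hm
        induction hf using Submodule.span_induction with
        | mem x hx =>
          rcases hx with rfl | ⟨φ, hφ, rfl⟩
          · have := hu (none ::ₘ m) (by simp [hm])
            simpa [mono_cons, gen] using this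
          · have e : ∀ θ ∈ L, (mono l m θ : R) * (((φ (Additive.ofMul θ) : ℚ) : R) * u θ) =
                ∑ i, ((φ (Additive.ofMul (b i)) / I : ℚ) : R) *
                  ((mono l (some i ::ₘ m) θ : R) * u θ) := by
              intro θ hθ
              rw [form_eq ξ l l0 b I hI θ (h θ hθ) φ hφ]
              push_cast
              rw [Finset.sum_mul, Finset.mul_sum]
              refine Finset.sum_congr rfl fun i _ => ?_
              rw [mono_cons]
              simp only [gen]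
              push_cast
              ring
            rw [Finset.sum_congr rfl e, Finset.sum_comm]
            refine Finset.sum_eq_zero fun i _ => ?_
            rw [← Finset.mul_sum, hu _ (by simp [hm]), mul_zero]
        | zero => simp
        | add x y _ _ hx hy =>
          simp only [Pi.add_apply, Rat.cast_add, add_mul, mul_add, Finset.sum_add_distrib, hx, hy,
            add_zero]
        | smul a x _ hx =>
          have e : ∀ θ ∈ L, (mono l m θ : R) * ((((a • x) θ : ℚ) : R) * u θ) =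
              (a : R) * ((mono l m θ : R) * ((x θ : R) * u θ)) := by
            intro θ _
            simp only [Pi.smul_apply, smul_eq_mul, Rat.cast_mul]
            ring
          rw [Finset.sum_congr rfl e, ← Finset.mul_sum, hx, mul_zero]
      have := ih (fun θ => (f θ : R) * u θ) key g₁ hg₁
      simpa [mul_assoc] using this
    | add x _ y _ hx hy =>
      simp only [Pi.add_apply, Rat.cast_add, add_mul, Finset.sum_add_distrib, hx, hy, add_zero]

/-- Vanishing persists after multiplication by powers of a combination of the coordinates. -/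
theorem jets {R : Type} [Field R] [CharZero R] (ξ : A) (φ : Fin k → (Additive A →+ ℚ))
    (hφ : ∀ i, φ i (Additive.ofMul ξ) = 0) (l : A → Fin k → ℤ) (L : Finset A)
    (hl : ∀ θ ∈ L, ∀ i, φ i (Additive.ofMul θ) = l θ i) (β : Fin k → R) (u : A → R) (T₀ : ℕ)
    (hu : ∀ g ∈ Aff ξ ^ T₀, ∑ θ ∈ L, (g θ : R) * u θ = 0) (j : ℕ) :
    ∀ T, T + j ≤ T₀ → ∀ g ∈ Aff ξ ^ T,
      ∑ θ ∈ L, (g θ : R) * (∑ i, β i * l θ i) ^ j * u θ = 0 := by
  induction j with
  | zero =>
    intro T hT g hg
    simpa using hu g (mem_aff_pow_of_le ξ (by omega) hg)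
  | succ j ih =>
    intro T hT g hg
    have e : ∀ θ ∈ L, (g θ : R) * (∑ i, β i * l θ i) ^ (j + 1) * u θ =
        ∑ i, β i * ((((g * fun θ => φ i (Additive.ofMul θ)) θ : ℚ) : R) *
          (∑ i, β i * l θ i) ^ j * u θ) := by
      intro θ hθ
      rw [pow_succ, ← mul_assoc, Finset.mul_sum, Finset.sum_mul]
      refine Finset.sum_congr rfl fun i _ => ?_
      rw [Pi.mul_apply, hl θ hθ i]
      push_cast
      ring
    rw [Finset.sum_congr rfl e, Finset.sum_comm]
    refine Finset.sum_eq_zero fun i _ => ?_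
    rw [← Finset.mul_sum, ih (T + 1) (by omega) _
      (mul_mem_aff_pow ξ hg (form_mem_aff ξ _ (hφ i))), mul_zero]

end Pool.Agent.P.MP_9ec3f0_nt.SY.CoreAux
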