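import Pool.Agent.P.MP_9ec3f0_nt.SY.Defs

namespace Pool.Agent.P.MP_9ec3f0_nt.SY

open NumberField IsDedekindDomain Finset Module

set_option linter.unusedSectionVars false

section Kummer
variable {K F : Type} [Field K] [NumberField K] [NormedField F] [CharZero F] [Algebra K F]

theorem Setup.lg_one (P : Setup K F) : P.lg 1 = 0 := by
  have h := P.lg_mul 1 1
  rw [mul_one] at h
  exact left_eq_add.mp h

namespace KummerAux

theorem lg_pow (P : Setup K F) (θ : P.A) (n : ℕ) : P.lg (θ ^ n) = n * P.lg θ := by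
  induction n with
  | zero => simp [P.lg_one]
  | succ n ih => rw [pow_succ, P.lg_mul, ih]; push_cast; ring

theorem lg_inv (P : Setup K F) (θ : P.A) : P.lg θ⁻¹ = - P.lg θ := by
  have h := P.lg_mul θ θ⁻¹
  rw [mul_inv_cancel, P.lg_one] at h
  linear_combination -h

theorem q_prime (P : Setup K F) : P.q.Prime := by
  rcases P.hq with h | h <;> rw [h] <;> norm_num

theorem q_pos (P : Setup K F) : 0 < P.q := (q_prime P).pos

theorem y_pow_val (P : Setup K F) (θ : P.A) : P.y θ ^ P.q = algebraMap K F (P.val θ) :=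
  P.y_pow θ

theorem val_ne (P : Setup K F) (θ : P.A) : P.val θ ≠ 0 := Units.ne_zero _

theorem y_ne (P : Setup K F) (θ : P.A) : P.y θ ≠ 0 := by
  intro h
  have h1 := y_pow_val P θ
  rw [h, zero_pow (q_pos P).ne'] at h1
  exact val_ne P θ ((algebraMap K F).injective (by rw [← h1, map_zero]))

theorem y_one (P : Setup K F) : P.y 1 = 1 := by
  have h := P.y_mul 1 1
  rw [mul_one] at h
  exact (mul_eq_left₀ (y_ne P 1)).mp h.symm

theorem y_npow (P : Setup K F) (θ : P.A) (n : ℕ) : P.y (θ ^ n) = P.y θ ^ n := by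
  induction n with
  | zero => simp [y_one P]
  | succ n ih => rw [pow_succ, P.y_mul, ih, pow_succ]

theorem y_inv (P : Setup K F) (θ : P.A) : P.y θ⁻¹ = (P.y θ)⁻¹ := by
  have h := P.y_mul θ θ⁻¹
  rw [mul_inv_cancel, y_one P] at h
  exact eq_inv_of_mul_eq_one_right h.symm

/-- The elements whose chosen root lies in `E` form a subgroup. -/
def rootIn (P : Setup K F) (E : IntermediateField K F) : Subgroup P.A where
  carrier := {θ | P.y θ ∈ E}
  mul_mem' := by
    intro a b ha hb
    simp only [Set.mem_ofPred_eq] at *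
    rw [P.y_mul]
    exact E.mul_mem ha hb
  one_mem' := by
    simp only [Set.mem_ofPred_eq]
    rw [y_one P]
    exact E.one_mem
  inv_mem' := by
    intro a ha
    simp only [Set.mem_ofPred_eq] at *
    rw [y_inv P]
    exact E.inv_mem ha

theorem isIntegral_y (P : Setup K F) (θ : P.A) : IsIntegral K (P.y θ) := by
  refine IsIntegral.of_pow (q_pos P) ?_
  rw [y_pow_val P]
  exact isIntegral_algebraMap

theorem finrank_adjoin_y (P : Setup K F) (θ : P.A) :
    finrank K (IntermediateField.adjoin K {P.y θ}) ≤ P.q := by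
  rw [IntermediateField.adjoin.finrank (isIntegral_y P θ)]
  have hm : (Polynomial.X ^ P.q - Polynomial.C (P.val θ) : Polynomial K).Monic :=
    Polynomial.monic_X_pow_sub_C _ (q_pos P).ne'
  have h := minpoly.min K (P.y θ) hm (by simp [y_pow_val P])
  have h2 := Polynomial.natDegree_le_natDegree h
  rwa [Polynomial.natDegree_X_pow_sub_C] at h2

theorem exists_field_finset (P : Setup K F) (T : Finset P.A) :
    ∃ E : IntermediateField K F, FiniteDimensional K E ∧ finrank K E ≤ P.q ^ T.card ∧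
      ∀ θ ∈ T, P.y θ ∈ E := by
  classical
  induction T using Finset.induction_on with
  | empty => exact ⟨⊥, inferInstance, by simp, by simp⟩
  | insert a T ha ih =>
    obtain ⟨E, hE, hr, hy⟩ := ih
    have := IntermediateField.adjoin.finiteDimensional (isIntegral_y P a)
    refine ⟨IntermediateField.adjoin K {P.y a} ⊔ E, inferInstance, ?_, ?_⟩
    · refine (IntermediateField.finrank_sup_le _ _).trans ?_
      rw [Finset.card_insert_of_notMem ha, pow_succ']
      exact Nat.mul_le_mul (finrank_adjoin_y P a) hr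
    · intro θ hθ
      rcases Finset.mem_insert.mp hθ with rfl | hθ
      · exact (le_sup_left : _ ≤ IntermediateField.adjoin K {P.y θ} ⊔ E)
          (IntermediateField.mem_adjoin_simple_self K _)
      · exact (le_sup_right : E ≤ _) (hy θ hθ)

end KummerAux

open KummerAux

theorem Setup.lg_zpow (P : Setup K F) (θ : P.A) (n : ℤ) : P.lg (θ ^ n) = n * P.lg θ := by
  rcases n with n | n
  · simp [lg_pow P]
  · rw [zpow_negSucc, lg_inv P, lg_pow P, Int.cast_negSucc]
    ring

theorem Setup.eq_one_of_pow (P : Setup K F) {θ : P.A} {n : ℕ} (hn : 0 < n) (h : θ ^ n = 1) :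
    θ = 1 := by
  by_contra hne
  have hv : ((θ : Kˣ) : K) ^ n = 1 := by
    have := congrArg (fun x : P.A => ((x : Kˣ) : K)) h
    simpa using this
  have hH : Ht ({1, ((θ : Kˣ) : K)} : Set K) 0 := by
    refine ⟨n, 1, fun _ => 1, hn, one_ne_zero, ?_, fun _ => one_pos, ?_, by simp⟩
    · intro x hx
      rcases hx with rfl | hx
      · simpa using isIntegral_one
      · rw [Set.mem_singleton_iff] at hx
        rw [hx, hv, mul_one]
        exact isIntegral_one
    · intro x hx σ
      rcases hx with rfl | hx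
      · simp
      · rw [Set.mem_singleton_iff] at hx
        have h1 : ‖σ x‖ ^ n = 1 := by rw [← norm_pow, ← map_pow, hx, hv]; simp
        exact ((pow_eq_one_iff_of_nonneg (norm_nonneg _) hn.ne').mp h1).le
  have := P.gap θ 0 hne hH
  norm_num at this

namespace KummerAux

theorem pow_injective (P : Setup K F) {n : ℕ} (hn : 0 < n) {a b : P.A} (h : a ^ n = b ^ n) :
    a = b := by
  have h1 : (a * b⁻¹) ^ n = 1 := by rw [mul_pow, inv_pow, h, mul_inv_cancel]
  exact mul_inv_eq_one.mp (P.eq_one_of_pow hn h1)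

theorem torsionFree (P : Setup K F) : IsAddTorsionFree (Additive P.A) := by
  refine ⟨fun n hn a b hab => ?_⟩
  exact Additive.toMul.injective (pow_injective P (Nat.pos_of_ne_zero hn) (n := n)
    (by simpa using congrArg Additive.toMul hab))

end KummerAux

theorem Setup.exists_field (P : Setup K F) (L : Finset P.A) :
    ∃ E : IntermediateField K F, FiniteDimensional K E ∧ finrank K E ≤ P.q ^ P.r ∧
      ∀ θ ∈ L, P.y θ ∈ E := by
  classical
  have := torsionFree P
  set W : Submodule ℤ (Additive P.A) :=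
    Submodule.span ℤ ((L.image Additive.ofMul : Finset (Additive P.A)) : Set (Additive P.A))
    with hW
  have : Module.Finite ℤ W := Module.Finite.span_finset ℤ _
  have : Module.Free ℤ W := Module.free_of_finite_type_torsion_free'
  let b := Module.finBasis ℤ W
  have hk : finrank ℤ W ≤ P.r := by
    by_contra hlt
    push Not at hlt
    obtain ⟨n, hn0, hn⟩ := P.rank_le fun i => Additive.toMul (b (Fin.castLE hlt i) : Additive P.A)
    have hli : LinearIndependent ℤ fun i : Fin (P.r + 1) => b (Fin.castLE hlt i) :=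
      b.linearIndependent.comp _ (Fin.castLE_injective hlt)
    apply hn0
    funext i
    refine Fintype.linearIndependent_iff.mp hli n ?_ i
    apply Subtype.ext
    apply Additive.toMul.injective
    simpa [toMul_sum] using hn
  obtain ⟨E, hE, hr, hy⟩ := exists_field_finset P
    (Finset.univ.image fun i => Additive.toMul (b i : Additive P.A))
  refine ⟨E, hE, hr.trans ?_, ?_⟩
  · refine Nat.pow_le_pow_right (q_pos P) ?_
    refine Finset.card_image_le.trans ?_
    simpa using hk
  · intro θ hθ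
    have hmem : Additive.ofMul θ ∈ W :=
      Submodule.subset_span (by simpa using hθ)
    have hsum := b.sum_repr ⟨_, hmem⟩
    have h2 : θ = ∏ i, Additive.toMul (b i : Additive P.A) ^ (b.repr ⟨_, hmem⟩ i) := by
      have := congrArg (fun x : W => Additive.toMul (x : Additive P.A)) hsum
      simp only [AddSubmonoidClass.coe_finsetSum, Submodule.coe_smul, toMul_sum, toMul_zsmul,
        toMul_ofMul] at this
      exact this.symm
    have h3 : θ ∈ rootIn P E := by
      rw [h2]
      refine Subgroup.prod_mem _ fun i _ => Subgroup.zpow_mem _ ?_ _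
      exact hy _ (Finset.mem_image_of_mem _ (Finset.mem_univ i))
    exact h3

theorem Setup.exists_class (P : Setup K F) (L : Finset P.A) (θ₁ : P.A) :
    ∃ L' : Finset P.A, ∀ η, η ∈ L' ↔ θ₁ * η ^ P.q ∈ L := by
  have hinj : Function.Injective fun η : P.A => θ₁ * η ^ P.q := fun a b h =>
    pow_injective P (q_pos P) (mul_left_cancel h)
  have hfin : ((fun η : P.A => θ₁ * η ^ P.q) ⁻¹' (L : Set P.A)).Finite :=
    L.finite_toSet.preimage hinj.injOn
  exact ⟨hfin.toFinset, fun η => by simp⟩

namespace KummerAux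

theorem pow_not_mem (P : Setup K F) (ζ : P.A) (hζ : ∀ η : P.A, η ^ P.q ≠ ζ) (s : ℕ)
    (hs : ¬ P.q ∣ s) (x : K) : algebraMap K F x ≠ P.y ζ ^ s := by
  intro hx
  have hcop : IsCoprime (s : ℤ) (P.q : ℤ) :=
    Nat.isCoprime_iff_coprime.mpr (((q_prime P).coprime_iff_not_dvd).mpr hs).symm
  obtain ⟨a, b, hab⟩ := hcop
  have hz : P.y ζ = algebraMap K F (x ^ a * P.val ζ ^ b) := by
    rw [map_mul, map_zpow₀, map_zpow₀, hx, ← y_pow_val P, ← zpow_natCast, ← zpow_natCast,
      ← zpow_mul, ← zpow_mul, ← zpow_add₀ (y_ne P ζ), mul_comm (s : ℤ) a, mul_comm (P.q : ℤ) b,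
      hab, zpow_one]
  have hne : x ^ a * P.val ζ ^ b ≠ 0 := by
    intro h0
    rw [h0, map_zero] at hz
    exact y_ne P ζ hz
  have hmem := P.closed ζ (Units.mk0 _ hne) hz.symm
  apply hζ ⟨_, hmem⟩
  apply Subtype.ext
  apply Units.ext
  apply (algebraMap K F).injective
  have h1 := P.y_pow ζ
  rw [hz, ← map_pow] at h1
  simpa using h1

theorem trace_eq_zero (P : Setup K F) (ζ : P.A) (hζ : ∀ η : P.A, η ^ P.q ≠ ζ) (s : ℕ)
    (hs : ¬ P.q ∣ s) (E : IntermediateField K F) [FiniteDimensional K E] (z : E)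
    (hz : (z : F) = P.y ζ ^ s) : Algebra.trace K E z = 0 := by
  have hzq : (z : F) ^ P.q = algebraMap K F (P.val ζ ^ s) := by
    rw [hz, map_pow, ← y_pow_val P, ← pow_mul, ← pow_mul, mul_comm]
  have hnp : ∀ x : K, x ^ P.q ≠ P.val ζ ^ s := by
    intro x hx
    have hx0 : x ≠ 0 := by
      rintro rfl
      rw [zero_pow (q_pos P).ne'] at hx
      exact pow_ne_zero s (val_ne P ζ) hx.symm
    have hx1 : algebraMap K F x ≠ 0 := (map_ne_zero _).mpr hx0
    obtain ⟨c, hc⟩ := P.roots ((z : F) / algebraMap K F x) (by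
      rw [div_pow, hzq, ← map_pow, hx, div_self]
      exact (map_ne_zero _).mpr (pow_ne_zero s (val_ne P ζ)))
    apply pow_not_mem P ζ hζ s hs (c * x)
    rw [map_mul, hc, div_mul_cancel₀ _ hx1, hz]
  have hirr := X_pow_sub_C_irreducible_of_prime (q_prime P) hnp
  have hm : (Polynomial.X ^ P.q - Polynomial.C (P.val ζ ^ s) : Polynomial K).Monic :=
    Polynomial.monic_X_pow_sub_C _ (q_pos P).ne'
  have hroot : Polynomial.aeval z
      (Polynomial.X ^ P.q - Polynomial.C (P.val ζ ^ s) : Polynomial K) = 0 := by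
    apply Subtype.ext
    rw [map_sub, map_pow, Polynomial.aeval_X, Polynomial.aeval_C]
    push_cast
    rw [hzq]
    simp
  have hmin := minpoly.eq_of_irreducible_of_monic hirr hroot hm
  rw [trace_eq_finrank_mul_minpoly_nextCoeff, ← hmin,
    Polynomial.nextCoeff_of_natDegree_pos (by rw [Polynomial.natDegree_X_pow_sub_C]; exact q_pos P),
    Polynomial.natDegree_X_pow_sub_C]
  have h2 := (q_prime P).two_le
  rw [Polynomial.coeff_sub, Polynomial.coeff_X_pow, Polynomial.coeff_C, if_neg (by omega),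
    if_neg (by omega)]
  simp

end KummerAux

theorem Setup.split_class (P : Setup K F) (L L' : Finset P.A) (θ₁ : P.A)
    (hL' : ∀ η, η ∈ L' ↔ θ₁ * η ^ P.q ∈ L) (u : P.A → K) (s : ℕ) (hs : ¬ P.q ∣ s)
    (h : ∑ θ ∈ L, algebraMap K F (u θ) * P.y θ ^ s = 0) :
    ∑ η ∈ L', u (θ₁ * η ^ P.q) * P.val η ^ s = 0 := by
  classical
  obtain ⟨E, hE, -, hy⟩ := P.exists_field (L.image fun θ => θ₁⁻¹ * θ)
  have hyE : ∀ θ ∈ L, P.y (θ₁⁻¹ * θ) ∈ E := fun θ hθ => hy _ (Finset.mem_image_of_mem _ hθ)
  let z : P.A → E := fun θ => if hθ : θ ∈ L then ⟨P.y (θ₁⁻¹ * θ), hyE θ hθ⟩ ^ s else 0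
  have hz : ∀ θ ∈ L, (z θ : F) = P.y (θ₁⁻¹ * θ) ^ s := by
    intro θ hθ
    simp [z, hθ]
  have h0 : ∑ θ ∈ L, u θ • z θ = 0 := by
    apply Subtype.ext
    have h1 : ∑ θ ∈ L, algebraMap K F (u θ) * P.y (θ₁⁻¹ * θ) ^ s = 0 := by
      have h2 : ∑ θ ∈ L, algebraMap K F (u θ) * P.y (θ₁⁻¹ * θ) ^ s =
          P.y θ₁⁻¹ ^ s * ∑ θ ∈ L, algebraMap K F (u θ) * P.y θ ^ s := by
        rw [Finset.mul_sum]
        refine Finset.sum_congr rfl fun θ _ => ?_
        rw [P.y_mul, mul_pow]
        ring
      rw [h2, h, mul_zero]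
    rw [AddSubmonoidClass.coe_finsetSum, ZeroMemClass.coe_zero, ← h1]
    refine Finset.sum_congr rfl fun θ hθ => ?_
    rw [IntermediateField.coe_smul, hz θ hθ, Algebra.smul_def]
  have h1 := congrArg (Algebra.trace K E) h0
  rw [map_sum, map_zero] at h1
  have hinj : Function.Injective fun η : P.A => θ₁ * η ^ P.q := fun a b h =>
    pow_injective P (q_pos P) (mul_left_cancel h)
  have hsub : L'.image (fun η : P.A => θ₁ * η ^ P.q) ⊆ L := by
    intro θ hθ
    obtain ⟨η, hη, rfl⟩ := Finset.mem_image.mp hθ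
    exact (hL' η).mp hη
  rw [← Finset.sum_subset hsub, Finset.sum_image fun a _ b _ hab => hinj hab] at h1
  · have h2 : ∀ η ∈ L', Algebra.trace K E (u (θ₁ * η ^ P.q) • z (θ₁ * η ^ P.q)) =
        (finrank K E : K) * (u (θ₁ * η ^ P.q) * P.val η ^ s) := by
      intro η hη
      have h3 : z (θ₁ * η ^ P.q) = algebraMap K E (P.val η ^ s) := by
        apply Subtype.ext
        rw [hz _ ((hL' η).mp hη), inv_mul_cancel_left, y_npow P, y_pow_val P]
        simp
      rw [map_smul, h3, Algebra.trace_algebraMap, smul_eq_mul, nsmul_eq_mul]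
      ring
    rw [Finset.sum_congr rfl h2, ← Finset.mul_sum] at h1
    have h4 : (finrank K E : K) ≠ 0 := Nat.cast_ne_zero.mpr Module.finrank_pos.ne'
    exact (mul_eq_zero.mp h1).resolve_left h4
  · intro θ hθ hnot
    rw [map_smul, trace_eq_zero P (θ₁⁻¹ * θ) ?_ s hs E (z θ) (hz θ hθ), smul_zero]
    intro η hη
    apply hnot
    have h5 : θ₁ * η ^ P.q = θ := by rw [hη, mul_inv_cancel_left]
    exact Finset.mem_image.mpr ⟨η, (hL' η).mpr (by rw [h5]; exact hθ), h5⟩

end Kummer

end Pool.Agent.P.MP_9ec3f0_nt.SY
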