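import Pool.Agent.P.MP_9ec3f0_nt.SY.Height

namespace Pool.Agent.P.MP_9ec3f0_nt.SY

open NumberField IsDedekindDomain Finset Module

namespace LiouAux

/-- The absolute norm of a nonzero algebraic integer is a positive integer multiple of it. -/
theorem exists_norm {E : Type} [Field E] [NumberField E] {z : E} (hz : IsIntegral ℤ z)
    (h0 : z ≠ 0) : ∃ (n : ℕ) (w : E), 0 < n ∧ IsIntegral ℤ w ∧ (n : E) = z * w ∧
      (n : ℝ) = ∏ σ : E →+* ℂ, ‖σ z‖ := by
  let x : 𝓞 E := ⟨z, hz⟩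
  have hx : x ≠ 0 := fun h => h0 (congrArg Subtype.val h)
  obtain ⟨w, hw⟩ := Ideal.mem_span_singleton'.1 (Ideal.absNorm_mem (Ideal.span {x}))
  rw [Ideal.absNorm_span_singleton] at hw
  refine ⟨(Algebra.norm ℤ x).natAbs, w, Int.natAbs_pos.2 (Algebra.norm_ne_zero_iff.2 hx), w.2,
    ?_, ?_⟩
  · have := congrArg (algebraMap (𝓞 E) E) hw
    rw [map_mul, map_natCast, mul_comm] at this
    exact this.symm
  · have h1 := congrArg (fun t : ℂ => ‖t‖) (Algebra.norm_eq_prod_embeddings ℚ ℂ z)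
    simp only [norm_prod] at h1
    rw [Fintype.prod_equiv (RingHom.equivRatAlgHom E ℂ) (fun σ : E →+* ℂ => ‖σ z‖)
      (fun σ : E →ₐ[ℚ] ℂ => ‖σ z‖) fun _ => rfl, ← h1]
    have h2 : Algebra.norm ℚ z = (Algebra.norm ℤ x : ℤ) := (Algebra.coe_norm_int x).symm
    rw [h2]
    simp

theorem padic_le_one {p : ℕ} [Fact p.Prime] {x : ℚ_[p]} (hx : IsIntegral ℤ x) : ‖x‖ ≤ 1 := by
  obtain ⟨y, rfl⟩ := (IsIntegrallyClosed.isIntegral_iff (R := ℤ_[p]) (K := ℚ_[p])).1
    (hx.tower_top (A := ℤ_[p]))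
  exact y.2

theorem isIntegral_sum {E Ω : Type} [Field E] [Field Ω] [IsAlgClosed Ω] (φ : E →+* Ω) {ι : Type}
    (T : Finset ι) (z : ι → E) (δ : E) {M : ℕ} (hM : 0 < M) (h : ∀ i ∈ T, IsIntegral ℤ (δ * z i ^ M)) (a : ι → ℤ) (s : ℕ) :
    IsIntegral ℤ (δ ^ s * (∑ i ∈ T, (a i : E) * z i ^ s) ^ M) := by
  obtain ⟨ε, hε⟩ := IsAlgClosed.exists_pow_nat_eq (φ δ) hM
  have h1 : ∀ i ∈ T, IsIntegral ℤ (ε * φ (z i)) := fun i hi => IsIntegral.of_pow hM (by
    rw [mul_pow, hε, ← map_pow, ← map_mul]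
    exact (h i hi).map φ.toIntAlgHom)
  have h2 : IsIntegral ℤ ((∑ i ∈ T, (a i : Ω) * (ε * φ (z i)) ^ s) ^ M) :=
    (IsIntegral.sum _ fun i hi =>
      (isIntegral_algebraMap (x := a i)).mul ((h1 i hi).pow s)).pow M
  refine (isIntegral_algHom_iff φ.toIntAlgHom φ.injective).1 ?_
  convert h2 using 1
  change φ _ = _
  simp only [map_mul, map_pow, map_sum, map_intCast, ← hε, mul_pow,
    mul_left_comm _ (ε ^ s), ← mul_sum]
  ring

theorem prod_restrict {K E : Type} [Field K] [NumberField K] [Field E] [NumberField E]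
    [Algebra K E] (f : (K →+* ℂ) → ℝ) :
    ∏ σ : E →+* ℂ, f (σ.comp (algebraMap K E)) = (∏ σ, f σ) ^ finrank K E := by
  classical
  rw [← prod_pow, ← prod_fiberwise' univ (fun σ : E →+* ℂ => σ.comp (algebraMap K E)) f]
  refine prod_congr rfl fun σ _ => ?_
  rw [prod_const]
  congr 1
  let := σ.toAlgebra
  rw [← AlgHom.card K E ℂ, ← Fintype.card_subtype]
  exact Fintype.card_congr
    { toFun := fun τ => { τ.1 with commutes' := fun x => RingHom.congr_fun τ.2 x }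
      invFun := fun τ => ⟨τ.toRingHom, RingHom.ext τ.commutes⟩
      left_inv := fun _ => rfl
      right_inv := fun _ => rfl }

end LiouAux

open LiouAux

section Liouville
variable {K F : Type} [Field K] [NumberField K] [NormedField F] [CharZero F] [Algebra K F]

theorem liou_padic (K : Type) [Field K] [NumberField K] (p : ℕ) [Fact p.Prime]
    [Algebra K ℚ_[p]] : Liou K ℚ_[p] := by
  intro E _ z δ B hz hδ h0 hB _
  obtain ⟨n, w, hn, hw, e1, e2⟩ := exists_norm hz h0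
  have h1 : ‖(w : ℚ_[p])‖ ≤ 1 := padic_le_one (hw.map (algebraMap E ℚ_[p]).toIntAlgHom)
  have h2 : ‖(δ : ℚ_[p])‖ ≤ 1 := padic_le_one (hδ.map (algebraMap E ℚ_[p]).toIntAlgHom)
  have h3 : (n : ℝ) ≤ ∏ σ, B σ := e2.trans_le (prod_le_prod (fun _ _ => norm_nonneg _)
    fun σ _ => hB σ)
  have h4 : (n : ℚ_[p]) = z * w := by exact_mod_cast congrArg (algebraMap E ℚ_[p]) e1
  have h5 : ‖(n : ℚ_[p])‖ ≤ ‖(z : ℚ_[p])‖ := by
    rw [h4, norm_mul]
    exact mul_le_of_le_one_right (norm_nonneg _) h1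
  have h6 : 1 ≤ ‖(n : ℚ_[p])‖ * n := by
    rw [Padic.norm_eq_zpow_neg_valuation (by exact_mod_cast hn.ne'), Padic.valuation_natCast,
      zpow_neg, zpow_natCast, le_inv_mul_iff₀ (pow_pos (by exact_mod_cast (Fact.out : p.Prime).pos) _),
      mul_one]
    exact_mod_cast Nat.le_of_dvd hn pow_padicValNat_dvd
  exact h2.trans (h6.trans (mul_le_mul h5 h3 (Nat.cast_nonneg _) (norm_nonneg _)))

theorem liou_real (K : Type) [Field K] [NumberField K] [Algebra K ℝ] : Liou K ℝ := by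
  classical
  intro E _ z δ B hz _ h0 hB hB'
  obtain ⟨n, w, hn, -, -, e2⟩ := exists_norm hz h0
  let σ₀ : E →+* ℂ := Complex.ofRealHom.comp (algebraMap E ℝ)
  have h1 : ∀ x : E, ‖σ₀ x‖ = ‖(x : ℝ)‖ := fun x => Complex.norm_real _
  have h2 : (1 : ℝ) ≤ ‖(z : ℝ)‖ * ∏ σ ∈ univ.erase σ₀, B σ := by
    refine le_trans (by exact_mod_cast hn) (e2.trans_le ?_)
    rw [← mul_prod_erase _ _ (mem_univ σ₀), h1]
    exact mul_le_mul_of_nonneg_left (prod_le_prod (fun _ _ => norm_nonneg _) fun σ _ => hB σ)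
      (norm_nonneg _)
  rw [← mul_prod_erase _ _ (mem_univ σ₀), mul_left_comm, ← h1]
  exact (hB' σ₀).trans (le_mul_of_one_le_right ((norm_nonneg _).trans (hB' σ₀)) h2)

theorem liouville_sum (hL : Liou K F) (E : IntermediateField K F) [FiniteDimensional K E] (D : ℕ)
    (hD : finrank K E ≤ D) {ι : Type} (T : Finset ι) (θ : ι → K) (z : ι → F) (q : ℕ) (hq : 0 < q)
    (hzE : ∀ i ∈ T, z i ∈ E) (hz : ∀ i ∈ T, z i ^ q = algebraMap K F (θ i)) (L : Set K) (Y : ℝ)
    (hH : Ht L Y) (h1 : (1 : K) ∈ L) (hθ : ∀ i ∈ T, θ i ∈ L) (a : ι → ℤ) (B : ℝ) (hB1 : 1 ≤ B)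
    (hB : ∑ i ∈ T, |(a i : ℝ)| ≤ B) (s : ℕ) (hx : ∑ i ∈ T, (a i : F) * z i ^ s ≠ 0) :
    Real.exp (-(D * (finrank ℚ K * Real.log B + Y * s / q))) ≤ ‖∑ i ∈ T, (a i : F) * z i ^ s‖ := by
  classical
  have hY := hH.nonneg h1
  obtain ⟨N, δ, m, hN, hδ, hint, hm0, hm, hprod⟩ := hH
  have : NumberField E := NumberField.of_module_finite K E
  let ζ : ι → E := fun i => if h : i ∈ T then ⟨z i, hzE i h⟩ else 0
  have hζ : ∀ i ∈ T, (ζ i : F) = z i := fun i hi => by simp [ζ, hi]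
  have hζq : ∀ i ∈ T, ζ i ^ q = algebraMap K E (θ i) := fun i hi => Subtype.ext (by
    rw [SubmonoidClass.coe_pow, hζ i hi, hz i hi]; rfl)
  set x : E := ∑ i ∈ T, (a i : E) * ζ i ^ s with hxdef
  have hxF : (x : F) = ∑ i ∈ T, (a i : F) * z i ^ s := by
    change algebraMap E F x = _
    rw [hxdef, map_sum]
    exact sum_congr rfl fun i hi => by rw [map_mul, map_pow, map_intCast, ← hζ i hi]; rfl
  have hx0 : x ≠ 0 := fun h => hx (by rw [← hxF, h]; rfl)
  have hδ0 : algebraMap K E δ ≠ 0 := (map_ne_zero _).2 hδ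
  have hm1 : ∀ σ, 1 ≤ m σ := fun σ => by simpa using hm 1 h1 σ
  have hB0 : 0 < B := by linarith
  have hσx : ∀ σ : E →+* ℂ, ‖σ x‖ ^ q ≤ B ^ q * m (σ.comp (algebraMap K E)) ^ s := by
    intro σ
    have hμ := (hm0 (σ.comp (algebraMap K E))).le
    set μ := m (σ.comp (algebraMap K E)) ^ (q : ℝ)⁻¹ with hμ'
    have hμ0 : 0 ≤ μ := by positivity
    have hμq : μ ^ q = m (σ.comp (algebraMap K E)) := Real.rpow_inv_natCast_pow hμ hq.ne'
    rw [← hμq, ← pow_mul, mul_comm q, pow_mul, ← mul_pow]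
    refine pow_le_pow_left₀ (norm_nonneg _) ?_ _
    rw [hxdef, map_sum]
    refine (norm_sum_le _ _).trans (le_trans ?_ (mul_le_mul_of_nonneg_right hB (by positivity)))
    rw [sum_mul]
    refine sum_le_sum fun i hi => ?_
    rw [map_mul, map_pow, map_intCast, norm_mul, norm_pow, Complex.norm_intCast]
    refine mul_le_mul_of_nonneg_left (pow_le_pow_left₀ (norm_nonneg _) ?_ _) (abs_nonneg _)
    refine (pow_le_pow_iff_left₀ (norm_nonneg _) hμ0 hq.ne').1 ?_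
    rw [hμq, ← norm_pow, ← map_pow, hζq i hi]
    exact hm _ (hθ i hi) (σ.comp (algebraMap K E))
  have key := hL E (algebraMap K E δ ^ s * x ^ (q * N)) (algebraMap K E δ ^ s)
    (fun σ => (‖σ.comp (algebraMap K E) δ‖ * m (σ.comp (algebraMap K E)) ^ N) ^ s * B ^ (q * N))
    (isIntegral_sum (algebraMap E (AlgebraicClosure E)) T ζ _ (Nat.mul_pos hq hN) (fun i hi => by
      rw [pow_mul, hζq i hi, ← map_pow, ← map_mul]
      exact (hint _ (hθ i hi)).map (algebraMap K E).toIntAlgHom) a s)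
    (by simpa using ((hint 1 h1).map (algebraMap K E).toIntAlgHom).pow s)
    (mul_ne_zero (pow_ne_zero _ hδ0) (pow_ne_zero _ hx0))
    (fun σ => by
      rw [map_mul, map_pow, map_pow, norm_mul, norm_pow, norm_pow, pow_mul, mul_pow, mul_assoc]
      refine mul_le_mul_of_nonneg_left ((pow_le_pow_left₀ (by positivity) (hσx σ) N).trans
        (le_of_eq ?_)) (by positivity)
      ring)
    (fun σ => by
      rw [map_pow, norm_pow, mul_pow, mul_assoc]
      exact le_mul_of_one_le_right (by positivity)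
        (one_le_mul_of_one_le_of_one_le (one_le_pow₀ (one_le_pow₀ (hm1 _))) (one_le_pow₀ hB1)))
  rw [prod_restrict fun σ => (‖σ δ‖ * m σ ^ N) ^ s * B ^ (q * N), prod_mul_distrib, prod_pow,
    prod_const, card_univ, Embeddings.card] at key
  have hpos : 0 < ‖((algebraMap K E δ ^ s : E) : F)‖ :=
    norm_pos_iff.2 fun h => pow_ne_zero _ hδ0 (Subtype.ext h)
  rw [MulMemClass.coe_mul, norm_mul, mul_assoc, le_mul_iff_one_le_right hpos,
    SubmonoidClass.coe_pow, norm_pow, hxF] at key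
  have hlog := Real.log_nonneg hB1
  have h2 : ((∏ σ : K →+* ℂ, ‖σ δ‖ * m σ ^ N) ^ s * (B ^ (q * N)) ^ finrank ℚ K) ^ finrank K E ≤
      Real.exp (D * (finrank ℚ K * Real.log B + Y * s / q)) ^ (q * N) := by
    have h3 : (∏ σ : K →+* ℂ, ‖σ δ‖ * m σ ^ N) ^ s * (B ^ (q * N)) ^ finrank ℚ K ≤
        Real.exp ((q * N : ℕ) * (finrank ℚ K * Real.log B + Y * s / q)) := by
      refine (mul_le_mul_of_nonneg_right (pow_le_pow_left₀
        (prod_nonneg fun σ _ => mul_nonneg (norm_nonneg _) (pow_nonneg (hm0 σ).le _)) hprod s)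
        (by positivity)).trans (le_of_eq ?_)
      conv_lhs => rw [← Real.exp_log hB0]
      simp only [← Real.exp_nat_mul, ← Real.exp_add]
      congr 1
      push_cast
      field_simp
      ring
    refine (pow_le_pow_left₀ (mul_nonneg (pow_nonneg
      (prod_nonneg fun σ _ => mul_nonneg (norm_nonneg _) (pow_nonneg (hm0 σ).le _)) _)
      (by positivity)) h3 _).trans ?_
    rw [← Real.exp_nat_mul, ← Real.exp_nat_mul, Real.exp_le_exp, mul_left_comm]
    gcongr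
  have h4 := key.trans (mul_le_mul_of_nonneg_left h2 (by positivity))
  rw [← mul_pow, one_le_pow_iff_of_nonneg (by positivity) (Nat.mul_pos hq hN).ne'] at h4
  rwa [Real.exp_neg, inv_le_iff_one_le_mul₀ (Real.exp_pos _)]

theorem liouville_base (hL : Liou K F) {ι : Type} (T : Finset ι) (θ : ι → K) (L : Set K) (Y : ℝ)
    (hH : Ht L Y) (h1 : (1 : K) ∈ L) (hθ : ∀ i ∈ T, θ i ∈ L) (a : ι → ℤ) (B : ℝ) (hB1 : 1 ≤ B)
    (hB : ∑ i ∈ T, |(a i : ℝ)| ≤ B) (s : ℕ) (hx : ∑ i ∈ T, (a i : K) * θ i ^ s ≠ 0) :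
    Real.exp (-(finrank ℚ K * Real.log B + Y * s)) ≤
      ‖algebraMap K F (∑ i ∈ T, (a i : K) * θ i ^ s)‖ := by
  have e : algebraMap K F (∑ i ∈ T, (a i : K) * θ i ^ s) =
      ∑ i ∈ T, (a i : F) * algebraMap K F (θ i) ^ s := by simp
  have h := liouville_sum hL ⊥ 1 IntermediateField.finrank_bot.le T θ
    (fun i => algebraMap K F (θ i)) 1 one_pos (fun i _ => IntermediateField.algebraMap_mem _ _)
    (fun i _ => pow_one _) L Y hH h1 hθ a B hB1 hB s (by rw [← e]; exact (map_ne_zero _).2 hx)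
  rw [e]
  simpa using h

theorem liouville_sub_one (hL : Liou K F) {θ : K} (h1 : θ ≠ 1) {Y : ℝ} (hH : Ht {1, θ} Y) :
    Real.exp (-(finrank ℚ K * Real.log 2 + Y)) ≤ ‖algebraMap K F θ - 1‖ := by
  have h := liouville_base hL (univ : Finset Bool) (fun b => if b then θ else 1) {1, θ} Y hH
    (by simp) (by simp) (fun b => if b then 1 else -1) 2 one_le_two (by simp; norm_num) 1
    (by simpa [← sub_eq_add_neg, sub_eq_zero] using h1)
  simpa [← sub_eq_add_neg] using h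

end Liouville

end Pool.Agent.P.MP_9ec3f0_nt.SY
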