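import Pool.Agent.P.MP_9ec3f0_nt.SY.Defs

/-! Extrapolation by repeated polynomial division. -/

namespace Pool.Agent.P.MP_9ec3f0_nt.SY

open NumberField IsDedekindDomain Finset Module

namespace NewtonAux

open Polynomial Filter Topology

variable {F : Type} [NormedField F]

/-- The weighted coefficient norm of `g` is at most `M`. -/
def WB (g : F[X]) (ρ M : ℝ) : Prop := ∀ N, ∑ k ∈ range N, ‖g.coeff k‖ * ρ ^ k ≤ M

theorem WB.eval_le {g : F[X]} {ρ M : ℝ} (h : WB g ρ M) {z : F} (hz : ‖z‖ ≤ ρ) :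
    ‖g.eval z‖ ≤ M := by
  rw [eval_eq_sum_range]
  refine (norm_sum_le _ _).trans (le_trans (sum_le_sum fun k _ => ?_) (h _))
  rw [norm_mul, norm_pow]
  gcongr

theorem WB.div {g₁ : F[X]} {c x : F} {ρ σ M : ℝ} (h : WB (C c + (X - C x) * g₁) ρ M)
    (hx : ‖x‖ ≤ σ) (hρ : σ < ρ) : WB g₁ ρ (M / (ρ - σ)) := by
  have hσ : 0 ≤ σ := (norm_nonneg _).trans hx
  have hρ0 : 0 ≤ ρ := hσ.trans hρ.le
  intro N
  set N' := max N (g₁.natDegree + 1) with hN'
  have h1 : ∑ k ∈ range N, ‖g₁.coeff k‖ * ρ ^ k ≤ ∑ k ∈ range N', ‖g₁.coeff k‖ * ρ ^ k :=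
    sum_le_sum_of_subset_of_nonneg (range_subset_range.2 (le_max_left _ _))
      fun _ _ _ => by positivity
  refine h1.trans ?_
  rw [le_div_iff₀ (sub_pos.2 hρ)]
  have h2 := h (N' + 1)
  rw [sum_range_succ'] at h2
  have h3 : ∑ k ∈ range N', ‖g₁.coeff (k + 1)‖ * ρ ^ (k + 1) ≤
      ∑ k ∈ range N', ‖g₁.coeff k‖ * ρ ^ k := by
    have h4 := sum_range_succ' (fun k => ‖g₁.coeff k‖ * ρ ^ k) N'
    rw [sum_range_succ, coeff_eq_zero_of_natDegree_lt (n := N')
      (Nat.lt_of_succ_le (le_max_right _ _))] at h4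
    have : 0 ≤ ‖g₁.coeff 0‖ * ρ ^ 0 := by positivity
    simp only [norm_zero, zero_mul, add_zero] at h4
    linarith
  have h5 : ∀ k, ‖g₁.coeff k‖ * ρ ^ k * ρ ≤
      ‖(C c + (X - C x) * g₁).coeff (k + 1)‖ * ρ ^ (k + 1) +
        σ * (‖g₁.coeff (k + 1)‖ * ρ ^ (k + 1)) := by
    intro k
    have h6 : g₁.coeff k = (C c + (X - C x) * g₁).coeff (k + 1) + x * g₁.coeff (k + 1) := by
      simp [sub_mul, coeff_X_mul, coeff_C_succ]
    have h7 : ‖g₁.coeff k‖ ≤ ‖(C c + (X - C x) * g₁).coeff (k + 1)‖ + σ * ‖g₁.coeff (k + 1)‖ := by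
      conv_lhs => rw [h6]
      refine (norm_add_le _ _).trans ?_
      rw [norm_mul]
      gcongr
    calc ‖g₁.coeff k‖ * ρ ^ k * ρ = ‖g₁.coeff k‖ * ρ ^ (k + 1) := by ring
      _ ≤ (‖(C c + (X - C x) * g₁).coeff (k + 1)‖ + σ * ‖g₁.coeff (k + 1)‖) * ρ ^ (k + 1) := by
        gcongr
      _ = _ := by ring
  have h8 := sum_le_sum (s := range N') fun k _ => h5 k
  rw [← sum_mul, sum_add_distrib, ← mul_sum] at h8
  have h9 : 0 ≤ ‖(C c + (X - C x) * g₁).coeff 0‖ * ρ ^ 0 := by positivity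
  have h10 := mul_le_mul_of_nonneg_left h3 hσ
  nlinarith

theorem taylor_div (g₁ : F[X]) (c x s : F) :
    taylor s (C c + (X - C x) * g₁) = C c + (X + C (s - x)) * taylor s g₁ := by
  simp only [map_add, taylor_mul, map_sub, taylor_X, taylor_C]
  ring

theorem taylor_step {g₁ : F[X]} {c d : F} {ε S : ℝ} (hS : 1 ≤ S) (hε : 0 ≤ ε) (hd : d ≠ 0)
    (hdS : ‖d⁻¹‖ ≤ S) (hc : ‖c‖ ≤ ε) (m : ℕ)
    (h : ∀ k < m, ‖(C c + (X + C d) * g₁).coeff k‖ ≤ ε * (2 * S) ^ k) :
    ∀ k < m, ‖g₁.coeff k‖ ≤ 4 * S * ε * (2 * S) ^ k := by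
  intro k
  induction k with
  | zero =>
    intro hk
    have h1 := h 0 hk
    have h2 : g₁.coeff 0 = d⁻¹ * ((C c + (X + C d) * g₁).coeff 0 - c) := by
      simp [add_mul]; field_simp
    rw [h2, norm_mul]
    have h3 := norm_sub_le ((C c + (X + C d) * g₁).coeff 0) c
    simp only [pow_zero, mul_one] at h1 ⊢
    calc _ ≤ S * (ε + ε) := by gcongr; linarith
      _ ≤ _ := by nlinarith [mul_nonneg (zero_le_one.trans hS) hε]
  | succ k ih =>
    intro hk
    have h1 := h (k + 1) hk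
    have h0 := ih (by omega)
    have h2 : g₁.coeff (k + 1) = d⁻¹ * ((C c + (X + C d) * g₁).coeff (k + 1) - g₁.coeff k) := by
      simp [add_mul, coeff_X_mul, coeff_C_succ]; field_simp
    rw [h2, norm_mul]
    have h3 := norm_sub_le ((C c + (X + C d) * g₁).coeff (k + 1)) (g₁.coeff k)
    have h4 : 0 ≤ S * (S * ε * (2 * S) ^ k) := by positivity
    calc _ ≤ S * (ε * (2 * S) ^ (k + 1) + 4 * S * ε * (2 * S) ^ k) := by gcongr; linarith
      _ ≤ _ := by rw [pow_succ]; nlinarith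

theorem newton (S : ℕ) (hS : 1 ≤ S) (z : F) (ρ σ Z D : ℝ) (hρ : σ < ρ) (hz : ‖z‖ ≤ ρ)
    (hσ : ∀ s : ℕ, s ≤ S → ‖(s : F)‖ ≤ σ) (hZ : ∀ s : ℕ, s ≤ S → ‖z - s‖ ≤ Z)
    (hD : ∀ s : ℕ, s ≤ S → ‖z - s‖ ≤ D)
    (hinv : ∀ s s' : ℕ, s ≤ S → s' ≤ S → s ≠ s' →
      (s : F) - s' ≠ 0 ∧ ‖((s : F) - s')⁻¹‖ ≤ S)
    (m : Multiset ℕ) (hm : ∀ s ∈ m, s ≤ S) (g : F[X]) (ε M : ℝ) (hε : 0 ≤ ε) (hM : WB g ρ M)
    (hT : ∀ s, ∀ k < m.count s, ‖(taylor (s : F) g).coeff k‖ ≤ ε * (2 * S) ^ k) :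
    ‖g.eval z‖ ≤ ε * (1 + 4 * S * D) ^ m.card + M * (Z / (ρ - σ)) ^ m.card := by
  have hS' : (1 : ℝ) ≤ S := by exact_mod_cast hS
  have hD0 : 0 ≤ D := (norm_nonneg _).trans (hD 0 (Nat.zero_le _))
  have hZ0 : 0 ≤ Z := (norm_nonneg _).trans (hZ 0 (Nat.zero_le _))
  induction m using Multiset.induction_on generalizing g ε M with
  | empty => simpa using (hM.eval_le hz).trans (le_add_of_nonneg_left hε)
  | cons x m ih =>
    have hx : x ≤ S := hm x (Multiset.mem_cons_self _ _)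
    obtain ⟨g₁, hg⟩ : ∃ g₁, g = C (g.eval (x : F)) + (X - C (x : F)) * g₁ := by
      obtain ⟨g₁, h⟩ := X_sub_C_dvd_sub_C_eval (a := (x : F)) (p := g)
      exact ⟨g₁, by rw [← h]; ring⟩
    set c := g.eval (x : F) with hc
    have hcε : ‖c‖ ≤ ε := by
      have := hT x 0 (by simp)
      rwa [taylor_coeff_zero, pow_zero, mul_one] at this
    have hM' : WB g₁ ρ (M / (ρ - σ)) := WB.div (c := c) (hg ▸ hM) (hσ x hx) hρ
    have hM0 : 0 ≤ M / (ρ - σ) := by simpa using hM' 0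
    have hT' : ∀ s, ∀ k < m.count s,
        ‖(taylor (s : F) g₁).coeff k‖ ≤ 4 * S * ε * (2 * S) ^ k := by
      intro s
      have h1 := hT s
      rw [hg, taylor_div] at h1
      by_cases hs : s = x
      · subst hs
        intro k hk
        have h2 := h1 (k + 1) (by simpa using hk)
        simp only [sub_self, map_zero, add_zero, coeff_add, coeff_X_mul, coeff_C_succ,
          zero_add] at h2
        have h3 : 0 ≤ S * ε * (2 * S) ^ k := by positivity
        rw [pow_succ] at h2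
        nlinarith
      · rw [Multiset.count_cons_of_ne hs] at h1
        intro k hk
        have hsS : s ≤ S := hm s (Multiset.mem_cons_of_mem (Multiset.count_pos.1 (by omega)))
        obtain ⟨h2, h3⟩ := hinv s x hsS hx hs
        exact taylor_step hS' hε h2 h3 hcε _ h1 k hk
    have h := ih (fun s hs => hm s (Multiset.mem_cons_of_mem hs)) g₁ (4 * S * ε) _
      (by positivity) hM' hT'
    have hev : g.eval z = c + (z - x) * g₁.eval z := by
      conv_lhs => rw [hg]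
      simp
    have hT1 : 1 ≤ (1 + 4 * S * D) ^ m.card := one_le_pow₀ (by nlinarith)
    have hq : 0 ≤ (Z / (ρ - σ)) ^ m.card := pow_nonneg (div_nonneg hZ0 (sub_pos.2 hρ).le) _
    rw [hev, Multiset.card_cons, pow_succ, pow_succ]
    refine (norm_add_le _ _).trans ?_
    rw [norm_mul]
    have h4 : ‖z - x‖ * ‖g₁.eval z‖ ≤ D * (4 * S * ε * (1 + 4 * S * D) ^ m.card) +
        Z * (M / (ρ - σ) * (Z / (ρ - σ)) ^ m.card) := by
      refine (mul_le_mul_of_nonneg_left h (norm_nonneg _)).trans ?_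
      rw [mul_add]
      gcongr
      · exact hD x hx
      · exact hZ x hx
    have h5 : Z * (M / (ρ - σ) * (Z / (ρ - σ)) ^ m.card) =
        M * ((Z / (ρ - σ)) ^ m.card * (Z / (ρ - σ))) := by ring
    nlinarith [mul_le_mul_of_nonneg_left hT1 hε]

/-- Truncated exponential series. -/
noncomputable def Et (N : ℕ) (w : F) : F[X] :=
  ∑ k ∈ range N, monomial k (w ^ k / (k.factorial : F))

theorem norm_coeff_Et (N : ℕ) (w : F) (k : ℕ) :
    ‖(Et N w).coeff k‖ ≤ ‖w ^ k / (k.factorial : F)‖ := by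
  simp only [Et, finsetSum_coeff, coeff_monomial, sum_ite_eq', mem_range]
  split_ifs
  · exact le_rfl
  · rw [norm_zero]; exact norm_nonneg _

theorem eval_Et (N : ℕ) (w z : F) :
    (Et N w).eval z = ∑ k ∈ range N, (z * w) ^ k / (k.factorial : F) := by
  simp only [Et, eval_finsetSum, eval_monomial]
  exact sum_congr rfl fun k _ => by ring

theorem taylor_Et [CharZero F] (N j : ℕ) (w s : F) :
    (taylor s (Et (N + j) w)).coeff j =
      w ^ j / (j.factorial : F) * ∑ k ∈ range N, (s * w) ^ k / (k.factorial : F) := by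
  rw [taylor_coeff, Et, map_sum, eval_finsetSum, add_comm N j, sum_range_add, mul_sum,
    sum_eq_zero, zero_add]
  · refine sum_congr rfl fun i _ => ?_
    rw [hasseDeriv_monomial, eval_monomial, Nat.add_sub_cancel_left,
      Nat.cast_choose F (Nat.le_add_right j i), Nat.add_sub_cancel_left]
    have h1 : (j.factorial : F) ≠ 0 := by exact_mod_cast j.factorial_ne_zero
    have h2 : (i.factorial : F) ≠ 0 := by exact_mod_cast i.factorial_ne_zero
    have h3 : ((j + i).factorial : F) ≠ 0 := by exact_mod_cast (j + i).factorial_ne_zero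
    field_simp
    ring
  · intro k hk
    rw [hasseDeriv_monomial, Nat.choose_eq_zero_of_lt (mem_range.1 hk)]
    simp

theorem tendsto_taylor_Et [CharZero F] (j : ℕ) (w s v : F)
    (h : HasSum (fun k : ℕ => (s * w) ^ k / (k.factorial : F)) v) :
    Tendsto (fun N => (taylor s (Et N w)).coeff j) atTop (𝓝 (w ^ j / (j.factorial : F) * v)) := by
  rw [← tendsto_add_atTop_iff_nat j]
  simp only [taylor_Et]
  exact h.tendsto_sum_nat.const_mul _

theorem norm_natCast_le (n : ℕ) : ‖(n : F)‖ ≤ n := by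
  simpa using Nat.norm_cast_le (α := F) n

theorem norm_intCast_le (a : ℤ) : ‖(a : F)‖ ≤ |(a : ℝ)| := by
  obtain ⟨n, rfl | rfl⟩ := Int.eq_nat_or_neg a <;> simpa using norm_natCast_le (F := F) n

theorem norm_pow_sub_pow {x y : F} {e R : ℝ} (hR : 1 ≤ R) (hx : ‖x‖ ≤ R) (hy : ‖y‖ ≤ R)
    (he : ‖x - y‖ ≤ e) (k : ℕ) : ‖x ^ k - y ^ k‖ ≤ e * (2 * R) ^ k := by
  have he0 : 0 ≤ e := (norm_nonneg _).trans he
  induction k with
  | zero => simpa using he0
  | succ k ih =>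
    have h1 : x ^ (k + 1) - y ^ (k + 1) = x * (x ^ k - y ^ k) + (x - y) * y ^ k := by ring
    rw [h1]
    refine (norm_add_le _ _).trans ?_
    rw [norm_mul, norm_mul, norm_pow]
    have h2 : ‖y‖ ^ k ≤ (2 * R) ^ k := by gcongr; linarith
    have h3 : 0 ≤ e * (2 * R) ^ k := by positivity
    calc _ ≤ R * (e * (2 * R) ^ k) + e * (2 * R) ^ k := by gcongr
      _ ≤ _ := by rw [pow_succ]; nlinarith

theorem final_bound (S t n : ℕ) (hS : 1 ≤ S) (ht : 1 ≤ t) (hn : n ≤ S * t) :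
    Real.exp (S * t) * (2 * (t + 1 : ℝ)) ^ t * (1 + 4 * S * (19 * S : ℝ)) ^ n ≤
      (40 * S * t : ℝ) ^ (2 * S * t) := by
  have hS' : (1 : ℝ) ≤ S := by exact_mod_cast hS
  have ht' : (1 : ℝ) ≤ t := by exact_mod_cast ht
  have h1 : Real.exp (S * t) ≤ 3 ^ (S * t) := by
    rw [← Nat.cast_mul, ← mul_one ((S * t : ℕ) : ℝ), Real.exp_nat_mul]
    gcongr
    linarith [Real.exp_one_lt_d9]
  have h2 : (2 * (t + 1 : ℝ)) ^ t ≤ (4 * t : ℝ) ^ (S * t) :=
    (pow_le_pow_left₀ (by positivity) (by linarith) t).trans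
      (pow_le_pow_right₀ (by linarith) (Nat.le_mul_of_pos_left t hS))
  have h3 : (1 + 4 * S * (19 * S : ℝ)) ^ n ≤ (77 * S ^ 2 : ℝ) ^ (S * t) :=
    (pow_le_pow_left₀ (by positivity) (by nlinarith) n).trans
      (pow_le_pow_right₀ (by nlinarith) hn)
  calc _ ≤ 3 ^ (S * t) * (4 * t : ℝ) ^ (S * t) * (77 * S ^ 2 : ℝ) ^ (S * t) := by gcongr
    _ = (3 * (4 * t) * (77 * S ^ 2) : ℝ) ^ (S * t) := by rw [← mul_pow, ← mul_pow]
    _ ≤ ((40 * S * t : ℝ) ^ 2) ^ (S * t) := by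
      gcongr
      have : (t : ℝ) * S ^ 2 ≤ t ^ 2 * S ^ 2 := by gcongr; nlinarith
      nlinarith [mul_nonneg (zero_le_one.trans ht') (sq_nonneg (S : ℝ))]
    _ = _ := by rw [← pow_mul, mul_assoc 2 S t]

end NewtonAux

open NewtonAux Polynomial Filter Topology in
theorem Setup.extrap {K F : Type} [Field K] [NumberField K] [NormedField F] [CharZero F]
    [Algebra K F] (P : Setup K F) (L : Finset P.A) (a : P.A → ℤ) (lam : P.A → F) (Y e B : ℝ)
    (S t : ℕ) (hY : P.G / 2 ≤ Y) (hS : 1 ≤ S) (ht : 18 * Y / P.G ≤ t)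
    (hΩ : ∀ θ ∈ L, ‖P.lg θ‖ ≤ P.Ω Y) (he : ∀ θ ∈ L, ‖P.lg θ - lam θ‖ ≤ e) (he0 : 0 ≤ e)
    (he1 : e ≤ 1) (hB : ∑ θ ∈ L, |(a θ : ℝ)| ≤ B)
    (hvan : ∀ s : ℕ, 1 ≤ s → s ≤ S → ¬ P.q ∣ s → ∀ k : ℕ, k < t →
      ∑ θ ∈ L, (a θ : F) * lam θ ^ k * algebraMap K F (P.val θ) ^ s = 0)
    (s' : ℕ) (hs' : s' ≤ 2 * P.q * S) :
    ‖∑ θ ∈ L, (a θ : F) * P.y θ ^ s'‖ ≤
      B * (Real.exp (-(P.G * S * t / 2)) + e * (40 * S * t : ℝ) ^ (2 * S * t)) := by
  have hG := P.hG
  have hq2 : 2 ≤ P.q := by rcases P.hq with h | h <;> omega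
  have hq3 : P.q ≤ 3 := by rcases P.hq with h | h <;> omega
  have hS' : (1 : ℝ) ≤ S := by exact_mod_cast hS
  have ht' : (1 : ℝ) ≤ t := by
    refine le_trans ?_ ht
    rw [le_div_iff₀ (by linarith)]
    linarith
  have ht1 : 1 ≤ t := by exact_mod_cast ht'
  have hw : ∀ θ ∈ L, ‖P.lg θ‖ ≤ t := fun θ h => (hΩ θ h).trans (P.Ω_le Y t hY ht)
  set T : Finset ℕ := {s ∈ Ioc 0 S | ¬ P.q ∣ s} with hT
  have hTc : T.card + S / P.q = S := by
    have := card_filter_add_card_filter_not (s := Ioc 0 S) (fun s => P.q ∣ s)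
    rw [Nat.Ioc_filter_dvd_card_eq_div, Nat.card_Ioc, add_comm] at this
    exact this
  have hdiv : S / P.q ≤ S / 2 := Nat.div_le_div_left hq2 two_pos
  set m : Multiset ℕ := t • T.val with hm
  have hmc : m.card = t * T.card := by rw [hm, Multiset.card_nsmul]; rfl
  have hn1 : S * t ≤ 2 * m.card := by
    rw [hmc, mul_comm S t, mul_left_comm]
    exact Nat.mul_le_mul_left _ (by omega)
  have hn2 : m.card ≤ S * t := by
    rw [hmc, mul_comm S t]
    exact Nat.mul_le_mul_left _ (Nat.le.intro hTc)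
  have hcount : ∀ s k, k < m.count s → s ∈ T ∧ k < t := by
    intro s k hk
    rw [hm, Multiset.count_nsmul] at hk
    have h1 := Multiset.nodup_iff_count_le_one.1 T.nodup s
    have h2 : 0 < T.val.count s := Nat.pos_of_ne_zero fun h => by simp [h] at hk
    refine ⟨Multiset.count_pos.1 h2, hk.trans_le ?_⟩
    simpa using Nat.mul_le_mul_left t h1
  have hTm : ∀ s ∈ T, 1 ≤ s ∧ s ≤ S ∧ ¬ P.q ∣ s := by
    intro s hs
    rw [hT, mem_filter, mem_Ioc] at hs
    exact ⟨hs.1.1, hs.1.2, hs.2⟩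
  obtain ⟨ρ, σ, Z, B', hσ0, hρ, hZ0, hσ, hz, hB', hfin⟩ := P.schwarz Y S t m.card hY hS ht hn1
  obtain ⟨hz1, hz2⟩ := hz s' hs'
  set z : F := (s' : F) / P.q with hzdef
  set A : ℝ := ∑ θ ∈ L, |(a θ : ℝ)| with hA
  have hA0 : 0 ≤ A := sum_nonneg fun _ _ => abs_nonneg _
  have hρ0 : 0 ≤ ρ := hσ0.trans hρ.le
  have hD : ∀ s : ℕ, s ≤ S → ‖z - s‖ ≤ 19 * S := by
    intro s hs
    have h1 : ‖z‖ ≤ (6 * S : ℝ) * 3 := by
      rw [hzdef, div_eq_mul_inv, norm_mul]
      have h2 : (s' : ℝ) ≤ 6 * S := by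
        have : s' ≤ 6 * S := hs'.trans (Nat.mul_le_mul_right _ (by omega))
        exact_mod_cast this
      have h3 : (P.q : ℝ) ≤ 3 := by exact_mod_cast hq3
      exact mul_le_mul ((norm_natCast_le _).trans h2)
        ((P.norm_inv_nat _ (by omega)).trans h3) (norm_nonneg _) (by positivity)
    have h2 : ‖(s : F)‖ ≤ S := (norm_natCast_le _).trans (by exact_mod_cast hs)
    linarith [norm_sub_le z s]
  have hinv : ∀ s s'' : ℕ, s ≤ S → s'' ≤ S → s ≠ s'' →
      (s : F) - s'' ≠ 0 ∧ ‖((s : F) - s'')⁻¹‖ ≤ S := by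
    have key : ∀ s s'' : ℕ, s ≤ S → s'' < s → ‖((s : F) - s'')⁻¹‖ ≤ S := by
      intro s s'' hs h
      rw [← Nat.cast_sub h.le]
      exact (P.norm_inv_nat _ (by omega)).trans (by exact_mod_cast (by omega))
    intro s s'' h1 h2 h3
    refine ⟨sub_ne_zero.2 (by exact_mod_cast h3), ?_⟩
    rcases lt_or_gt_of_ne h3 with h | h
    · rw [← neg_sub, inv_neg, norm_neg]; exact key _ _ h2 h
    · exact key _ _ h1 h
  set g : ℕ → F[X] := fun N => ∑ θ ∈ L, C (a θ : F) * Et N (P.lg θ) with hg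
  have hWB : ∀ N, WB (g N) ρ (A * B') := by
    intro N N'
    calc ∑ k ∈ range N', ‖(g N).coeff k‖ * ρ ^ k
        ≤ ∑ k ∈ range N', ∑ θ ∈ L,
            |(a θ : ℝ)| * (‖P.lg θ ^ k / (k.factorial : F)‖ * ρ ^ k) := by
          refine sum_le_sum fun k _ => ?_
          simp only [hg, finsetSum_coeff, coeff_C_mul, ← mul_assoc]
          rw [← sum_mul]
          refine mul_le_mul_of_nonneg_right ((norm_sum_le _ _).trans
            (sum_le_sum fun θ _ => ?_)) (by positivity)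
          rw [norm_mul]
          exact mul_le_mul (norm_intCast_le _) (norm_coeff_Et _ _ _) (norm_nonneg _)
            (abs_nonneg _)
      _ ≤ A * B' := by
          rw [sum_comm, hA, sum_mul]
          refine sum_le_sum fun θ hθ => ?_
          rw [← mul_sum]
          exact mul_le_mul_of_nonneg_left (hB' _ (hΩ θ hθ) _) (abs_nonneg _)
  have hlim : Tendsto (fun N => (g N).eval z) atTop (𝓝 (∑ θ ∈ L, (a θ : F) * P.y θ ^ s')) := by
    simp only [hg, eval_finsetSum, eval_mul, eval_C, eval_Et]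
    exact tendsto_finsetSum _ fun θ _ => (P.hasSum θ s').tendsto_sum_nat.const_mul _
  have hq0 : (P.q : F) ≠ 0 := by exact_mod_cast (by omega : P.q ≠ 0)
  have hlimT : ∀ s k : ℕ, Tendsto (fun N => (taylor (s : F) (g N)).coeff k) atTop
      (𝓝 (∑ θ ∈ L, (a θ : F) *
        (P.lg θ ^ k / (k.factorial : F) * algebraMap K F (P.val θ) ^ s))) := by
    intro s k
    simp only [hg, map_sum, taylor_mul, taylor_C, finsetSum_coeff, coeff_C_mul]
    refine tendsto_finsetSum _ fun θ _ => (tendsto_taylor_Et k _ _ _ ?_).const_mul _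
    have h := P.hasSum θ (P.q * s)
    rwa [pow_mul, P.y_pow, Nat.cast_mul, mul_div_cancel_left₀ _ hq0] at h
  set ε : ℝ := A * e * (Real.exp (S * t) * (2 * (t + 1 : ℝ)) ^ t) with hε
  have hε0 : 0 ≤ ε := by positivity
  have hbd : ∀ s ∈ T, ∀ k < t, ‖∑ θ ∈ L, (a θ : F) *
      (P.lg θ ^ k / (k.factorial : F) * algebraMap K F (P.val θ) ^ s)‖ ≤ ε * (2 * S) ^ k := by
    intro s hs k hk
    obtain ⟨h1, h2, h3⟩ := hTm s hs
    have h4 : ∑ θ ∈ L, (a θ : F) *
        (P.lg θ ^ k / (k.factorial : F) * algebraMap K F (P.val θ) ^ s) =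
        (k.factorial : F)⁻¹ * ∑ θ ∈ L, (a θ : F) * ((P.lg θ ^ k - lam θ ^ k) *
          algebraMap K F (P.val θ) ^ s) := by
      have h5 := hvan s h1 h2 h3 k hk
      rw [← sub_zero (∑ θ ∈ L, _), ← mul_zero (k.factorial : F)⁻¹, ← h5, mul_sum, mul_sum,
        ← sum_sub_distrib]
      exact sum_congr rfl fun θ _ => by ring
    rw [h4, norm_mul, mul_comm]
    refine mul_le_mul ((norm_sum_le _ _).trans ?_) ((P.norm_inv_fact k).trans ?_)
      (norm_nonneg _) hε0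
    · rw [hε, mul_assoc, hA, sum_mul]
      refine sum_le_sum fun θ hθ => ?_
      rw [norm_mul, norm_mul, norm_pow]
      refine mul_le_mul (norm_intCast_le _) ?_ (by positivity) (abs_nonneg _)
      have h6 : ‖lam θ‖ ≤ t + 1 := by
        have := norm_sub_le (P.lg θ) (P.lg θ - lam θ)
        rw [sub_sub_cancel] at this
        linarith [hw θ hθ, he θ hθ]
      have h7 := norm_pow_sub_pow (R := t + 1) (by linarith) (by linarith [hw θ hθ]) h6
        (he θ hθ) k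
      have h8 : (2 * (t + 1 : ℝ)) ^ k ≤ (2 * (t + 1 : ℝ)) ^ t :=
        pow_le_pow_right₀ (by linarith) hk.le
      have h9 : ‖algebraMap K F (P.val θ)‖ ^ s ≤ Real.exp (S * t) := by
        calc _ ≤ Real.exp t ^ s :=
              pow_le_pow_left₀ (norm_nonneg _)
                ((P.norm_val θ).trans (Real.exp_le_exp.2 (hw θ hθ))) s
          _ ≤ Real.exp t ^ S := pow_le_pow_right₀ (Real.one_le_exp (by linarith)) h2
          _ = _ := (Real.exp_nat_mul _ _).symm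
      calc _ ≤ e * (2 * (t + 1 : ℝ)) ^ t * Real.exp (S * t) := by
            gcongr
            exact h7.trans (by gcongr)
        _ = _ := by ring
    · gcongr
      linarith
  have hmain : ∀ η : ℝ, 0 < η → ‖∑ θ ∈ L, (a θ : F) * P.y θ ^ s'‖ ≤
      (ε + η) * (1 + 4 * S * (19 * S : ℝ)) ^ m.card + A * B' * (Z / (ρ - σ)) ^ m.card := by
    intro η hη
    have hev : ∀ᶠ N in atTop, ∀ s ∈ T, ∀ k ∈ range t,
        ‖(taylor (s : F) (g N)).coeff k‖ ≤ (ε + η) * (2 * S) ^ k := by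
      rw [eventually_all_finset]
      intro s hs
      rw [eventually_all_finset]
      intro k hk
      refine (hlimT s k).norm.eventually_le_const ((hbd s hs k (mem_range.1 hk)).trans_lt ?_)
      gcongr
      linarith
    refine le_of_tendsto hlim.norm (hev.mono fun N hN => ?_)
    refine newton S hS z ρ σ Z (19 * S) hρ hz1 hσ hz2 hD hinv m (fun s hs => ?_) (g N) _ _
      (by positivity) (hWB N) fun s k hk => ?_
    · exact (hTm s (hcount s 0 (Multiset.count_pos.2 hs)).1).2.1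
    · exact hN s (hcount s k hk).1 k (mem_range.2 (hcount s k hk).2)
  have hmain' : ‖∑ θ ∈ L, (a θ : F) * P.y θ ^ s'‖ ≤
      ε * (1 + 4 * S * (19 * S : ℝ)) ^ m.card + A * B' * (Z / (ρ - σ)) ^ m.card := by
    refine le_of_forall_pos_le_add fun η hη => ?_
    have hp : 0 < (1 + 4 * S * (19 * S : ℝ)) ^ m.card := by positivity
    have := hmain (η / (1 + 4 * S * (19 * S : ℝ)) ^ m.card) (by positivity)
    rw [add_mul, div_mul_cancel₀ _ hp.ne'] at this
    linarith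
  have h1 := final_bound S t m.card hS ht1 hn2
  have h2 : B' * (Z / (ρ - σ)) ^ m.card ≤ Real.exp (-(P.G * S * t / 2)) := by
    refine hfin.trans (Real.exp_le_exp.2 ?_)
    have : (S : ℝ) * t ≤ 2 * m.card := by exact_mod_cast hn1
    nlinarith
  refine hmain'.trans (le_trans ?_ (mul_le_mul_of_nonneg_right hB (by positivity)))
  have h3 := mul_le_mul_of_nonneg_left h1 (mul_nonneg hA0 he0)
  have h4 := mul_le_mul_of_nonneg_left h2 hA0
  rw [hε]
  nlinarith

end Pool.Agent.P.MP_9ec3f0_nt.SY
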