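import Pool.Agent.P.MP_9ec3f0_nt.SY.Core1
import Pool.Agent.P.MP_9ec3f0_nt.SY.Liouville
import Pool.Agent.P.MP_9ec3f0_nt.SY.Coord
import Pool.Agent.P.MP_9ec3f0_nt.SY.Newton
import Pool.Agent.P.MP_9ec3f0_nt.SY.Kummer

/-! The extrapolation steps and the Kummer descent. -/

namespace Pool.Agent.P.MP_9ec3f0_nt.SY.CoreAux

open Finset Module

set_option linter.unusedSectionVars false

variable {K F : Type} [Field K] [NumberField K] [NormedField F] [CharZero F] [Algebra K F]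

/-- Vanishing of the auxiliary sums. -/
def Van (P : Setup K F) (ξ : P.A) (L : Finset P.A) (c : P.A → ℤ) (S T : ℕ) : Prop :=
  ∀ s : ℕ, 1 ≤ s → s ≤ S → ¬ P.q ∣ s → ∀ g ∈ Aff ξ ^ T,
    ∑ θ ∈ L, (g θ : K) * ((c θ : K) * P.val θ ^ s) = 0

/-- The global parameters of the descent. -/
structure Par (P : Setup K F) (ξ : P.A) where
  hx : ℝ
  Y : ℝ
  V : ℝ
  B : ℝ
  Pc : ℝ
  N : ℕ
  Q : ℕ
  T₀ : ℕ
  hξ : ξ ≠ 1
  Hξ : Ht {1, P.val ξ} hx
  hQ : 2 * (P.r * Y + hx) < Q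
  hV : 1 ≤ V
  hPc : 0 ≤ Pc
  hB1 : 1 ≤ B
  hB : N * Pc * ((Q : ℝ) ^ P.r) ^ T₀ ≤ B
  hBV : finrank ℚ K * Real.log B ≤ 2 * V
  he : ((Q : ℝ) ^ P.r) ^ 3 * ‖P.lg ξ‖ ≤ 1
  hsmall : ∀ S t : ℕ, (S * t : ℝ) ≤ 20 * 4 ^ P.r * V →
    B * (((Q : ℝ) ^ P.r) ^ 3 * ‖P.lg ξ‖ * (40 * S * t : ℝ) ^ (2 * S * t)) ≤
      Real.exp (-(4 * 4 ^ P.r * V)) / 2

theorem val_one (P : Setup K F) : P.val 1 = 1 := rfl

theorem val_mul (P : Setup K F) (θ η : P.A) : P.val (θ * η) = P.val θ * P.val η := by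
  simp [Setup.val]

theorem val_pow (P : Setup K F) (θ : P.A) (n : ℕ) : P.val (θ ^ n) = P.val θ ^ n := by
  simp [Setup.val]

theorem val_inv (P : Setup K F) (θ : P.A) : P.val θ⁻¹ = (P.val θ)⁻¹ := by
  simp [Setup.val]

theorem val_ne (P : Setup K F) (θ : P.A) : P.val θ ≠ 0 := Units.ne_zero _

theorem q_pos (P : Setup K F) : 0 < P.q := by rcases P.hq with h | h <;> omega

theorem two_le_q (P : Setup K F) : 2 ≤ P.q := by rcases P.hq with h | h <;> omega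

theorem q_le (P : Setup K F) : P.q ≤ 4 := by rcases P.hq with h | h <;> omega

theorem lg_prod (P : Setup K F) {ι : Type} (s : Finset ι) (f : ι → P.A) :
    P.lg (∏ i ∈ s, f i) = ∑ i ∈ s, P.lg (f i) := by
  classical
  induction s using Finset.induction_on with
  | empty => simp [P.lg_one]
  | insert a s ha ih => rw [Finset.prod_insert ha, Finset.sum_insert ha, P.lg_mul, ih]

theorem lg_pow (P : Setup K F) (θ : P.A) (n : ℕ) : P.lg (θ ^ n) = n * P.lg θ := by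
  have := P.lg_zpow θ n
  simpa using this

/-- Coordinates for a set of bounded height. -/
theorem exists_coord (P : Setup K F) (ξ : P.A) (hξ : ξ ≠ 1) (hx Y Y' : ℝ)
    (Hξ : Ht {1, P.val ξ} hx) (Q : ℕ) (hQ : 2 * (P.r * Y + hx) < Q) (L : Finset P.A) (h1 : 1 ∈ L)
    (hH : Ht (P.val '' (L : Set P.A)) Y') (hY : Y' ≤ Y) :
    ∃ (I : ℕ) (φ : Fin (P.r - 1) → (Additive P.A →+ ℚ)) (l : P.A → Fin (P.r - 1) → ℤ)
      (l0 : P.A → ℤ) (b : Fin (P.r - 1) → P.A), 1 ≤ I ∧ I ≤ Q ^ P.r ∧ 1 ≤ Q ∧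
      (∀ i, φ i (Additive.ofMul ξ) = 0) ∧
      ∀ θ ∈ L, (∀ i, φ i (Additive.ofMul θ) = l θ i ∧ |l θ i| ≤ I) ∧ |l0 θ| ≤ Q * I ∧
        θ ^ I = ξ ^ l0 θ * ∏ i, b i ^ l θ i := by
  have h1' : (1 : K) ∈ P.val '' (L : Set P.A) := ⟨1, h1, rfl⟩
  have hY0 : 0 ≤ Y := (hH.nonneg h1').trans hY
  have hx0 : 0 ≤ hx := Hξ.nonneg (by simp)
  obtain ⟨I, φ, l, l0, b, h1I, hIQ, hφ, h⟩ := coord (A := P.A) (fun θ a => Ht {1, P.val θ} a)
    ht_one (fun θ a b h hab => h.mono subset_rfl hab)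
    (fun θ η a b h h' => by rw [val_mul]; exact ht_mul h h')
    (fun θ a h => by rw [val_inv]; exact ht_inv (val_ne P θ) h)
    (fun θ n a hn h => by rw [val_pow] at h; exact ht_root hn h)
    (fun θ a h h' => P.gap θ a h h') P.r P.hr P.rank_le ξ hξ hx Y hY0 Hξ L
    (fun θ hθ => hH.mono (by
      intro x hx
      rcases hx with rfl | rfl
      · exact h1'
      · exact ⟨θ, hθ, rfl⟩) hY) Q hQ
  refine ⟨I, φ, l, l0, b, h1I, hIQ, ?_, hφ, h⟩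
  have : (0 : ℝ) < Q := lt_of_le_of_lt (by positivity) hQ
  exact_mod_cast this

/-- The analytic upper bound for the auxiliary sums with monomial weights. -/
theorem upper (P : Setup K F) (ξ : P.A) (W : Par P ξ) (L : Finset P.A) (c : P.A → ℤ) (Y' : ℝ)
    (S t T : ℕ) (hG : P.G / 2 ≤ Y') (ht : 18 * Y' / P.G ≤ t) (ht' : (t : ℝ) ≤ 20 * Y' / P.G)
    (hSV : W.V ≤ S * Y') (hSV' : S * Y' ≤ 4 ^ P.r * W.V) (hT : T ≤ W.T₀)
    (hN : L.card ≤ W.N) (hc : ∀ θ ∈ L, |(c θ : ℝ)| ≤ W.Pc)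
    (hΩ : ∀ θ ∈ L, ‖P.lg θ‖ ≤ P.Ω Y') (hvan : Van P ξ L c S (T + t))
    (I : ℕ) (φ : Fin (P.r - 1) → (Additive P.A →+ ℚ)) (l : P.A → Fin (P.r - 1) → ℤ)
    (l0 : P.A → ℤ) (b : Fin (P.r - 1) → P.A) (h1I : 1 ≤ I) (hIQ : I ≤ W.Q ^ P.r) (hQ1 : 1 ≤ W.Q)
    (hφ : ∀ i, φ i (Additive.ofMul ξ) = 0)
    (h : ∀ θ ∈ L, (∀ i, φ i (Additive.ofMul θ) = l θ i ∧ |l θ i| ≤ I) ∧ |l0 θ| ≤ W.Q * I ∧
        θ ^ I = ξ ^ l0 θ * ∏ i, b i ^ l θ i)
    (m : Multiset (Option (Fin (P.r - 1)))) (hm : Multiset.card m = T) :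
    ∑ θ ∈ L, |((mono l m θ * c θ : ℤ) : ℝ)| ≤ W.B ∧ ∀ s' : ℕ, s' ≤ 2 * P.q * S →
      ‖∑ θ ∈ L, ((mono l m θ * c θ : ℤ) : F) * P.y θ ^ s'‖ < Real.exp (-(4 * (S * Y'))) := by
  have hG1 := P.hG
  have hV := W.hV
  have hY0 : 0 < Y' := by linarith
  have hIR : (I : ℝ) ≤ (W.Q : ℝ) ^ P.r := by exact_mod_cast hIQ
  have hI1 : (1 : ℝ) ≤ I := by exact_mod_cast h1I
  have hQR : (1 : ℝ) ≤ W.Q := by exact_mod_cast hQ1
  have hQr : (1 : ℝ) ≤ (W.Q : ℝ) ^ P.r := one_le_pow₀ hQR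
  have hQQ : (W.Q : ℝ) ≤ (W.Q : ℝ) ^ P.r := le_self_pow₀ hQR (by have := P.hr; omega)
  have hS1 : 1 ≤ S := by
    rcases Nat.eq_zero_or_pos S with h0 | h0
    · subst h0; simp at hSV; linarith
    · exact h0
  have hsum : ∑ θ ∈ L, |((mono l m θ * c θ : ℤ) : ℝ)| ≤ W.B := by
    refine le_trans ?_ W.hB
    have : ∀ θ ∈ L, |((mono l m θ * c θ : ℤ) : ℝ)| ≤ W.Pc * ((W.Q : ℝ) ^ P.r) ^ W.T₀ := by
      intro θ hθ
      rw [Int.cast_mul, abs_mul, mul_comm]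
      refine mul_le_mul (hc θ hθ) ?_ (abs_nonneg _) W.hPc
      have h1 := abs_mono_le l θ ((W.Q : ℝ) ^ P.r) hQr (fun i => by
        have := ((h θ hθ).1 i).2
        have h2 : |(l θ i : ℝ)| ≤ I := by exact_mod_cast this
        linarith) m
      exact h1.trans (pow_le_pow_right₀ hQr (by omega))
    refine (Finset.sum_le_card_nsmul _ _ _ this).trans ?_
    rw [nsmul_eq_mul, mul_assoc]
    refine mul_le_mul_of_nonneg_right (by exact_mod_cast hN) ?_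
    have := W.hPc
    positivity
  refine ⟨hsum, fun s' hs' => ?_⟩
  have hIF : (I : F) ≠ 0 := by exact_mod_cast (by omega : I ≠ 0)
  set lam : P.A → F := fun θ => ∑ i, P.lg (b i) / I * l θ i with hlam
  have he : ∀ θ ∈ L, ‖P.lg θ - lam θ‖ ≤ ((W.Q : ℝ) ^ P.r) ^ 3 * ‖P.lg ξ‖ := by
    intro θ hθ
    have e1 := congrArg P.lg (h θ hθ).2.2
    rw [lg_pow, P.lg_mul, P.lg_zpow, lg_prod] at e1
    simp only [P.lg_zpow] at e1
    have e2 : P.lg θ - lam θ = (l0 θ : F) * (I : F)⁻¹ * P.lg ξ := by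
      have e3 : lam θ = (I : F)⁻¹ * ∑ i, (l θ i : F) * P.lg (b i) := by
        rw [hlam, Finset.mul_sum]
        refine Finset.sum_congr rfl fun i _ => ?_
        field_simp
      rw [e3]
      field_simp
      linear_combination e1
    rw [e2, norm_mul, norm_mul]
    refine mul_le_mul_of_nonneg_right ?_ (norm_nonneg _)
    have h1 : ‖(l0 θ : F)‖ ≤ (W.Q : ℝ) * I := by
      have h2 : |(l0 θ : ℝ)| ≤ (W.Q : ℝ) * I := by exact_mod_cast (h θ hθ).2.1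
      refine le_trans ?_ h2
      have := norm_zsmul_le (l0 θ) (1 : F)
      simpa [Int.norm_eq_abs] using this
    have h2 := P.norm_inv_nat I h1I
    calc ‖(l0 θ : F)‖ * ‖(I : F)⁻¹‖ ≤ ((W.Q : ℝ) * I) * I :=
          mul_le_mul h1 h2 (norm_nonneg _) (by positivity)
      _ ≤ ((W.Q : ℝ) ^ P.r * (W.Q : ℝ) ^ P.r) * (W.Q : ℝ) ^ P.r := by gcongr
      _ = ((W.Q : ℝ) ^ P.r) ^ 3 := by ring
  obtain ⟨g, hg, eg⟩ := exists_mono_mem ξ φ hφ l L (fun θ hθ i => ((h θ hθ).1 i).1) m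
  rw [hm] at hg
  have hjet : ∀ s : ℕ, 1 ≤ s → s ≤ S → ¬ P.q ∣ s → ∀ j : ℕ, j < t →
      ∑ θ ∈ L, ((mono l m θ * c θ : ℤ) : F) * lam θ ^ j * algebraMap K F (P.val θ) ^ s = 0 := by
    intro s hs1 hs2 hs3 j hj
    have hu : ∀ g ∈ Aff ξ ^ (T + t),
        ∑ θ ∈ L, (g θ : F) * ((c θ : F) * algebraMap K F (P.val θ) ^ s) = 0 := by
      intro g hg
      have := congrArg (algebraMap K F) (hvan s hs1 hs2 hs3 g hg)
      simpa [map_sum] using this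
    have := jets ξ φ hφ l L (fun θ hθ i => ((h θ hθ).1 i).1) (fun i => P.lg (b i) / I)
      (fun θ => (c θ : F) * algebraMap K F (P.val θ) ^ s) (T + t) hu j T (by omega) g hg
    rw [← this]
    refine Finset.sum_congr rfl fun θ hθ => ?_
    rw [eg θ hθ]
    push_cast
    ring
  have hmain := P.extrap L (fun θ => mono l m θ * c θ) lam Y' _ W.B S t hG hS1 ht hΩ he
    (by positivity) W.he hsum hjet s' hs'
  refine lt_of_le_of_lt hmain ?_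
  have hG0 : 0 < P.G := by linarith
  have hSt : (S * t : ℝ) ≤ 20 * 4 ^ P.r * W.V := by
    have h1 : (t : ℝ) ≤ 20 * Y' := ht'.trans (div_le_self (by positivity) hG1)
    calc (S * t : ℝ) ≤ S * (20 * Y') := by gcongr
      _ = 20 * (S * Y') := by ring
      _ ≤ 20 * (4 ^ P.r * W.V) := by gcongr
      _ = _ := by ring
  have h2 := W.hsmall S t hSt
  have h3 : Real.exp (-(4 * 4 ^ P.r * W.V)) ≤ Real.exp (-(4 * (S * Y'))) :=
    Real.exp_le_exp.2 (by linarith)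
  have hBe : W.B ≤ Real.exp (2 * W.V) := by
    have hd : (1 : ℝ) ≤ finrank ℚ K := by exact_mod_cast (finrank_pos : 0 < finrank ℚ K)
    have hl : 0 ≤ Real.log W.B := Real.log_nonneg W.hB1
    have : Real.log W.B ≤ 2 * W.V := le_trans (le_mul_of_one_le_left hl hd) W.hBV
    have hB0 : 0 < W.B := by have := W.hB1; linarith
    exact (Real.log_le_iff_le_exp hB0).1 this
  have h4 : W.B * Real.exp (-(P.G * S * t / 2)) < Real.exp (-(4 * (S * Y'))) / 2 := by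
    have h5 : 9 * (S * Y') ≤ P.G * S * t / 2 := by
      rw [div_le_iff₀ hG0] at ht
      have hS0 : (0 : ℝ) ≤ S := by positivity
      nlinarith
    calc W.B * Real.exp (-(P.G * S * t / 2))
        ≤ Real.exp (2 * W.V) * Real.exp (-(9 * (S * Y'))) := by
          gcongr
      _ = Real.exp (-(4 * (S * Y'))) * Real.exp (2 * W.V - 5 * (S * Y')) := by
          rw [← Real.exp_add, ← Real.exp_add]; congr 1; ring
      _ < Real.exp (-(4 * (S * Y'))) * (1 / 2) := by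
          refine mul_lt_mul_of_pos_left ?_ (Real.exp_pos _)
          have h6 : Real.exp (2 * W.V - 5 * (S * Y')) ≤ Real.exp (-1) :=
            Real.exp_le_exp.2 (by linarith)
          have h7 := Real.exp_neg_one_lt_d9
          linarith
      _ = _ := by ring
  rw [mul_add]
  linarith

end Pool.Agent.P.MP_9ec3f0_nt.SY.CoreAux
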