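import Pool.Agent.P.MP_9ec3f0_nt.SY.Core2

/-! The stages of the descent. -/

namespace Pool.Agent.P.MP_9ec3f0_nt.SY.CoreAux

open Finset Module

set_option linter.unusedSectionVars false

variable {K F : Type} [Field K] [NumberField K] [NormedField F] [CharZero F] [Algebra K F]

theorem step_int (P : Setup K F) (ξ : P.A) (W : Par P ξ) (L : Finset P.A) (c : P.A → ℤ) (Y' : ℝ)
    (S t T : ℕ) (hG : P.G / 2 ≤ Y') (ht : 18 * Y' / P.G ≤ t) (ht' : (t : ℝ) ≤ 20 * Y' / P.G)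
    (hSV : W.V ≤ S * Y') (hSV' : S * Y' ≤ 4 ^ P.r * W.V) (hT : T ≤ W.T₀)
    (hN : L.card ≤ W.N) (hc : ∀ θ ∈ L, |(c θ : ℝ)| ≤ W.Pc)
    (hΩ : ∀ θ ∈ L, ‖P.lg θ‖ ≤ P.Ω Y') (h1 : 1 ∈ L) (hH : Ht (P.val '' (L : Set P.A)) Y')
    (hY : Y' ≤ W.Y) (hvan : Van P ξ L c S (T + t)) : Van P ξ L c (2 * S) T := by
  obtain ⟨I, φ, l, l0, b, h1I, hIQ, hQ1, hφ, h⟩ :=
    exists_coord P ξ W.hξ W.hx W.Y Y' W.Hξ W.Q W.hQ L h1 hH hY
  intro s hs1 hs2 _
  refine reduce ξ l l0 b I h1I L (fun θ hθ => (h θ hθ).2.2) T _ fun m hm => ?_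
  obtain ⟨hsum, hup⟩ := upper P ξ W L c Y' S t T hG ht ht' hSV hSV' hT hN hc hΩ hvan I φ l l0 b
    h1I hIQ hQ1 hφ h m hm
  by_contra hne
  have e : ∑ θ ∈ L, (mono l m θ : K) * ((c θ : K) * P.val θ ^ s) =
      ∑ θ ∈ L, ((mono l m θ * c θ : ℤ) : K) * P.val θ ^ s :=
    Finset.sum_congr rfl fun θ _ => by push_cast; ring
  rw [e] at hne
  have hlow := liouville_base P.liou L P.val _ Y' hH ⟨1, h1, rfl⟩ (fun θ hθ => ⟨θ, hθ, rfl⟩)
    (fun θ => mono l m θ * c θ) W.B W.hB1 hsum s hne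
  have hup' := hup (P.q * s) (by nlinarith [q_pos P])
  have e2 : algebraMap K F (∑ θ ∈ L, ((mono l m θ * c θ : ℤ) : K) * P.val θ ^ s) =
      ∑ θ ∈ L, ((mono l m θ * c θ : ℤ) : F) * P.y θ ^ (P.q * s) := by
    rw [map_sum]
    refine Finset.sum_congr rfl fun θ _ => ?_
    rw [map_mul, map_intCast, map_pow, pow_mul, P.y_pow]
    rfl
  rw [e2] at hlow
  have h3 := Real.exp_lt_exp.1 (hlow.trans_lt hup')
  have hY0 : 0 < Y' := by have := P.hG; linarith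
  have h4 : Y' * s ≤ 2 * (S * Y') := by
    have : (s : ℝ) ≤ 2 * S := by exact_mod_cast hs2
    nlinarith
  have := W.hBV
  linarith

theorem step_desc (P : Setup K F) (ξ : P.A) (W : Par P ξ) (L : Finset P.A) (c : P.A → ℤ) (Y' : ℝ)
    (S₁ t T : ℕ) (hG : P.G / 2 ≤ Y') (ht : 18 * Y' / P.G ≤ t) (ht' : (t : ℝ) ≤ 20 * Y' / P.G)
    (hSV : S₁ * Y' = W.V) (hT : T ≤ W.T₀)
    (hN : L.card ≤ W.N) (hc : ∀ θ ∈ L, |(c θ : ℝ)| ≤ W.Pc)
    (hΩ : ∀ θ ∈ L, ‖P.lg θ‖ ≤ P.Ω Y') (h1 : 1 ∈ L) (hH : Ht (P.val '' (L : Set P.A)) Y')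
    (hY : Y' ≤ W.Y) (hvan : Van P ξ L c (4 ^ P.r * S₁) (T + t)) (s : ℕ) (hs : s ≤ P.q * S₁) :
    ∀ g ∈ Aff ξ ^ T, ∑ θ ∈ L, (g θ : F) * ((c θ : F) * P.y θ ^ s) = 0 := by
  obtain ⟨I, φ, l, l0, b, h1I, hIQ, hQ1, hφ, h⟩ :=
    exists_coord P ξ W.hξ W.hx W.Y Y' W.Hξ W.Q W.hQ L h1 hH hY
  refine reduce ξ l l0 b I h1I L (fun θ hθ => (h θ hθ).2.2) T _ fun m hm => ?_
  have hV := W.hV
  have h4r : (1 : ℝ) ≤ 4 ^ P.r := one_le_pow₀ (by norm_num)
  have eS : ((4 ^ P.r * S₁ : ℕ) : ℝ) * Y' = 4 ^ P.r * W.V := by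
    rw [← hSV]; push_cast; ring
  obtain ⟨hsum, hup⟩ := upper P ξ W L c Y' (4 ^ P.r * S₁) t T hG ht ht'
    (by rw [eS]; nlinarith) eS.le hT hN hc hΩ hvan I φ l l0 b h1I hIQ hQ1 hφ h m hm
  by_contra hne
  have e : ∑ θ ∈ L, (mono l m θ : F) * ((c θ : F) * P.y θ ^ s) =
      ∑ θ ∈ L, ((mono l m θ * c θ : ℤ) : F) * P.y θ ^ s :=
    Finset.sum_congr rfl fun θ _ => by push_cast; ring
  rw [e] at hne
  obtain ⟨E, hEfin, hEdeg, hEy⟩ := P.exists_field L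
  have hD : finrank K E ≤ 4 ^ P.r := hEdeg.trans (Nat.pow_le_pow_left (q_le P) _)
  have hlow := liouville_sum P.liou E (4 ^ P.r) hD L P.val P.y P.q (q_pos P) hEy
    (fun θ _ => P.y_pow θ) _ Y' hH ⟨1, h1, rfl⟩ (fun θ hθ => ⟨θ, hθ, rfl⟩)
    (fun θ => mono l m θ * c θ) W.B W.hB1 hsum s hne
  have h4n : 1 ≤ 4 ^ P.r := Nat.one_le_pow _ _ (by norm_num)
  have hup' := hup s (by
    calc s ≤ P.q * S₁ := hs
      _ ≤ 2 * P.q * (1 * S₁) := by nlinarith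
      _ ≤ 2 * P.q * (4 ^ P.r * S₁) := by gcongr)
  have h3 := Real.exp_lt_exp.1 (hlow.trans_lt hup')
  rw [eS] at h3
  have hY0 : 0 < Y' := by have := P.hG; linarith
  have hq0 : (0 : ℝ) < P.q := by exact_mod_cast q_pos P
  have h4 : Y' * s / P.q ≤ W.V := by
    rw [div_le_iff₀ hq0, ← hSV]
    have : (s : ℝ) ≤ P.q * S₁ := by exact_mod_cast hs
    nlinarith
  have h5 := W.hBV
  push_cast at h3
  nlinarith

theorem stage (P : Setup K F) (ξ : P.A) (W : Par P ξ) (n : ℕ) :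
    ∀ (Y' : ℝ) (S₁ T : ℕ) (L : Finset P.A) (c : P.A → ℤ), Y' < 2 ^ n * (P.G / 2) → Y' ≤ W.Y →
      S₁ * Y' = W.V → 1 ∈ L → L.card ≤ W.N → (∀ θ ∈ L, |(c θ : ℝ)| ≤ W.Pc) →
      (∃ θ ∈ L, c θ ≠ 0) → Ht (P.val '' (L : Set P.A)) Y' →
      (∀ θ ∈ L, ∀ θ' ∈ L, ‖P.lg θ - P.lg θ'‖ ≤ P.Ω Y') →
      72 * (2 * P.r + 1) * Y' / P.G ≤ T → T ≤ W.T₀ → Van P ξ L c S₁ T → False := by
  have hG1 := P.hG
  have hV := W.hV
  have base : ∀ (Y' : ℝ) (S₁ T : ℕ) (L : Finset P.A) (c : P.A → ℤ), Y' < P.G / 2 →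
      S₁ * Y' = W.V → 1 ∈ L → (∃ θ ∈ L, c θ ≠ 0) → Ht (P.val '' (L : Set P.A)) Y' →
      (∀ θ ∈ L, ∀ θ' ∈ L, ‖P.lg θ - P.lg θ'‖ ≤ P.Ω Y') → Van P ξ L c S₁ T → False := by
    intro Y' S₁ T L c hY hSV h1 hc0 hH hΩ hvan
    have hall : ∀ θ ∈ L, θ = 1 := by
      intro θ hθ
      by_contra hne
      refine P.fin θ Y' hne hY (hH.mono ?_ le_rfl) ?_
      · intro x hx
        rcases hx with rfl | rfl
        · exact ⟨1, h1, rfl⟩
        · exact ⟨θ, hθ, rfl⟩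
      · simpa [P.lg_one] using hΩ θ hθ 1 h1
    have hL : L = {1} := Finset.eq_singleton_iff_unique_mem.2 ⟨h1, hall⟩
    have hS1 : 1 ≤ S₁ := by
      rcases Nat.eq_zero_or_pos S₁ with h0 | h0
      · subst h0; simp at hSV; linarith
      · exact h0
    have hq1 : ¬ P.q ∣ 1 := by
      have := two_le_q P
      intro h
      have := Nat.le_of_dvd one_pos h
      omega
    have := hvan 1 le_rfl hS1 hq1 1 (one_mem_aff_pow ξ T)
    obtain ⟨θ, hθ, hc⟩ := hc0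
    rw [hall θ hθ] at hc
    rw [hL] at this
    simp [val_one] at this
    exact hc this
  induction n with
  | zero =>
    intro Y' S₁ T L c hY _ hSV h1 _ _ hc0 hH hΩ _ _ hvan
    exact base Y' S₁ T L c (by simpa using hY) hSV h1 hc0 hH hΩ hvan
  | succ n ih =>
    intro Y' S₁ T L c hY hYW hSV h1 hN hc hc0 hH hΩ hT hT₀ hvan
    by_cases hb : Y' < P.G / 2
    · exact base Y' S₁ T L c hb hSV h1 hc0 hH hΩ hvan
    push Not at hb
    have hG0 : 0 < P.G := by linarith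
    have hY0 : 0 < Y' := by linarith
    have hΩ1 : ∀ θ ∈ L, ‖P.lg θ‖ ≤ P.Ω Y' := fun θ hθ => by
      simpa [P.lg_one] using hΩ θ hθ 1 h1
    set t : ℕ := ⌈18 * Y' / P.G⌉₊ with htdef
    have ht : 18 * Y' / P.G ≤ t := Nat.le_ceil _
    have hx : 1 / 2 ≤ Y' / P.G := by rw [le_div_iff₀ hG0]; linarith
    have ht' : (t : ℝ) ≤ 20 * Y' / P.G := by
      have h1 := Nat.ceil_lt_add_one (a := 18 * Y' / P.G) (by positivity)
      have e1 : 18 * Y' / P.G = 18 * (Y' / P.G) := by ring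
      have e2 : 20 * Y' / P.G = 20 * (Y' / P.G) := by ring
      rw [htdef]; linarith
    have hr0 : (0 : ℝ) ≤ P.r := by positivity
    have htT : ((2 * P.r + 1) * t : ℝ) + 36 * (2 * P.r + 1) * Y' / P.G ≤ T := by
      have e1 : 72 * (2 * P.r + 1) * Y' / P.G = 72 * ((2 * P.r + 1) * (Y' / P.G)) := by ring
      have e2 : 36 * (2 * P.r + 1) * Y' / P.G = 36 * ((2 * P.r + 1) * (Y' / P.G)) := by ring
      have e3 : 20 * Y' / P.G = 20 * (Y' / P.G) := by ring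
      have h2 : ((2 * P.r + 1) * t : ℝ) ≤ (2 * P.r + 1) * (20 * (Y' / P.G)) := by
        rw [← e3]; gcongr
      have h3 : 0 ≤ (2 * P.r + 1) * (Y' / P.G) := by positivity
      rw [e1] at hT
      rw [e2]
      linarith
    have htTn : (2 * P.r + 1) * t ≤ T := by
      have : 0 ≤ 36 * (2 * P.r + 1) * Y' / P.G := by positivity
      have h2 : (((2 * P.r + 1) * t : ℕ) : ℝ) ≤ T := by push_cast; linarith
      exact_mod_cast h2
    obtain ⟨T', hT'⟩ : ∃ T', T = T' + (2 * P.r + 1) * t := ⟨T - (2 * P.r + 1) * t, by omega⟩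
    have hsteps : ∀ i j : ℕ, i + j = 2 * P.r → Van P ξ L c (2 ^ i * S₁) (T' + (j + 1) * t) := by
      intro i
      induction i with
      | zero =>
        intro j hj
        have : j = 2 * P.r := by omega
        subst this
        simpa [hT'] using hvan
      | succ i ihi =>
        intro j hj
        have h2 := ihi (j + 1) (by omega)
        have e1 : T' + (j + 1 + 1) * t = (T' + (j + 1) * t) + t := by ring
        rw [e1] at h2
        have e2 : ((2 ^ i * S₁ : ℕ) : ℝ) * Y' = 2 ^ i * W.V := by rw [← hSV]; push_cast; ring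
        have h2i : (1 : ℝ) ≤ 2 ^ i := one_le_pow₀ (by norm_num)
        have h2i' : (2 : ℝ) ^ i ≤ 4 ^ P.r := by
          have : (4 : ℝ) ^ P.r = 2 ^ (2 * P.r) := by rw [pow_mul]; norm_num
          rw [this]
          exact pow_le_pow_right₀ (by norm_num) (by omega)
        have h3 := step_int P ξ W L c Y' (2 ^ i * S₁) t (T' + (j + 1) * t) hb ht ht'
          (by rw [e2]; nlinarith) (by rw [e2]; gcongr)
          (by
            have : (j + 1) * t ≤ (2 * P.r + 1) * t := Nat.mul_le_mul_right _ (by omega)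
            omega) hN hc hΩ1 h1 hH hYW h2
        have e3 : 2 ^ (i + 1) * S₁ = 2 * (2 ^ i * S₁) := by ring
        rw [e3]
        exact h3
    have hlast := hsteps (2 * P.r) 0 rfl
    have e4 : 2 ^ (2 * P.r) * S₁ = 4 ^ P.r * S₁ := by rw [pow_mul]; norm_num
    rw [e4, zero_add, one_mul] at hlast
    have hdesc := step_desc P ξ W L c Y' S₁ t T' hb ht ht' hSV (by omega) hN hc hΩ1 h1 hH hYW hlast
    obtain ⟨θ₁, hθ₁, hcθ₁⟩ := hc0
    obtain ⟨L', hL'⟩ := P.exists_class L θ₁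
    have hq0 : (0 : ℝ) < P.q := by exact_mod_cast q_pos P
    have hq2 : (2 : ℝ) ≤ P.q := by exact_mod_cast two_le_q P
    have h1' : (1 : P.A) ∈ L' := (hL' 1).2 (by simpa using hθ₁)
    refine ih (Y' / P.q) (P.q * S₁) T' L' (fun η => c (θ₁ * η ^ P.q)) ?_ ?_ ?_ h1' ?_ ?_ ?_ ?_ ?_ ?_
      (by omega) ?_
    · rw [div_lt_iff₀ hq0]
      have : (0 : ℝ) < 2 ^ n * (P.G / 2) := by positivity
      rw [pow_succ] at hY
      nlinarith
    · exact (div_le_self hY0.le (by linarith)).trans hYW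
    · rw [← hSV]; push_cast; field_simp
    · refine le_trans ?_ hN
      refine Finset.card_le_card_of_injOn (fun η => θ₁ * η ^ P.q) (fun η hη => (hL' η).1 hη) ?_
      intro η _ η' _ hηη
      have h2 : (η * η'⁻¹) ^ P.q = 1 := by
        have h3 : η ^ P.q = η' ^ P.q := mul_left_cancel hηη
        rw [mul_pow, h3, inv_pow, mul_inv_cancel]
      exact mul_inv_eq_one.1 (P.eq_one_of_pow (q_pos P) h2)
    · exact fun η hη => hc _ ((hL' η).1 hη)
    · exact ⟨1, h1', by simpa using hcθ₁⟩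
    · refine hH.root (val_ne P θ₁) (q_pos P) ?_
      rintro _ ⟨η, hη, rfl⟩
      exact ⟨θ₁ * η ^ P.q, (hL' η).1 hη, by rw [val_mul, val_pow]⟩
    · intro η hη η' hη'
      have h2 := hΩ _ ((hL' η).1 hη) _ ((hL' η').1 hη')
      rw [P.lg_mul, P.lg_mul, lg_pow, lg_pow] at h2
      have hqF : (P.q : F) ≠ 0 := by exact_mod_cast (q_pos P).ne'
      have e : P.lg η - P.lg η' =
          (P.q : F)⁻¹ * (P.lg θ₁ + P.q * P.lg η - (P.lg θ₁ + P.q * P.lg η')) := by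
        field_simp; ring
      rw [e, norm_mul]
      exact (mul_le_mul_of_nonneg_left h2 (norm_nonneg _)).trans (P.Ω_div Y')
    · have h2 : (T : ℝ) = T' + (2 * P.r + 1) * t := by rw [hT']; push_cast; ring
      have h3 : 72 * (2 * P.r + 1) * (Y' / P.q) / P.G ≤ 36 * (2 * P.r + 1) * Y' / P.G := by
        have h4 : Y' / P.q ≤ Y' / 2 := by gcongr
        have e : 36 * (2 * P.r + 1) * Y' / P.G = 72 * (2 * P.r + 1) * (Y' / 2) / P.G := by ring
        rw [e]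
        gcongr
      linarith
    · intro s _ hs2 hs3 g hg
      obtain ⟨g', hg', eg⟩ := exists_subst ξ θ₁ (q_pos P) T' g hg
      have h2 := hdesc s hs2 g' hg'
      have h3 := P.split_class L L' θ₁ hL' (fun θ => (g' θ : K) * (c θ : K)) s hs3 (by
        rw [← h2]
        refine Finset.sum_congr rfl fun θ _ => ?_
        simp [mul_assoc])
      rw [← h3]
      refine Finset.sum_congr rfl fun η _ => ?_
      simp only [eg, mul_assoc]

end Pool.Agent.P.MP_9ec3f0_nt.SY.CoreAux
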