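import Mathlib

/-!
Definitions for the project SY: `log c ≤ C rad(abc)^(1/3 - δ)`.
Part A: primes of number fields, quadratic extensions, sign cocycles.
Part B: heights of finite sets, the abstract setting of the Baker-Kummer descent.
-/

namespace Pool.Agent.P.MP_9ec3f0_nt.SY

open NumberField IsDedekindDomain Finset

/-- Finite primes of a number field. -/
abbrev Pr (K : Type) [Field K] [NumberField K] : Type := HeightOneSpectrum (𝓞 K)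

section A

variable {K : Type} [Field K] [NumberField K]

/-- Additive valuation (`ord v 0 = 0`). -/
noncomputable def ord (v : Pr K) (x : K) : ℤ := - WithZero.log (v.valuation K x)

/-- `a` is locally a square times a unit congruent to `1` modulo `4`. -/
def UnrAt (v : Pr K) (a : K) : Prop :=
  ∃ ξ μ : K, ξ ≠ 0 ∧ a = ξ ^ 2 * (1 + 4 * μ) ∧ v.valuation K μ ≤ 1 ∧ v.valuation K (1 + 4 * μ) = 1

/-- `a` is a square times an element congruent to `1` modulo `4 v`. -/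
def SplitAt (v : Pr K) (a : K) : Prop :=
  ∃ ξ μ : K, ξ ≠ 0 ∧ a = ξ ^ 2 * (1 + 4 * μ) ∧ v.valuation K μ < 1

/-- The primes in `S` generate the class group. -/
def ClassGen (S : Finset (Pr K)) : Prop :=
  ∀ n : Pr K → ℤ, {v | n v ≠ 0}.Finite → ∃ x : K, x ≠ 0 ∧ ∀ v, v ∉ S → ord v x = n v

/-- The group of `S`-units. -/
noncomputable def SU (S : Finset (Pr K)) : Subgroup Kˣ := (S : Set (Pr K)).unit K

variable (F : Type) {M : Type} [Field F] [NumberField F] [Field M] [NumberField M] [Algebra F M]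

/-- The prime of `F` below `w`. -/
noncomputable def dn (w : Pr M) : Pr F := w.under (𝓞 F)

/-- `w` is unramified over `F`: a uniformiser comes from `F`. -/
def UnrP (w : Pr M) : Prop := ∃ π : F, ord w (algebraMap F M π) = 1

variable (M) in
/-- `M / F` is unramified at all finite primes. -/
def Unr : Prop := ∀ w : Pr M, UnrP F w

variable {F}

/-- The image of the prime `w` under `σ`. -/
noncomputable def cj (σ : M ≃ₐ[F] M) (w : Pr M) : Pr M :=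
  HeightOneSpectrum.equivOfRingEquiv (RingOfIntegers.mapRingEquiv σ.toRingEquiv) w

/-- `σ` fixes the prime `w`. -/
def Fixes (σ : M ≃ₐ[F] M) (w : Pr M) : Prop := cj σ w = w

variable (F M) in
/-- A quadratic extension `M = F(r)`, `r ^ 2 = a`, with its involution. -/
structure Quad where
  σ : M ≃ₐ[F] M
  r : M
  a : F
  finrank_eq : Module.finrank F M = 2
  r_ne : r ≠ 0
  r_sq : r ^ 2 = algebraMap F M a
  σ_r : σ r = -r

end A

/-- Normalised 2-cocycles with values in the signs (trivial action). -/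
def IsCocycle {G : Type} [Group G] (c : G → G → ℤˣ) : Prop :=
  (∀ g, c 1 g = 1) ∧ (∀ g, c g 1 = 1) ∧ ∀ g h k, c h k * c g (h * k) = c (g * h) k * c g h

/-- 2-coboundaries with values in the signs. -/
def IsCobound {G : Type} [Group G] (c : G → G → ℤˣ) : Prop :=
  ∃ b : G → ℤˣ, ∀ g h, c g h = b g * b h * b (g * h)

section B

variable {K : Type} [Field K] [NumberField K]

/-- The projective logarithmic height (relative to `K`) of the set `L` is at most `Y`. -/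
def Ht (L : Set K) (Y : ℝ) : Prop :=
  ∃ (N : ℕ) (δ : K) (m : (K →+* ℂ) → ℝ), 0 < N ∧ δ ≠ 0 ∧ (∀ θ ∈ L, IsIntegral ℤ (δ * θ ^ N)) ∧
    (∀ σ, 0 < m σ) ∧ (∀ θ ∈ L, ∀ σ : K →+* ℂ, ‖σ θ‖ ≤ m σ) ∧
    ∏ σ : K →+* ℂ, (‖σ δ‖ * m σ ^ N) ≤ Real.exp (N * Y)

/-- A power of `θ` is a unit times a product of powers of the primes in `P`. -/
def InSat (P : Finset ℕ) (θ : K) : Prop :=
  ∃ (N : ℕ) (u : (𝓞 K)ˣ) (e : ℕ → ℤ), 0 < N ∧ θ ^ N = ((u : 𝓞 K) : K) * ∏ l ∈ P, (l : K) ^ e l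

variable (K) (F : Type) [NormedField F] [CharZero F] [Algebra K F]

/-- Liouville inequality at the place given by `F`. -/
def Liou : Prop :=
  ∀ (E : IntermediateField K F) [NumberField E] (z δ : E) (B : (E →+* ℂ) → ℝ),
    IsIntegral ℤ z → IsIntegral ℤ δ → z ≠ 0 → (∀ σ : E →+* ℂ, ‖σ z‖ ≤ B σ) →
    (∀ σ : E →+* ℂ, ‖σ δ‖ ≤ B σ) → ‖(δ : F)‖ ≤ ‖(z : F)‖ * ∏ σ, B σ

/-- The data of the Baker-Kummer descent at the place `F` of `K`. -/
structure Setup where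
  q : ℕ
  hq : q = 2 ∨ q = 3
  A : Subgroup Kˣ
  r : ℕ
  hr : 1 ≤ r
  rank_le : ∀ s : Fin (r + 1) → A, ∃ n : Fin (r + 1) → ℤ, n ≠ 0 ∧ ∏ i, s i ^ n i = 1
  lg : A → F
  lg_mul : ∀ θ η, lg (θ * η) = lg θ + lg η
  y : A → F
  y_mul : ∀ θ η, y (θ * η) = y θ * y η
  y_pow : ∀ θ, y θ ^ q = algebraMap K F ((θ : Kˣ) : K)
  roots : ∀ z : F, z ^ q = 1 → ∃ x : K, algebraMap K F x = z
  closed : ∀ (θ : A) (η : Kˣ), algebraMap K F (η : K) = y θ → η ∈ A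
  G : ℝ
  hG : 1 ≤ G
  Ω : ℝ → ℝ
  Ω_div : ∀ Y : ℝ, ‖(q : F)⁻¹‖ * Ω Y ≤ Ω (Y / q)
  Ω_le : ∀ (Y : ℝ) (t : ℕ), G / 2 ≤ Y → 18 * Y / G ≤ t → Ω Y ≤ t
  hasSum : ∀ (θ : A) (s : ℕ),
    HasSum (fun i : ℕ => ((s : F) / q * lg θ) ^ i / (i.factorial : F)) (y θ ^ s)
  norm_inv_nat : ∀ n : ℕ, 1 ≤ n → ‖(n : F)⁻¹‖ ≤ n
  norm_inv_fact : ∀ k : ℕ, ‖(k.factorial : F)⁻¹‖ ≤ 2 ^ k
  norm_val : ∀ θ : A, ‖algebraMap K F ((θ : Kˣ) : K)‖ ≤ Real.exp ‖lg θ‖
  schwarz : ∀ (Y : ℝ) (S t n : ℕ), G / 2 ≤ Y → 1 ≤ S → 18 * Y / G ≤ t → S * t ≤ 2 * n →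
    ∃ ρ σ Z B : ℝ, 0 ≤ σ ∧ σ < ρ ∧ 0 ≤ Z ∧ (∀ s : ℕ, s ≤ S → ‖(s : F)‖ ≤ σ) ∧
      (∀ s' : ℕ, s' ≤ 2 * q * S → ‖(s' : F) / q‖ ≤ ρ ∧
        ∀ s : ℕ, s ≤ S → ‖(s' : F) / q - s‖ ≤ Z) ∧
      (∀ w : F, ‖w‖ ≤ Ω Y → ∀ N : ℕ,
        ∑ k ∈ range N, ‖w ^ k / (k.factorial : F)‖ * ρ ^ k ≤ B) ∧
      B * (Z / (ρ - σ)) ^ n ≤ Real.exp (-(G * n))
  liou : Liou K F
  gap : ∀ (θ : A) (Y : ℝ), θ ≠ 1 → Ht {1, ((θ : Kˣ) : K)} Y → 1 / 2 ≤ Y
  fin : ∀ (θ : A) (Y : ℝ), θ ≠ 1 → Y < G / 2 → Ht {1, ((θ : Kˣ) : K)} Y → ‖lg θ‖ ≤ Ω Y → False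

variable {K F}

/-- The element of `K` underlying an element of `A`. -/
def Setup.val (P : Setup K F) (θ : P.A) : K := ((θ : Kˣ) : K)

end B

/-- Affine functions on `A` whose linear part kills `ξ`; its powers are the polynomial functions. -/
def Aff {A : Type} [CommGroup A] (ξ : A) : Submodule ℚ (A → ℚ) :=
  Submodule.span ℚ (insert 1
    {f | ∃ φ : Additive A →+ ℚ, φ (Additive.ofMul ξ) = 0 ∧ f = fun θ => φ (Additive.ofMul θ)})

end Pool.Agent.P.MP_9ec3f0_nt.SY
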