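import Pool.Agent.P.MP_9ec3f0_nt.SY.Hasse

namespace Pool.Agent.P.MP_9ec3f0_nt.SY

open NumberField IsDedekindDomain Finset Module

namespace DevissAux

section Alg
variable {k L : Type} [Field k] [Field L] [Algebra k L]

/-- Hilbert 90 for a finite group of automorphisms. -/
lemma h90 (N : Subgroup (L ≃ₐ[k] L)) [Finite N] (lam : (L ≃ₐ[k] L) → L)
    (h0 : lam 1 ≠ 0) (hc : ∀ n ∈ N, ∀ m ∈ N, lam (n * m) = lam n * n (lam m)) :
    ∃ y : L, y ≠ 0 ∧ ∀ n ∈ N, lam n * n y = y := by
  have := Fintype.ofFinite N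
  have li : LinearIndependent L (fun f : N => ((f : L ≃ₐ[k] L) : L → L)) :=
    LinearIndependent.comp (ι' := N) (linearIndependent_monoidHom L L)
      (fun f => ((f : L ≃ₐ[k] L) : L →* L))
      (fun x y h => by ext z; exact DFunLike.ext_iff.1 h z)
  obtain ⟨x, hx⟩ : ∃ x : L, ∑ n : N, lam n * (n : L ≃ₐ[k] L) x ≠ 0 := by
    by_contra h
    push Not at h
    exact h0 (Fintype.linearIndependent_iff.1 li (fun n => lam n) (by
      funext x; simpa [Finset.sum_apply] using h x) 1)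
  refine ⟨_, hx, fun m hm => ?_⟩
  rw [map_sum, Finset.mul_sum]
  refine Fintype.sum_bijective (fun i : N => (⟨m, hm⟩ : N) * i) (Group.mulLeft_bijective _) _ _
    fun i => ?_
  rw [map_mul, ← mul_assoc, ← hc m hm i i.2]; rfl

/-- A sign as a unit of `L`. -/
def sg (L : Type) [Field L] : ℤˣ →* Lˣ := Units.map (Int.castRingHom L : ℤ →* L)

lemma sg_val (u : ℤˣ) : ((sg L u : Lˣ) : L) = ((u : ℤ) : L) := rfl

lemma smul_val (g : L ≃ₐ[k] L) (u : Lˣ) : ((g • u : Lˣ) : L) = g u := rfl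

lemma smul_sg (g : L ≃ₐ[k] L) (u : ℤˣ) : g • sg L u = sg L u :=
  Units.ext (by rw [smul_val, sg_val, map_intCast])

/-- The group extension of the Galois group by `Lˣ` defined by a sign cocycle. -/
@[ext] structure Ex (c : (L ≃ₐ[k] L) → (L ≃ₐ[k] L) → ℤˣ) (hc : IsCocycle c) where
  l : Lˣ
  g : L ≃ₐ[k] L

variable {c : (L ≃ₐ[k] L) → (L ≃ₐ[k] L) → ℤˣ} {hc : IsCocycle c}

instance : Mul (Ex c hc) := ⟨fun x y => ⟨x.l * x.g • y.l * sg L (c x.g y.g), x.g * y.g⟩⟩
instance : One (Ex c hc) := ⟨⟨1, 1⟩⟩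
instance : Inv (Ex c hc) := ⟨fun x => ⟨(x.g⁻¹ • x.l * sg L (c x.g⁻¹ x.g))⁻¹, x.g⁻¹⟩⟩

lemma mul_l (x y : Ex c hc) : (x * y).l = x.l * x.g • y.l * sg L (c x.g y.g) := rfl
lemma mul_g (x y : Ex c hc) : (x * y).g = x.g * y.g := rfl
lemma one_l : (1 : Ex c hc).l = 1 := rfl
lemma one_g : (1 : Ex c hc).g = 1 := rfl

instance : Group (Ex c hc) := Group.ofLeftAxioms
  (fun x y z => Ex.ext (by
    have := congrArg (sg L) (hc.2.2 x.g y.g z.g)
    simp only [map_mul] at this
    simp only [mul_l, mul_g, smul_mul', smul_sg, mul_smul, mul_assoc]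
    rw [this]; simp only [mul_comm, mul_left_comm]) (mul_assoc _ _ _))
  (fun x => Ex.ext (by simp [mul_l, one_l, one_g, hc.1]) (one_mul _))
  (fun x => Ex.ext (by
    change (x.g⁻¹ • x.l * sg L (c x.g⁻¹ x.g))⁻¹ * x.g⁻¹ • x.l * sg L (c x.g⁻¹ x.g) = 1
    rw [mul_assoc, inv_mul_cancel]) (inv_mul_cancel _))

/-- The inclusion of `Lˣ`. -/
def io (hc : IsCocycle c) : Lˣ →* Ex c hc where
  toFun l := ⟨l, 1⟩
  map_one' := rfl
  map_mul' a b := Ex.ext (by simp [mul_l, hc.1]) (by simp [mul_g])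

/-- The projection to the Galois group. -/
def pr (hc : IsCocycle c) : Ex c hc →* (L ≃ₐ[k] L) where
  toFun x := x.g
  map_one' := rfl
  map_mul' _ _ := rfl

lemma pr_apply (x : Ex c hc) : pr hc x = x.g := rfl
lemma io_g (l : Lˣ) : (io hc l).g = 1 := rfl
lemma io_l (l : Lˣ) : (io hc l).l = l := rfl
lemma io_mul_l (l : Lˣ) (x : Ex c hc) : (io hc l * x).l = l * x.l := by
  simp [mul_l, io_g, io_l, hc.1]
lemma io_mul_g (l : Lˣ) (x : Ex c hc) : (io hc l * x).g = x.g := by simp [mul_g, io_g]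

lemma mul_io (x : Ex c hc) (l : Lˣ) : x * io hc l = io hc (x.g • l) * x :=
  Ex.ext (by simp [mul_l, io_g, io_l, hc.1, hc.2.1, mul_comm]) (by simp [mul_g, io_g])

lemma io_inj {a b : Lˣ} {x : Ex c hc} (h : io hc a * x = io hc b * x) : a = b :=
  congrArg Ex.l (mul_right_cancel h)

lemma eq_io {x y : Ex c hc} (h : x.g = y.g) : x = io hc (x.l / y.l) * y :=
  Ex.ext (by rw [io_mul_l, div_mul_cancel]) (by rw [io_mul_g, h])

end Alg

/-- Extending a section from a subgroup of index two. -/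
lemma extend {E G : Type} [Group E] [Group G] (π : E →* G) (N : Subgroup G) (hN : N.index = 2)
    (s : G → E) (hs : ∀ n ∈ N, π (s n) = n) (hm : ∀ n ∈ N, ∀ m ∈ N, s (n * m) = s n * s m)
    {z : G} (hz : z ∉ N) {e : E} (he : π e = z)
    (hconj : ∀ n ∈ N, e * s (z⁻¹ * n * z) = s n * e) (hsq : e * e = s (z * z)) :
    ∃ t : G → E, (∀ g, π (t g) = g) ∧ ∀ g h, t (g * h) = t g * t h := by
  classical
  have iff := fun a b => Subgroup.mul_mem_iff_of_index_two hN (a := a) (b := b)
  have hz' : z⁻¹ ∉ N := fun h => hz (by simpa using N.inv_mem h)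
  have m1 : ∀ g, g ∉ N → z⁻¹ * g ∈ N := fun g hg => (iff _ _).2 (iff_of_false hz' hg)
  have m2 : ∀ g, g ∉ N → g * z⁻¹ ∈ N := fun g hg => (iff _ _).2 (iff_of_false hg hz')
  have m3 : ∀ g ∈ N, z⁻¹ * g * z ∈ N := fun g hg =>
    (iff _ _).2 (iff_of_false (fun h => hz' (((iff _ _).1 h).2 hg)) hz)
  refine ⟨fun g => if g ∈ N then s g else e * s (z⁻¹ * g), fun g => ?_, fun g h => ?_⟩
  · by_cases hg : g ∈ N
    · simp only [if_pos hg, hs g hg]
    · simp only [if_neg hg, map_mul, he, hs _ (m1 g hg), mul_inv_cancel_left]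
  by_cases hg : g ∈ N <;> by_cases hh : h ∈ N
  · simp only [if_pos hg, if_pos hh, if_pos (N.mul_mem hg hh), hm g hg h hh]
  · have : g * h ∉ N := fun a => hh (((iff _ _).1 a).1 hg)
    simp only [if_pos hg, if_neg hh, if_neg this]
    rw [← mul_assoc (s g), ← hconj g hg, mul_assoc e, ← hm _ (m3 g hg) _ (m1 h hh)]
    congr 2; group
  · have : g * h ∉ N := fun a => hg (((iff _ _).1 a).2 hh)
    simp only [if_neg hg, if_pos hh, if_neg this]
    rw [mul_assoc e, ← hm _ (m1 g hg) _ hh, mul_assoc]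
  · have : g * h ∈ N := (iff _ _).2 (iff_of_false hg hh)
    have zz : z * z ∈ N := (iff _ _).2 Iff.rfl
    simp only [if_neg hg, if_neg hh, if_pos this]
    have a := hconj _ (m2 g hg)
    rw [show z⁻¹ * (g * z⁻¹) * z = z⁻¹ * g by group] at a
    rw [a, mul_assoc, ← mul_assoc e, hsq, ← hm _ zz _ (m1 h hh),
      ← hm _ (m2 g hg) _ (N.mul_mem zz (m1 h hh))]
    congr 1; group

variable {k L : Type} [Field k] [NumberField k] [Field L] [NumberField L] [Algebra k L]
variable {c : (L ≃ₐ[k] L) → (L ≃ₐ[k] L) → ℤˣ} {hc : IsCocycle c}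

omit [NumberField k] in
lemma nu_mul (w : Pr L) (x y : Ex c hc) (hx : ∀ a : L, ord w (x.g a) = ord w a) :
    ord w ((x * y).l : L) = ord w (x.l : L) + ord w (y.l : L) := by
  have s : ord w ((sg L (c x.g y.g) : Lˣ) : L) = 0 := by
    rcases Int.units_eq_one_or (c x.g y.g) with h | h <;> simp [h, sg_val, ord_one, ord_neg]
  rw [mul_l, Units.val_mul, Units.val_mul, ord_mul w (by simp) (by simp),
    ord_mul w (by simp) (by simp), s, smul_val, hx, add_zero]

omit [NumberField k] in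
lemma nu_fin (w : Pr L) (x : Ex c hc) (hx : ∀ a : L, ord w (x.g a) = ord w a) {n : ℕ} (hn : 0 < n)
    (h : x ^ n = 1) : ord w (x.l : L) = 0 := by
  have : ∀ m : ℕ, ord w ((x ^ m).l : L) = m * ord w (x.l : L) := fun m => by
    induction m with
    | zero => simp [one_l, ord_one]
    | succ m ih => rw [pow_succ', nu_mul w _ _ hx, ih]; push_cast; ring
  have h1 := this n
  rw [h, one_l, Units.val_one, ord_one] at h1
  exact (mul_eq_zero.1 h1.symm).resolve_left (by omega)

lemma dn_cj' {M : Type} [Field M] [NumberField M] [Algebra k M] [Algebra M L]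
    (z : L ≃ₐ[k] L) (σ : M ≃ₐ[k] M) (h : ∀ x, algebraMap M L (σ x) = z (algebraMap M L x))
    (w : Pr L) : dn M (cj z w) = cj σ (dn M w) := by
  refine HeightOneSpectrum.eq_of_valuation_isEquiv_valuation (K := M) ?_
  rw [Valuation.isEquiv_iff_val_lt_one]
  intro x
  obtain ⟨y, rfl⟩ := σ.surjective x
  rw [← val_algebraMap_lt_one_iff, h, val_cj, val_algebraMap_lt_one_iff, val_cj]

/-- The inflation step. -/
lemma step [IsGalois k L] [IsTotallyComplex k] (hunr : Unr k L) (N : Subgroup (L ≃ₐ[k] L))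
    (hN : N.index = 2) (s : (L ≃ₐ[k] L) → Ex c hc) (hs : ∀ n ∈ N, (s n).g = n)
    (hm : ∀ n ∈ N, ∀ m ∈ N, s (n * m) = s n * s m) :
    ∃ t : (L ≃ₐ[k] L) → Ex c hc, (∀ g, (t g).g = g) ∧ ∀ g h, t (g * h) = t g * t h := by
  have nrm := Subgroup.normal_of_index_eq_two hN
  obtain ⟨z, hz⟩ : ∃ z, z ∉ N := by
    by_contra h
    push Not at h
    rw [(Subgroup.eq_top_iff' N).2 h, Subgroup.index_top] at hN
    omega
  have zz : z * z ∈ N := (Subgroup.mul_mem_iff_of_index_two hN).2 Iff.rfl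
  have m3 : ∀ g ∈ N, z⁻¹ * g * z ∈ N := fun g hg => nrm.conj_mem' g hg z
  have s1 : s 1 = 1 := by
    have := hm 1 N.one_mem 1 N.one_mem
    rw [mul_one] at this
    exact left_eq_mul.1 this
  -- a lift of `z` normalising the section
  obtain ⟨e, he, hconj⟩ : ∃ e : Ex c hc, e.g = z ∧ ∀ n ∈ N, e * s (z⁻¹ * n * z) = s n * e := by
    let e0 : Ex c hc := ⟨1, z⟩
    let s' := fun n => e0 * s (z⁻¹ * n * z) * e0⁻¹
    have g' : ∀ n ∈ N, (s' n).g = (s n).g := fun n hn => by
      change pr hc (e0 * s (z⁻¹ * n * z) * e0⁻¹) = _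
      rw [map_mul, map_mul, map_inv, pr_apply, pr_apply, hs _ (m3 n hn), hs n hn]
      change z * _ * z⁻¹ = n
      group
    have m' : ∀ n ∈ N, ∀ m ∈ N, s' (n * m) = s' n * s' m := fun n hn m hm' => by
      simp only [s']
      rw [show z⁻¹ * (n * m) * z = (z⁻¹ * n * z) * (z⁻¹ * m * z) by group,
        hm _ (m3 n hn) _ (m3 m hm')]
      group
    obtain ⟨y, y0, hy⟩ := h90 N (fun n => (((s' n).l / (s n).l : Lˣ) : L)) (Units.ne_zero _)
      fun n hn m hm' => by
        have a := eq_io (g' _ (N.mul_mem hn hm'))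
        have b := m' n hn m hm'
        rw [a, eq_io (g' n hn), eq_io (g' m hm'), mul_assoc, ← mul_assoc (s n), mul_io, mul_assoc,
          ← mul_assoc, ← map_mul, ← hm n hn m hm', hs n hn] at b
        exact congrArg Units.val (io_inj b)
    refine ⟨io hc (Units.mk0 y y0)⁻¹ * e0, io_mul_g _ _, fun n hn => ?_⟩
    have a : e0 * s (z⁻¹ * n * z) = s' n * e0 := by simp only [s']; group
    rw [mul_assoc, a, eq_io (g' n hn), ← mul_assoc (s n), mul_io, hs n hn, ← mul_assoc,
      ← mul_assoc, ← map_mul]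
    congr 3
    apply Units.ext
    have := hy n hn
    have n0 : n y ≠ 0 := by simpa using y0
    rw [Units.val_mul, smul_val, Units.val_inv_eq_inv_val, Units.val_mk0, map_inv₀]
    field_simp
    exact this
  obtain ⟨b, hb⟩ : ∃ b, e * e = io hc b * s (z * z) := ⟨_, eq_io (by rw [mul_g, he, hs _ zz])⟩
  have bN : ∀ n ∈ N, n • b = b := fun n hn => by
    have a1 := hconj n hn
    have a2 := hconj _ (m3 n hn)
    have a3 : e * e * s (z⁻¹ * (z⁻¹ * n * z) * z) = s n * (e * e) := by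
      rw [mul_assoc, a2, ← mul_assoc, a1, mul_assoc]
    rw [hb, mul_assoc, ← hm _ zz _ (m3 _ (m3 n hn)),
      show z * z * (z⁻¹ * (z⁻¹ * n * z) * z) = n * (z * z) by group, ← mul_assoc (s n), mul_io,
      mul_assoc (io hc _) (s n), ← hm n hn _ zz, hs n hn] at a3
    exact (io_inj a3).symm
  have bz : z • b = b := by
    have a1 := hconj _ zz
    rw [show z⁻¹ * (z * z) * z = z * z by group] at a1
    have a2 : e * (e * e) = e * e * e := (mul_assoc _ _ _).symm
    rw [hb, ← mul_assoc, mul_io, mul_assoc, a1, he, mul_assoc] at a2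
    exact io_inj a2
  obtain ⟨b0, hb0⟩ : (b : L) ∈ Set.range (algebraMap k L) := by
    refine (IsGalois.mem_range_algebraMap_iff_fixed _).2 fun g => ?_
    by_cases hg : g ∈ N
    · exact congrArg Units.val (bN g hg)
    · have : z⁻¹ * g ∈ N := (Subgroup.mul_mem_iff_of_index_two hN).2
        (iff_of_false (fun h => hz (by simpa using N.inv_mem h)) hg)
      have := bN _ this
      rw [mul_smul, inv_smul_eq_iff, bz] at this
      exact congrArg Units.val this
  let M := IntermediateField.fixedField N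
  have hσ := fun x => z.restrictNormal_commutes M x
  have h2 : finrank k M = 2 := by
    have a1 := finrank_mul_finrank k M L
    have a2 := N.index_mul_card
    rw [IntermediateField.finrank_fixedField_eq_card, ← IsGalois.card_aut_eq_finrank k L, ← a2,
      hN] at a1
    exact Nat.eq_of_mul_eq_mul_right Nat.card_pos a1
  obtain ⟨Q, hQ⟩ := exists_quad h2 (z.restrictNormal M) fun h => hz (by
    rw [← IntermediateField.fixingSubgroup_fixedField N, IntermediateField.mem_fixingSubgroup_iff]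
    intro x hx
    have := hσ ⟨x, hx⟩
    rw [h] at this
    exact this.symm)
  have b00 : b0 ≠ 0 := by
    rintro rfl
    exact b.ne_zero (by rw [← hb0, map_zero])
  obtain ⟨x, hx⟩ := hasse_norm Q (Unr.bot L hunr) b0 b00 fun w' hw' => by
    obtain ⟨w, rfl⟩ := exists_above L w'
    rw [← ord_of_unrP (Unr.top (F := M) hunr w), ← IsScalarTower.algebraMap_apply, hb0]
    obtain ⟨τ, hτ⟩ := exists_cj_eq (F := M) (w := cj z w) (w' := w)
      (by rw [dn_cj' z _ hσ, ← hQ]; exact hw')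
    have hn : τ.restrictScalars k ∈ N := by
      rw [← IntermediateField.fixingSubgroup_fixedField N, IntermediateField.mem_fixingSubgroup_iff]
      exact fun x hx => τ.commutes ⟨x, hx⟩
    set n := τ.restrictScalars k with hn'
    have inv : ∀ a : L, ord w ((n * z) a) = ord w a := fun a => by
      have := ord_cj τ (cj z w) (z a)
      rw [hτ, ord_cj] at this
      exact this
    have zn : z * n * z⁻¹ ∈ N := nrm.conj_mem n hn z
    have gN : n * z * (n * z) ∈ N := by
      have := N.mul_mem (N.mul_mem hn zn) zz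
      rwa [show n * (z * n * z⁻¹) * (z * z) = n * z * (n * z) by group] at this
    have sq : s n * e * (s n * e) = io hc b * s (n * z * (n * z)) := by
      have a1 := hconj _ zn
      rw [show z⁻¹ * (z * n * z⁻¹) * z = n by group] at a1
      rw [mul_assoc, ← mul_assoc e, a1, mul_assoc, hb, ← mul_assoc, ← hm _ hn _ zn, ← mul_assoc,
        mul_io, hs _ (N.mul_mem hn zn), bN _ (N.mul_mem hn zn), mul_assoc,
        ← hm _ (N.mul_mem hn zn) _ zz]
      congr 2; group
    have pw : ∀ m : ℕ, s (n * z * (n * z)) ^ m = s ((n * z * (n * z)) ^ m) := fun m => by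
      induction m with
      | zero => simp [s1]
      | succ m ih => rw [pow_succ, ih, pow_succ, hm _ (N.pow_mem gN m) _ gN]
    have a1 := nu_fin w (s (n * z * (n * z))) (fun a => by
      rw [hs _ gN, AlgEquiv.mul_apply, inv, inv]) (orderOf_pos (n * z * (n * z)))
      (by rw [pw, pow_orderOf_eq_one, s1])
    have a2 := nu_mul w (s n * e) (s n * e) fun a => by rw [mul_g, hs n hn, he, inv]
    rw [sq, io_mul_l, Units.val_mul, ord_mul w (by simp) (by simp), a1, add_zero] at a2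
    exact ⟨_, a2⟩
  have hxL : (x : L) * z x = b := by
    have := congrArg (algebraMap M L) hx
    rwa [map_mul, hQ, hσ, ← IsScalarTower.algebraMap_apply, hb0] at this
  have x0 : (x : L) ≠ 0 := fun h => b.ne_zero (by rw [← hxL, h, zero_mul])
  refine extend (pr hc) N hN s hs hm hz (e := io hc (Units.mk0 (x : L) x0)⁻¹ * e)
    ((io_mul_g _ _).trans he) (fun n hn => ?_) ?_
  · rw [mul_assoc, hconj n hn, ← mul_assoc (s n), mul_io, hs n hn, mul_assoc]
    congr 2
    rw [smul_inv', inv_inj]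
    exact Units.ext ((IntermediateField.mem_fixedField_iff N _).1 x.2 n hn).symm
  · rw [mul_assoc, ← mul_assoc e, mul_io, mul_assoc, hb, ← mul_assoc, ← mul_assoc, ← map_mul,
      ← map_mul, he, smul_inv', ← mul_inv]
    have : Units.mk0 (x : L) x0 * z • Units.mk0 (x : L) x0 = b := Units.ext hxL
    rw [this, inv_mul_cancel, map_one, one_mul]

lemma split (L : Type) [Field L] [NumberField L] (n : ℕ) :
    ∀ (k : Type) [Field k] [NumberField k] [Algebra k L] [IsGalois k L] [IsTotallyComplex k],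
      Nat.card (L ≃ₐ[k] L) = 2 ^ n → Unr k L →
      ∀ c : (L ≃ₐ[k] L) → (L ≃ₐ[k] L) → ℤˣ, IsCocycle c → ∃ β : (L ≃ₐ[k] L) → L,
        (∀ g, β g ≠ 0) ∧ ∀ g h, (((c g h : ℤˣ) : ℤ) : L) * β (g * h) = β g * g (β h) := by
  induction n with
  | zero =>
    intro k _ _ _ _ _ h _ c hc
    have := (Nat.card_eq_one_iff_unique.1 h).1
    exact ⟨fun _ => 1, fun _ => one_ne_zero, fun g h => by
      rw [Subsingleton.elim g 1, hc.1]; simp⟩
  | succ n ih =>
    intro k _ _ _ _ _ h hunr c hc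
    classical
    obtain ⟨N, hN⟩ := Sylow.exists_subgroup_card_pow_prime (G := L ≃ₐ[k] L) 2 (n := n)
      (by rw [h]; exact pow_dvd_pow 2 (by omega))
    have hi : N.index = 2 := by
      have := N.index_mul_card
      rw [h, hN, pow_succ'] at this
      exact Nat.eq_of_mul_eq_mul_right (by positivity) this
    let M := IntermediateField.fixedField N
    have := isTotallyComplex_of_algebra (F := k) M
    let φ := IntermediateField.subgroupEquivAlgEquiv N
    obtain ⟨β, β0, hβ⟩ := ih M (by rw [← hN]; exact (Nat.card_congr φ.toEquiv).symm)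
      (Unr.top hunr) (fun g h => c (φ.symm g) (φ.symm h))
      ⟨fun g => by simp [hc.1], fun g => by simp [hc.2.1], fun g h j => by
        simpa using hc.2.2 (φ.symm g) (φ.symm h) (φ.symm j)⟩
    obtain ⟨t, ht, hm⟩ := step (hc := hc) hunr N hi
      (fun g => ⟨if hg : g ∈ N then (Units.mk0 _ (β0 (φ ⟨g, hg⟩)))⁻¹ else 1, g⟩) (fun _ _ => rfl)
      fun a ha b hb => Ex.ext (by
        simp only [mul_l, dif_pos ha, dif_pos hb, dif_pos (N.mul_mem ha hb)]
        have e := hβ (φ ⟨a, ha⟩) (φ ⟨b, hb⟩)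
        rw [← map_mul, φ.symm_apply_apply, φ.symm_apply_apply] at e
        rw [smul_inv', ← mul_inv, eq_inv_mul_iff_mul_eq, mul_inv_eq_iff_eq_mul]
        exact Units.ext e.symm) rfl
    refine ⟨fun g => ((t g).l : L)⁻¹, fun g => by simp, fun g h => ?_⟩
    have := congrArg (fun x => (x.l : L)) (hm g h)
    simp only [mul_l, Units.val_mul, smul_val, sg_val, ht] at this
    have n0 : g ((t h).l : L) ≠ 0 := by simp
    have c0 : (((c g h : ℤˣ) : ℤ) : L) ≠ 0 := by simp
    simp only [this, map_inv₀]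
    field_simp

end DevissAux

section Deviss
variable {k L : Type} [Field k] [NumberField k] [Field L] [NumberField L] [Algebra k L]

theorem split_cocycle [IsGalois k L] [IsTotallyComplex k] (hG : IsPGroup 2 (L ≃ₐ[k] L))
    (hunr : Unr k L) (c : (L ≃ₐ[k] L) → (L ≃ₐ[k] L) → ℤˣ) (hc : IsCocycle c) :
    ∃ β : (L ≃ₐ[k] L) → L, (∀ g, β g ≠ 0) ∧
      ∀ g h, (((c g h : ℤˣ) : ℤ) : L) * β (g * h) = β g * g (β h) := by
  obtain ⟨n, hn⟩ := IsPGroup.iff_card.1 hG
  exact DevissAux.split L n k hn hunr c hc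

theorem alpha_family [IsGalois k L] [IsTotallyComplex k] (hG : IsPGroup 2 (L ≃ₐ[k] L))
    (hunr : Unr k L) {ι : Type} (c : ι → (L ≃ₐ[k] L) → (L ≃ₐ[k] L) → ℤˣ)
    (hc : ∀ i, IsCocycle (c i)) (hne : ∀ i j, i ≠ j → ¬ IsCobound (c i * c j)) :
    ∃ α : ι → L, (∀ i, α i ≠ 0 ∧ ∀ g : L ≃ₐ[k] L, ∃ β : L, g (α i) = α i * β ^ 2) ∧
      ∀ i j, i ≠ j → ¬ ∃ (y : k) (x : L), α i = α j * algebraMap k L y * x ^ 2 := by
  choose β β0 hβ using fun i => split_cocycle hG hunr (c i) (hc i)
  have sq : ∀ u : ℤˣ, (((u : ℤ) : L)) ^ 2 = 1 := fun u => by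
    rcases Int.units_eq_one_or u with rfl | rfl <;> simp
  have gβ : ∀ i (g h : L ≃ₐ[k] L), g (β i h) ≠ 0 := fun i g h => by simpa using β0 i h
  choose α α0 hα using fun i => DevissAux.h90 (⊤ : Subgroup (L ≃ₐ[k] L))
    (fun g => (β i g ^ 2)⁻¹) (by simpa using β0 i 1) fun g _ h _ => by
      rw [map_inv₀, map_pow, ← mul_inv, ← mul_pow, ← hβ, mul_pow, sq, one_mul]
  have hα' : ∀ i (g : L ≃ₐ[k] L), g (α i) = α i * β i g ^ 2 := fun i g => by
    have := hα i g trivial
    have := β0 i g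
    field_simp at *
    linear_combination this
  refine ⟨α, fun i => ⟨α0 i, fun g => ⟨_, hα' i g⟩⟩, ?_⟩
  rintro i j hij ⟨y, x, e⟩
  have x0 : x ≠ 0 := by rintro rfl; exact α0 i (by simp [e])
  have gx : ∀ g : L ≃ₐ[k] L, g x ≠ 0 := fun g => by simpa using x0
  have y0 : algebraMap k L y ≠ 0 := fun h => α0 i (by simp [e, h])
  have key : ∀ g : L ≃ₐ[k] L, ∃ b : ℤˣ, β i g * x = ((b : ℤ) : L) * (β j g * g x) := fun g => by
    have a := hα' i g
    rw [e, map_mul, map_mul, map_pow, AlgEquiv.commutes, hα' j g] at a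
    have : (β i g * x) ^ 2 = (β j g * g x) ^ 2 :=
      mul_left_cancel₀ (mul_ne_zero (α0 j) y0) (by linear_combination -a)
    rcases sq_eq_sq_iff_eq_or_eq_neg.1 this with h | h
    · exact ⟨1, by simpa using h⟩
    · exact ⟨-1, by simpa using h⟩
  choose b hb using key
  refine hne i j hij ⟨b, fun g h => ?_⟩
  have a1 := hβ i g h
  have a2 := hβ j g h
  have a3 := congrArg g (hb h)
  simp only [map_mul, map_intCast] at a3
  have a4 := hb (g * h)
  have a5 := hb g
  rw [AlgEquiv.mul_apply] at a4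
  have : (((c i g h : ℤˣ) : ℤ) : L) * ((b (g * h) : ℤ) : L) =
      ((b g : ℤ) : L) * ((b h : ℤ) : L) * (((c j g h : ℤˣ) : ℤ) : L) := by
    refine mul_right_cancel₀ (mul_ne_zero (mul_ne_zero (β0 j (g * h)) (gx g)) (gx (g * h))) ?_
    rw [AlgEquiv.mul_apply]
    linear_combination (-(((c i g h : ℤˣ) : ℤ) : L) * g x) * a4 + (x * g x) * a1 +
      (β i g * x) * a3 + (((b h : ℤ) : L) * g (β j h) * g (h x)) * a5 -
      (((b g : ℤ) : L) * ((b h : ℤ) : L) * g x * g (h x)) * a2
  have : c i g h * b (g * h) = b g * b h * c j g h := by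
    apply Units.ext
    exact_mod_cast this
  change c i g h * c j g h = _
  rw [← mul_left_inj (b (g * h)), mul_right_comm, this, mul_assoc, Int.units_mul_self,
    mul_assoc (b g * b h), Int.units_mul_self]

end Deviss

end Pool.Agent.P.MP_9ec3f0_nt.SY
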