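import Pool.Agent.P.MP_9ec3f0_nt.SY.Defs

/-!
The Golod-Shafarevich inequality for finite 2-groups, in terms of sign cocycles.
-/

set_option linter.style.haveILetI false
set_option linter.unusedSectionVars false

namespace Pool.Agent.P.MP_9ec3f0_nt.SY

open NumberField IsDedekindDomain Finset Module

namespace GSAux

abbrev k2 : Type := ZMod 2

abbrev La (G : Type) : Type := MonoidAlgebra k2 G

section Signs

def sg (x : k2) : ℤˣ := if x = 0 then 1 else -1

def lg (u : ℤˣ) : k2 := if u = 1 then 0 else 1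

lemma sg_add : ∀ x y : k2, sg (x + y) = sg x * sg y := by decide
lemma sg_zero : sg 0 = 1 := by decide
lemma lg_mul : ∀ u v : ℤˣ, lg (u * v) = lg u + lg v := by decide
lemma lg_sg : ∀ x : k2, lg (sg x) = x := by decide
lemma sg_lg : ∀ u : ℤˣ, sg (lg u) = u := by decide
lemma lg_one : lg 1 = 0 := by decide
lemma add_self : ∀ x : k2, x + x = 0 := by decide
lemma eq_of_add : ∀ x y : k2, x + y = 0 → x = y := by decide

end Signs

section Lin

variable {K V W : Type} [Field K] [AddCommGroup V] [Module K V] [AddCommGroup W] [Module K W]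
  [FiniteDimensional K V] [FiniteDimensional K W]

lemma dim_sup_range (f : V →ₗ[K] W) (A : Submodule K V) (B : Submodule K W) (h : A.map f ≤ B) :
    finrank K (B ⊔ LinearMap.range f : Submodule K W) + finrank K A ≤ finrank K B + finrank K V := by
  obtain ⟨C, hC⟩ := A.exists_isCompl
  have h1 : B ⊔ LinearMap.range f ≤ B ⊔ C.map f := by
    refine sup_le le_sup_left ?_
    rw [LinearMap.range_eq_map, ← hC.sup_eq_top, Submodule.map_sup]
    exact sup_le_sup_right h _
  have h2 := Submodule.finrank_mono h1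
  have h3 := Submodule.finrank_add_le_finrank_add_finrank B (C.map f)
  have h4 := Submodule.finrank_map_le f C
  have h5 := Submodule.finrank_add_eq_of_isCompl hC
  omega

omit [FiniteDimensional K W] in
lemma dim_sup_ker (f : V →ₗ[K] W) (B : Submodule K V) :
    finrank K (B ⊔ LinearMap.ker f : Submodule K V) =
      finrank K (B.map f) + finrank K (LinearMap.ker f) := by
  have h1 := LinearMap.finrank_range_add_finrank_ker (f.domRestrict (B ⊔ LinearMap.ker f))
  rw [LinearMap.range_domRestrict, LinearMap.ker_domRestrict, Submodule.map_sup,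
    (Submodule.comapSubtypeEquivOfLe le_sup_right).finrank_eq] at h1
  have h2 : (LinearMap.ker f).map f = ⊥ := by
    rw [eq_bot_iff, Submodule.map_le_iff_le_comap]
    exact le_rfl
  rw [h2, sup_bot_eq] at h1
  exact h1.symm

end Lin

variable {G : Type} [Group G]

noncomputable def og (g : G) : La G := MonoidAlgebra.single g 1

lemma og_mul (g h : G) : og (g * h) = og g * og h := by
  simp [og, MonoidAlgebra.single_mul_single]

lemma og_one : og (1 : G) = 1 := rfl

variable (G) in
noncomputable def ep : La G →ₐ[k2] k2 := MonoidAlgebra.lift k2 k2 G 1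

lemma ep_og (g : G) : ep G (og g) = 1 := by simp [ep, og]

variable (G) in
noncomputable def aI : Ideal (La G) := RingHom.ker (ep G)

lemma mem_aI {a : La G} : a ∈ aI G ↔ ep G a = 0 := Iff.rfl

lemma og_sub (g : G) : og g - 1 ∈ aI G := by
  rw [mem_aI, map_sub, ep_og, map_one, sub_self]

lemma lin_ext {W : Type} [AddCommGroup W] [Module k2 W] {f f' : La G →ₗ[k2] W}
    (h : ∀ g, f (og g) = f' (og g)) : f = f' :=
  (MonoidAlgebra.basis G k2).ext h

noncomputable def mkL {W : Type} [AddCommGroup W] [Module k2 W] (s : G → W) : La G →ₗ[k2] W :=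
  (MonoidAlgebra.basis G k2).constr k2 s

lemma mkL_og {W : Type} [AddCommGroup W] [Module k2 W] (s : G → W) (g : G) :
    mkL s (og g) = s g := (MonoidAlgebra.basis G k2).constr_basis k2 s g

section Mod

variable {M : Type} [AddCommGroup M] [Module k2 M] [Module (La G) M] [IsScalarTower k2 (La G) M]

/-- the action of an element as a linear map -/
noncomputable def act (a : La G) : M →ₗ[k2] M where
  toFun m := a • m
  map_add' := smul_add a
  map_smul' c m := smul_comm a c m

lemma inv_smul {φ : M →ₗ[k2] k2} {m : M} (h : ∀ g : G, φ (og g • m) = φ m) (a : La G) :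
    φ (a • m) = ep G a * φ m := by
  have h1 : φ ∘ₗ (LinearMap.toSpanSingleton (La G) M m).restrictScalars k2 =
      φ m • (ep G).toLinearMap := lin_ext fun g => by simp [h, ep_og]
  have := LinearMap.congr_fun h1 a
  simpa [mul_comm] using this

lemma kill_of_inv {φ : M →ₗ[k2] k2} {N : Submodule (La G) M}
    (h : ∀ m ∈ N, ∀ g : G, φ (og g • m) = φ m) {x : M} (hx : x ∈ aI G • N) : φ x = 0 := by
  refine Submodule.smul_induction_on (p := fun x => φ x = 0) hx (fun a ha m hm => ?_)
    (fun x y hx hy => by rw [map_add, hx, hy, add_zero])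
  rw [inv_smul (h m hm), mem_aI.1 ha, zero_mul]

lemma inv_of_kill {φ : M →ₗ[k2] k2} {N : Submodule (La G) M} (h : ∀ x ∈ aI G • N, φ x = 0)
    {m : M} (hm : m ∈ N) (g : G) : φ (og g • m) = φ m := by
  have := h _ (Submodule.smul_mem_smul (og_sub g) hm)
  rwa [sub_smul, one_smul, map_sub, sub_eq_zero] at this

variable [FiniteDimensional k2 M]

lemma nak_top (hG : IsPGroup 2 G) (h : aI G • (⊤ : Submodule (La G) M) = ⊤) : Subsingleton M := by
  by_contra hs
  haveI : Nontrivial M := not_subsingleton_iff_nontrivial.1 hs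
  letI : MulAction G (Module.Dual k2 M) :=
    { smul := fun g φ => φ ∘ₗ act (og g⁻¹)
      one_smul := fun φ => LinearMap.ext fun m => by
        change φ (og (1 : G)⁻¹ • m) = φ m
        rw [inv_one, og_one, one_smul]
      mul_smul := fun g h φ => LinearMap.ext fun m => by
        change φ (og (g * h)⁻¹ • m) = φ (og h⁻¹ • og g⁻¹ • m)
        rw [mul_inv_rev, og_mul, mul_smul] }
  haveI : Finite (Module.Dual k2 M) := Module.finite_of_finite k2
  have hc : 2 ∣ Nat.card (Module.Dual k2 M) := by
    rw [Module.natCard_eq_pow_finrank (K := k2), Nat.card_zmod, Subspace.dual_finrank_eq]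
    exact dvd_pow_self 2 Module.finrank_pos.ne'
  obtain ⟨φ, hφ, h0⟩ := hG.exists_fixed_point_of_prime_dvd_card_of_fixed_point
    (Module.Dual k2 M) hc (a := 0) (fun g => rfl)
  refine h0 (LinearMap.ext fun m => ?_)
  refine (kill_of_inv (N := (⊤ : Submodule (La G) M)) (fun m _ g => ?_) (h.symm ▸ trivial)).symm
  have := LinearMap.congr_fun (hφ g⁻¹) m
  change φ (og g⁻¹⁻¹ • m) = φ m at this
  rwa [inv_inv] at this

lemma nak_bot (hG : IsPGroup 2 G) {N : Submodule (La G) M} (h : N ≤ aI G • N) : N = ⊥ := by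
  haveI : FiniteDimensional k2 N :=
    Module.Finite.of_injective (N.subtype.restrictScalars k2) Subtype.val_injective
  have h1 : aI G • (⊤ : Submodule (La G) N) = ⊤ := by
    apply Submodule.map_injective_of_injective N.injective_subtype
    rw [Submodule.map_smul'', Submodule.map_top, Submodule.range_subtype]
    exact le_antisymm Submodule.smul_le_right h
  have := nak_top hG h1
  exact Submodule.subsingleton_iff_eq_bot.1 this

lemma nak (hG : IsPGroup 2 G) {N N' : Submodule (La G) M} (h : N ≤ N' ⊔ aI G • N) : N ≤ N' := by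
  haveI : FiniteDimensional k2 (M ⧸ N') :=
    Module.Finite.of_surjective (N'.mkQ.restrictScalars k2) N'.mkQ_surjective
  have h1 : N.map N'.mkQ = ⊥ := by
    refine nak_bot hG ?_
    have := Submodule.map_mono (f := N'.mkQ) h
    rwa [Submodule.map_sup, Submodule.mkQ_map_self, bot_sup_eq, Submodule.map_smul''] at this
  rwa [eq_bot_iff, Submodule.map_le_iff_le_comap, Submodule.comap_bot, Submodule.ker_mkQ] at h1

/-- a minimal system of generators together with the dual functionals -/
lemma min_gen (hG : IsPGroup 2 G) (N : Submodule (La G) M) :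
    ∃ (m : ℕ) (x : Fin m → M) (φ : Fin m → M →ₗ[k2] k2),
      LinearMap.range (Fintype.linearCombination (La G) x) = N ∧
      (∀ i, ∀ y ∈ aI G • N, φ i y = 0) ∧ ∀ i j, φ i (x j) = if j = i then 1 else 0 := by
  let Nk : Submodule k2 M := N.restrictScalars k2
  let U : Submodule k2 Nk := ((aI G • N).restrictScalars k2).comap Nk.subtype
  have hU : ∀ z : Nk, z ∈ U ↔ (z : M) ∈ aI G • N := fun z =>
    Submodule.mem_comap.trans (Submodule.restrictScalars_mem _ _ _)
  let b := Module.finBasis k2 (Nk ⧸ U)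
  choose y hy using fun j => U.mkQ_surjective (b j)
  choose φ hφ using fun i => LinearMap.exists_extend ((b.coord i) ∘ₗ U.mkQ)
  have hφ' : ∀ i (z : Nk), φ i z = b.coord i (U.mkQ z) := fun i z => LinearMap.congr_fun (hφ i) z
  refine ⟨_, fun j => y j, φ, ?_, fun i z hz => ?_, fun i j => ?_⟩
  · apply le_antisymm
    · rw [Fintype.range_linearCombination, Submodule.span_le]
      rintro _ ⟨j, rfl⟩
      exact (y j).2
    · refine nak hG fun z hz => ?_
      let z' : Nk := ⟨z, hz⟩
      have h1 : z' - ∑ j, b.repr (U.mkQ z') j • y j ∈ U := by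
        rw [← Submodule.Quotient.mk_eq_zero, ← Submodule.mkQ_apply, map_sub, map_sum]
        simp only [map_smul, hy]
        rw [b.sum_repr, sub_self]
      have h2 : z - ∑ j, b.repr (U.mkQ z') j • (y j : M) ∈ aI G • N := by
        simpa [z'] using (hU _).1 h1
      have h3 : ∑ j, b.repr (U.mkQ z') j • (y j : M) ∈
          LinearMap.range (Fintype.linearCombination (La G) fun j => (y j : M)) := by
        refine ⟨fun j => algebraMap k2 (La G) (b.repr (U.mkQ z') j), ?_⟩
        simp only [Fintype.linearCombination_apply, algebraMap_smul]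
      have := Submodule.add_mem_sup h3 h2
      rwa [add_sub_cancel] at this
  · have h0 : z ∈ N := Submodule.smul_le_right (I := aI G) hz
    have h1 : (⟨z, h0⟩ : Nk) ∈ U := (hU _).2 hz
    have h2 := hφ' i ⟨z, h0⟩
    rw [Submodule.mkQ_apply, (Submodule.Quotient.mk_eq_zero U).2 h1, map_zero] at h2
    exact h2
  · rw [hφ', hy, Basis.coord_apply, b.repr_self_apply]

omit [FiniteDimensional k2 M] in
lemma eval_comb {m : ℕ} {x : Fin m → M} {φ : M →ₗ[k2] k2}
    (h : ∀ y ∈ aI G • LinearMap.range (Fintype.linearCombination (La G) x), φ y = 0)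
    (v : Fin m → La G) :
    φ (Fintype.linearCombination (La G) x v) = ∑ j, ep G (v j) * φ (x j) := by
  rw [Fintype.linearCombination_apply, map_sum]
  refine sum_congr rfl fun j _ => inv_smul (inv_of_kill h ?_) _
  exact ⟨Pi.single j 1, by simp⟩

/-- the filtration by powers of the augmentation ideal -/
noncomputable def fil (n : ℕ) (N : Submodule (La G) M) : Submodule (La G) M :=
  (fun P => aI G • P)^[n] N

omit [Module k2 M] [IsScalarTower k2 (La G) M] [FiniteDimensional k2 M] in
lemma fil_succ (n : ℕ) (N : Submodule (La G) M) : fil (n + 1) N = aI G • fil n N :=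
  Function.iterate_succ_apply' _ _ _

omit [Module k2 M] [IsScalarTower k2 (La G) M] [FiniteDimensional k2 M] in
lemma fil_succ' (n : ℕ) (N : Submodule (La G) M) : fil (n + 1) N = fil n (aI G • N) := rfl

omit [Module k2 M] [IsScalarTower k2 (La G) M] [FiniteDimensional k2 M] in
lemma fil_mono (n : ℕ) {N N' : Submodule (La G) M} (h : N ≤ N') : fil n N ≤ fil n N' := by
  induction n with
  | zero => exact h
  | succ n ih => rw [fil_succ, fil_succ]; exact Submodule.smul_mono le_rfl ih

omit [Module k2 M] [IsScalarTower k2 (La G) M] [FiniteDimensional k2 M] in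
lemma map_fil {M' : Type} [AddCommGroup M'] [Module (La G) M'] (f : M →ₗ[La G] M') (n : ℕ)
    (N : Submodule (La G) M) : (fil n N).map f = fil n (N.map f) := by
  induction n with
  | zero => rfl
  | succ n ih => rw [fil_succ, fil_succ, Submodule.map_smul'', ih]

end Mod

lemma mem_fil_pi {m : ℕ} (n : ℕ) (v : Fin m → La G) :
    v ∈ fil n (⊤ : Submodule (La G) (Fin m → La G)) ↔
      ∀ i, v i ∈ fil n (⊤ : Submodule (La G) (La G)) := by
  constructor
  · intro h i
    have h1 := Submodule.mem_map_of_mem (f := LinearMap.proj (R := La G) i) h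
    rw [map_fil] at h1
    exact fil_mono n le_top h1
  · intro h
    rw [← Finset.univ_sum_single v]
    refine Submodule.sum_mem _ fun i _ => ?_
    have h1 := Submodule.mem_map_of_mem (f := LinearMap.single (La G) (fun _ : Fin m => La G) i) (h i)
    rw [map_fil] at h1
    exact fil_mono n le_top h1

lemma fil_one : aI G • (⊤ : Submodule (La G) (La G)) = aI G := by
  refine le_antisymm (Submodule.smul_le.2 fun a ha b _ => ?_) fun a ha => ?_
  · rw [mem_aI, smul_eq_mul, map_mul, mem_aI.1 ha, zero_mul]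
  · simpa using Submodule.smul_mem_smul ha (Submodule.mem_top (x := (1 : La G)))

variable (G) in
noncomputable def aa (n : ℕ) : ℕ :=
  finrank k2 ((fil n (⊤ : Submodule (La G) (La G))).restrictScalars k2)

variable [Finite G]

lemma dim_fil_pi (m n : ℕ) :
    finrank k2 ((fil n (⊤ : Submodule (La G) (Fin m → La G))).restrictScalars k2) = m * aa G n := by
  have e : (fil n (⊤ : Submodule (La G) (Fin m → La G))).restrictScalars k2 ≃ₗ[k2]
      (Fin m → (fil n (⊤ : Submodule (La G) (La G))).restrictScalars k2) :=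
    { toFun := fun v i => ⟨v.1 i, (mem_fil_pi n v.1).1 v.2 i⟩
      invFun := fun w => ⟨fun i => (w i).1, (mem_fil_pi n _).2 fun i => (w i).2⟩
      map_add' := fun _ _ => rfl
      map_smul' := fun _ _ => rfl
      left_inv := fun _ => rfl
      right_inv := fun _ => rfl }
  rw [e.finrank_eq, Module.finrank_pi_fintype]
  simp [aa]

lemma aa_le (n : ℕ) : aa G n ≤ finrank k2 (La G) := Submodule.finrank_le _

lemma aa_zero : aa G 0 = finrank k2 (La G) := finrank_top _ _

lemma aa_one : aa G 1 < finrank k2 (La G) := by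
  refine Submodule.finrank_lt fun h => ?_
  have h1 : (1 : La G) ∈ (fil 1 (⊤ : Submodule (La G) (La G))).restrictScalars k2 := h ▸ trivial
  have h2 : (1 : La G) ∈ aI G := fil_one (G := G) ▸ h1
  simp [mem_aI] at h2

/-- the basic inequality -/
lemma step {D R : ℕ} (π : (Fin D → La G) →ₗ[La G] La G) (ρ : (Fin R → La G) →ₗ[La G] Fin D → La G)
    (h1 : LinearMap.range π = aI G) (h2 : LinearMap.range ρ = LinearMap.ker π)
    (h3 : LinearMap.ker π ≤ aI G • ⊤) (n : ℕ) :
    D * finrank k2 (La G) + aa G (n + 2) + R * aa G n ≤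
      D * aa G (n + 1) + R * finrank k2 (La G) + aa G 1 := by
  have e1 := dim_sup_range (ρ.restrictScalars k2) ((fil n ⊤).restrictScalars k2)
    ((fil (n + 1) ⊤).restrictScalars k2) (by
      rintro _ ⟨v, hv, rfl⟩
      have h4 := Submodule.mem_map_of_mem (f := ρ) hv
      rw [map_fil, Submodule.map_top, h2] at h4
      exact fil_mono n h3 h4)
  have e2 := dim_sup_ker (π.restrictScalars k2)
    ((fil (n + 1) (⊤ : Submodule (La G) (Fin D → La G))).restrictScalars k2)
  have e3 := LinearMap.finrank_range_add_finrank_ker (π.restrictScalars k2)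
  have e4 : LinearMap.range (ρ.restrictScalars k2) = LinearMap.ker (π.restrictScalars k2) := by
    rw [LinearMap.range_restrictScalars, LinearMap.ker_restrictScalars, h2]
  have e5 : ((fil (n + 1) (⊤ : Submodule (La G) (Fin D → La G))).restrictScalars k2).map
      (π.restrictScalars k2) = (fil (n + 2) (⊤ : Submodule (La G) (La G))).restrictScalars k2 := by
    rw [fil_succ' (n + 1) (⊤ : Submodule (La G) (La G)), fil_one, ← h1, LinearMap.range_eq_map,
      ← map_fil]
    rfl
  have e6 : LinearMap.range (π.restrictScalars k2) =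
      (fil 1 (⊤ : Submodule (La G) (La G))).restrictScalars k2 := by
    rw [LinearMap.range_restrictScalars, h1, ← fil_one]
    rfl
  rw [e4, e2, e5, dim_fil_pi, dim_fil_pi] at e1
  rw [e6] at e3
  simp only [Module.finrank_pi_fintype, sum_const, card_univ, Fintype.card_fin, smul_eq_mul] at e1 e3
  unfold aa at *
  omega

lemma gs_ineq {D R : ℕ} (hD : 3 ≤ D) (π : (Fin D → La G) →ₗ[La G] La G)
    (ρ : (Fin R → La G) →ₗ[La G] Fin D → La G)
    (h1 : LinearMap.range π = aI G) (h2 : LinearMap.range ρ = LinearMap.ker π)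
    (h3 : LinearMap.ker π ≤ aI G • ⊤) : D ^ 2 < 4 * R := by
  by_contra hcon
  have hc : (4 * R : ℤ) ≤ D ^ 2 := by exact_mod_cast not_lt.1 hcon
  set N := finrank k2 (La G) with hN
  let s : ℕ → ℤ := fun n => (N : ℤ) - aa G n
  have s0 : s 0 = 0 := by simp [s, aa_zero, hN]
  have s1 : 1 ≤ s 1 := by have := aa_one (G := G); simp only [s]; omega
  have sn : ∀ n, 0 ≤ s n := fun n => by have := aa_le (G := G) n; simp only [s]; omega
  have hs : ∀ n, D * s (n + 1) ≤ R * s n + s (n + 2) := fun n => by
    have h4 : ((D * N + aa G (n + 2) + R * aa G n : ℕ) : ℤ) ≤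
        ((D * aa G (n + 1) + R * N + aa G 1 : ℕ) : ℤ) := by exact_mod_cast step π ρ h1 h2 h3 n
    push_cast at h4
    simp only [s] at s1 ⊢
    nlinarith
  have hD' : (3 : ℤ) ≤ D := by exact_mod_cast hD
  have key : ∀ n, D * s n ≤ 2 * s (n + 1) ∧ (n : ℤ) + 1 ≤ s (n + 1) := by
    intro n
    induction n with
    | zero => exact ⟨by rw [s0]; linarith [sn (0 + 1)], by simpa using s1⟩
    | succ n ih =>
      have h5 : D * s (n + 1) ≤ 2 * s (n + 1 + 1) := by
        have a1 := hs n
        have a2 : 4 * R * s n ≤ D ^ 2 * s n := mul_le_mul_of_nonneg_right hc (sn n)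
        have a3 : D * (D * s n) ≤ D * (2 * s (n + 1)) :=
          mul_le_mul_of_nonneg_left ih.1 (by linarith)
        nlinarith
      refine ⟨h5, ?_⟩
      have a4 : 3 * s (n + 1) ≤ D * s (n + 1) := mul_le_mul_of_nonneg_right hD' (sn _)
      have a5 : (0 : ℤ) ≤ n := Nat.cast_nonneg n
      push_cast
      have a6 := ih.2
      omega
  have h6 := (key N).2
  simp only [s] at h6
  omega

end GSAux

open GSAux in
theorem golod_shafarevich (G : Type) [Group G] [Finite G] (hG : IsPGroup 2 G) (d : ℕ)
    (hd : 3 ≤ d) (hhom : 2 ^ d ≤ Nat.card (G →* ℤˣ)) :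
    ∃ (R : ℕ) (c : Fin (2 ^ R) → G → G → ℤˣ), d ^ 2 < 4 * R ∧ (∀ i, IsCocycle (c i)) ∧
      ∀ i j, i ≠ j → ¬ IsCobound (c i * c j) := by
  classical
  obtain ⟨D, x, ψ, hx, hψ, hψx⟩ := min_gen (M := La G) hG (aI G)
  set π := Fintype.linearCombination (La G) x with hπ
  obtain ⟨R, y, φ, hy, hφ, hφy⟩ := min_gen (M := Fin D → La G) hG (LinearMap.ker π)
  have hker : LinearMap.ker π ≤ aI G • ⊤ := by
    intro v hv
    refine (mem_fil_pi 1 v).2 fun i => ?_
    have h1 := eval_comb (φ := ψ i) (x := x) (by rw [← hπ, hx]; exact hψ i) v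
    rw [← hπ, LinearMap.mem_ker.1 hv, map_zero] at h1
    simp only [hψx, mul_ite, mul_one, mul_zero, sum_ite_eq', mem_univ, if_true] at h1
    have h2 : v i ∈ aI G := h1.symm
    rwa [← fil_one] at h2
  have hdD : d ≤ D := by
    have hkill : ∀ χ : G →* ℤˣ, ∀ z ∈ aI G • LinearMap.range π, mkL (fun g => lg (χ g)) z = 0 := by
      intro χ z hz
      rw [hx] at hz
      refine kill_of_inv (fun a ha g => ?_) hz
      have h1 : mkL (fun g => lg (χ g)) ∘ₗ act (og g) =
          mkL (fun g => lg (χ g)) + lg (χ g) • (ep G).toLinearMap := lin_ext fun h => by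
        change mkL _ (og g * og h) = mkL _ (og h) + lg (χ g) * ep G (og h)
        rw [← og_mul, mkL_og, mkL_og, ep_og, map_mul, lg_mul, mul_one, add_comm]
      have h2 : mkL (fun g => lg (χ g)) (og g • a) =
          mkL (fun g => lg (χ g)) a + lg (χ g) * ep G a := LinearMap.congr_fun h1 a
      rw [h2, mem_aI.1 ha, mul_zero, add_zero]
    have hinj : Function.Injective fun (χ : G →* ℤˣ) (j : Fin D) =>
        mkL (fun g => lg (χ g)) (x j) := by
      intro χ χ' h
      ext1 g
      obtain ⟨v, hv⟩ : og g - 1 ∈ LinearMap.range π := hx ▸ og_sub g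
      have h1 := eval_comb (hkill χ) v
      have h2 := eval_comb (hkill χ') v
      have h3 : ∀ j, mkL (fun g => lg (χ g)) (x j) = mkL (fun g => lg (χ' g)) (x j) :=
        congrFun h
      simp only [h3] at h1
      rw [← h2, ← hπ, hv, map_sub, map_sub, ← og_one, mkL_og, mkL_og, mkL_og, mkL_og, map_one,
        map_one, sub_left_inj] at h1
      rw [← sg_lg (χ g), h1, sg_lg]
    have h1 := hhom.trans (Nat.card_le_card_of_injective _ hinj)
    rw [Nat.card_fun, Nat.card_zmod, Nat.card_eq_fintype_card, Fintype.card_fin] at h1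
    exact (Nat.pow_le_pow_iff_right (by norm_num)).1 h1
  have hR := gs_ineq (hd.trans hdD) π _ hx hy hker
  obtain ⟨s, hs, hs1⟩ : ∃ s : G → Fin D → La G, (∀ g, π (s g) = og g - 1) ∧ s 1 = 0 := by
    choose s hs using fun g : G => (show og g - 1 ∈ LinearMap.range π from hx ▸ og_sub g)
    refine ⟨fun g => if g = 1 then 0 else s g, fun g => ?_, by simp⟩
    by_cases h : g = 1
    · simp only [if_pos h]
      rw [h, og_one, sub_self, map_zero]
    · simp only [if_neg h]
      exact hs g
  let r : G → G → Fin D → La G := fun g h => s g + og g • s h - s (g * h)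
  have hr : ∀ g h, r g h ∈ LinearMap.ker π := fun g h => by
    simp only [r, LinearMap.mem_ker, map_sub, map_add, map_smul, hs, og_mul, smul_eq_mul]
    noncomm_ring
  let Φ : (Fin R → k2) → (Fin D → La G) →ₗ[k2] k2 := fun t => ∑ i, t i • φ i
  have hΦ : ∀ t, ∀ z ∈ aI G • LinearMap.ker π, Φ t z = 0 := fun t z hz => by
    simp [Φ, LinearMap.sum_apply, hφ _ z hz]
  have hΦy : ∀ t j, Φ t (y j) = t j := fun t j => by
    simp [Φ, LinearMap.sum_apply, hφy]
  have hΦadd : ∀ t t' z, Φ (t + t') z = Φ t z + Φ t' z := fun t t' z => by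
    simp [Φ, LinearMap.sum_apply, add_mul, sum_add_distrib]
  let e : Fin (2 ^ R) ≃ (Fin R → k2) := (Fintype.equivFinOfCardEq (by simp)).symm
  refine ⟨R, fun i g h => sg (Φ (e i) (r g h)), (Nat.pow_le_pow_left hdD 2).trans_lt hR,
    fun i => ⟨fun g => ?_, fun g => ?_, fun g h l => ?_⟩, fun i j hij ⟨b, hb⟩ => ?_⟩
  · simp [r, hs1, og_one, sg_zero]
  · simp [r, hs1, sg_zero]
  · rw [← sg_add, ← sg_add, ← inv_of_kill (hΦ (e i)) (hr h l) g, ← map_add, ← map_add]
    congr 2
    simp only [r, smul_sub, smul_add, og_mul, mul_smul, mul_assoc]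
    abel
  · set t := e i + e j with ht
    have hb' : ∀ g h, Φ t (r g h) = lg (b g) + lg (b h) + lg (b (g * h)) := fun g h => by
      rw [← lg_mul, ← lg_mul, ← hb g h, ht, hΦadd, ← lg_sg (_ + _), sg_add]
      rfl
    let Dm : La G →ₗ[k2] Fin D → La G := mkL s
    let Bf : La G →ₗ[k2] k2 := mkL fun g => lg (b g)
    have hπD : ∀ a ∈ aI G, π (Dm a) = a := by
      intro a ha
      have h1 : π.restrictScalars k2 ∘ₗ Dm =
          LinearMap.id - (ep G).toLinearMap.smulRight (1 : La G) := lin_ext fun g => by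
        simp [Dm, mkL_og, hs, ep_og]
      have h2 := LinearMap.congr_fun h1 a
      simpa [mem_aI.1 ha] using h2
    have hid : ∀ g : G, ∀ a ∈ aI G, Φ t (og g • Dm a - Dm (og g • a)) = Bf a + Bf (og g • a) := by
      intro g a ha
      have h1 : Φ t ∘ₗ (act (og g) ∘ₗ Dm - Dm ∘ₗ act (og g)) =
          Bf + Bf ∘ₗ act (og g) + (lg (b g) - Φ t (s g)) • (ep G).toLinearMap := lin_ext fun h => by
        change Φ t (og g • Dm (og h) - Dm (og g * og h)) =
          Bf (og h) + Bf (og g * og h) + (lg (b g) - Φ t (s g)) * ep G (og h)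
        have h2 : og g • s h - s (g * h) = r g h - s g := by simp only [r]; abel
        rw [← og_mul, mkL_og, mkL_og, mkL_og, mkL_og, ep_og, h2, map_sub, hb']
        ring
      have h2 : Φ t (og g • Dm a - Dm (og g • a)) =
          Bf a + Bf (og g • a) + (lg (b g) - Φ t (s g)) * ep G a := LinearMap.congr_fun h1 a
      rw [h2, mem_aI.1 ha, mul_zero, add_zero]
    let Ψ : (Fin D → La G) →ₗ[k2] k2 :=
      Φ t ∘ₗ (LinearMap.id - Dm ∘ₗ π.restrictScalars k2) + Bf ∘ₗ π.restrictScalars k2
    have hΨ : ∀ v, Ψ v = Φ t (v - Dm (π v)) + Bf (π v) := fun v => rfl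
    have hinv : ∀ v ∈ (⊤ : Submodule (La G) (Fin D → La G)), ∀ g : G, Ψ (og g • v) = Ψ v := by
      intro v _ g
      have ha : π v ∈ aI G := hx ▸ LinearMap.mem_range_self π v
      have h1 : v - Dm (π v) ∈ LinearMap.ker π := by
        rw [LinearMap.mem_ker, map_sub, hπD _ ha, sub_self]
      have h2 : og g • v - Dm (og g • π v) =
          og g • (v - Dm (π v)) + (og g • Dm (π v) - Dm (og g • π v)) := by
        rw [smul_sub]; abel
      rw [hΨ, hΨ, map_smul π, h2, map_add, inv_of_kill (hΦ t) h1, hid g _ ha, add_assoc, add_assoc,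
        add_self, add_zero]
    refine hij (e.injective (funext fun l => eq_of_add _ _ ?_))
    have h1 : y l ∈ LinearMap.ker π := hy ▸ ⟨Pi.single l 1, by simp⟩
    have h2 := kill_of_inv hinv (hker h1)
    rw [hΨ, LinearMap.mem_ker.1 h1, map_zero, map_zero, sub_zero, add_zero, hΦy] at h2
    exact h2

end Pool.Agent.P.MP_9ec3f0_nt.SY
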