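import Pool.Agent.P.MP_9ec3f0_nt.SY.Defs

namespace Pool.Agent.P.MP_9ec3f0_nt.SY

open NumberField IsDedekindDomain Finset Module

section Height
variable {K : Type} [Field K] [NumberField K]

/-- the product of the absolute values of the conjugates is the absolute value of the norm -/
theorem prod_norm_embeddings (x : K) :
    ∏ σ : K →+* ℂ, ‖σ x‖ = |((Algebra.norm ℚ x : ℚ) : ℝ)| := by
  have h := Algebra.norm_eq_prod_embeddings ℚ ℂ x
  have h2 := congrArg (fun z : ℂ => ‖z‖) h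
  simp only [norm_prod, eq_ratCast, Complex.norm_ratCast] at h2
  rw [h2]
  exact Fintype.prod_equiv (RingHom.equivRatAlgHom K ℂ) _ _ (fun σ => rfl)

/-- a nonzero algebraic integer has conjugates whose product is at least one -/
theorem one_le_prod_embeddings {x : K} (hx : IsIntegral ℤ x) (h0 : x ≠ 0) :
    1 ≤ ∏ σ : K →+* ℂ, ‖σ x‖ := by
  rw [prod_norm_embeddings]
  obtain ⟨n, hn⟩ := (IsIntegrallyClosed.isIntegral_iff (R := ℤ) (K := ℚ)).1
    (Algebra.isIntegral_norm ℚ hx)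
  have hn0 : n ≠ 0 := by
    rintro rfl
    exact (Algebra.norm_ne_zero_iff (R := ℚ)).2 h0 (by rw [← hn]; simp)
  rw [← hn]
  simp only [eq_intCast, Rat.cast_intCast]
  exact_mod_cast Int.one_le_abs hn0

theorem Ht.mono {L L' : Set K} {Y Y' : ℝ} (h : Ht L Y) (hL : L' ⊆ L) (hY : Y ≤ Y') :
    Ht L' Y' := by
  obtain ⟨N, δ, m, hN, hδ, hi, hm, hb, hp⟩ := h
  refine ⟨N, δ, m, hN, hδ, fun θ h => hi θ (hL h), hm, fun θ h => hb θ (hL h), hp.trans ?_⟩
  gcongr

theorem Ht.nonneg {L : Set K} {Y : ℝ} (h : Ht L Y) (h1 : (1 : K) ∈ L) : 0 ≤ Y := by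
  obtain ⟨N, δ, m, hN, hδ, hi, hm, hb, hp⟩ := h
  have a1 := one_le_prod_embeddings (by simpa using hi 1 h1) hδ
  have a2 : ∏ σ : K →+* ℂ, ‖σ δ‖ ≤ ∏ σ : K →+* ℂ, (‖σ δ‖ * m σ ^ N) := by
    refine Finset.prod_le_prod (fun _ _ => norm_nonneg _) (fun σ _ => ?_)
    have : 1 ≤ m σ := by simpa using hb 1 h1 σ
    exact le_mul_of_one_le_right (norm_nonneg _) (one_le_pow₀ this)
  have a3 := Real.one_le_exp_iff.1 (a1.trans (a2.trans hp))
  have : (0 : ℝ) < N := by exact_mod_cast hN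
  exact nonneg_of_mul_nonneg_right (by linarith) this |> fun h => h

theorem Ht.root {L L' : Set K} {Y : ℝ} (h : Ht L Y) {θ₁ : K} (h0 : θ₁ ≠ 0) {q : ℕ} (hq : 0 < q)
    (hL : ∀ η ∈ L', θ₁ * η ^ q ∈ L) : Ht L' (Y / q) := by
  obtain ⟨N, δ, m, hN, hδ, hi, hm, hb, hp⟩ := h
  have hpos : ∀ σ : K →+* ℂ, 0 < ‖σ θ₁‖ := fun σ => norm_pos_iff.2 ((map_ne_zero σ).2 h0)
  have hq' : (q : ℝ) ≠ 0 := by positivity
  refine ⟨q * N, δ * θ₁ ^ N, fun σ => (m σ / ‖σ θ₁‖) ^ ((q : ℝ)⁻¹), by positivity,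
    mul_ne_zero hδ (pow_ne_zero _ h0), fun η hη => ?_,
    fun σ => Real.rpow_pos_of_pos (div_pos (hm σ) (hpos σ)) _, fun η hη σ => ?_, ?_⟩
  · have := hi _ (hL η hη)
    rwa [mul_pow, ← pow_mul, ← mul_assoc] at this
  · have := hb _ (hL η hη) σ
    rw [map_mul, map_pow, norm_mul, norm_pow, mul_comm, ← le_div_iff₀ (hpos σ)] at this
    calc ‖σ η‖ = (‖σ η‖ ^ q) ^ ((q : ℝ)⁻¹) :=
          (Real.pow_rpow_inv_natCast (norm_nonneg _) hq.ne').symm
      _ ≤ _ := Real.rpow_le_rpow (by positivity) this (by positivity)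
  · have e : ((q * N : ℕ) : ℝ) * (Y / q) = N * Y := by push_cast; field_simp
    rw [e]
    refine le_of_eq_of_le (Finset.prod_congr rfl fun σ _ => ?_) hp
    rw [pow_mul, Real.rpow_inv_natCast_pow (div_pos (hm σ) (hpos σ)).le hq.ne', map_mul, map_pow,
      norm_mul, norm_pow, div_pow]
    have := (hpos σ).ne'
    field_simp

theorem ht_one : Ht ({1, 1} : Set K) 0 :=
  ⟨1, 1, fun _ => 1, one_pos, one_ne_zero, fun θ h => by
    have : θ = 1 := by simpa using h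
    subst this; simpa using isIntegral_one, fun _ => one_pos, fun θ h σ => by
    have : θ = 1 := by simpa using h
    subst this; simp, by simp⟩

theorem ht_mul {θ η : K} {a b : ℝ} (hθ : Ht {1, θ} a) (hη : Ht {1, η} b) :
    Ht {1, θ * η} (a + b) := by
  obtain ⟨N, δ, m, hN, hδ, hi, hm, hb, hp⟩ := hθ
  obtain ⟨N', δ', m', hN', hδ', hi', hm', hb', hp'⟩ := hη
  refine ⟨N * N', δ ^ N' * δ' ^ N, fun σ => m σ * m' σ, by positivity,
    mul_ne_zero (pow_ne_zero _ hδ) (pow_ne_zero _ hδ'), ?_, fun σ => mul_pos (hm σ) (hm' σ), ?_, ?_⟩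
  · rintro x (rfl | rfl)
    · have := ((hi 1 (by simp)).pow N').mul ((hi' 1 (by simp)).pow N)
      simpa using this
    · have := ((hi θ (by simp)).pow N').mul ((hi' η (by simp)).pow N)
      have e : δ ^ N' * δ' ^ N * (θ * η) ^ (N * N') = (δ * θ ^ N) ^ N' * (δ' * η ^ N') ^ N := by
        ring
      rwa [e]
  · rintro x (rfl | rfl) σ
    · have a1 := hb 1 (by simp) σ
      have a2 := hb' 1 (by simp) σ
      simp only [map_one, norm_one] at a1 a2 ⊢
      exact one_le_mul_of_one_le_of_one_le a1 a2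
    · rw [map_mul, norm_mul]
      exact mul_le_mul (hb θ (by simp) σ) (hb' η (by simp) σ) (norm_nonneg _) (hm σ).le
  · have e : Real.exp (((N * N' : ℕ) : ℝ) * (a + b)) =
        Real.exp (N * a) ^ N' * Real.exp (N' * b) ^ N := by
      rw [← Real.exp_nat_mul, ← Real.exp_nat_mul, ← Real.exp_add]; congr 1; push_cast; ring
    have p1 : 0 ≤ ∏ σ : K →+* ℂ, (‖σ δ‖ * m σ ^ N) :=
      Finset.prod_nonneg fun σ _ => mul_nonneg (norm_nonneg _) (pow_nonneg (hm σ).le _)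
    have p2 : 0 ≤ ∏ σ : K →+* ℂ, (‖σ δ'‖ * m' σ ^ N') :=
      Finset.prod_nonneg fun σ _ => mul_nonneg (norm_nonneg _) (pow_nonneg (hm' σ).le _)
    rw [e]
    refine le_of_eq_of_le ?_ (mul_le_mul (pow_le_pow_left₀ p1 hp N') (pow_le_pow_left₀ p2 hp' N)
      (by positivity) (by positivity))
    rw [← Finset.prod_pow, ← Finset.prod_pow, ← Finset.prod_mul_distrib]
    refine Finset.prod_congr rfl fun σ _ => ?_
    simp only [map_mul, map_pow, norm_mul, norm_pow]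
    ring

theorem ht_inv {θ : K} (h0 : θ ≠ 0) {a : ℝ} (hθ : Ht {1, θ} a) : Ht {1, θ⁻¹} a := by
  have := hθ.root (L' := {1, θ⁻¹}) h0 one_pos (by rintro x (rfl | rfl) <;> simp [h0])
  simpa using this

theorem ht_root {θ : K} {n : ℕ} (hn : 0 < n) {a : ℝ} (hθ : Ht {1, θ ^ n} (n * a)) :
    Ht {1, θ} a := by
  have := hθ.root (L' := {1, θ}) one_ne_zero hn (by rintro x (rfl | rfl) <;> simp)
  have hn' : (n : ℝ) ≠ 0 := by positivity
  rwa [mul_div_cancel_left₀ _ hn'] at this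

theorem ht_rat (u v : ℤ) (hv : v ≠ 0) :
    Ht ({1, (u : K) / v} : Set K) (finrank ℚ K * Real.log (|(u : ℝ)| + |(v : ℝ)|)) := by
  have hv' : (v : K) ≠ 0 := by exact_mod_cast hv
  have hvr : (0 : ℝ) < |(v : ℝ)| := abs_pos.2 (by exact_mod_cast hv)
  have hs : (0 : ℝ) < |(u : ℝ)| + |(v : ℝ)| := by positivity
  refine ⟨1, v, fun _ => (|(u : ℝ)| + |(v : ℝ)|) / |(v : ℝ)|, one_pos, hv', ?_,
    fun _ => by positivity, ?_, ?_⟩
  · rintro x (rfl | rfl)
    · simpa using isIntegral_algebraMap (R := ℤ) (A := K) (x := v)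
    · rw [pow_one, mul_div_cancel₀ _ hv']
      simpa using isIntegral_algebraMap (R := ℤ) (A := K) (x := u)
  · rintro x (rfl | rfl) σ
    · simp only [map_one, norm_one]
      rw [le_div_iff₀ hvr]
      linarith [abs_nonneg (u : ℝ)]
    · simp only [map_div₀, map_intCast, norm_div, Complex.norm_intCast]
      gcongr
      linarith
  · have e : ∀ σ : K →+* ℂ, ‖σ (v : K)‖ * ((|(u : ℝ)| + |(v : ℝ)|) / |(v : ℝ)|) ^ 1 =
        |(u : ℝ)| + |(v : ℝ)| := by
      intro σ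
      simp only [map_intCast, Complex.norm_intCast]
      field_simp
    rw [Finset.prod_congr rfl fun σ _ => e σ, Finset.prod_const, Finset.card_univ,
      NumberField.Embeddings.card K ℂ, Nat.cast_one, one_mul, Real.exp_nat_mul, Real.exp_log hs]

theorem gap_rat {θ : ℚ} (h0 : 0 < θ) (h1 : θ ≠ 1) {Y : ℝ} (h : Ht {1, θ} Y) : 1 / 2 ≤ Y := by
  obtain ⟨N, δ, m, hN, hδ, hi, hm, hb, hp⟩ := h
  rw [Fintype.prod_subsingleton _ (Rat.castHom ℂ)] at hp
  set μ := m (Rat.castHom ℂ) with hμ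
  have m1 : 1 ≤ μ := by simpa using hb 1 (by simp) (Rat.castHom ℂ)
  have m2 : (θ : ℝ) ≤ μ := by
    have := hb θ (by simp) (Rat.castHom ℂ)
    simp only [Rat.coe_castHom, Complex.norm_ratCast] at this
    exact (le_abs_self _).trans this
  obtain ⟨n, hn⟩ := (IsIntegrallyClosed.isIntegral_iff (R := ℤ) (K := ℚ)).1
    (show IsIntegral ℤ δ by simpa using hi 1 (by simp))
  obtain ⟨k, hk⟩ := (IsIntegrallyClosed.isIntegral_iff (R := ℤ) (K := ℚ)).1 (hi θ (by simp))
  simp only [eq_intCast] at hn hk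
  subst hn
  have hn0 : n ≠ 0 := by exact_mod_cast hδ
  have hd : (θ.den : ℚ) ≠ 0 := by exact_mod_cast θ.den_nz
  have e1 : k * (θ.den : ℤ) ^ N = n * θ.num ^ N := by
    have : (k : ℚ) * (θ.den : ℚ) ^ N = n * (θ.num : ℚ) ^ N := by
      rw [hk, mul_assoc, ← mul_pow, Rat.mul_den_eq_num]
    exact_mod_cast this
  have hco : IsCoprime ((θ.den : ℤ) ^ N) (θ.num ^ N) := by
    apply IsCoprime.pow
    rw [Int.isCoprime_iff_gcd_eq_one, Int.gcd_comm]
    exact θ.reduced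
  have hdv : (θ.den : ℤ) ^ N ∣ n := hco.dvd_of_dvd_mul_right ⟨k, by rw [← e1]; ring⟩
  have hle : ((θ.den : ℝ)) ^ N ≤ |(n : ℝ)| := by
    have := Int.le_of_dvd (abs_pos.2 hn0) ((dvd_abs _ _).2 hdv)
    exact_mod_cast this
  have h2 : (2 : ℝ) ≤ θ.den * μ := by
    by_cases hd1 : θ.den = 1
    · have a1 : θ = θ.num := (Rat.den_eq_one_iff θ).1 hd1 |>.symm
      have a2 : 0 < θ.num := Rat.num_pos.2 h0
      have a3 : θ.num ≠ 1 := fun h => h1 (by rw [a1, h]; simp)
      have a4 : (2 : ℝ) ≤ (θ.num : ℝ) := by exact_mod_cast (show (2 : ℤ) ≤ θ.num by omega)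
      have a5 : (θ : ℝ) = θ.num := by exact_mod_cast congrArg (fun r : ℚ => (r : ℝ)) a1
      rw [hd1, Nat.cast_one, one_mul]
      linarith
    · have a1 : (2 : ℝ) ≤ θ.den := by
        have := θ.den_pos
        exact_mod_cast (show 2 ≤ θ.den by omega)
      nlinarith
  have h3 : (2 : ℝ) ^ N ≤ Real.exp Y ^ N := by
    rw [← Real.exp_nat_mul]
    refine le_trans ?_ hp
    simp only [map_intCast, Complex.norm_intCast]
    calc (2 : ℝ) ^ N ≤ (θ.den * μ) ^ N := by gcongr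
      _ = (θ.den : ℝ) ^ N * μ ^ N := mul_pow _ _ _
      _ ≤ _ := by gcongr
  have h4 : 2 ≤ Real.exp Y := le_of_pow_le_pow_left₀ hN.ne' (Real.exp_pos _).le h3
  have h5 : Real.log 2 ≤ Y := (Real.log_le_iff_le_exp (by norm_num)).2 h4
  linarith [Real.log_two_gt_d9]

omit [NumberField K] in
/-- integrality of a power sum of roots after multiplication by the denominator -/
theorem isIntegral_delta_sum {E : Type} [Field E] [Algebra K E] {ι : Type} (T : Finset ι)
    (θ : ι → K) (z : ι → E) {δ : K} {N q : ℕ} (hN : 0 < N) (hq : 0 < q)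
    (hint : ∀ i ∈ T, IsIntegral ℤ (δ * θ i ^ N))
    (hz : ∀ i ∈ T, z i ^ q = algebraMap K E (θ i)) (a : ι → ℤ) (s : ℕ) :
    IsIntegral ℤ (algebraMap K E δ ^ s * (∑ i ∈ T, (a i : E) * z i ^ s) ^ (N * q)) := by
  have hNq : 0 < N * q := by positivity
  set f : E →+* AlgebraicClosure E := algebraMap E (AlgebraicClosure E) with hf
  obtain ⟨e, he⟩ := IsAlgClosed.exists_pow_nat_eq (f (algebraMap K E δ)) hNq
  have h1 : ∀ i ∈ T, IsIntegral ℤ (e * f (z i)) := by
    intro i hi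
    refine IsIntegral.of_pow hNq ?_
    have := ((hint i hi).map (algebraMap K E).toIntAlgHom).map f.toIntAlgHom
    convert this using 1
    simp only [RingHom.toIntAlgHom_coe, map_mul, map_pow]
    rw [mul_pow, he, mul_comm N q, pow_mul, ← map_pow, hz i hi]
  have h2 : IsIntegral ℤ (∑ i ∈ T, (a i : AlgebraicClosure E) * (e * f (z i)) ^ s) :=
    IsIntegral.sum _ fun i hi =>
      (by simpa using isIntegral_algebraMap (R := ℤ) (A := AlgebraicClosure E) (x := a i) :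
        IsIntegral ℤ (a i : AlgebraicClosure E)).mul ((h1 i hi).pow s)
  rw [← isIntegral_algHom_iff f.toIntAlgHom f.injective]
  have e : f.toIntAlgHom (algebraMap K E δ ^ s * (∑ i ∈ T, (a i : E) * z i ^ s) ^ (N * q)) =
      (∑ i ∈ T, (a i : AlgebraicClosure E) * (e * f (z i)) ^ s) ^ (N * q) := ?_
  · rw [e]; exact h2.pow _
  simp only [RingHom.toIntAlgHom_coe, map_mul, map_pow, map_sum, map_intCast]
  rw [← he, ← pow_mul, mul_comm (N * q) s, pow_mul, ← mul_pow, Finset.mul_sum]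
  congr 1
  refine Finset.sum_congr rfl fun i _ => ?_
  ring

end Height

end Pool.Agent.P.MP_9ec3f0_nt.SY
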