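import Pool.Agent.P.MP_9ec3f0_nt.SY.Quad
import Pool.Agent.P.MP_9ec3f0_nt.SY.SUnit

/-!
The Herbrand quotient of the `S`-units of a quadratic extension of totally complex number fields.
-/

namespace Pool.Agent.P.MP_9ec3f0_nt.SY

open NumberField IsDedekindDomain Finset Module

namespace HerbAux

section Abs

variable {G : Type} [CommGroup G]

theorem relIndex_map_eq (f : G →* G) {H U : Subgroup G} (h : H ≤ U) :
    (H.map f).relIndex (U.map f) = (H ⊔ (U ⊓ f.ker)).relIndex U := by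
  rw [Subgroup.relIndex_map_map]
  have h1 : U ⊔ f.ker = U ⊔ (H ⊔ f.ker) := by
    rw [← sup_assoc, sup_eq_left.mpr h]
  rw [h1, Subgroup.relIndex_sup_right, ← Subgroup.inf_relIndex_right (H ⊔ f.ker) U]
  congr 1
  rw [sup_inf_assoc_of_le _ h, inf_comm]

theorem relIndex_sq (P : Subgroup G) :
    (P.map (powMonoidHom 2)).relIndex P = (powMonoidHom 2 : P →* P).range.index := by
  unfold Subgroup.relIndex
  congr 1
  ext x
  simp only [Subgroup.mem_subgroupOf, Subgroup.mem_map, MonoidHom.mem_range, powMonoidHom_apply]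
  constructor
  · rintro ⟨y, hy, h⟩
    exact ⟨⟨y, hy⟩, Subtype.ext h⟩
  · rintro ⟨y, h⟩
    exact ⟨y, y.2, congrArg Subtype.val h⟩

theorem finite_of_le {P U : Subgroup G} (h : P ≤ U) [Module.Finite ℤ (Additive U)] :
    Module.Finite ℤ (Additive P) :=
  Module.Finite.of_injective (MonoidHom.toAdditive (Subgroup.inclusion h)).toIntLinearMap
    (fun _ _ hxy => Subgroup.inclusion_injective h hxy)

theorem finrank_add (f : G →* G) (U : Subgroup G) [Module.Finite ℤ (Additive U)] :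
    finrank ℤ (Additive (U.map f)) + finrank ℤ (Additive (U ⊓ f.ker : Subgroup G))
      = finrank ℤ (Additive U) := by
  let φ : Additive U →ₗ[ℤ] Additive (U.map f) :=
    (MonoidHom.toAdditive (f.subgroupMap U)).toIntLinearMap
  have hφ : Function.Surjective φ := fun y => f.subgroupMap_surjective U y
  let ι : Additive (U ⊓ f.ker : Subgroup G) →ₗ[ℤ] Additive U :=
    (MonoidHom.toAdditive (Subgroup.inclusion (inf_le_left : U ⊓ f.ker ≤ U))).toIntLinearMap
  have hι : Function.Injective ι := fun _ _ hxy =>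
    Subgroup.inclusion_injective (inf_le_left : U ⊓ f.ker ≤ U) hxy
  have hr : LinearMap.range ι = LinearMap.ker φ := by
    ext x
    simp only [LinearMap.mem_range, LinearMap.mem_ker]
    constructor
    · rintro ⟨y, rfl⟩
      exact Subtype.ext (Additive.toMul y).2.2
    · intro hx
      have hx' : f ((Additive.toMul x : U) : G) = 1 := congrArg Subtype.val hx
      exact ⟨Additive.ofMul ⟨(Additive.toMul x : U), (Additive.toMul x).2, hx'⟩, rfl⟩
  rw [← (LinearMap.ker φ).finrank_quotient_add_finrank,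
    (φ.quotKerEquivOfSurjective hφ).finrank_eq, ← hr, (LinearEquiv.ofInjective ι hι).finrank_eq]

theorem herb (s N D : G →* G) (hs : ∀ x, s (s x) = x) (hN : ∀ x, N x = x * s x)
    (hD : ∀ x, D x = s x / x) (U : Subgroup G) (hU : ∀ x ∈ U, s x ∈ U)
    (h1 : U.map D = U ⊓ N.ker) :
    ((U ⊓ N.ker).map (powMonoidHom 2)).relIndex (U ⊓ N.ker) * (U.map N).relIndex (U ⊓ D.ker)
      = ((U ⊓ D.ker).map (powMonoidHom 2)).relIndex (U ⊓ D.ker) := by
  have hP : (U ⊓ D.ker).map N = (U ⊓ D.ker).map (powMonoidHom 2) := by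
    have key : ∀ x ∈ U ⊓ D.ker, N x = powMonoidHom 2 x := by
      intro x hx
      have h2 : D x = 1 := hx.2
      rw [hD, div_eq_one] at h2
      rw [hN, h2, powMonoidHom_apply, sq]
    ext y
    simp only [Subgroup.mem_map]
    constructor
    · rintro ⟨x, hx, rfl⟩
      exact ⟨x, hx, (key x hx).symm⟩
    · rintro ⟨x, hx, rfl⟩
      exact ⟨x, hx, key x hx⟩
  have hM : (U ⊓ N.ker).map D = (U ⊓ N.ker).map (powMonoidHom 2) := by
    have key : ∀ x ∈ U ⊓ N.ker, D x⁻¹ = powMonoidHom 2 x := by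
      intro x hx
      have h2 : N x = 1 := hx.2
      rw [hN, mul_eq_one_iff_inv_eq] at h2
      rw [hD, map_inv, ← h2, powMonoidHom_apply, sq, inv_inv, div_inv_eq_mul]
    ext y
    simp only [Subgroup.mem_map]
    constructor
    · rintro ⟨x, hx, rfl⟩
      refine ⟨x⁻¹, inv_mem hx, ?_⟩
      rw [← key _ (inv_mem hx), inv_inv]
    · rintro ⟨x, hx, rfl⟩
      exact ⟨x⁻¹, inv_mem hx, key x hx⟩
  have e1 := relIndex_map_eq N (inf_le_left : U ⊓ D.ker ≤ U)
  have e2 := relIndex_map_eq D (inf_le_left : U ⊓ N.ker ≤ U)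
  rw [hM, h1] at e2
  rw [e2, sup_comm, ← e1, ← hP]
  apply Subgroup.relIndex_mul_relIndex
  · exact Subgroup.map_mono inf_le_left
  · rintro _ ⟨x, hx, rfl⟩
    refine ⟨?_, ?_⟩
    · rw [hN]
      exact U.mul_mem hx (hU x hx)
    · show D (N x) = 1
      rw [hD, hN, map_mul, hs, mul_comm, div_self']

end Abs

theorem rank_add_one (K : Type) [Field K] [NumberField K] [IsTotallyComplex K] :
    2 * (Units.rank K + 1) = finrank ℚ K := by
  have h1 := IsTotallyComplex.finrank K
  have h2 := InfinitePlace.card_eq_nrRealPlaces_add_nrComplexPlaces K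
  rw [IsTotallyComplex.nrRealPlaces_eq_zero, zero_add] at h2
  have h3 : 0 < Fintype.card (InfinitePlace K) := Fintype.card_pos
  unfold Units.rank
  omega

variable {F M : Type} [Field F] [NumberField F] [Field M] [NumberField M] [Algebra F M]

theorem rank_eq [IsTotallyComplex F] (Q : Quad F M) :
    Units.rank M = 2 * Units.rank F + 1 := by
  have : IsTotallyComplex M := isTotallyComplex_of_algebra F M
  have h1 := rank_add_one F
  have h2 := rank_add_one M
  have h3 : finrank ℚ F * finrank F M = finrank ℚ M := finrank_mul_finrank ℚ F M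
  rw [Q.finrank_eq] at h3
  omega

theorem two_mul_card_le (Q : Quad F M) (S : Finset (Pr F)) (SM T : Finset (Pr M))
    (hSM : ∀ w, w ∈ SM ↔ dn F w ∈ S) (hT : ∀ w : Pr M, dn F w ∈ S → Fixes Q.σ w → w ∈ T) :
    2 * S.card ≤ SM.card + T.card := by
  classical
  have h1 : SM.card = ∑ v ∈ S, (SM.filter (fun w => dn F w = v)).card :=
    Finset.card_eq_sum_card_fiberwise (fun w hw => (hSM w).1 hw)
  have h2 : (T.filter (fun w => dn F w ∈ S)).card
      = ∑ v ∈ S, ((T.filter (fun w => dn F w ∈ S)).filter (fun w => dn F w = v)).card :=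
    Finset.card_eq_sum_card_fiberwise (fun w hw => (Finset.mem_filter.1 hw).2)
  have h3 : (T.filter (fun w => dn F w ∈ S)).card ≤ T.card := Finset.card_filter_le _ _
  have h4 : ∀ v ∈ S, 2 ≤ (SM.filter (fun w => dn F w = v)).card
      + ((T.filter (fun w => dn F w ∈ S)).filter (fun w => dn F w = v)).card := by
    intro v hv
    obtain ⟨w, hw⟩ := exists_above M v
    have hwS : dn F w ∈ S := hw ▸ hv
    have hmem : w ∈ SM.filter (fun w => dn F w = v) := Finset.mem_filter.2 ⟨(hSM w).2 hwS, hw⟩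
    by_cases hf : Fixes Q.σ w
    · have a1 : 0 < (SM.filter (fun w => dn F w = v)).card := Finset.card_pos.2 ⟨w, hmem⟩
      have a2 : 0 < ((T.filter (fun w => dn F w ∈ S)).filter (fun w => dn F w = v)).card :=
        Finset.card_pos.2 ⟨w, Finset.mem_filter.2 ⟨Finset.mem_filter.2 ⟨hT w hwS hf, hwS⟩, hw⟩⟩
      omega
    · have hmem' : cj Q.σ w ∈ SM.filter (fun w => dn F w = v) :=
        Finset.mem_filter.2 ⟨(hSM _).2 (by rw [dn_cj]; exact hwS), by rw [dn_cj]; exact hw⟩
      have a1 : 1 < (SM.filter (fun w => dn F w = v)).card :=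
        Finset.one_lt_card.2 ⟨_, hmem', _, hmem, hf⟩
      omega
  calc 2 * S.card = ∑ _v ∈ S, 2 := by rw [Finset.sum_const, smul_eq_mul, mul_comm]
    _ ≤ ∑ v ∈ S, ((SM.filter (fun w => dn F w = v)).card
      + ((T.filter (fun w => dn F w ∈ S)).filter (fun w => dn F w = v)).card) :=
        Finset.sum_le_sum h4
    _ ≤ SM.card + T.card := by
        rw [Finset.sum_add_distrib, ← h1, ← h2]
        omega

/-- Hilbert 90 for `S`-units. -/
theorem exists_su_h90 (Q : Quad F M) (S : Finset (Pr F)) (hS : ClassGen S)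
    (hunr : ∀ w : Pr M, dn F w ∉ S → UnrP F w) {u : M} (hu : u * Q.σ u = 1)
    (hord : ∀ w : Pr M, dn F w ∉ S → ord w u = 0) :
    ∃ y : M, y ≠ 0 ∧ u * y = Q.σ y ∧ ∀ w : Pr M, dn F w ∉ S → ord w y = 0 := by
  classical
  obtain ⟨y, hy, huy⟩ := Q.hilbert90 hu
  have hu0 : u ≠ 0 := left_ne_zero_of_mul_eq_one hu
  have hcj : ∀ w : Pr M, dn F w ∉ S → ord (cj Q.σ w) y = ord w y := by
    intro w hw
    have h1 : ord (cj Q.σ w) (Q.σ y) = ord w y := ord_cj _ _ _
    rw [← huy, ord_mul _ hu0 hy, hord _ (by rw [dn_cj]; exact hw), zero_add] at h1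
    exact h1
  choose up hup using exists_above (F := F) M
  have hfin : {v : Pr F | ord (up v) y ≠ 0}.Finite := by
    refine ((finite_ord hy).image (dn F)).subset ?_
    intro v hv
    exact ⟨up v, hv, hup v⟩
  obtain ⟨x, hx, hxo⟩ := hS (fun v => ord (up v) y) hfin
  have hx' : algebraMap F M x ≠ 0 := (map_ne_zero _).2 hx
  refine ⟨y / algebraMap F M x, div_ne_zero hy hx', ?_, ?_⟩
  · rw [map_div₀, AlgEquiv.commutes, ← huy, mul_div_assoc]
  · intro w hw
    rw [ord_div _ hy hx', ord_of_unrP (hunr w hw), hxo _ hw]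
    rcases Q.eq_or_cj (hup (dn F w)).symm with h | h
    · rw [h, sub_self]
    · rw [h, hcj w hw, sub_self]

end HerbAux

open HerbAux in
theorem lemmaA {F M : Type} [Field F] [NumberField F] [Field M] [NumberField M] [Algebra F M]
    [IsTotallyComplex F] (Q : Quad F M) (S : Finset (Pr F)) (hS : ClassGen S)
    (hunr : ∀ w : Pr M, dn F w ∉ S → UnrP F w) (T : Finset (Pr M))
    (hT : ∀ w : Pr M, dn F w ∈ S → Fixes Q.σ w → w ∈ T) (X : Finset F)
    (hX : ∀ x ∈ X, x ≠ 0 ∧ ∀ v, v ∉ S → ord v x = 0)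
    (hne : ∀ x ∈ X, ∀ y ∈ X, x ≠ y → ¬ ∃ z : M, z * Q.σ z = algebraMap F M (x / y)) :
    2 * X.card ≤ 2 ^ T.card := by
  classical
  set SM : Finset (Pr M) := (finite_above M S).toFinset with hSMdef
  have hSM : ∀ w, w ∈ SM ↔ dn F w ∈ S := fun w => by
    rw [hSMdef, Set.Finite.mem_toFinset]
    rfl
  let U : Subgroup Mˣ := SU SM
  have hmemU : ∀ u : Mˣ, u ∈ U ↔ ∀ w : Pr M, dn F w ∉ S → ord w (u : M) = 0 := fun u => by
    rw [mem_SU]
    simp only [hSM]
  let s : Mˣ →* Mˣ := Units.map (Q.σ : M →* M)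
  have hs_val : ∀ u : Mˣ, ((s u : Mˣ) : M) = Q.σ u := fun u => rfl
  let N : Mˣ →* Mˣ := MonoidHom.id _ * s
  let D : Mˣ →* Mˣ := s / MonoidHom.id _
  have hN : ∀ x, N x = x * s x := fun x => rfl
  have hD : ∀ x, D x = s x / x := fun x => rfl
  have hs : ∀ x, s (s x) = x := fun x => Units.ext (Q.σ_σ x)
  have hU : ∀ x ∈ U, s x ∈ U := by
    intro x hx
    rw [hmemU] at hx ⊢
    intro w hw
    have h1 := ord_cj Q.σ w (Q.σ x)
    rw [Q.σ_σ] at h1
    rw [hs_val, ← h1]
    exact hx _ (by rw [dn_cj]; exact hw)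
  have h1 : U.map D = U ⊓ N.ker := by
    apply le_antisymm
    · rintro _ ⟨x, hx, rfl⟩
      refine ⟨?_, ?_⟩
      · rw [hD]
        exact U.div_mem (hU x hx) hx
      · show N (D x) = 1
        rw [hN, hD, map_div, hs, div_mul_div_cancel, div_self']
    · rintro u ⟨hu, hu'⟩
      have h2 : u * s u = 1 := hu'
      have h3 : (u : M) * Q.σ u = 1 := congrArg Units.val h2
      obtain ⟨y, hy, huy, hyo⟩ := exists_su_h90 Q S hS hunr h3 ((hmemU u).1 hu)
      refine ⟨Units.mk0 y hy, (hmemU _).2 hyo, ?_⟩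
      rw [hD, div_eq_iff_eq_mul]
      exact Units.ext huy.symm
  let a : Fˣ →* Mˣ := Units.map (algebraMap F M : F →* M)
  have ha_val : ∀ u : Fˣ, ((a u : Mˣ) : M) = algebraMap F M u := fun u => rfl
  have ha : Function.Injective a := fun x y h =>
    Units.ext ((algebraMap F M).injective (congrArg Units.val h))
  have hP : (SU S).map a = U ⊓ D.ker := by
    apply le_antisymm
    · rintro _ ⟨x, hx, rfl⟩
      refine ⟨(hmemU _).2 ?_, ?_⟩
      · intro w hw
        rw [ha_val, ord_of_unrP (hunr w hw)]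
        exact (mem_SU S x).1 hx _ hw
      · show D (a x) = 1
        rw [hD, div_eq_one]
        exact Units.ext (Q.σ.commutes x)
    · rintro u ⟨hu, hu'⟩
      have h2 : D u = 1 := hu'
      rw [hD, div_eq_one] at h2
      obtain ⟨α, hα⟩ := (Q.fixed_iff u).1 (congrArg Units.val h2)
      have hα0 : α ≠ 0 := by
        rintro rfl
        rw [map_zero] at hα
        exact u.ne_zero hα.symm
      refine ⟨Units.mk0 α hα0, (mem_SU S _).2 ?_, Units.ext hα⟩
      intro v hv
      obtain ⟨w, rfl⟩ := exists_above M v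
      rw [← ord_of_unrP (hunr w hv)]
      exact hα ▸ (hmemU u).1 hu w hv
  have : Module.Finite ℤ (Additive U) := su_finite SM
  have : Module.Finite ℤ (Additive (U ⊓ D.ker : Subgroup Mˣ)) := finite_of_le inf_le_left
  have : Module.Finite ℤ (Additive (U ⊓ N.ker : Subgroup Mˣ)) := finite_of_le inf_le_left
  have hneg : (-1 : Mˣ) ∈ U := (hmemU _).2 fun w _ => by
    rw [Units.val_neg, Units.val_one, ord_neg, ord_one]
  have hsneg : s (-1) = -1 := Units.ext (by rw [hs_val]; simp)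
  have hnegD : (-1 : Mˣ) ∈ U ⊓ D.ker := ⟨hneg, by
    show D (-1) = 1
    rw [hD, hsneg, div_self']⟩
  have hnegN : (-1 : Mˣ) ∈ U ⊓ N.ker := ⟨hneg, by
    show N (-1) = 1
    rw [hN, hsneg, neg_mul_neg, one_mul]⟩
  have key := herb s N D hs hN hD U hU h1
  rw [relIndex_sq, relIndex_sq, index_sq _ hnegD, index_sq _ hnegN] at key
  have r1 := finrank_add D U
  rw [h1] at r1
  have r2 : finrank ℤ (Additive U) = Units.rank M + SM.card := su_finrank SM
  have r3 : finrank ℤ (Additive (U ⊓ D.ker : Subgroup Mˣ)) = Units.rank F + S.card := by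
    rw [← hP, ← su_finrank S]
    exact ((MulEquiv.toAdditive ((SU S).equivMapOfInjective a ha)).toIntLinearEquiv).finrank_eq.symm
  have r4 := rank_eq Q
  have r5 := two_mul_card_le Q S SM T hSM hT
  set I := (U.map N).relIndex (U ⊓ D.ker) with hI
  have hI0 : I ≠ 0 := by
    rintro h0
    rw [h0, mul_zero] at key
    exact (pow_ne_zero _ two_ne_zero) key.symm
  have hIle : 2 * I ≤ 2 ^ T.card := by
    have h5 : 2 ^ (finrank ℤ (Additive (U ⊓ N.ker : Subgroup Mˣ)) + 1) * (2 * I)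
        ≤ 2 ^ (finrank ℤ (Additive (U ⊓ N.ker : Subgroup Mˣ)) + 1) * 2 ^ T.card := by
      rw [mul_left_comm, key, ← pow_add, ← pow_succ']
      exact Nat.pow_le_pow_right two_pos (by omega)
    exact Nat.le_of_mul_le_mul_left h5 (pow_pos two_pos _)
  refine le_trans (Nat.mul_le_mul_left 2 ?_) hIle
  have hXP : ∀ x : X, a (Units.mk0 (x : F) (hX x x.2).1) ∈ U ⊓ D.ker := fun x => by
    rw [← hP]
    exact ⟨_, (mem_SU S _).2 (hX x x.2).2, rfl⟩
  let φ : X → (U ⊓ D.ker : Subgroup Mˣ) ⧸ (U.map N).subgroupOf (U ⊓ D.ker) :=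
    fun x => QuotientGroup.mk ⟨_, hXP x⟩
  have hφ : Function.Injective φ := by
    intro x y hxy
    by_contra hne'
    have h2 := QuotientGroup.eq.1 hxy
    rw [Subgroup.mem_subgroupOf] at h2
    obtain ⟨z, -, hz⟩ := h2
    refine hne y y.2 x x.2 (fun h => hne' (Subtype.ext h).symm) ⟨z, ?_⟩
    have h3 := congrArg Units.val hz
    rw [hN] at h3
    rw [map_div₀, div_eq_inv_mul]
    simpa [hs_val, ha_val] using h3
  have : Finite ((U ⊓ D.ker : Subgroup Mˣ) ⧸ (U.map N).subgroupOf (U ⊓ D.ker)) :=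
    Nat.finite_of_card_ne_zero hI0
  have := Nat.card_le_card_of_injective φ hφ
  rwa [Nat.card_eq_fintype_card, Fintype.card_coe] at this

end Pool.Agent.P.MP_9ec3f0_nt.SY
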