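import Pool.Agent.P.MP_9ec3f0_nt.SY.Herbrand

namespace Pool.Agent.P.MP_9ec3f0_nt.SY

open NumberField IsDedekindDomain Finset Module

namespace InertAux

/-- A number field has a prime outside any given finite set of primes. -/
theorem exists_notMem {M : Type} [Field M] [NumberField M] (S : Finset (Pr M)) :
    ∃ w : Pr M, w ∉ S := by
  classical
  have : Infinite (Pr ℚ) :=
    Infinite.of_injective _ (Rat.HeightOneSpectrum.primesEquiv (R := 𝓞 ℚ)).symm.injective
  obtain ⟨v, hv⟩ := Infinite.exists_notMem_finset (S.image (dn ℚ))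
  obtain ⟨w, hw⟩ := exists_above M v
  exact ⟨w, fun h => hv (hw ▸ Finset.mem_image_of_mem _ h)⟩

theorem not_isSquare_of_odd {K : Type} [Field K] [NumberField K] (v : Pr K) {x : K}
    (h : Odd (ord v x)) : ¬ IsSquare x := by
  rintro ⟨y, rfl⟩
  rw [← sq, ord_pow] at h
  obtain ⟨k, hk⟩ := h
  push_cast at hk
  omega

end InertAux

theorem exists_inert {M : Type} [Field M] [NumberField M] [IsTotallyComplex M] (u : M)
    (hu : ¬ IsSquare u) (S : Finset (Pr M)) :
    ∃ w : Pr M, w ∉ S ∧ w.valuation M 2 = 1 ∧ w.valuation M u = 1 ∧ ¬ SplitAt w u := by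
  classical
  by_contra hcon
  push Not at hcon
  have hu0 : u ≠ 0 := by
    rintro rfl
    exact hu ⟨0, by simp⟩
  have h20 : (2 : M) ≠ 0 := two_ne_zero
  set S' : Finset (Pr M) := S ∪ (finite_ord h20).toFinset ∪ (finite_ord hu0).toFinset with hS'
  have hout : ∀ w, w ∉ S' → w ∉ S ∧ ord w (2 : M) = 0 ∧ ord w u = 0 := by
    intro w hw
    simp only [hS', Finset.mem_union, Set.Finite.mem_toFinset, Set.mem_ofPred_eq, not_or,
      not_not] at hw
    exact ⟨hw.1.1, hw.1.2, hw.2⟩
  have hsplit : ∀ w, w ∉ S' → SplitAt w u := by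
    intro w hw
    obtain ⟨a, b, c⟩ := hout w hw
    exact hcon w a ((val_eq_one_iff w h20).2 b) ((val_eq_one_iff w hu0).2 c)
  obtain ⟨w0, hw0⟩ := InertAux.exists_notMem S'
  obtain ⟨μ, hμ0, hμ⟩ := exists_ord_eq (insert w0 S') (fun w => if w = w0 then -1 else 1)
  have hμ1 : ord w0 μ = -1 := by
    simpa using hμ w0 (Finset.mem_insert_self _ _)
  have hμ2 : ∀ w ∈ S', ord w μ = 1 := by
    intro w hw
    have hne : w ≠ w0 := fun e => hw0 (e ▸ hw)
    simpa [hne] using hμ w (Finset.mem_insert_of_mem hw)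
  obtain ⟨-, h2w, huw⟩ := hout w0 hw0
  have h4μ0 : 4 * μ ≠ 0 := mul_ne_zero (by norm_num) hμ0
  have h4μ : ord w0 (4 * μ) = -1 := by
    rw [ord_mul w0 (by norm_num) hμ0, show (4 : M) = 2 ^ 2 by norm_num, ord_pow, h2w, hμ1]
    simp
  have hlt : w0.valuation M 1 < w0.valuation M (4 * μ) := by
    rw [← not_le, val_le_val_iff w0 h4μ0 one_ne_zero, ord_one, h4μ]
    norm_num
  have hq : w0.valuation M (1 + 4 * μ) = w0.valuation M (4 * μ) :=
    Valuation.map_add_eq_of_lt_right _ hlt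
  set q : M := 1 + 4 * μ with hqdef
  have hq1 : ord w0 q = -1 := by
    rw [← h4μ]
    unfold ord
    rw [hq]
  have hq0 : q ≠ 0 := by
    intro e
    rw [e] at hq1
    simp [ord] at hq1
  have hn1 : ¬ IsSquare (u * q) := by
    apply InertAux.not_isSquare_of_odd w0
    rw [ord_mul w0 hu0 hq0, huw, hq1]
    decide
  have hn2 : ¬ IsSquare (u * (u * q)) := by
    apply InertAux.not_isSquare_of_odd w0
    rw [ord_mul w0 hu0 (mul_ne_zero hu0 hq0), ord_mul w0 hu0 hq0, huw, hq1]
    decide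
  obtain ⟨E, _, _, _, Q1, hQ1⟩ := exists_quad_ext M (u * q) hn1
  have : IsTotallyComplex E := isTotallyComplex_of_algebra M E
  have hn3 : ¬ IsSquare (algebraMap M E u) := by
    rw [Q1.isSquare_iff, hQ1]
    rintro (h | h)
    · exact hu h
    · exact hn2 h
  obtain ⟨E', _, _, _, Q2, hQ2⟩ := exists_quad_ext E (algebraMap M E u) hn3
  have hall : ∀ v : Pr E, SplitAt v (algebraMap M E u) := by
    intro v
    by_cases hv : dn M v ∈ S'
    · have hqE : algebraMap M E q ≠ 0 := by simpa using hq0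
      refine ⟨Q1.r / algebraMap M E q, algebraMap M E μ, div_ne_zero Q1.r_ne hqE, ?_, ?_⟩
      · have e : (1 : E) + 4 * algebraMap M E μ = algebraMap M E q := by
          rw [hqdef, map_add, map_mul, map_one, map_ofNat]
        rw [e, div_pow, Q1.r_sq, hQ1, map_mul]
        field_simp
      · rw [val_algebraMap_lt_one_iff, val_lt_one_iff _ hμ0, hμ2 _ hv]
        norm_num
    · exact (hsplit _ hv).algebraMap
  have hnf : ∀ w : Pr E', ¬ Fixes Q2.σ w := fun w =>
    Q2.not_fixes_of_splitAt (hQ2 ▸ hall _)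
  obtain ⟨T, hT⟩ := exists_classGen E
  have := lemmaA Q2 T hT (fun w _ => Q2.unrP_of_not_fixes (hnf w)) ∅
    (fun w _ h => (hnf w h).elim) {1}
    (by
      intro x hx
      rw [Finset.mem_singleton.1 hx]
      exact ⟨one_ne_zero, fun v _ => ord_one v⟩)
    (by
      intro x hx y hy hxy
      exact (hxy ((Finset.mem_singleton.1 hx).trans (Finset.mem_singleton.1 hy).symm)).elim)
  simp at this

end Pool.Agent.P.MP_9ec3f0_nt.SY
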