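import Pool.Agent.P.MP_9ec3f0_nt.SY.Ext

/-!
The dyadic obstruction to `UnrAt` takes at most sixteen values.
-/

namespace Pool.Agent.P.MP_9ec3f0_nt.SY

open NumberField IsDedekindDomain Finset Module

namespace OmegaAux

section Local

variable {L : Type} [Field L] [NumberField L]

/-- `a` is a square times `1 + 2 x` with `x` integral at `w`. -/
def Rep (w : Pr L) (a x : L) : Prop :=
  ∃ ξ : L, ξ ≠ 0 ∧ a = ξ ^ 2 * (1 + 2 * x) ∧ w.valuation L x ≤ 1

theorem val_two_le (w : Pr L) : w.valuation L (2 : L) ≤ 1 := by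
  rw [← map_ofNat (algebraMap (𝓞 L) L) 2]
  exact w.valuation_le_one (K := L) (2 : 𝓞 L)

theorem two_mem_iff (w : Pr L) : w.valuation L (2 : L) < 1 ↔ (2 : 𝓞 L) ∈ w.asIdeal := by
  have h := w.valuation_lt_one_iff_mem (K := L) (2 : 𝓞 L)
  rw [← h, ← map_ofNat (algebraMap (𝓞 L) L) 2]

theorem le_two {w : Pr L} (h2 : ord w (2 : L) ≤ 1) {z : L} (hz : w.valuation L z < 1) :
    w.valuation L z ≤ w.valuation L 2 := by
  rcases eq_or_ne z 0 with rfl | h0
  · simp
  · rw [val_le_val_iff w h0 two_ne_zero]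
    have := (val_lt_one_iff w h0).1 hz
    omega

theorem val_one_add {w : Pr L} (hw : w.valuation L (2 : L) < 1) {x : L}
    (hx : w.valuation L x ≤ 1) : w.valuation L (1 + 2 * x) = 1 := by
  refine (w.valuation L).map_one_add_of_lt ?_
  rw [map_mul]
  exact mul_lt_one_of_lt_of_le hw hx

theorem exists_sq {w : Pr L} (hw : w.valuation L (2 : L) < 1) {u : L}
    (hu : w.valuation L u ≤ 1) : ∃ y : L, w.valuation L (u - y ^ 2) < 1 := by
  obtain ⟨a, ha⟩ := w.exists_valuation_sub_lt_of_integer hu 1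
  have hmax := w.isMaximal
  let := Ideal.Quotient.field w.asIdeal
  have : Finite (𝓞 L ⧸ w.asIdeal) := Ideal.finiteQuotientOfFreeOfNeBot _ w.ne_bot
  have hc : ringChar (𝓞 L ⧸ w.asIdeal) = 2 := by
    refine CharP.ringChar_of_prime_eq_zero Nat.prime_two ?_
    have := Ideal.Quotient.eq_zero_iff_mem.2 ((two_mem_iff w).1 hw)
    rw [map_ofNat] at this
    exact_mod_cast this
  obtain ⟨b, hb⟩ := FiniteField.isSquare_of_char_two hc (Ideal.Quotient.mk w.asIdeal a)
  obtain ⟨y, rfl⟩ := Ideal.Quotient.mk_surjective b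
  rw [← map_mul, Ideal.Quotient.eq, ← w.valuation_lt_one_iff_mem (K := L)] at hb
  refine ⟨algebraMap (𝓞 L) L y, ?_⟩
  have e : u - algebraMap (𝓞 L) L y ^ 2 =
      algebraMap (𝓞 L) L (a - y * y) - (algebraMap (𝓞 L) L a - u) := by
    rw [map_sub, map_mul]
    ring
  rw [e]
  exact (w.valuation L).map_sub_lt hb ha

theorem exists_rep {w : Pr L} (hw : w.valuation L (2 : L) < 1) (h2 : ord w (2 : L) ≤ 1) {a : L}
    (h0 : a ≠ 0) (he : Even (ord w a)) : ∃ x, Rep w a x := by
  obtain ⟨n, hn⟩ := he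
  obtain ⟨p, hp, hp'⟩ := exists_ord_eq {w} fun _ => n
  have hp2 := pow_ne_zero 2 hp
  have hu : w.valuation L (a / p ^ 2) = 1 := by
    rw [val_eq_one_iff w (div_ne_zero h0 hp2), ord_div w h0 hp2, ord_pow,
      hp' w (mem_singleton_self w), hn]
    push_cast
    ring
  obtain ⟨y, hy⟩ := exists_sq hw hu.le
  have hy2 : w.valuation L (y ^ 2) = 1 := by
    have := (w.valuation L).map_sub_eq_of_lt_left (x := a / p ^ 2) (y := a / p ^ 2 - y ^ 2)
      (by rwa [hu])
    rwa [sub_sub_cancel, hu] at this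
  have hy0 : y ≠ 0 := by
    rintro rfl
    simp at hy2
  refine ⟨(a / p ^ 2 - y ^ 2) / (2 * y ^ 2), p * y, mul_ne_zero hp hy0, ?_, ?_⟩
  · field_simp
    ring
  · have h3 : w.valuation L (2 : L) ≠ 0 := by simp
    rw [map_div₀, map_mul, hy2, mul_one]
    exact div_le_one_of_le₀ (le_two h2 hy) zero_le

theorem rep_unique {w : Pr L} (hw : w.valuation L (2 : L) < 1) (h2 : ord w (2 : L) ≤ 1)
    {a x x' : L} (h : Rep w a x) (h' : Rep w a x') : w.valuation L (x - x') < 1 := by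
  obtain ⟨ξ, h1, h3, h4⟩ := h
  obtain ⟨η, h1', h3', h4'⟩ := h'
  have v1 := val_one_add hw h4'
  have e : (η / ξ - 1) * (η / ξ + 1) * (1 + 2 * x') = 2 * (x - x') := by
    field_simp
    linear_combination h3 - h3'
  have e2 : w.valuation L (η / ξ - 1) * w.valuation L (η / ξ + 1) =
      w.valuation L 2 * w.valuation L (x - x') := by
    rw [← map_mul, ← map_mul, ← e, map_mul _ _ (1 + 2 * x'), v1, mul_one]
  have h5 : w.valuation L (x - x') ≤ 1 := (w.valuation L).map_sub_le h4 h4'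
  have h6 : w.valuation L (η / ξ - 1) * w.valuation L (η / ξ + 1) < 1 := by
    rw [e2]
    exact mul_lt_one_of_lt_of_le hw h5
  have h7 : w.valuation L (η / ξ - 1) < 1 ∧ w.valuation L (η / ξ + 1) < 1 := by
    by_cases h8 : w.valuation L (η / ξ - 1) < 1
    · refine ⟨h8, ?_⟩
      rw [show η / ξ + 1 = η / ξ - 1 + 2 by ring]
      exact (w.valuation L).map_add_lt h8 hw
    · have h9 : w.valuation L (η / ξ + 1) < 1 :=
        lt_of_le_of_lt (le_mul_of_one_le_left' (not_lt.1 h8)) h6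
      refine absurd ?_ h8
      rw [show η / ξ - 1 = η / ξ + 1 - 2 by ring]
      exact (w.valuation L).map_sub_lt h9 hw
  have h10 : w.valuation L 2 * w.valuation L (x - x') ≤ w.valuation L 2 * w.valuation L 2 := by
    rw [← e2]
    exact mul_le_mul' (le_two h2 h7.1) (le_two h2 h7.2)
  have h11 : 0 < w.valuation L (2 : L) := by simp [zero_lt_iff]
  exact lt_of_le_of_lt (le_of_mul_le_mul_left h10 h11) hw

theorem unrAt_of_rep {w : Pr L} (hw : w.valuation L (2 : L) < 1) (h2 : ord w (2 : L) ≤ 1)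
    {a a' x x' : L} (h : Rep w a x) (h' : Rep w a' x') (hx : w.valuation L (x - x') < 1) :
    UnrAt w (a / a') := by
  obtain ⟨ξ, h1, h3, h4⟩ := h
  obtain ⟨η, h1', h3', h4'⟩ := h'
  have v1 := val_one_add hw h4
  have v2 := val_one_add hw h4'
  have n2 : 1 + 2 * x' ≠ 0 := by
    intro h0
    rw [h0] at v2
    simp at v2
  have e : 1 + 4 * ((x - x') / (2 * (1 + 2 * x'))) = (1 + 2 * x) / (1 + 2 * x') := by
    rw [eq_div_iff n2, add_mul, mul_assoc, mul_comm 2 (1 + 2 * x'), ← div_div,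
      mul_comm (_ / _ / _), mul_div_assoc', mul_div_cancel₀ _ n2]
    ring
  refine ⟨ξ / η, (x - x') / (2 * (1 + 2 * x')), div_ne_zero h1 h1', ?_, ?_, ?_⟩
  · rw [e, h3, h3']
    field_simp
  · rw [map_div₀, map_mul, v2, mul_one]
    exact div_le_one_of_le₀ (le_two h2 hx) zero_le
  · rw [e, map_div₀, v1, v2, div_one]

end Local

section Base

variable {k : Type} [Field k] [NumberField k]

theorem absNorm_two (hk : finrank ℚ k = 2) : Ideal.absNorm (Ideal.span {(2 : 𝓞 k)}) = 4 := by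
  have := Ideal.absNorm_span_natCast (S := 𝓞 k) 2
  rw [RingOfIntegers.rank, hk] at this
  exact_mod_cast this

theorem two_le_absNorm (v : Pr k) : 2 ≤ Ideal.absNorm v.asIdeal := by
  have h1 : Ideal.absNorm v.asIdeal ≠ 0 := fun h => v.ne_bot (Ideal.absNorm_eq_zero_iff.1 h)
  have h2 : Ideal.absNorm v.asIdeal ≠ 1 := fun h => v.isPrime.ne_top (Ideal.absNorm_eq_one_iff.1 h)
  omega

theorem absNorm_le (hk : finrank ℚ k = 2) {v : Pr k} (hv : (2 : 𝓞 k) ∈ v.asIdeal) :
    Ideal.absNorm v.asIdeal ≤ 4 := by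
  have := Ideal.absNorm_dvd_absNorm_of_le ((Ideal.span_singleton_le_iff_mem _).2 hv)
  rw [absNorm_two hk] at this
  exact Nat.le_of_dvd (by norm_num) this

theorem exists_dyadic (hk : finrank ℚ k = 2) :
    ∃ D : Finset (Pr k), D.card ≤ 2 ∧ ∀ v : Pr k, v.valuation k (2 : k) < 1 → v ∈ D := by
  classical
  have hf : {v : Pr k | v.valuation k (2 : k) < 1}.Finite := by
    refine (finite_ord (K := k) two_ne_zero).subset fun v hv => ?_
    exact ((val_lt_one_iff v two_ne_zero).1 hv).ne'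
  refine ⟨hf.toFinset, ?_, fun v hv => hf.mem_toFinset.2 hv⟩
  have h1 : ∏ p ∈ hf.toFinset.image (fun v : Pr k => v.asIdeal), p ∣ Ideal.span {(2 : 𝓞 k)} := by
    refine Finset.prod_primes_dvd _ (fun p hp => ?_) fun p hp => ?_
    · obtain ⟨v, -, rfl⟩ := mem_image.1 hp
      exact v.prime
    · obtain ⟨v, hv, rfl⟩ := mem_image.1 hp
      exact Ideal.dvd_span_singleton.2 ((two_mem_iff v).1 (hf.mem_toFinset.1 hv))
  rw [prod_image fun a _ b _ h => HeightOneSpectrum.ext h] at h1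
  have h2 := map_dvd Ideal.absNorm h1
  rw [absNorm_two hk, map_prod] at h2
  have h3 := Finset.pow_card_le_prod hf.toFinset (fun v : Pr k => Ideal.absNorm v.asIdeal) 2
    fun v _ => two_le_absNorm v
  have h4 := h3.trans (Nat.le_of_dvd (by norm_num) h2)
  exact (Nat.pow_le_pow_iff_right (a := 2) (by norm_num)).1 (h4.trans (by norm_num))

end Base

variable {k L : Type} [Field k] [NumberField k] [Field L] [NumberField L] [Algebra k L]

theorem exists_frob [IsGalois k L] (w : Pr L) : ∃ φ : L ≃ₐ[k] L, Fixes φ w ∧ ∀ x : 𝓞 L,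
    w.valuation L (φ (algebraMap (𝓞 L) L x) -
      algebraMap (𝓞 L) L x ^ Ideal.absNorm (dn k w).asIdeal) < 1 := by
  have := w.isPrime
  have : Finite (𝓞 L ⧸ w.asIdeal) := Ideal.finiteQuotientOfFreeOfNeBot _ w.ne_bot
  obtain ⟨φ, hφ⟩ := IsArithFrobAt.exists_of_isInvariant (𝓞 k) (L ≃ₐ[k] L) w.asIdeal
  refine ⟨φ, ?_, fun x => ?_⟩
  · refine HeightOneSpectrum.ext (Ideal.ext fun x => ?_)
    have h1 : ∀ y : 𝓞 L, φ • y ∈ w.asIdeal ↔ y ∈ w.asIdeal := fun y => by
      conv_rhs => rw [← hφ.comap_eq]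
      rfl
    have h2 := h1 ((RingOfIntegers.mapRingEquiv φ.toRingEquiv).symm x)
    have h3 : φ • ((RingOfIntegers.mapRingEquiv φ.toRingEquiv).symm x) = x :=
      RingOfIntegers.ext (φ.apply_symm_apply x)
    rw [h3] at h2
    exact h2.symm
  · have h1 := (w.valuation_lt_one_iff_mem (K := L) _).2 (hφ x)
    have h2 : Nat.card (𝓞 k ⧸ w.asIdeal.under (𝓞 k)) = Ideal.absNorm (dn k w).asIdeal := rfl
    rw [h2] at h1
    have h3 : algebraMap (𝓞 L) L (φ • x - x ^ Ideal.absNorm (dn k w).asIdeal) =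
        φ (algebraMap (𝓞 L) L x) - algebraMap (𝓞 L) L x ^ Ideal.absNorm (dn k w).asIdeal := by
      rw [map_sub, map_pow]
      rfl
    rw [← h3]
    exact h1

theorem local_class [IsGalois k L] (hk : finrank ℚ k = 2) (w : Pr L) (h2 : ord w (2 : L) ≤ 1)
    (hw : w.valuation L (2 : L) < 1) {ι : Type} (α : ι → L) (h0 : ∀ i, α i ≠ 0)
    (heven : ∀ i, Even (ord w (α i))) (hinv : ∀ i (g : L ≃ₐ[k] L), ∃ β : L, g (α i) = α i * β ^ 2) :
    ∃ f : ι → Fin 4, ∀ i j, f i = f j → UnrAt w (α i / α j) := by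
  classical
  obtain ⟨φ, hφ, hφ'⟩ := exists_frob (k := k) w
  have hval := (fixes_iff φ w).1 hφ
  choose x hx using fun i => exists_rep hw h2 (h0 i) (heven i)
  choose a ha using fun i => w.exists_valuation_sub_lt_of_integer (hx i).choose_spec.2.2 1
  have hmax := w.isMaximal
  let := Ideal.Quotient.field w.asIdeal
  have hN := two_le_absNorm (dn k w)
  have hN' : Ideal.absNorm (dn k w).asIdeal ≤ 4 := by
    refine absNorm_le hk ((two_mem_iff _).1 ((val_algebraMap_lt_one_iff w 2).1 ?_))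
    rwa [map_ofNat]
  let p : Polynomial (𝓞 L ⧸ w.asIdeal) :=
    Polynomial.X ^ Ideal.absNorm (dn k w).asIdeal - Polynomial.X
  have hroot : ∀ i, Ideal.Quotient.mk w.asIdeal (a i) ∈ p.roots.toFinset := by
    intro i
    rw [Multiset.mem_toFinset, Polynomial.mem_roots (FiniteField.X_pow_card_sub_X_ne_zero _ hN)]
    simp only [Polynomial.IsRoot, Polynomial.eval_sub, Polynomial.eval_pow, Polynomial.eval_X]
    rw [← map_pow, ← map_sub, Ideal.Quotient.eq_zero_iff_mem, ← w.valuation_lt_one_iff_mem (K := L)]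
    obtain ⟨β, hβ⟩ := hinv i φ
    obtain ⟨ξ, h1, h3, h4⟩ := hx i
    have hβ0 : β ≠ 0 := by
      rintro rfl
      exact h0 i (φ.injective (by rw [hβ]; simp))
    have r1 : Rep w (φ (α i)) (x i) := ⟨ξ * β, mul_ne_zero h1 hβ0, by rw [hβ, h3]; ring, h4⟩
    have r2 : Rep w (φ (α i)) (φ (x i)) := ⟨φ ξ, by simpa using h1,
      by rw [h3, map_mul, map_pow, map_add, map_one, map_mul, map_ofNat], by rwa [hval]⟩
    have b1 := rep_unique hw h2 r2 r1
    have b2 : w.valuation L (algebraMap (𝓞 L) L (a i) - x i) < 1 := ha i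
    have b3 : w.valuation L (φ (algebraMap (𝓞 L) L (a i)) - φ (x i)) < 1 := by
      rwa [← map_sub, hval]
    have e : algebraMap (𝓞 L) L (a i ^ Ideal.absNorm (dn k w).asIdeal - a i) =
        (φ (algebraMap (𝓞 L) L (a i)) - φ (x i)) + (φ (x i) - x i) -
          (algebraMap (𝓞 L) L (a i) - x i) - (φ (algebraMap (𝓞 L) L (a i)) -
          algebraMap (𝓞 L) L (a i) ^ Ideal.absNorm (dn k w).asIdeal) := by
      rw [map_sub, map_pow]
      ring
    change w.valuation L (algebraMap (𝓞 L) L _) < 1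
    rw [e]
    exact (w.valuation L).map_sub_lt ((w.valuation L).map_sub_lt
      ((w.valuation L).map_add_lt b3 b1) b2) (hφ' (a i))
  have hcard : Fintype.card p.roots.toFinset ≤ Fintype.card (Fin 4) := by
    rw [Fintype.card_coe, Fintype.card_fin]
    refine (Multiset.toFinset_card_le _).trans ((Polynomial.card_roots' p).trans ?_)
    rw [FiniteField.X_pow_card_sub_X_natDegree_eq _ hN]
    exact hN'
  obtain ⟨e⟩ := Function.Embedding.nonempty_of_card_le hcard
  refine ⟨fun i => e ⟨_, hroot i⟩, fun i j hij => unrAt_of_rep hw h2 (hx i) (hx j) ?_⟩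
  have h1 : Ideal.Quotient.mk w.asIdeal (a i) = Ideal.Quotient.mk w.asIdeal (a j) :=
    congrArg Subtype.val (e.injective hij)
  rw [Ideal.Quotient.eq, ← w.valuation_lt_one_iff_mem (K := L)] at h1
  have e2 : x i - x j = algebraMap (𝓞 L) L (a i - a j) - (algebraMap (𝓞 L) L (a i) - x i) +
      (algebraMap (𝓞 L) L (a j) - x j) := by
    rw [map_sub]
    ring
  rw [e2]
  exact (w.valuation L).map_add_lt ((w.valuation L).map_sub_lt h1 (ha i)) (ha j)

end OmegaAux

theorem omega_class {k L : Type} [Field k] [NumberField k] [Field L] [NumberField L] [Algebra k L]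
    [IsGalois k L] (hk : finrank ℚ k = 2) (h2 : ∀ w : Pr L, ord w (2 : L) ≤ 1) {ι : Type}
    (α : ι → L) (h0 : ∀ i, α i ≠ 0) (heven : ∀ i (w : Pr L), Even (ord w (α i)))
    (hinv : ∀ i (g : L ≃ₐ[k] L), ∃ β : L, g (α i) = α i * β ^ 2) :
    ∃ f : ι → Fin 16, ∀ i j, f i = f j → ∀ w : Pr L, UnrAt w (α i / α j) := by
  classical
  obtain ⟨D, hD, hD'⟩ := OmegaAux.exists_dyadic hk
  choose up hup using fun v : Pr k => exists_above L v
  have hodd : ∀ (w : Pr L), ¬ w.valuation L (2 : L) < 1 → ∀ i j, UnrAt w (α i / α j) := by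
    intro w hw i j
    refine unrAt_of_odd (le_antisymm (OmegaAux.val_two_le w) (not_lt.1 hw))
      (div_ne_zero (h0 i) (h0 j)) ?_
    rw [ord_div w (h0 i) (h0 j)]
    exact (heven i w).sub (heven j w)
  have hloc : ∀ w : Pr L, ∃ f : ι → Fin 4, ∀ i j, f i = f j → UnrAt w (α i / α j) := by
    intro w
    by_cases hw : w.valuation L (2 : L) < 1
    · exact OmegaAux.local_class hk w (h2 w) hw α h0 (fun i => heven i w) hinv
    · exact ⟨fun _ => 0, fun i j _ => hodd w hw i j⟩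
  choose g hg using hloc
  have hcard : Fintype.card (D → Fin 4) ≤ Fintype.card (Fin 16) := by
    rw [Fintype.card_fun, Fintype.card_coe, Fintype.card_fin, Fintype.card_fin]
    exact (Nat.pow_le_pow_right (by norm_num) hD).trans (by norm_num)
  obtain ⟨e⟩ := Function.Embedding.nonempty_of_card_le hcard
  refine ⟨fun i => e fun v => g (up v) i, fun i j hij w => ?_⟩
  by_cases hw : w.valuation L (2 : L) < 1
  · have hv : dn k w ∈ D := hD' _ ((val_algebraMap_lt_one_iff w 2).1 (by rwa [map_ofNat]))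
    have h1 := hg _ i j (congrFun (e.injective hij) ⟨_, hv⟩)
    obtain ⟨σ, hσ⟩ := exists_cj_eq (hup (dn k w))
    have h3 := h1.cj σ
    rw [hσ] at h3
    obtain ⟨β, hβ⟩ := hinv i σ
    obtain ⟨γ, hγ⟩ := hinv j σ
    have hβ0 : β ≠ 0 := by
      rintro rfl
      exact h0 i (σ.injective (by rw [hβ]; simp))
    have hγ0 : γ ≠ 0 := by
      rintro rfl
      exact h0 j (σ.injective (by rw [hγ]; simp))
    have h4 := h3.mul (splitAt_sq w (div_ne_zero hγ0 hβ0)).unrAt
    have e2 : σ (α i / α j) * (γ / β) ^ 2 = α i / α j := by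
      have := h0 j
      rw [map_div₀, hβ, hγ]
      field_simp
    rwa [e2] at h4
  · exact hodd w hw i j

end Pool.Agent.P.MP_9ec3f0_nt.SY
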