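import Pool.Agent.P.MP_9ec3f0_nt.SY.PadicBound

namespace Pool.Agent.P.MP_9ec3f0_nt.SY

open NumberField IsDedekindDomain Finset Module

namespace OrdAux

/-- From a lower bound on `‖u / v - 1‖` to an upper bound on the order of `u - v`. -/
theorem val_le (p : ℕ) [hp : Fact p.Prime] {u v : ℤ} (huv : u ≠ v) (hv : ¬ (p : ℤ) ∣ v) {X : ℝ}
    (h : Real.exp (-X) ≤ ‖(u : ℚ_[p]) / v - 1‖) :
    (padicValInt p (u - v) : ℝ) * Real.log p ≤ X := by
  have hv1 : ‖(v : ℚ_[p])‖ = 1 :=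
    le_antisymm (Padic.norm_int_le_one v) (not_lt.1 fun h => hv (Padic.norm_intCast_lt_one_iff.1 h))
  have hv0 : (v : ℚ_[p]) ≠ 0 := fun h => by simp [h] at hv1
  have hne : ((u - v : ℤ) : ℚ_[p]) ≠ 0 := by exact_mod_cast sub_ne_zero.2 huv
  have e : (u : ℚ_[p]) / v - 1 = ((u - v : ℤ) : ℚ_[p]) / v := by push_cast; field_simp
  have hp0 : (0 : ℝ) < p := by exact_mod_cast hp.out.pos
  rw [e, norm_div, hv1, div_one, Padic.norm_eq_zpow_neg_valuation hne, Padic.valuation_intCast,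
    ← Real.exp_log (zpow_pos hp0 _), Real.exp_le_exp, Real.log_zpow] at h
  push_cast at h
  linarith

theorem half_le_log {l : ℕ} (hl : l.Prime) : (1 / 2 : ℝ) ≤ Real.log l := by
  have h2 : (2 : ℝ) ≤ l := by exact_mod_cast hl.two_le
  have := Real.log_le_log (by norm_num) h2
  linarith [Real.log_two_gt_d9]

theorem card_le {Pp : Finset ℕ} (hP : ∀ l ∈ Pp, l.Prime) {Λ : ℝ}
    (h : ∑ l ∈ Pp, Real.log l ≤ Λ) : (Pp.card : ℝ) ≤ 2 * Λ := by
  have : ∑ _l ∈ Pp, (1 / 2 : ℝ) ≤ ∑ l ∈ Pp, Real.log l :=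
    Finset.sum_le_sum fun l hl => half_le_log (hP l hl)
  rw [Finset.sum_const, nsmul_eq_mul] at this
  linarith

theorem prod_log_le {Pp : Finset ℕ} (hP : ∀ l ∈ Pp, l.Prime) {Λ : ℝ}
    (h : ∑ l ∈ Pp, Real.log l ≤ Λ) : ∏ l ∈ Pp, Real.log l ≤ Real.exp Λ := by
  calc ∏ l ∈ Pp, Real.log l ≤ ∏ l ∈ Pp, Real.exp (Real.log l) :=
        Finset.prod_le_prod (fun l hl => by linarith [half_le_log (hP l hl)])
          fun l _ => by linarith [Real.add_one_le_exp (Real.log l)]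
    _ = Real.exp (∑ l ∈ Pp, Real.log l) := (Real.exp_sum _ _).symm
    _ ≤ Real.exp Λ := Real.exp_le_exp.2 h

theorem prod_const_mul (Pp : Finset ℕ) (a : ℝ) :
    ∏ l ∈ Pp, (a * Real.log l) = a ^ Pp.card * ∏ l ∈ Pp, Real.log l := by
  rw [Finset.prod_mul_distrib, Finset.prod_const]

theorem one_le_prod {Pp : Finset ℕ} (hP : ∀ l ∈ Pp, l.Prime) :
    1 ≤ 2 ^ Pp.card * ∏ l ∈ Pp, Real.log l := by
  rw [← prod_const_mul]
  calc (1 : ℝ) = ∏ _l ∈ Pp, 1 := by simp
    _ ≤ _ := Finset.prod_le_prod (fun _ _ => zero_le_one)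
      fun l hl => by linarith [half_le_log (hP l hl)]

theorem pow_le_exp {a : ℝ} (ha : 0 ≤ a) (m : ℕ) : a ^ m ≤ Real.exp (m * a) := by
  rw [Real.exp_nat_mul]
  exact pow_le_pow_left₀ ha (by linarith [Real.add_one_le_exp a]) m

theorem not_dvd_right {p : ℕ} (hp : p.Prime) {Pp : Finset ℕ} (hpP : p ∉ Pp) {u v : ℤ}
    (h : ∀ l : ℕ, l.Prime → (l : ℤ) ∣ u * v → l ∈ Pp) : ¬ (p : ℤ) ∣ v :=
  fun hv => hpP (h p hp (hv.mul_left u))

end OrdAux

open OrdAux in
theorem ord_small : ∃ C : ℝ, 0 < C ∧ ∀ (p : ℕ) (Pp : Finset ℕ) (u v : ℤ) (Λ : ℝ), p.Prime →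
    (∀ l ∈ Pp, l.Prime) → p ∉ Pp → Pp.Nonempty → u ≠ 0 → v ≠ 0 → u ≠ v →
    (∀ l : ℕ, l.Prime → (l : ℤ) ∣ u * v → l ∈ Pp) → 1 ≤ Λ → Real.log p ≤ Λ →
    ∑ l ∈ Pp, Real.log l ≤ Λ → Real.log (|(u : ℝ)| + |(v : ℝ)|) ≤ Real.exp Λ →
    (padicValInt p (u - v) : ℝ) * Real.log p ≤
      C * Λ ^ 30 * p * ∏ l ∈ Pp, (C * Real.log l) := by
  obtain ⟨C, hC, H⟩ := padic_bound
  refine ⟨C * 40 ^ 12 * 128001 + 28800, by positivity, ?_⟩
  intro p Pp u v Λ hp hP hpP hne hu hv huv hdiv hΛ hlp hsum hht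
  have : Fact p.Prime := ⟨hp⟩
  set m := Pp.card with hm
  have hm1 : 1 ≤ m := Finset.card_pos.2 hne
  have hm1' : (1 : ℝ) ≤ m := by exact_mod_cast hm1
  have hm2 : (m : ℝ) ≤ 2 * Λ := card_le hP hsum
  have hp2 : (2 : ℝ) ≤ p := by exact_mod_cast hp.two_le
  have hp0 : (0 : ℝ) < p := by linarith
  have hex : ∃ κ : ℕ, 256 * Real.exp m ≤ (p : ℝ) ^ κ :=
    (pow_unbounded_of_one_lt _ (by linarith : (1 : ℝ) < p)).imp fun _ h => h.le
  set κ := Nat.find hex with hκ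
  have hκ1 : 256 * Real.exp m ≤ (p : ℝ) ^ κ := Nat.find_spec hex
  have hem : 1 ≤ Real.exp m := Real.one_le_exp (by linarith)
  have hκ2 : (p : ℝ) ^ κ ≤ 256 * Real.exp m * p := by
    rcases Nat.eq_zero_or_pos κ with h | h
    · rw [h, pow_zero] at hκ1; linarith
    · have := Nat.find_min hex (Nat.sub_one_lt_of_lt h)
      rw [← hκ] at this
      have e : (p : ℝ) ^ κ = (p : ℝ) ^ (κ - 1) * p := by rw [← pow_succ]; congr 1; omega
      rw [e]
      exact mul_le_mul_of_nonneg_right (not_le.1 this).le hp0.le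
  have hl256 : Real.log 256 = 8 * Real.log 2 := by
    rw [show (256 : ℝ) = 2 ^ 8 by norm_num, Real.log_pow]; norm_num
  have hG1 : m + 1 ≤ κ * Real.log p := by
    have := Real.log_le_log (by positivity) hκ1
    rw [Real.log_mul (by norm_num) (by positivity), Real.log_exp, Real.log_pow, hl256] at this
    linarith [Real.log_two_gt_d9]
  have hG2 : κ * Real.log p ≤ 40 * Λ := by
    have := Real.log_le_log (by positivity) hκ2
    rw [Real.log_mul (by positivity) hp0.ne', Real.log_mul (by norm_num) (by positivity),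
      Real.log_exp, Real.log_pow, hl256] at this
    linarith [Real.log_two_lt_d9]
  have hrank : Units.rank ℚ = 0 := by simp [Units.rank]
  set L := ∏ l ∈ Pp, Real.log l with hL
  have hL1 : 1 ≤ 2 ^ m * L := one_le_prod hP
  have hL0 : 0 ≤ L := Finset.prod_nonneg fun l hl => by linarith [half_le_log (hP l hl)]
  have hLe : L ≤ Real.exp Λ := prod_log_le hP hsum
  set Z : ℝ := (p : ℝ) ^ κ * 500 * L * (2400 * (m : ℝ) / (κ * Real.log p)) ^ (m - 1) with hZ
  have hZ1 : Z ≤ 128000 * p * (7200 ^ m * L) := by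
    have h1 : (2400 * (m : ℝ) / (κ * Real.log p)) ^ (m - 1) ≤ 2400 ^ m := by
      calc (2400 * (m : ℝ) / (κ * Real.log p)) ^ (m - 1) ≤ 2400 ^ (m - 1) := by
            refine pow_le_pow_left₀ (by have : 0 < κ * Real.log p := by linarith
                                        positivity) ?_ _
            rw [div_le_iff₀ (by linarith)]; linarith
        _ ≤ 2400 ^ m := pow_le_pow_right₀ (by norm_num) (Nat.sub_le _ _)
    have h2 : Real.exp m ≤ 3 ^ m := by
      rw [← mul_one (m : ℝ), Real.exp_nat_mul]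
      exact pow_le_pow_left₀ (by positivity) (by linarith [Real.exp_one_lt_d9]) m
    calc Z ≤ (256 * 3 ^ m * p) * 500 * L * 2400 ^ m := by
          rw [hZ]; gcongr
          exact hκ2.trans (by gcongr)
      _ = 128000 * p * (7200 ^ m * L) := by
          rw [show (7200 : ℝ) = 3 * 2400 by norm_num, mul_pow]; ring
  have hZ2 : Z ≤ Real.exp (40 * Λ) := by
    have h1 : (128000 : ℝ) ≤ Real.exp (17 * Λ) := by
      calc (128000 : ℝ) ≤ 2 ^ 17 := by norm_num
        _ ≤ Real.exp 1 ^ 17 := pow_le_pow_left₀ (by norm_num)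
            (by linarith [Real.exp_one_gt_d9]) _
        _ = Real.exp 17 := by rw [← Real.exp_nat_mul]; norm_num
        _ ≤ _ := Real.exp_le_exp.2 (by linarith)
    have h2 : (p : ℝ) ≤ Real.exp Λ := by
      rw [← Real.exp_log hp0]; exact Real.exp_le_exp.2 hlp
    have h3 : (7200 : ℝ) ^ m ≤ Real.exp (18 * Λ) := by
      have : (7200 : ℝ) ≤ Real.exp 9 := by
        calc (7200 : ℝ) ≤ 2.7 ^ 9 := by norm_num
          _ ≤ Real.exp 1 ^ 9 := pow_le_pow_left₀ (by norm_num)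
            (by linarith [Real.exp_one_gt_d9]) _
          _ = Real.exp 9 := by rw [← Real.exp_nat_mul]; norm_num
      calc (7200 : ℝ) ^ m ≤ Real.exp 9 ^ m := pow_le_pow_left₀ (by norm_num) this m
        _ = Real.exp (m * 9) := by rw [← Real.exp_nat_mul]
        _ ≤ _ := Real.exp_le_exp.2 (by linarith)
    calc Z ≤ Real.exp (17 * Λ) * Real.exp Λ * (Real.exp (18 * Λ) * Real.exp Λ) :=
          hZ1.trans (by gcongr)
      _ = Real.exp (37 * Λ) := by simp only [← Real.exp_add]; congr 1; ring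
      _ ≤ _ := Real.exp_le_exp.2 (by linarith)
  have key := H ℚ p (Rat.castHom ℚ_[p]) 1 κ Pp u v (40 * Λ) Z le_rfl (by simp)
    (by have : (256 : ℝ) ≤ (p : ℝ) ^ κ := by nlinarith
        exact_mod_cast this)
    (by simp only [finrank_self, Nat.cast_one]; linarith) hP hpP hne hu hv huv hdiv
    (by simp [hZ, hL, hrank, hm]) (by linarith)
    (by simp only [hrank, zero_add]; linarith) hG2 (by simp; linarith)
    (hht.trans (Real.exp_le_exp.2 (by linarith))) hZ2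
  refine (val_le p huv (not_dvd_right hp hpP hdiv) key).trans ?_
  rw [hrank, zero_add, prod_const_mul, ← hm, ← hL]
  have h1 : (4 : ℝ) ^ m * (1 + Z) ≤ 128001 * p * (28800 ^ m * L) := by
    have a1 : (4 : ℝ) ^ m ≤ p * (28800 ^ m * L) := by
      calc (4 : ℝ) ^ m ≤ 4 ^ m * (2 ^ m * L) := le_mul_of_one_le_right (by positivity) hL1
        _ = 1 * (8 ^ m * L) := by rw [show (8 : ℝ) = 4 * 2 by norm_num, mul_pow]; ring
        _ ≤ _ := by gcongr <;> linarith
    have a2 : (4 : ℝ) ^ m * Z ≤ 128000 * p * (28800 ^ m * L) := by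
      calc (4 : ℝ) ^ m * Z ≤ 4 ^ m * (128000 * p * (7200 ^ m * L)) := by gcongr
        _ = _ := by rw [show (28800 : ℝ) = 4 * 7200 by norm_num, mul_pow]; ring
    linarith
  have h2 : Λ ^ 12 ≤ Λ ^ 30 := pow_le_pow_right₀ hΛ (by norm_num)
  have h3 : 0 < C * 40 ^ 12 * 128001 := by positivity
  calc C * (40 * Λ) ^ 12 * 4 ^ m * (1 + Z) = C * 40 ^ 12 * Λ ^ 12 * (4 ^ m * (1 + Z)) := by ring
    _ ≤ C * 40 ^ 12 * Λ ^ 30 * (128001 * p * (28800 ^ m * L)) := by
        have : 0 ≤ Z := by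
          have : 0 < κ * Real.log p := by linarith
          positivity
        gcongr
    _ = (C * 40 ^ 12 * 128001) * Λ ^ 30 * p * (28800 ^ m * L) := by ring
    _ ≤ _ := by gcongr <;> linarith

end Pool.Agent.P.MP_9ec3f0_nt.SY
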