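import Pool.Agent.P.MP_9ec3f0_nt.SY.Sat

/-!
Auxiliary lemmas for `padic_bound`: the family of S-units, the pigeonhole step, the height of
the chosen class and the numerical inequalities.
-/

namespace Pool.Agent.P.MP_9ec3f0_nt.SY.PadicBoundAux

open NumberField IsDedekindDomain Finset Module

theorem norm_le_one_of_isIntegral (p : ℕ) [Fact p.Prime] {x : ℚ_[p]} (hx : IsIntegral ℤ x) :
    ‖x‖ ≤ 1 := by
  have h1 : IsIntegral ℤ_[p] x := hx.tower_top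
  obtain ⟨y, hy⟩ := (IsIntegrallyClosed.isIntegral_iff (R := ℤ_[p]) (K := ℚ_[p])).1 h1
  rw [← hy]
  exact y.2

theorem norm_unit {K : Type} [Field K] [NumberField K] (p : ℕ) [Fact p.Prime]
    (φ : K →+* ℚ_[p]) (u : (𝓞 K)ˣ) : ‖φ ((u : 𝓞 K) : K)‖ = 1 := by
  have h : ∀ w : (𝓞 K)ˣ, ‖φ ((w : 𝓞 K) : K)‖ ≤ 1 := fun w =>
    norm_le_one_of_isIntegral p
      ((RingOfIntegers.isIntegral_coe (w : 𝓞 K)).map φ.toIntAlgHom)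
  have h2 : ‖φ ((u : 𝓞 K) : K)‖ * ‖φ (((u⁻¹ : (𝓞 K)ˣ) : 𝓞 K) : K)‖ = 1 := by
    rw [← norm_mul, ← map_mul]
    have : ((u : 𝓞 K) : K) * (((u⁻¹ : (𝓞 K)ˣ) : 𝓞 K) : K) = 1 := by
      rw [RingOfIntegers.coe_eq_algebraMap, RingOfIntegers.coe_eq_algebraMap, ← map_mul]
      simp
    rw [this]; simp
  have h3 := h u
  have h4 := h u⁻¹
  nlinarith [norm_nonneg (φ ((u : 𝓞 K) : K)), norm_nonneg (φ (((u⁻¹ : (𝓞 K)ˣ) : 𝓞 K) : K))]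

theorem norm_prime (p : ℕ) [hp : Fact p.Prime] {l : ℕ} (hl : l.Prime) (hne : l ≠ p) :
    ‖(l : ℚ_[p])‖ = 1 := by
  have h : ¬ (p : ℤ) ∣ (l : ℤ) := by
    intro h
    have h' : p ∣ l := by exact_mod_cast h
    exact hne ((Nat.prime_dvd_prime_iff_eq hp.out hl).1 h').symm
  have h1 : ‖((l : ℤ) : ℚ_[p])‖ ≤ 1 := Padic.norm_int_le_one _
  have h2 : ¬ ‖((l : ℤ) : ℚ_[p])‖ < 1 := fun h' => h (Padic.norm_intCast_lt_one_iff.1 h')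
  have : ‖((l : ℤ) : ℚ_[p])‖ = 1 := le_antisymm h1 (not_lt.1 h2)
  simpa using this

theorem exists_family {K : Type} [Field K] [NumberField K] {Pp : Finset ℕ}
    (hP : ∀ l ∈ Pp, l.Prime) (U : Finset (𝓞 K)ˣ) (E : ℕ → ℕ) :
    ∃ S : Finset K, S.card = U.card * ∏ l ∈ Pp, (E l + 1) ∧
      ∀ γ ∈ S, ∃ u ∈ U, ∃ e : ℕ → ℕ, (∀ l ∈ Pp, e l ≤ E l) ∧
        γ = ((u : 𝓞 K) : K) * ∏ l ∈ Pp, (l : K) ^ e l := by
  classical
  let ex : (Pp → ℕ) → ℕ → ℕ := fun e l => if h : l ∈ Pp then e ⟨l, h⟩ else 0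
  let f : (𝓞 K)ˣ × (Pp → ℕ) → K := fun x =>
    ((x.1 : 𝓞 K) : K) * ∏ l ∈ Pp, (l : K) ^ ex x.2 l
  have hf : Function.Injective f := by
    rintro ⟨u, e⟩ ⟨u', e'⟩ h
    obtain ⟨h1, h2⟩ := unit_prod_injective hP h
    refine Prod.ext h1 (funext fun l => ?_)
    have := h2 l l.2
    simpa [ex, l.2] using this
  refine ⟨(U ×ˢ Fintype.piFinset fun l : Pp => range (E l + 1)).image f, ?_, ?_⟩
  · rw [card_image_of_injective _ hf, card_product, Fintype.card_piFinset]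
    simp only [card_range]
    rw [Finset.prod_coe_sort Pp (fun l => E l + 1)]
  · intro γ hγ
    obtain ⟨⟨u, e⟩, hx, rfl⟩ := mem_image.1 hγ
    obtain ⟨hu, he⟩ := mem_product.1 hx
    refine ⟨u, hu, ex e, fun l hl => ?_, rfl⟩
    have := Fintype.mem_piFinset.1 he ⟨l, hl⟩
    simp only [mem_range] at this
    simp only [ex, hl, dif_pos]
    omega

theorem pigeonhole {K : Type} [Field K] (p : ℕ) [hp : Fact p.Prime] (φ : K →+* ℚ_[p]) (κ : ℕ)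
    (S : Finset K) (hS : ∀ γ ∈ S, ‖φ γ‖ ≤ 1) :
    ∃ T ⊆ S, S.card ≤ T.card * p ^ κ ∧
      ∀ γ ∈ T, ∀ γ' ∈ T, ‖φ γ - φ γ'‖ ≤ ((p : ℝ) ^ κ)⁻¹ := by
  classical
  have : NeZero (p ^ κ) := ⟨pow_ne_zero _ hp.out.ne_zero⟩
  let g : K → ZMod (p ^ κ) := fun γ =>
    if h : ‖φ γ‖ ≤ 1 then PadicInt.toZModPow κ (⟨φ γ, h⟩ : ℤ_[p]) else 0
  obtain ⟨c, -, hc⟩ := exists_max_image (univ : Finset (ZMod (p ^ κ)))
    (fun c => (S.filter fun γ => g γ = c).card) univ_nonempty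
  refine ⟨S.filter fun γ => g γ = c, filter_subset _ _, ?_, ?_⟩
  · have := card_le_mul_card_image_of_maps_to (f := g) (s := S)
      (t := (univ : Finset (ZMod (p ^ κ)))) (fun _ _ => mem_univ _) _ (fun b hb => hc b hb)
    rwa [card_univ, ZMod.card] at this
  · intro γ hγ γ' hγ'
    obtain ⟨h1, h2⟩ := mem_filter.1 hγ
    obtain ⟨h1', h2'⟩ := mem_filter.1 hγ'
    have e1 := hS γ h1
    have e2 := hS γ' h1'
    simp only [g, e1, e2, dif_pos] at h2 h2'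
    have hk : (⟨φ γ, e1⟩ - ⟨φ γ', e2⟩ : ℤ_[p]) ∈ RingHom.ker (PadicInt.toZModPow κ) := by
      rw [RingHom.mem_ker, map_sub, h2, h2', sub_self]
    rw [PadicInt.ker_toZModPow, ← PadicInt.norm_le_pow_iff_mem_span_pow] at hk
    rw [zpow_neg, zpow_natCast] at hk
    exact hk

theorem ht_class {K : Type} [Field K] [NumberField K] {Pp : Finset ℕ}
    (hP : ∀ l ∈ Pp, l.Prime) (a₀ : 𝓞 K) (ha : a₀ ≠ 0) (U : Finset (𝓞 K)ˣ)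
    (m : (K →+* ℂ) → ℝ) (hm : ∀ σ, 0 < m σ)
    (hU : ∀ u ∈ U, ∀ σ : K →+* ℂ, ‖σ ((a₀ : K) * ((u : 𝓞 K) : K))‖ ≤ m σ) (E : ℕ → ℕ)
    (Y : ℝ) (hY : (∏ σ, m σ) * (∏ l ∈ Pp, (l : ℝ) ^ E l) ^ finrank ℚ K ≤ Real.exp Y)
    (γ₀ : K) (h0 : γ₀ ≠ 0) (L : Set K)
    (hL : ∀ θ ∈ L, ∃ u ∈ U, ∃ e : ℕ → ℕ, (∀ l ∈ Pp, e l ≤ E l) ∧
        γ₀ * θ = ((u : 𝓞 K) : K) * ∏ l ∈ Pp, (l : K) ^ e l) : Ht L Y := by
  have ha' : (a₀ : K) ≠ 0 := by exact_mod_cast ha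
  have hδ : (a₀ : K) * γ₀ ≠ 0 := mul_ne_zero ha' h0
  have hpos : ∀ σ : K →+* ℂ, 0 < ‖σ ((a₀ : K) * γ₀)‖ := fun σ =>
    norm_pos_iff.2 ((map_ne_zero σ).2 hδ)
  have hQ : 0 < ∏ l ∈ Pp, (l : ℝ) ^ E l :=
    prod_pos fun l hl => pow_pos (by exact_mod_cast (hP l hl).pos) _
  refine ⟨1, (a₀ : K) * γ₀, fun σ => m σ * (∏ l ∈ Pp, (l : ℝ) ^ E l) / ‖σ ((a₀ : K) * γ₀)‖,
    one_pos, hδ, ?_, ?_, ?_, ?_⟩
  · intro θ hθ
    obtain ⟨u, -, e, -, h⟩ := hL θ hθ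
    rw [pow_one, mul_assoc, h]
    refine (RingOfIntegers.isIntegral_coe a₀).mul
      ((RingOfIntegers.isIntegral_coe (u : 𝓞 K)).mul ?_)
    refine IsIntegral.prod _ fun l _ => IsIntegral.pow ?_ _
    exact isIntegral_natCast l
  · intro σ
    exact div_pos (mul_pos (hm σ) hQ) (hpos σ)
  · intro θ hθ σ
    obtain ⟨u, hu, e, he, h⟩ := hL θ hθ
    rw [le_div_iff₀ (hpos σ), ← norm_mul, ← map_mul]
    have : θ * ((a₀ : K) * γ₀) = ((a₀ : K) * ((u : 𝓞 K) : K)) * ∏ l ∈ Pp, (l : K) ^ e l := by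
      rw [mul_assoc, ← h]; ring
    rw [this, map_mul, norm_mul]
    refine mul_le_mul (hU u hu σ) ?_ (norm_nonneg _) (hm σ).le
    rw [map_prod, norm_prod]
    refine prod_le_prod (fun _ _ => norm_nonneg _) fun l hl => ?_
    rw [map_pow, map_natCast, norm_pow, Complex.norm_natCast]
    exact pow_le_pow_right₀ (by exact_mod_cast (hP l hl).one_le) (he l hl)
  · have : ∀ σ : K →+* ℂ, ‖σ ((a₀ : K) * γ₀)‖ *
        (m σ * (∏ l ∈ Pp, (l : ℝ) ^ E l) / ‖σ ((a₀ : K) * γ₀)‖) ^ 1 =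
        m σ * ∏ l ∈ Pp, (l : ℝ) ^ E l := fun σ => by
      rw [pow_one, mul_div_cancel₀ _ (hpos σ).ne']
    rw [prod_congr rfl fun σ _ => this σ, prod_mul_distrib, prod_const, card_univ,
      Embeddings.card K ℂ]
    simpa using hY

theorem pow_le_exp {Λ : ℝ} (h : 0 ≤ Λ) (k : ℕ) : Λ ^ k ≤ Real.exp (k * Λ) := by
  rw [Real.exp_nat_mul]
  exact pow_le_pow_left₀ h (by linarith [Real.add_one_le_exp Λ]) k

theorem big_le_exp {Λ : ℝ} (h : 1 ≤ Λ) : (500000 : ℝ) ≤ Real.exp (23 * Λ) := by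
  have h1 : (2 : ℝ) ≤ Real.exp Λ := by linarith [Real.add_one_le_exp Λ]
  have h2 : (2 : ℝ) ^ 23 ≤ Real.exp Λ ^ 23 := pow_le_pow_left₀ (by norm_num) h1 23
  have h3 : Real.exp (23 * Λ) = Real.exp Λ ^ 23 := by
    rw [← Real.exp_nat_mul]; norm_num
  rw [h3]
  refine le_trans (by norm_num) h2

theorem S_le {d r Λ : ℝ} (hΛ : 1 ≤ Λ) (hd0 : 0 ≤ d) (hr0 : 0 ≤ r) (hd : 2 * d ≤ Λ) (hr : r ≤ Λ) :
    (⌈1320 * d * r ^ 2 * (30 * Λ)⌉₊ : ℝ) ≤ 19801 * Λ ^ 4 := by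
  have h0 : 0 ≤ 1320 * d * r ^ 2 * (30 * Λ) := by positivity
  have h1 := (Nat.ceil_lt_add_one h0).le
  have h2 : r ^ 2 ≤ Λ ^ 2 := pow_le_pow_left₀ hr0 hr 2
  have h3 : d * r ^ 2 ≤ Λ / 2 * Λ ^ 2 := mul_le_mul (by linarith) h2 (by positivity) (by linarith)
  have h4 : 1 ≤ Λ ^ 4 := one_le_pow₀ hΛ
  have h5 : d * r ^ 2 * Λ ≤ Λ / 2 * Λ ^ 2 * Λ := mul_le_mul_of_nonneg_right h3 (by linarith)
  nlinarith

theorem Y_le {d r Λ S Z G a : ℝ} (hΛ : 1 ≤ Λ) (hr0 : 0 ≤ r) (hd : 2 * d ≤ Λ)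
    (hr : r ≤ Λ) (hS0 : 0 ≤ S) (hS : S ≤ 19801 * Λ ^ 4) (hZ : 0 ≤ Z) (hG : 2 * G ≤ Λ)
    (ha0 : 0 ≤ a) (ha : a ≤ 2 + Λ) :
    24 * d * r * S * Z + G + 2 * d * a ≤ 237612 * Λ ^ 6 * (1 + Z) := by
  have h1 : d * r ≤ Λ / 2 * Λ := mul_le_mul (by linarith) hr hr0 (by linarith)
  have h2 : d * r * S ≤ Λ / 2 * Λ * (19801 * Λ ^ 4) :=
    mul_le_mul h1 hS hS0 (by positivity)
  have h3 : d * r * S * Z ≤ Λ / 2 * Λ * (19801 * Λ ^ 4) * Z := mul_le_mul_of_nonneg_right h2 hZ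
  have h4 : 2 * d * a ≤ Λ * (2 + Λ) := mul_le_mul hd ha ha0 (by linarith)
  have h5 : Λ ≤ Λ ^ 6 := le_self_pow₀ hΛ (by norm_num)
  have h6 : Λ ^ 2 ≤ Λ ^ 6 := pow_le_pow_right₀ hΛ (by norm_num)
  nlinarith

theorem count_le {d S Y g W Z N : ℝ} {r : ℕ} (hr : 1 ≤ r) (hg : 0 < g) (hW : 0 < W)
    (hY : 0 ≤ Y) (hZ : Z = W * (2400 * (r : ℝ) / g) ^ (r - 1)) (hYZ : 24 * d * r * S * Z ≤ Y)
    (hN : (Y / (2 * r)) ^ r ≤ N * W) : 12 * d * S * (600 * Y / (g / 2)) ^ (r - 1) ≤ N := by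
  have hr0 : (0 : ℝ) < r := by exact_mod_cast hr
  have hZ0 : 0 < Z := by rw [hZ]; positivity
  have e1 : (600 * Y / (g / 2)) ^ (r - 1) =
      (Y / (2 * r)) ^ (r - 1) * (2400 * (r : ℝ) / g) ^ (r - 1) := by
    rw [← mul_pow]; congr 1; field_simp; ring
  have e2 : (Y / (2 * r)) ^ r = Y / (2 * r) * (Y / (2 * r)) ^ (r - 1) := by
    conv_lhs => rw [show r = (r - 1) + 1 by omega]
    rw [pow_succ']
    simp only [show r - 1 + 1 = r by omega]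
  have h1 : 12 * d * S * Z ≤ Y / (2 * r) := by
    rw [le_div_iff₀ (by positivity)]; linarith
  have h2 : 0 ≤ (Y / (2 * r)) ^ (r - 1) := by positivity
  refine le_of_mul_le_mul_right ?_ hW
  refine le_trans ?_ hN
  rw [e1, e2]
  calc 12 * d * S * ((Y / (2 * r)) ^ (r - 1) * (2400 * (r : ℝ) / g) ^ (r - 1)) * W
      = 12 * d * S * Z * (Y / (2 * r)) ^ (r - 1) := by rw [hZ]; ring
    _ ≤ _ := mul_le_mul_of_nonneg_right h1 h2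

end Pool.Agent.P.MP_9ec3f0_nt.SY.PadicBoundAux
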