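import Pool.Agent.P.MP_9ec3f0_nt.SY.Defs

/-! The saturated group generated by the units and a finite set of rational primes. -/

namespace Pool.Agent.P.MP_9ec3f0_nt.SY

open NumberField IsDedekindDomain Finset Module

set_option linter.unusedSectionVars false

section Sat
variable {K : Type} [Field K] [NumberField K]

theorem inSat_one (P : Finset ℕ) : InSat P (1 : K) := ⟨1, 1, 0, one_pos, by simp⟩

theorem InSat.mul {P : Finset ℕ} (hP : ∀ l ∈ P, l.Prime) {θ η : K} (h : InSat P θ)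
    (h' : InSat P η) : InSat P (θ * η) := by
  obtain ⟨N, u, e, hN, h⟩ := h
  obtain ⟨N', u', e', hN', h'⟩ := h'
  refine ⟨N * N', u ^ N' * u' ^ N, fun l => e l * N' + e' l * N, Nat.mul_pos hN hN', ?_⟩
  have e1 : ∏ l ∈ P, (l : K) ^ (e l * N' + e' l * N) =
      (∏ l ∈ P, (l : K) ^ e l) ^ N' * (∏ l ∈ P, (l : K) ^ e' l) ^ N := by
    rw [← Finset.prod_pow, ← Finset.prod_pow, ← Finset.prod_mul_distrib]
    refine Finset.prod_congr rfl fun l hl => ?_
    have : (l : K) ≠ 0 := by exact_mod_cast (hP l hl).ne_zero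
    rw [zpow_add₀ this, zpow_mul, zpow_mul, zpow_natCast, zpow_natCast]
  rw [e1, mul_pow, pow_mul, h, mul_comm N N', pow_mul, h']
  push_cast
  ring

theorem InSat.inv {P : Finset ℕ} (hP : ∀ l ∈ P, l.Prime) {θ : K} (h : InSat P θ) :
    InSat P θ⁻¹ := by
  obtain ⟨N, u, e, hN, h⟩ := h
  refine ⟨N, u⁻¹, fun l => -e l, hN, ?_⟩
  rw [inv_pow, h, mul_inv, ← Finset.prod_inv_distrib]
  congr 1
  · simp
  · exact Finset.prod_congr rfl fun l _ => by rw [zpow_neg]

theorem InSat.of_pow {P : Finset ℕ} {θ : K} {n : ℕ} (hn : 0 < n) (h : InSat P (θ ^ n)) :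
    InSat P θ := by
  obtain ⟨N, u, e, hN, h⟩ := h
  exact ⟨n * N, u, e, Nat.mul_pos hn hN, by rw [pow_mul, h]⟩

namespace SatAux

theorem inSat_int {P : Finset ℕ} {u : ℤ} (hu : u ≠ 0)
    (h : ∀ l : ℕ, l.Prime → (l : ℤ) ∣ u → l ∈ P) : InSat P (u : K) := by
  refine ⟨2, 1, fun l => (u.natAbs.factorization l * 2 : ℕ), two_pos, ?_⟩
  have h0 : u.natAbs ≠ 0 := Int.natAbs_ne_zero.2 hu
  have h1 : u.natAbs = ∏ l ∈ P, l ^ u.natAbs.factorization l := by
    conv_lhs => rw [← Nat.prod_factorization_pow_eq_self h0]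
    refine Finsupp.prod_of_support_subset _ (fun l hl => ?_) _ (fun _ _ => pow_zero _)
    rw [Nat.support_factorization, Nat.mem_primeFactors] at hl
    exact h l hl.1 (Int.natCast_dvd.2 hl.2.1)
  have h2 : (u : K) ^ 2 = ((u.natAbs : ℕ) : K) ^ 2 := by
    have : u ^ 2 = ((u.natAbs : ℕ) : ℤ) ^ 2 := (Int.natAbs_sq u).symm
    rw [← Int.cast_pow, this, Int.cast_pow, Int.cast_natCast]
  rw [h2]
  conv_lhs => rw [h1]
  simp only [zpow_natCast, pow_mul, Finset.prod_pow]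
  simp

theorem factorization_prod {P : Finset ℕ} (hP : ∀ l ∈ P, l.Prime) (e : ℕ → ℕ) {q : ℕ}
    (hq : q ∈ P) : (∏ l ∈ P, l ^ e l).factorization q = e q := by
  rw [Nat.factorization_prod fun l hl => pow_ne_zero _ (hP l hl).ne_zero, Finsupp.finsetSum_apply,
    Finset.sum_eq_single q]
  · rw [(hP q hq).factorization_pow, Finsupp.single_eq_same]
  · intro l hl hlq
    rw [(hP l hl).factorization_pow, Finsupp.single_eq_of_ne (Ne.symm hlq)]
  · intro h; exact absurd hq h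

theorem dep {A ι : Type} [AddCommGroup A] [Module.Free ℤ A] [Module.Finite ℤ A] [Fintype ι]
    {n : ℕ} (hn : finrank ℤ A + Fintype.card ι < n) (a : Fin n → A) (e : Fin n → ι → ℤ) :
    ∃ g : Fin n → ℤ, ∑ i, g i • a i = 0 ∧ (∀ l, ∑ i, e i l * g i = 0) ∧ ∃ i, g i ≠ 0 := by
  have hdep : ¬ LinearIndependent ℤ fun i => ((a i, e i) : A × (ι → ℤ)) := fun hli => by
    have h1 := hli.fintype_card_le_finrank
    rw [Module.finrank_prod] at h1
    simp at h1
    omega
  obtain ⟨g, hg, h⟩ := Fintype.not_linearIndependent_iff.1 hdep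
  refine ⟨g, ?_, fun l => ?_, h⟩
  · have h2 := congrArg Prod.fst hg
    rw [Prod.fst_sum] at h2
    simpa using h2
  · have h2 := congrFun (congrArg Prod.snd hg) l
    rw [Prod.snd_sum, Finset.sum_apply] at h2
    simpa [mul_comm] using h2

end SatAux

theorem inSat_rat {P : Finset ℕ} (hP : ∀ l ∈ P, l.Prime) {u v : ℤ} (hu : u ≠ 0) (hv : v ≠ 0)
    (h : ∀ l : ℕ, l.Prime → (l : ℤ) ∣ u * v → l ∈ P) : InSat P ((u : K) / v) := by
  rw [div_eq_mul_inv]
  exact (SatAux.inSat_int hu fun l hl hd => h l hl (hd.mul_right _)).mul hP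
    ((SatAux.inSat_int hv fun l hl hd => h l hl (hd.mul_left _)).inv hP)

theorem inSat_rank {P : Finset ℕ} (hP : ∀ l ∈ P, l.Prime)
    (s : Fin (Units.rank K + P.card + 1) → Kˣ) (hs : ∀ i, InSat P (s i : K)) :
    ∃ n : Fin (Units.rank K + P.card + 1) → ℤ, n ≠ 0 ∧ ∏ i, s i ^ n i = 1 := by
  choose N u e hN h using hs
  obtain ⟨g, hg, h2, i0, hi0⟩ := SatAux.dep (A := Additive ((𝓞 K)ˣ ⧸ Units.torsion K)) (ι := P)
    (n := Units.rank K + P.card + 1) (by rw [Units.finrank_modTorsion]; simp)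
    (fun i => Additive.ofMul (QuotientGroup.mk (u i))) (fun i l => e i l)
  have h1 : ∏ i, u i ^ g i ∈ Units.torsion K := by
    rw [← QuotientGroup.eq_one_iff]
    have h3 : ((∏ i, u i ^ g i : (𝓞 K)ˣ) : (𝓞 K)ˣ ⧸ Units.torsion K) =
        ∏ i, (QuotientGroup.mk (u i) : (𝓞 K)ˣ ⧸ Units.torsion K) ^ g i := by
      simp [QuotientGroup.mk_prod]
    rw [h3]
    apply Additive.ofMul.injective
    rw [ofMul_prod]
    simpa using hg
  have hfin : IsOfFinOrder (∏ i, u i ^ g i) := h1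
  obtain ⟨t, ht, ht'⟩ := hfin.exists_pow_eq_one
  refine ⟨fun i => N i * g i * t, fun h0 => ?_, ?_⟩
  · have := congrFun h0 i0
    have h3 := (hN i0).ne'
    simp [hi0, h3, ht.ne'] at this
  · let U : (𝓞 K)ˣ →* Kˣ := Units.map (algebraMap (𝓞 K) K).toMonoidHom
    let lam : P → Kˣ := fun l => Units.mk0 ((l : ℕ) : K) (by exact_mod_cast (hP l l.2).ne_zero)
    have h3 : ∀ i, s i ^ (N i : ℤ) = U (u i) * ∏ l : P, lam l ^ e i l := fun i => by
      ext
      rw [zpow_natCast, Units.val_pow_eq_pow_val, h i, ← Finset.prod_coe_sort P]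
      simp [U, lam]
    have h4 : ∏ i, (s i ^ (N i : ℤ)) ^ g i = U (∏ i, u i ^ g i) := by
      simp only [h3, mul_zpow, Finset.prod_mul_distrib, ← Finset.prod_zpow, ← zpow_mul]
      rw [Finset.prod_comm]
      have : ∀ l : P, ∏ i, lam l ^ (e i l * g i) = 1 := fun l => by
        rw [← zpow_zero (lam l), ← h2 l]
        induction (univ : Finset (Fin (Units.rank K + P.card + 1))) using Finset.induction_on with
        | empty => simp
        | insert a t ha ih => rw [Finset.prod_insert ha, Finset.sum_insert ha, zpow_add, ih]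
      simp [this]
    simp only [zpow_mul, Finset.prod_zpow]
    rw [h4, zpow_natCast, ← map_pow, ht', map_one]

theorem unit_prod_injective {P : Finset ℕ} (hP : ∀ l ∈ P, l.Prime) {u u' : (𝓞 K)ˣ} {e e' : ℕ → ℕ}
    (h : ((u : 𝓞 K) : K) * ∏ l ∈ P, (l : K) ^ e l = ((u' : 𝓞 K) : K) * ∏ l ∈ P, (l : K) ^ e' l) :
    u = u' ∧ ∀ l ∈ P, e l = e' l := by
  have hA : ∀ f : ℕ → ℕ, ∏ l ∈ P, (l : K) ^ f l = algebraMap ℚ K ((∏ l ∈ P, l ^ f l : ℕ) : ℚ) :=
    fun f => by simp
  have h1 := congrArg (fun x => |Algebra.norm ℚ x|) h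
  simp only [hA, map_mul, abs_mul, Algebra.norm_algebraMap] at h1
  have hu : ∀ w : (𝓞 K)ˣ, |Algebra.norm ℚ ((w : 𝓞 K) : K)| = 1 := fun w => Units.norm K w
  rw [hu, hu, one_mul, one_mul, abs_of_nonneg (by positivity), abs_of_nonneg (by positivity),
    pow_left_inj₀ (by positivity) (by positivity) Module.finrank_pos.ne'] at h1
  have h2 : ∏ l ∈ P, l ^ e l = ∏ l ∈ P, l ^ e' l := by exact_mod_cast h1
  refine ⟨?_, fun l hl => ?_⟩
  · rw [hA, hA, h2] at h
    have h0 : algebraMap ℚ K ((∏ l ∈ P, l ^ e' l : ℕ) : ℚ) ≠ 0 := by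
      rw [map_ne_zero]
      exact_mod_cast Finset.prod_ne_zero_iff.2 fun l hl => pow_ne_zero _ (hP l hl).ne_zero
    have := mul_right_cancel₀ h0 h
    ext
    exact this
  · rw [← SatAux.factorization_prod hP e hl, h2, SatAux.factorization_prod hP e' hl]

end Sat

end Pool.Agent.P.MP_9ec3f0_nt.SY
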