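import Pool.Agent.P.MP_9ec3f0_nt.SY.PadicExp
import Pool.Agent.P.MP_9ec3f0_nt.SY.Sat
import Pool.Agent.P.MP_9ec3f0_nt.SY.Liouville

namespace Pool.Agent.P.MP_9ec3f0_nt.SY

open NumberField IsDedekindDomain Finset Module

namespace PadicSetupAux

variable {p : ℕ} [Fact p.Prime]

theorem norm_eq_one {x : ℚ_[p]} (h : ‖x - 1‖ < 1) : ‖x‖ = 1 := by
  have h1 : ‖x - 1‖ ≠ ‖(1 : ℚ_[p])‖ := by rw [norm_one]; exact h.ne
  have := IsUltrametricDist.norm_add_eq_max_of_norm_ne_norm h1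
  rwa [sub_add_cancel, norm_one, max_eq_right h.le] at this

theorem norm_nat_le (n : ℕ) : ‖(n : ℚ_[p])‖ ≤ 1 := by
  simpa using Padic.norm_int_le_one (p := p) (n : ℤ)

/-- Elements close to `1` a power of which is a unit times a product of primes of `Pp`. -/
def grp (K : Type) [Field K] [NumberField K] (p : ℕ) [Fact p.Prime] [Algebra K ℚ_[p]] {ε : ℝ}
    (h0 : 0 ≤ ε) (h1 : ε < 1) (Pp : Finset ℕ) (hP : ∀ l ∈ Pp, l.Prime) : Subgroup Kˣ where
  carrier := {θ | ‖algebraMap K ℚ_[p] (θ : K) - 1‖ ≤ ε ∧ InSat Pp (θ : K)}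
  mul_mem' := fun {a b} ha hb => by
    refine ⟨?_, by rw [Units.val_mul]; exact ha.2.mul hP hb.2⟩
    have e : algebraMap K ℚ_[p] ((a * b : Kˣ) : K) - 1 = algebraMap K ℚ_[p] (a : K) *
        (algebraMap K ℚ_[p] (b : K) - 1) + (algebraMap K ℚ_[p] (a : K) - 1) := by
      rw [Units.val_mul, map_mul]; ring
    rw [e]
    refine (IsUltrametricDist.norm_add_le_max _ _).trans (max_le ?_ ha.1)
    rw [norm_mul, norm_eq_one (ha.1.trans_lt h1), one_mul]
    exact hb.1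
  one_mem' := ⟨by simpa using h0, by simpa using inSat_one Pp⟩
  inv_mem' := fun {a} ha => by
    refine ⟨?_, by rw [Units.val_inv_eq_inv_val]; exact ha.2.inv hP⟩
    have hn := norm_eq_one (ha.1.trans_lt h1)
    have hne : algebraMap K ℚ_[p] (a : K) ≠ 0 := by
      intro h; rw [h] at hn; simp at hn
    have e : algebraMap K ℚ_[p] ((a⁻¹ : Kˣ) : K) - 1 = -(algebraMap K ℚ_[p] (a : K))⁻¹ *
        (algebraMap K ℚ_[p] (a : K) - 1) := by
      rw [Units.val_inv_eq_inv_val, map_inv₀]; field_simp; ring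
    rw [e, norm_mul, norm_neg, norm_inv, hn, inv_one, one_mul]
    exact ha.1

theorem zmod_two : ∀ t : ZMod 2, t * t + t + 1 ≠ 0 := by decide

theorem exists_q (p : ℕ) [Fact p.Prime] : ∃ q : ℕ, (q = 2 ∨ q = 3) ∧ ‖(q : ℚ_[p])‖ = 1 ∧
    ∀ z : ℚ_[p], z ^ q = 1 → z = 1 ∨ z = -1 := by
  by_cases hp : p = 2
  · subst hp
    refine ⟨3, Or.inr rfl, Padic.norm_natCast_eq_one_iff.2 (by norm_num), fun z hz => Or.inl ?_⟩
    have hn : ‖z‖ = 1 := by
      have := congrArg norm hz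
      rw [norm_pow, norm_one] at this
      exact (pow_eq_one_iff_of_nonneg (norm_nonneg z) (by norm_num)).1 this
    by_contra h1
    have h2 : z ^ 2 + z + 1 = 0 := by
      have : (z - 1) * (z ^ 2 + z + 1) = 0 := by linear_combination hz
      exact (mul_eq_zero.1 this).resolve_left (sub_ne_zero.2 h1)
    obtain ⟨u, hu⟩ : ∃ u : ℤ_[2], (u : ℚ_[2]) = z := ⟨⟨z, hn.le⟩, rfl⟩
    have h3 : u ^ 2 + u + 1 = 0 := PadicInt.ext (by simpa [hu] using h2)
    have h4 := congrArg (PadicInt.toZMod (p := 2)) h3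
    simp only [map_add, map_pow, map_one, map_zero] at h4
    generalize PadicInt.toZMod u = t at h4
    exact zmod_two t (by rw [← h4]; ring)
  · exact ⟨2, Or.inl rfl, Padic.norm_natCast_eq_one_iff.2
      ((Nat.coprime_primes Fact.out Nat.prime_two).2 hp), fun z hz => sq_eq_one_iff.1 hz⟩

theorem norm_inv_nat (n : ℕ) (hn : 1 ≤ n) : ‖(n : ℚ_[p])⁻¹‖ ≤ n := by
  have h0 : (n : ℚ_[p]) ≠ 0 := by exact_mod_cast (by omega : n ≠ 0)
  rw [norm_inv, Padic.norm_eq_zpow_neg_valuation h0, Padic.valuation_natCast, zpow_neg, inv_inv,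
    zpow_natCast]
  exact_mod_cast Nat.le_of_dvd hn pow_padicValNat_dvd

theorem schwarz {G : ℝ} {q : ℕ} (hq : ‖(q : ℚ_[p])‖ = 1) (hG : 256 ≤ Real.exp G ^ 2) (n : ℕ)
    (hn : 1 ≤ n) (S : ℕ) :
    ∃ ρ σ Z B : ℝ, 0 ≤ σ ∧ σ < ρ ∧ 0 ≤ Z ∧ (∀ s : ℕ, s ≤ S → ‖(s : ℚ_[p])‖ ≤ σ) ∧
      (∀ s' : ℕ, s' ≤ 2 * q * S → ‖(s' : ℚ_[p]) / q‖ ≤ ρ ∧
        ∀ s : ℕ, s ≤ S → ‖(s' : ℚ_[p]) / q - s‖ ≤ Z) ∧
      (∀ w : ℚ_[p], ‖w‖ ≤ (Real.exp G ^ 2)⁻¹ → ∀ N : ℕ,
        ∑ k ∈ range N, ‖w ^ k / (k.factorial : ℚ_[p])‖ * ρ ^ k ≤ B) ∧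
      B * (Z / (ρ - σ)) ^ n ≤ Real.exp (-(G * n)) := by
  have hx0 := Real.exp_pos G
  have e2 : Real.exp (-(G * n)) = (Real.exp G)⁻¹ ^ n := by
    rw [← Real.exp_neg, ← Real.exp_nat_mul]; congr 1; ring
  rw [e2]
  generalize Real.exp G = x at hG hx0
  have hx : 16 ≤ x := by nlinarith
  have hdiv : ∀ s' : ℕ, ‖(s' : ℚ_[p]) / q‖ ≤ 1 := fun s' => by
    rw [norm_div, hq, div_one]; exact norm_nat_le s'
  refine ⟨x ^ 2 / 4, 1, 1, 2, zero_le_one, by linarith, zero_le_one, fun s _ => norm_nat_le s,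
    fun s' _ => ⟨(hdiv s').trans (by linarith), fun s _ => ?_⟩, fun w hw N => ?_, ?_⟩
  · rw [sub_eq_add_neg]
    refine (IsUltrametricDist.norm_add_le_max _ _).trans (max_le (hdiv s') ?_)
    rw [norm_neg]; exact norm_nat_le s
  · refine le_trans (Finset.sum_le_sum fun k _ => ?_) (sum_geometric_two_le N)
    have h1 : ‖(k.factorial : ℚ_[p])⁻¹‖ ≤ 2 ^ k :=
      (norm_inv_factorial p k).trans (pow_le_pow_right₀ one_le_two (Nat.sub_le k 1))
    have h2 : ‖w‖ * (x ^ 2 / 4) ≤ 1 / 4 := by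
      have := mul_le_mul_of_nonneg_right hw (show 0 ≤ x ^ 2 / 4 by positivity)
      rwa [← mul_div_assoc (x ^ 2)⁻¹, inv_mul_cancel₀ (by positivity)] at this
    calc ‖w ^ k / (k.factorial : ℚ_[p])‖ * (x ^ 2 / 4) ^ k
        = (‖w‖ * (x ^ 2 / 4)) ^ k * ‖(k.factorial : ℚ_[p])⁻¹‖ := by
          rw [div_eq_mul_inv, norm_mul, norm_pow, mul_pow]; ring
      _ ≤ (1 / 4) ^ k * 2 ^ k := by gcongr
      _ = (1 / 2) ^ k := by rw [← mul_pow]; norm_num
  · have h1 : 1 / (x ^ 2 / 4 - 1) ≤ 1 / 2 * x⁻¹ := by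
      rw [← one_div x, one_div_mul_one_div]
      exact one_div_le_one_div_of_le (by positivity) (by nlinarith)
    have h2 : (1 / 2 : ℝ) ^ n ≤ 1 / 2 := pow_le_of_le_one (by norm_num) (by norm_num) (by omega)
    have h3 : (1 / (x ^ 2 / 4 - 1)) ^ n ≤ (1 / 2 * x⁻¹) ^ n :=
      pow_le_pow_left₀ (div_nonneg zero_le_one (by linarith)) h1 n
    rw [mul_pow] at h3
    have h4 : 0 ≤ x⁻¹ ^ n := by positivity
    nlinarith

end PadicSetupAux

open PadicSetupAux in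
theorem exists_padic_setup (K : Type) [Field K] [NumberField K] (p : ℕ) [Fact p.Prime]
    [Algebra K ℚ_[p]] (κ : ℕ) (h256 : 256 ≤ p ^ κ)
    (hd : 2 * (finrank ℚ K : ℝ) ≤ κ * Real.log p) (Pp : Finset ℕ) (hP : ∀ l ∈ Pp, l.Prime)
    (hne : Pp.Nonempty) :
    ∃ P : Setup K ℚ_[p], P.r = Units.rank K + Pp.card ∧ P.G = κ * Real.log p / 2 ∧
      (∀ Y, P.Ω Y = ((p : ℝ) ^ κ)⁻¹) ∧
      (∀ θ : Kˣ, θ ∈ P.A ↔
        ‖algebraMap K ℚ_[p] (θ : K) - 1‖ ≤ ((p : ℝ) ^ κ)⁻¹ ∧ InSat Pp (θ : K)) ∧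
      ∀ θ : P.A, ‖P.lg θ‖ = ‖algebraMap K ℚ_[p] (P.val θ) - 1‖ := by
  obtain ⟨E, L, hE, hadd, hL⟩ := exists_exp_log p
  obtain ⟨q, hq, hqn, hroot⟩ := exists_q p
  have hp0 : (0 : ℝ) < p := by exact_mod_cast (Fact.out : p.Prime).pos
  have h256' : (256 : ℝ) ≤ (p : ℝ) ^ κ := by exact_mod_cast h256
  have hε0 : 0 ≤ ((p : ℝ) ^ κ)⁻¹ := by positivity
  have hε4 : ((p : ℝ) ^ κ)⁻¹ ≤ 1 / 4 := by
    rw [one_div]; exact inv_anti₀ (by norm_num) (by linarith)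
  have hε1 : ((p : ℝ) ^ κ)⁻¹ < 1 := by linarith
  have hd1 : (1 : ℝ) ≤ finrank ℚ K := by exact_mod_cast (finrank_pos (R := ℚ) (M := K))
  have hexp : Real.exp (κ * Real.log p) = (p : ℝ) ^ κ := by
    rw [Real.exp_nat_mul, Real.exp_log hp0]
  have hexp2 : Real.exp (κ * Real.log p / 2) ^ 2 = (p : ℝ) ^ κ := by
    rw [← Real.exp_nat_mul, ← hexp]; congr 1; push_cast; ring
  have hq0 : (q : ℚ_[p]) ≠ 0 := by intro h; rw [h] at hqn; simp at hqn
  have hq1 : (1 : ℝ) ≤ q := by rcases hq with rfl | rfl <;> norm_num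
  have hpow : ∀ (w : ℚ_[p]) (n : ℕ), ‖w‖ ≤ 1 / 4 → E (n * w) = E w ^ n := fun w n hw => by
    induction n with
    | zero =>
      have := (hE 0 (by simp)).2.1
      rw [norm_zero, norm_eq_zero, sub_eq_zero] at this
      simp [this]
    | succ n ih =>
      have h1 : ‖(n : ℚ_[p]) * w‖ ≤ 1 / 4 := by
        rw [norm_mul]
        exact (mul_le_of_le_one_left (norm_nonneg _) (norm_nat_le n)).trans hw
      rw [Nat.cast_succ, add_mul, one_mul, hadd _ _ h1 hw, ih, pow_succ]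
  set A := grp K p hε0 hε1 Pp hP with hA
  have h4 : ∀ θ : A, ‖algebraMap K ℚ_[p] ((θ : Kˣ) : K) - 1‖ ≤ 1 / 4 := fun θ => θ.2.1.trans hε4
  have hl4 : ∀ θ : A, ‖L (algebraMap K ℚ_[p] ((θ : Kˣ) : K))‖ ≤ 1 / 4 := fun θ =>
    (hL _ (h4 θ)).1.trans_le (h4 θ)
  have hlq : ∀ θ : A, ‖L (algebraMap K ℚ_[p] ((θ : Kˣ) : K)) / q‖
      = ‖algebraMap K ℚ_[p] ((θ : Kˣ) : K) - 1‖ := fun θ => by
    rw [norm_div, hqn, div_one, (hL _ (h4 θ)).1]
  have hlq4 := fun θ : A => (hlq θ).trans_le (h4 θ)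
  have hmul : ∀ θ η : A, L (algebraMap K ℚ_[p] ((θ * η : A) : Kˣ)) =
      L (algebraMap K ℚ_[p] ((θ : Kˣ) : K)) + L (algebraMap K ℚ_[p] ((η : Kˣ) : K)) := by
    intro θ η
    have h1 := (hE _ ((IsUltrametricDist.norm_add_le_max _ _).trans
      (max_le (hl4 θ) (hl4 η)))).2.2
    rw [hadd _ _ (hl4 θ) (hl4 η), (hL _ (h4 θ)).2, (hL _ (h4 η)).2] at h1
    rw [← h1, Subgroup.coe_mul, Units.val_mul, map_mul]
  have hyq : ∀ θ : A, E (L (algebraMap K ℚ_[p] ((θ : Kˣ) : K)) / q) ^ q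
      = algebraMap K ℚ_[p] ((θ : Kˣ) : K) := fun θ => by
    rw [← hpow _ _ (hlq4 θ), mul_div_cancel₀ _ hq0, (hL _ (h4 θ)).2]
  have hliou : ∀ (θ : A) (Y : ℝ), θ ≠ 1 → Ht {1, ((θ : Kˣ) : K)} Y →
      κ * Real.log p ≤ finrank ℚ K * Real.log 2 + Y := fun θ Y h1 hH => by
    have h2 := (liouville_sub_one (liou_padic K p)
      (fun e => h1 (Subtype.ext (Units.ext e))) hH).trans θ.2.1
    rw [← hexp, ← Real.exp_neg, Real.exp_le_exp] at h2
    linarith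
  have hlog : Real.log 2 < 1 := Real.log_two_lt_d9.trans (by norm_num)
  have hdl : finrank ℚ K * Real.log 2 ≤ finrank ℚ K :=
    mul_le_of_le_one_right (by positivity) hlog.le
  refine ⟨{ q := q
            hq := hq
            A := A
            r := Units.rank K + Pp.card
            hr := le_add_left hne.card_pos
            rank_le := fun s => ?_
            lg := fun θ => L (algebraMap K ℚ_[p] ((θ : Kˣ) : K))
            lg_mul := hmul
            y := fun θ => E (L (algebraMap K ℚ_[p] ((θ : Kˣ) : K)) / q)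
            y_mul := fun θ η => ?_
            y_pow := hyq
            roots := fun z hz => ?_
            closed := fun θ η h => ?_
            G := κ * Real.log p / 2
            hG := by linarith
            Ω := fun _ => ((p : ℝ) ^ κ)⁻¹
            Ω_div := fun Y => ?_
            Ω_le := fun Y t hY ht => ?_
            hasSum := fun θ s => ?_
            norm_inv_nat := norm_inv_nat
            norm_inv_fact := fun k => (norm_inv_factorial p k).trans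
              (pow_le_pow_right₀ one_le_two (Nat.sub_le k 1))
            norm_val := fun θ => ?_
            schwarz := fun Y S t n hY hS ht hn => ?_
            liou := liou_padic K p
            gap := fun θ Y h1 hH => ?_
            fin := fun θ Y h1 hY hH _ => ?_ }, rfl, rfl, fun _ => rfl, fun _ => Iff.rfl,
    fun θ => (hL _ (h4 θ)).1⟩
  · obtain ⟨n, hn, h⟩ := inSat_rank hP (fun i => (s i : Kˣ)) fun i => (s i).2.2
    refine ⟨n, hn, Subtype.ext ?_⟩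
    simpa using h
  · rw [hmul, add_div, hadd _ _ (hlq4 θ) (hlq4 η)]
  · rcases hroot z hz with rfl | rfl
    · exact ⟨1, by simp⟩
    · exact ⟨-1, by simp⟩
  · refine ⟨?_, InSat.of_pow (n := q) (by exact_mod_cast zero_lt_one.trans_le hq1) ?_⟩
    · rw [h, (hE _ (hlq4 θ)).2.1, hlq]
      exact θ.2.1
    · have e : (η : K) ^ q = ((θ : Kˣ) : K) :=
        (algebraMap K ℚ_[p]).injective (by rw [map_pow, h, hyq])
      rw [e]
      exact θ.2.2
  · rw [norm_inv, hqn, inv_one, one_mul]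
  · have h1 : (9 : ℝ) ≤ 18 * Y / (κ * Real.log p / 2) := by
      rw [le_div_iff₀ (by linarith)]; linarith
    linarith
  · have e : (s : ℚ_[p]) / q * L (algebraMap K ℚ_[p] ((θ : Kˣ) : K))
        = s * (L (algebraMap K ℚ_[p] ((θ : Kˣ) : K)) / q) := by ring
    rw [e, ← hpow _ _ (hlq4 θ)]
    refine (hE _ ?_).1
    rw [norm_mul]
    exact (mul_le_of_le_one_left (norm_nonneg _) (norm_nat_le s)).trans (hlq4 θ)
  · rw [norm_eq_one ((h4 θ).trans_lt (by norm_num))]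
    exact Real.one_le_exp (norm_nonneg _)
  · have h1 : (9 : ℝ) ≤ 18 * Y / (κ * Real.log p / 2) := by
      rw [le_div_iff₀ (by linarith)]; linarith
    have h2 : 9 ≤ t := by exact_mod_cast h1.trans ht
    have h3 : 1 ≤ n := by nlinarith
    rw [← hexp2]
    exact schwarz hqn (hexp2 ▸ h256') n h3 S
  · have := hliou θ Y h1 hH
    linarith
  · have := hliou θ Y h1 hH
    linarith

end Pool.Agent.P.MP_9ec3f0_nt.SY
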