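import Pool.Agent.P.MP_9ec3f0_nt.SY.Defs

namespace Pool.Agent.P.MP_9ec3f0_nt.SY

open NumberField IsDedekindDomain Finset Module

namespace UnitsAux

/-- Sums of monomials are bounded by products of geometric sums. -/
lemma sum_pi_le {ι : Type} [Fintype ι] (x b : ι → ℝ) (hx : ∀ i, 0 ≤ x i)
    (hb : ∀ i N, ∑ k ∈ range N, x i ^ k ≤ b i) (E : Finset (ι → ℕ)) :
    ∑ e ∈ E, ∏ i, x i ^ e i ≤ ∏ i, b i := by
  classical
  set N := E.sup (fun e => univ.sup e) + 1 with hN
  have hsub : E ⊆ Fintype.piFinset (fun _ : ι => range N) := by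
    intro e he
    refine Fintype.mem_piFinset.2 fun i => mem_range.2 ?_
    have h1 : e i ≤ univ.sup e := le_sup (f := e) (mem_univ i)
    have h2 : univ.sup e ≤ E.sup (fun e => univ.sup e) := le_sup (f := fun e => univ.sup e) he
    omega
  calc ∑ e ∈ E, ∏ i, x i ^ e i
      ≤ ∑ e ∈ Fintype.piFinset (fun _ : ι => range N), ∏ i, x i ^ e i :=
        sum_le_sum_of_subset_of_nonneg hsub fun e _ _ =>
          prod_nonneg fun i _ => pow_nonneg (hx i) _
    _ = ∏ i, ∑ k ∈ range N, x i ^ k :=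
        (Finset.prod_univ_sum (fun _ : ι => range N) (fun i k => x i ^ k)).symm
    _ ≤ ∏ i, b i :=
        prod_le_prod (fun i _ => sum_nonneg fun k _ => pow_nonneg (hx i) _) fun i _ => hb i N

lemma geom_le {x : ℝ} (h0 : 0 ≤ x) (h1 : x ≤ 1 / 4) (N : ℕ) :
    ∑ k ∈ range N, x ^ k ≤ Real.exp (2 * x) := by
  have h : ∑ k ∈ range N, x ^ k ≤ 1 + 2 * x := by
    induction N with
    | zero => simp only [range_zero, sum_empty]; linarith
    | succ N ih =>
      rw [geom_sum_succ]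
      have := mul_le_mul_of_nonneg_left ih h0
      nlinarith
  linarith [Real.add_one_le_exp (2 * x)]

variable {K : Type} [Field K] [NumberField K]

/-- At most `d` primes have a given norm. -/
lemma card_primes_le (n : ℕ) (hn : 2 ≤ n) (P : Finset (Ideal (𝓞 K)))
    (hP : ∀ p ∈ P, Prime p ∧ Ideal.absNorm p = n) : P.card ≤ finrank ℚ K := by
  have h1 : (∏ p ∈ P, p) ∣ Ideal.span {(n : 𝓞 K)} := by
    refine Finset.prod_primes_dvd _ (fun p hp => (hP p hp).1) fun p hp => ?_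
    rw [Ideal.dvd_span_singleton, ← (hP p hp).2]
    exact Ideal.absNorm_mem p
  have h2 := map_dvd (Ideal.absNorm (S := 𝓞 K)) h1
  rw [map_prod, prod_congr rfl (fun p hp => (hP p hp).2), prod_const, Ideal.absNorm_span_natCast,
    RingOfIntegers.rank] at h2
  exact (Nat.pow_dvd_pow_iff_le_right (by omega)).1 h2

lemma two_le_absNorm {p : Ideal (𝓞 K)} (hp : Prime p) : 2 ≤ Ideal.absNorm p := by
  have h0 : Ideal.absNorm p ≠ 0 := fun h => hp.ne_zero (Ideal.absNorm_eq_zero_iff.1 h)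
  have h1 : Ideal.absNorm p ≠ 1 := fun h =>
    hp.not_isUnit (Ideal.isUnit_iff.2 (Ideal.absNorm_eq_one_iff.1 h))
  omega

lemma sum_primes_le (P : Finset (Ideal (𝓞 K))) (hP : ∀ p ∈ P, Prime p) :
    ∑ p ∈ P, ((Ideal.absNorm p : ℝ) ^ 2)⁻¹ ≤ finrank ℚ K := by
  classical
  set N := P.sup (fun p => Ideal.absNorm p) + 1 with hN
  have hmaps : ∀ p ∈ P, Ideal.absNorm p ∈ Ioc 1 N := by
    intro p hp
    have h1 := two_le_absNorm (hP p hp)
    have h2 : Ideal.absNorm p ≤ P.sup (fun p => Ideal.absNorm p) :=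
      le_sup (f := fun p => Ideal.absNorm p) hp
    exact mem_Ioc.2 ⟨by omega, by omega⟩
  rw [← sum_fiberwise_of_maps_to hmaps]
  have h1 : ∀ n ∈ Ioc 1 N, ∑ p ∈ P with Ideal.absNorm p = n, ((Ideal.absNorm p : ℝ) ^ 2)⁻¹
      ≤ finrank ℚ K * ((n : ℝ) ^ 2)⁻¹ := by
    intro n hn
    rw [sum_congr rfl (g := fun _ => ((n : ℝ) ^ 2)⁻¹) (fun p hp => by rw [(mem_filter.1 hp).2]),
      sum_const, nsmul_eq_mul]
    refine mul_le_mul_of_nonneg_right (Nat.cast_le.2 ?_) (by positivity)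
    exact card_primes_le n (mem_Ioc.1 hn).1 _ fun p hp =>
      ⟨hP p (mem_filter.1 hp).1, (mem_filter.1 hp).2⟩
  refine (sum_le_sum h1).trans ?_
  rw [← mul_sum]
  have h2 := sum_Ioc_inv_sq_le_sub (α := ℝ) (k := 1) (n := N) one_ne_zero (by omega)
  have h3 : (0 : ℝ) ≤ (N : ℝ)⁻¹ := by positivity
  refine mul_le_of_le_one_right (Nat.cast_nonneg _) ?_
  rw [Nat.cast_one, inv_one] at h2
  linarith

open UniqueFactorizationMonoid in
lemma sum_ideals_le (T : Finset (Ideal (𝓞 K))) (hT : ∀ I ∈ T, I ≠ ⊥) :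
    ∑ I ∈ T, ((Ideal.absNorm I : ℝ) ^ 2)⁻¹ ≤ Real.exp (2 * finrank ℚ K) := by
  classical
  let P : Finset (Ideal (𝓞 K)) := T.biUnion fun I => (normalizedFactors I).toFinset
  have hP : ∀ p ∈ P, Prime p := by
    intro p hp
    obtain ⟨I, -, hI⟩ := mem_biUnion.1 hp
    exact prime_of_normalized_factor p (Multiset.mem_toFinset.1 hI)
  let ex : Ideal (𝓞 K) → P → ℕ := fun I p => (normalizedFactors I).count (p : Ideal (𝓞 K))
  have hprod : ∀ I ∈ T, I = ∏ p : P, (p : Ideal (𝓞 K)) ^ ex I p := by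
    intro I hI
    have h1 : (normalizedFactors I).toFinset ⊆ P :=
      subset_biUnion_of_mem (fun I => (normalizedFactors I).toFinset) hI
    rw [prod_coe_sort P (fun p => p ^ (normalizedFactors I).count p),
      ← prod_multiset_count_of_subset _ _ h1, Ideal.prod_normalizedFactors_eq_self (hT I hI)]
  have hinj : Set.InjOn ex T := by
    intro I hI J hJ h
    rw [hprod I hI, hprod J hJ, h]
  let x : P → ℝ := fun p => ((Ideal.absNorm (p : Ideal (𝓞 K)) : ℝ) ^ 2)⁻¹
  have hx0 : ∀ p, 0 ≤ x p := fun p => by positivity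
  have hx1 : ∀ p, x p ≤ 1 / 4 := fun p => by
    have h1 : (2 : ℝ) ≤ Ideal.absNorm (p : Ideal (𝓞 K)) := by
      exact_mod_cast two_le_absNorm (hP p p.2)
    rw [one_div]
    exact inv_anti₀ (by norm_num) (by nlinarith)
  have h1 := sum_pi_le x (fun p => Real.exp (2 * x p)) hx0
    (fun p N => geom_le (hx0 p) (hx1 p) N) (T.image ex)
  rw [sum_image hinj, ← Real.exp_sum, ← mul_sum] at h1
  have h2 : ∑ p : P, x p ≤ finrank ℚ K := by
    rw [sum_coe_sort P (fun p => ((Ideal.absNorm p : ℝ) ^ 2)⁻¹)]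
    exact sum_primes_le P hP
  refine le_trans (le_of_eq (sum_congr rfl fun I hI => ?_))
    (h1.trans (Real.exp_le_exp.2 (by linarith)))
  conv_lhs => rw [hprod I hI]
  rw [map_prod, Nat.cast_prod, ← prod_pow, ← prod_inv_distrib]
  refine prod_congr rfl fun p _ => ?_
  simp only [x]
  rw [map_pow, Nat.cast_pow, inv_pow, ← pow_mul, ← pow_mul, mul_comm]

end UnitsAux

theorem card_ideals_le (K : Type) [Field K] [NumberField K] (X : ℝ) (hX : 1 ≤ X)
    (T : Finset (Ideal (𝓞 K))) (hT : ∀ I ∈ T, I ≠ ⊥ ∧ (Ideal.absNorm I : ℝ) ≤ X) :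
    (T.card : ℝ) ≤ X ^ 2 * Real.exp (2 * finrank ℚ K) := by
  have h1 := UnitsAux.sum_ideals_le T fun I hI => (hT I hI).1
  have h2 : (T.card : ℝ) ≤ X ^ 2 * ∑ I ∈ T, ((Ideal.absNorm I : ℝ) ^ 2)⁻¹ := by
    rw [mul_sum, card_eq_sum_ones, Nat.cast_sum]
    refine sum_le_sum fun I hI => ?_
    have h0 : Ideal.absNorm I ≠ 0 := fun h => (hT I hI).1 (Ideal.absNorm_eq_zero_iff.1 h)
    have h3 : (0 : ℝ) < Ideal.absNorm I := by exact_mod_cast Nat.pos_of_ne_zero h0
    rw [Nat.cast_one, ← div_eq_mul_inv, one_le_div (by positivity)]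
    exact pow_le_pow_left₀ h3.le (hT I hI).2 2
  have h3 : (0 : ℝ) ≤ X := by linarith
  exact h2.trans (mul_le_mul_of_nonneg_left h1 (by positivity))

namespace UnitsAux

/-- Many lattice points in a simplex. -/
lemma exists_simplex (ι : Type) [Fintype ι] [Nonempty ι] (B : ℕ) :
    ∃ Y : Finset (ι → ℕ), Y.card = (B + 1) ^ (Fintype.card ι - 1) ∧
      ∀ y ∈ Y, ∑ i, y i = (Fintype.card ι - 1) * B := by
  classical
  obtain ⟨w₀⟩ := (inferInstance : Nonempty ι)
  have hc : Fintype.card {w // w ≠ w₀} = Fintype.card ι - 1 := by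
    rw [Fintype.card_subtype_compl, Fintype.card_subtype_eq]
  let ext : ({w // w ≠ w₀} → ℕ) → ι → ℕ := fun z w =>
    if h : w = w₀ then (Fintype.card ι - 1) * B - ∑ i, z i else z ⟨w, h⟩
  have hext : ∀ z (i : {w // w ≠ w₀}), ext z i = z i := fun z i => dif_neg i.2
  refine ⟨(Fintype.piFinset fun _ : {w // w ≠ w₀} => range (B + 1)).image ext, ?_, ?_⟩
  · rw [card_image_of_injective, Fintype.card_piFinset, prod_const, card_range, card_univ, hc]
    intro z z' h
    funext i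
    rw [← hext z i, ← hext z' i, h]
  · intro y hy
    obtain ⟨z, hz, rfl⟩ := mem_image.1 hy
    have h1 : ∑ i, z i ≤ (Fintype.card ι - 1) * B := by
      rw [← hc, ← card_univ, ← smul_eq_mul, ← sum_const]
      exact sum_le_sum fun i _ =>
        Nat.lt_succ_iff.1 (mem_range.1 (Fintype.mem_piFinset.1 hz i))
    rw [Fintype.sum_eq_add_sum_subtype_ne _ w₀, sum_congr rfl fun i _ => hext z i]
    have h2 : ext z w₀ = (Fintype.card ι - 1) * B - ∑ i, z i := dif_pos rfl
    rw [h2]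
    exact Nat.sub_add_cancel h1

variable {K : Type} [Field K] [NumberField K]

open InfinitePlace

lemma prod_pow_mult (c : ℝ) (t : InfinitePlace K → ℝ) :
    ∏ w : InfinitePlace K, (c * Real.exp (t w / mult w)) ^ mult w
      = c ^ finrank ℚ K * Real.exp (∑ w, t w) := by
  rw [← sum_mult_eq, ← prod_pow_eq_pow_sum, Real.exp_sum, ← prod_mul_distrib]
  refine prod_congr rfl fun w _ => ?_
  rw [mul_pow, ← Real.exp_nat_mul, mul_div_cancel₀ _ mult_coe_ne_zero]

open mixedEmbedding NNReal ENNReal in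
/-- Minkowski's theorem for a box. -/
lemma mink (D : ℕ) (hdisc : (discr K).natAbs ≤ D ^ finrank ℚ K) (g : InfinitePlace K → ℝ)
    (hg : ∀ w, 0 < g w) (h : (2 * (D : ℝ)) ^ finrank ℚ K < ∏ w, g w ^ mult w) :
    ∃ a : 𝓞 K, a ≠ 0 ∧ ∀ w : InfinitePlace K, w a < g w := by
  classical
  let f : InfinitePlace K → ℝ≥0 := fun w => ⟨g w, (hg w).le⟩
  refine exists_ne_zero_mem_ringOfIntegers_lt K (f := f) ?_
  have h1 : NNReal.sqrt ‖discr K‖₊ ≤ (D : ℝ≥0) ^ finrank ℚ K := by
    have h2 : ‖discr K‖₊ ≤ (D : ℝ≥0) ^ finrank ℚ K := by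
      rw [← NNReal.natCast_natAbs]
      exact_mod_cast hdisc
    have h3 : 1 ≤ ‖discr K‖₊ := by
      rw [← NNReal.natCast_natAbs]
      exact_mod_cast Int.natAbs_pos.2 (discr_ne_zero K)
    rw [NNReal.sqrt_le_iff_le_sq, sq]
    exact h2.trans (le_mul_of_one_le_right zero_le (h3.trans h2))
  have h2 : minkowskiBound K ↑1 ≤ (((2 * D) ^ finrank ℚ K : ℝ≥0) : ℝ≥0∞) := by
    rw [minkowskiBound, volume_fundamentalDomain_fractionalIdealLatticeBasis, Units.val_one,
      FractionalIdeal.absNorm_one, Rat.cast_one, ENNReal.ofReal_one, one_mul,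
      mixedEmbedding.finrank, volume_fundamentalDomain_latticeBasis, mul_pow, mul_comm (2 ^ _),
      ENNReal.coe_mul, ENNReal.coe_pow 2, ENNReal.coe_ofNat]
    gcongr
    calc _ ≤ 1 * ((NNReal.sqrt ‖discr K‖₊ : ℝ≥0) : ℝ≥0∞) := by
          gcongr
          exact pow_le_one₀ (by positivity) (by simp)
      _ ≤ _ := by
          rw [one_mul]
          exact ENNReal.coe_le_coe.2 h1
  refine lt_of_le_of_lt h2 ?_
  rw [convexBodyLT_volume, ← ENNReal.coe_mul, ENNReal.coe_lt_coe]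
  refine lt_of_lt_of_le ?_ (le_mul_of_one_le_left zero_le (one_le_convexBodyLTFactor K))
  rw [← NNReal.coe_lt_coe]
  push_cast
  exact h

lemma absNorm_eq_prod (a : 𝓞 K) :
    (Ideal.absNorm (Ideal.span {a}) : ℝ) = ∏ w : InfinitePlace K, w a ^ mult w := by
  rw [prod_eq_abs_norm, Ideal.absNorm_span_singleton, ← Algebra.coe_norm_int, Nat.cast_natAbs]
  push_cast
  rfl

lemma card_places_le : Fintype.card (InfinitePlace K) ≤ finrank ℚ K := by
  rw [← sum_mult_eq, ← card_univ, card_eq_sum_ones]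
  exact sum_le_sum fun w _ => mult_pos

/-- An algebraic integer lies in few of the boxes. -/
lemma card_boxes_le {c : ℝ} (hc : 0 < c) (β : ℝ) (α : 𝓞 K) (hα : α ≠ 0)
    (Y : Finset (InfinitePlace K → ℕ))
    (hY : ∀ y ∈ Y, ∑ w, (β - (y w : ℝ)) = 0)
    (h : ∀ y ∈ Y, ∀ w : InfinitePlace K, w α < c * Real.exp ((β - y w) / mult w)) :
    (Y.card : ℝ) ≤ (2 * c) ^ finrank ℚ K := by
  classical
  have hpos : ∀ w : InfinitePlace K, 0 < w α := fun w =>
    pos_iff.2 (RingOfIntegers.coe_ne_zero_iff.2 hα)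
  let g : InfinitePlace K → ℝ := fun w => mult w * Real.log c + β - mult w * Real.log (w α)
  have hg : ∀ y ∈ Y, ∀ w, (y w : ℝ) ≤ g w := by
    intro y hy w
    have h1 := Real.log_le_log (hpos w) (h y hy w).le
    rw [Real.log_mul hc.ne' (Real.exp_ne_zero _), Real.log_exp] at h1
    have h2 := mul_le_mul_of_nonneg_left h1 (Nat.cast_nonneg (α := ℝ) (mult w))
    rw [mul_add, mul_div_cancel₀ _ mult_coe_ne_zero] at h2
    simp only [g]
    linarith
  have hN : 0 ≤ ∑ w : InfinitePlace K, mult w * Real.log (w α) := by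
    have h1 : Ideal.absNorm (Ideal.span {α}) ≠ 0 := fun h0 =>
      hα (Ideal.span_singleton_eq_bot.1 (Ideal.absNorm_eq_zero_iff.1 h0))
    have h2 : (1 : ℝ) ≤ Ideal.absNorm (Ideal.span {α}) := by
      exact_mod_cast Nat.pos_of_ne_zero h1
    have h3 := Real.log_nonneg h2
    rw [absNorm_eq_prod, Real.log_prod (fun w _ => (pow_pos (hpos w) _).ne')] at h3
    simpa only [Real.log_pow] using h3
  let t : (InfinitePlace K → ℕ) → InfinitePlace K → ℕ := fun y w => ⌊g w⌋₊ - y w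
  have hle : ∀ y ∈ Y, ∀ w, y w ≤ ⌊g w⌋₊ := fun y hy w => Nat.le_floor (hg y hy w)
  have hinj : Set.InjOn t Y := by
    intro y hy y' hy' hyy
    funext w
    have h1 := congrFun hyy w
    have h2 := hle y hy w
    have h3 := hle y' hy' w
    simp only [t] at h1
    omega
  have ht : ∀ y ∈ Y, ∑ w, (t y w : ℝ) ≤ finrank ℚ K * Real.log c := by
    intro y hy
    have h1 : ∀ w, (t y w : ℝ) ≤ mult w * Real.log c + (β - y w) - mult w * Real.log (w α) := by
      intro w
      have h2 := Nat.floor_le ((Nat.cast_nonneg _).trans (hg y hy w))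
      simp only [t]
      rw [Nat.cast_sub (hle y hy w)]
      simp only [g] at h2 ⊢
      linarith
    refine (sum_le_sum fun w _ => h1 w).trans ?_
    rw [sum_sub_distrib, sum_add_distrib, hY y hy, ← sum_mul, ← Nat.cast_sum, sum_mult_eq]
    linarith
  have h1 := sum_pi_le (fun _ : InfinitePlace K => (1 / 2 : ℝ)) (fun _ => 2)
    (fun _ => by norm_num) (fun _ N => sum_geometric_two_le N) (Y.image t)
  rw [sum_image hinj, prod_const, card_univ] at h1
  have h2 : ∀ y ∈ Y, (c ^ finrank ℚ K)⁻¹ ≤ ∏ w, (1 / 2 : ℝ) ^ t y w := by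
    intro y hy
    have h3 : Real.exp (-1) ≤ 1 / 2 := by
      rw [Real.exp_neg, one_div]
      exact inv_anti₀ (by norm_num) (by linarith [Real.add_one_le_exp (1 : ℝ)])
    calc (c ^ finrank ℚ K)⁻¹ = Real.exp (-(finrank ℚ K * Real.log c)) := by
          rw [Real.exp_neg, Real.exp_nat_mul, Real.exp_log hc]
      _ ≤ Real.exp (∑ w, (t y w : ℝ) * (-1)) := by
          rw [← sum_mul]
          exact Real.exp_le_exp.2 (by linarith [ht y hy])
      _ = ∏ w, Real.exp (-1) ^ t y w := by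
          rw [Real.exp_sum]
          exact prod_congr rfl fun w _ => Real.exp_nat_mul _ _
      _ ≤ _ := prod_le_prod (fun w _ => by positivity) fun w _ =>
          pow_le_pow_left₀ (Real.exp_pos _).le h3 _
  have h3 := (card_nsmul_le_sum Y _ _ h2).trans h1
  have h4 : (2 : ℝ) ^ Fintype.card (InfinitePlace K) ≤ 2 ^ finrank ℚ K :=
    pow_le_pow_right₀ one_le_two card_places_le
  rw [nsmul_eq_mul, ← div_eq_mul_inv, div_le_iff₀ (by positivity)] at h3
  rw [mul_pow]
  exact h3.trans (mul_le_mul_of_nonneg_right h4 (by positivity))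

end UnitsAux

open InfinitePlace in
theorem many_units (K : Type) [Field K] [NumberField K] (D : ℕ) (hD : 1 ≤ D)
    (hdisc : (discr K).natAbs ≤ D ^ finrank ℚ K) (B : ℕ) :
    ∃ (a₀ : 𝓞 K) (U : Finset (𝓞 K)ˣ) (m : (K →+* ℂ) → ℝ), a₀ ≠ 0 ∧
      ((B : ℝ) + 1) ^ Units.rank K ≤ U.card * (500 * (D : ℝ) ^ 3) ^ finrank ℚ K ∧
      (∀ σ, 0 < m σ) ∧ (∀ u ∈ U, ∀ σ : K →+* ℂ, ‖σ ((a₀ : K) * ((u : 𝓞 K) : K))‖ ≤ m σ) ∧
      ∏ σ, m σ ≤ (3 * (D : ℝ)) ^ finrank ℚ K * Real.exp (Units.rank K * B) := by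
  classical
  have hD' : (1 : ℝ) ≤ D := by exact_mod_cast hD
  obtain ⟨Y, hYc, hY⟩ := UnitsAux.exists_simplex (InfinitePlace K) B
  change Y.card = (B + 1) ^ Units.rank K at hYc
  change ∀ y ∈ Y, ∑ i, y i = Units.rank K * B at hY
  set c : ℝ := 3 * D with hc
  have hc1 : 1 ≤ c := by linarith
  have hc0 : 0 < c := by linarith
  have hcard : (0 : ℝ) < Fintype.card (InfinitePlace K) := by exact_mod_cast Fintype.card_pos
  set β : ℝ := Units.rank K * B / Fintype.card (InfinitePlace K) with hβ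
  have hβs : ∑ _w : InfinitePlace K, β = Units.rank K * B := by
    rw [sum_const, card_univ, nsmul_eq_mul, hβ, mul_div_cancel₀ _ hcard.ne']
  have hY0 : ∀ y ∈ Y, ∑ w, (β - (y w : ℝ)) = 0 := by
    intro y hy
    rw [sum_sub_distrib, hβs, ← Nat.cast_sum, hY y hy]
    push_cast
    ring
  have hprod : ∀ y ∈ Y, ∏ w : InfinitePlace K, (c * Real.exp ((β - y w) / mult w)) ^ mult w
      = c ^ finrank ℚ K := by
    intro y hy
    rw [UnitsAux.prod_pow_mult c (fun w => β - y w), hY0 y hy, Real.exp_zero, mul_one]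
  have hex : ∀ y : InfinitePlace K → ℕ, ∃ a : 𝓞 K, y ∈ Y → a ≠ 0 ∧
      ∀ w : InfinitePlace K, w a < c * Real.exp ((β - y w) / mult w) := by
    intro y
    by_cases hy : y ∈ Y
    · obtain ⟨a, ha⟩ := UnitsAux.mink D hdisc (fun w => c * Real.exp ((β - y w) / mult w))
        (fun w => by positivity) (by
          rw [hprod y hy]
          exact pow_lt_pow_left₀ (by linarith) (by positivity) finrank_pos.ne')
      exact ⟨a, fun _ => ha⟩
    · exact ⟨0, fun h => absurd h hy⟩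
  choose a ha using hex
  let A : Finset (𝓞 K) := Y.image a
  let T : Finset (Ideal (𝓞 K)) := A.image fun α => Ideal.span {α}
  have hA : ∀ α ∈ A, α ≠ 0 ∧ (Ideal.absNorm (Ideal.span {α}) : ℝ) ≤ c ^ finrank ℚ K ∧
      ∀ w : InfinitePlace K, w α ≤ c * Real.exp (β / mult w) := by
    intro α hα
    obtain ⟨y, hy, rfl⟩ := mem_image.1 hα
    refine ⟨(ha y hy).1, ?_, fun w => ((ha y hy).2 w).le.trans ?_⟩
    · rw [UnitsAux.absNorm_eq_prod, ← hprod y hy]
      exact prod_le_prod (fun w _ => by positivity) fun w _ =>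
        pow_le_pow_left₀ (apply_nonneg _ _) ((ha y hy).2 w).le _
    · refine mul_le_mul_of_nonneg_left (Real.exp_le_exp.2 ?_) hc0.le
      exact div_le_div_of_nonneg_right (by linarith [Nat.cast_nonneg (α := ℝ) (y w)])
        (Nat.cast_nonneg _)
  have h1 : (Y.card : ℝ) ≤ A.card * (2 * c) ^ finrank ℚ K := by
    rw [card_eq_sum_card_image a Y, Nat.cast_sum, ← nsmul_eq_mul]
    refine sum_le_card_nsmul _ _ _ fun α hα => ?_
    refine UnitsAux.card_boxes_le hc0 β α (hA α hα).1 _ (fun y hy => hY0 y (mem_filter.1 hy).1)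
      fun y hy w => ?_
    rw [← (mem_filter.1 hy).2]
    exact (ha y (mem_filter.1 hy).1).2 w
  have h2 : (T.card : ℝ) ≤ (c ^ finrank ℚ K) ^ 2 * Real.exp (2 * finrank ℚ K) := by
    refine card_ideals_le K _ (one_le_pow₀ hc1) T fun I hI => ?_
    obtain ⟨α, hα, rfl⟩ := mem_image.1 hI
    exact ⟨fun h => (hA α hα).1 (Ideal.span_singleton_eq_bot.1 h), (hA α hα).2.1⟩
  have hYne : Y.Nonempty := card_pos.1 (by rw [hYc]; positivity)
  obtain ⟨I₀, hI₀, hmax⟩ := exists_max_image T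
    (fun I => (A.filter fun α => Ideal.span {α} = I).card) ((hYne.image a).image _)
  obtain ⟨a₀, ha₀, rfl⟩ := mem_image.1 hI₀
  set V := A.filter fun α => Ideal.span {α} = Ideal.span {a₀} with hV
  have h3 : A.card ≤ T.card * V.card := by
    rw [card_eq_sum_card_image (fun α => Ideal.span {α}) A, ← smul_eq_mul]
    exact sum_le_card_nsmul _ _ _ hmax
  have hu : ∀ α : 𝓞 K, ∃ u : (𝓞 K)ˣ, α ∈ V → a₀ * u = α := by
    intro α
    by_cases hα : α ∈ V
    · obtain ⟨u, hu⟩ := Ideal.span_singleton_eq_span_singleton.1 (mem_filter.1 hα).2.symm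
      exact ⟨u, fun _ => hu⟩
    · exact ⟨1, fun h => absurd h hα⟩
  choose u hu using hu
  have hinj : Set.InjOn u V := by
    intro α hα α' hα' h
    rw [← hu α hα, ← hu α' hα', h]
  refine ⟨a₀, V.image u, fun σ => c * Real.exp (β / mult (mk σ)), (hA a₀ ha₀).1, ?_,
    fun σ => by positivity, ?_, ?_⟩
  · rw [card_image_of_injOn hinj]
    have h4 : (A.card : ℝ) ≤ T.card * V.card := by exact_mod_cast h3
    have h5 : ((B : ℝ) + 1) ^ Units.rank K = Y.card := by rw [hYc]; push_cast; rfl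
    have h6 : Real.exp 2 ≤ 9 := by
      have h7 : Real.exp 1 ≤ 3 := Real.exp_one_lt_three.le
      rw [show (2 : ℝ) = 1 + 1 by norm_num, Real.exp_add]
      nlinarith [Real.exp_pos 1]
    have h7 : (c ^ finrank ℚ K) ^ 2 * Real.exp (2 * finrank ℚ K) * (2 * c) ^ finrank ℚ K
        ≤ (500 * (D : ℝ) ^ 3) ^ finrank ℚ K := by
      rw [mul_comm (2 : ℝ) (finrank ℚ K : ℝ), Real.exp_nat_mul, ← pow_mul, mul_comm _ 2, pow_mul,
        ← mul_pow, ← mul_pow]
      refine pow_le_pow_left₀ (by positivity) ?_ _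
      have h8 : (0 : ℝ) ≤ (D : ℝ) ^ 3 := by positivity
      calc c ^ 2 * Real.exp 2 * (2 * c) = 54 * Real.exp 2 * (D : ℝ) ^ 3 := by rw [hc]; ring
        _ ≤ _ := mul_le_mul_of_nonneg_right (by linarith) h8
    calc ((B : ℝ) + 1) ^ Units.rank K ≤ A.card * (2 * c) ^ finrank ℚ K := h5 ▸ h1
      _ ≤ ((c ^ finrank ℚ K) ^ 2 * Real.exp (2 * finrank ℚ K) * V.card)
            * (2 * c) ^ finrank ℚ K :=
          mul_le_mul_of_nonneg_right
            (h4.trans (mul_le_mul_of_nonneg_right h2 (Nat.cast_nonneg _))) (by positivity)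
      _ = V.card * ((c ^ finrank ℚ K) ^ 2 * Real.exp (2 * finrank ℚ K)
            * (2 * c) ^ finrank ℚ K) := by ring
      _ ≤ _ := mul_le_mul_of_nonneg_left h7 (Nat.cast_nonneg _)
  · intro v hv σ
    obtain ⟨α, hα, rfl⟩ := mem_image.1 hv
    have h4 : (a₀ : K) * ((u α : 𝓞 K) : K) = (α : K) := by
      conv_rhs => rw [← hu α hα]
      push_cast
      rfl
    rw [h4]
    exact (hA α (mem_filter.1 hα).1).2.2 (mk σ)
  · rw [← prod_fiberwise univ (fun σ : K →+* ℂ => mk σ), ← hβs,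
      ← UnitsAux.prod_pow_mult c (fun _ => β)]
    refine le_of_eq (prod_congr rfl fun w _ => ?_)
    rw [prod_congr rfl (g := fun _ => c * Real.exp (β / mult w))
      (fun σ hσ => by rw [(mem_filter.1 hσ).2]), prod_const]
    congr 1
    convert card_filter_mk_eq w

end Pool.Agent.P.MP_9ec3f0_nt.SY
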