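import Pool.Agent.P.MP_9ec3f0_nt.SY.Core
import Pool.Agent.P.MP_9ec3f0_nt.SY.PadicSetup
import Pool.Agent.P.MP_9ec3f0_nt.SY.Units
import Pool.Agent.P.MP_9ec3f0_nt.SY.PadicBound1

namespace Pool.Agent.P.MP_9ec3f0_nt.SY

open NumberField IsDedekindDomain Finset Module

namespace PadicBoundAux

/-- A large set of S-units of height at most `Y` that are congruent to `1` modulo `p ^ κ`. -/
theorem exists_class (K : Type) [Field K] [NumberField K] (p : ℕ) [hp : Fact p.Prime]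
    (φ : K →+* ℚ_[p]) (D κ : ℕ) (Pp : Finset ℕ) (hD : 1 ≤ D)
    (hdisc : (discr K).natAbs ≤ D ^ finrank ℚ K) (hP : ∀ l ∈ Pp, l.Prime) (hpP : p ∉ Pp)
    (hne : Pp.Nonempty) (Y : ℝ) (hY : 2 * (finrank ℚ K : ℝ) * Real.log (3 * D) ≤ Y) :
    ∃ T : Finset Kˣ, 1 ∈ T ∧
      (∀ θ ∈ T, ‖φ (θ : K) - 1‖ ≤ ((p : ℝ) ^ κ)⁻¹ ∧ InSat Pp (θ : K)) ∧
      Ht ((fun θ : Kˣ => (θ : K)) '' (T : Set Kˣ)) Y ∧
      (Y / (2 * ((Units.rank K + Pp.card : ℕ) : ℝ))) ^ (Units.rank K + Pp.card) ≤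
        T.card * ((p : ℝ) ^ κ * (500 * (D : ℝ) ^ 3) ^ finrank ℚ K *
          ∏ l ∈ Pp, (finrank ℚ K * Real.log l)) := by
  classical
  set d := finrank ℚ K with hd
  set n := Units.rank K with hn
  set r : ℕ := n + Pp.card with hr
  have hd1 : (1 : ℝ) ≤ d := by exact_mod_cast (finrank_pos : 0 < finrank ℚ K)
  have hD1 : (1 : ℝ) ≤ D := by exact_mod_cast hD
  have hm1 : 1 ≤ Pp.card := card_pos.2 hne
  have hr0 : (0 : ℝ) < r := by exact_mod_cast (by omega : 0 < r)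
  have hlog3 : 0 ≤ Real.log (3 * D) := Real.log_nonneg (by linarith)
  have hY0 : 0 ≤ Y := le_trans (by positivity) hY
  have hlog : ∀ l ∈ Pp, 0 < Real.log l := fun l hl =>
    Real.log_pos (by exact_mod_cast (hP l hl).one_lt)
  set x : ℝ := Y / (2 * r) with hx
  have hx0 : 0 ≤ x := by positivity
  obtain ⟨a₀, U, m, ha, hU, hm, hUm, hprod⟩ := many_units K D hD hdisc ⌊x⌋₊
  let E : ℕ → ℕ := fun l => ⌊x / (d * Real.log l)⌋₊
  obtain ⟨S, hScard, hS⟩ := exists_family hP U E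
  have hSn : ∀ γ ∈ S, ‖φ γ‖ = 1 := by
    intro γ hγ
    obtain ⟨u, -, e, -, rfl⟩ := hS γ hγ
    rw [map_mul, norm_mul, norm_unit, one_mul, map_prod, norm_prod]
    refine prod_eq_one fun l hl => ?_
    rw [map_pow, map_natCast, norm_pow, norm_prime p (hP l hl) (fun h => hpP (h ▸ hl)), one_pow]
  obtain ⟨T, hTS, hT, hcong⟩ := pigeonhole p φ κ S fun γ hγ => (hSn γ hγ).le
  have hUpos : 0 < U.card := by
    by_contra h
    have h0 : U.card = 0 := by omega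
    rw [h0] at hU
    have : (0 : ℝ) < ((⌊x⌋₊ : ℝ) + 1) ^ Units.rank K := by positivity
    simp at hU
    linarith
  have hSpos : 0 < S.card := by
    rw [hScard]
    exact Nat.mul_pos hUpos (prod_pos fun l _ => Nat.succ_pos _)
  have hTne : T.Nonempty := by
    rw [← card_pos]
    by_contra h
    have h0 : T.card = 0 := by omega
    rw [h0] at hT
    omega
  obtain ⟨γ₀, hγ₀⟩ := hTne
  have hne0 : ∀ γ ∈ S, γ ≠ 0 := by
    intro γ hγ h
    have := hSn γ hγ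
    rw [h, map_zero, norm_zero] at this
    exact zero_ne_one this
  have h0 : γ₀ ≠ 0 := hne0 _ (hTS hγ₀)
  let f : K → Kˣ := fun γ => if h : γ = 0 then 1 else Units.mk0 (γ / γ₀) (div_ne_zero h h0)
  have hf : ∀ γ ∈ T, ((f γ : Kˣ) : K) = γ / γ₀ := by
    intro γ hγ
    simp only [f, hne0 γ (hTS hγ), dif_neg, not_false_eq_true, Units.val_mk0]
  have hinj : Set.InjOn f (T : Set K) := by
    intro γ hγ γ' hγ' h
    have := congrArg (fun θ : Kˣ => (θ : K)) h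
    simp only [hf γ hγ, hf γ' hγ'] at this
    exact (div_left_inj' h0).1 this
  refine ⟨T.image f, ?_, ?_, ?_, ?_⟩
  · refine mem_image.2 ⟨γ₀, hγ₀, Units.ext ?_⟩
    rw [hf γ₀ hγ₀, div_self h0, Units.val_one]
  · intro θ hθ
    obtain ⟨γ, hγ, rfl⟩ := mem_image.1 hθ
    rw [hf γ hγ]
    constructor
    · have h1 : φ γ₀ ≠ 0 := (map_ne_zero φ).2 h0
      rw [map_div₀, div_sub_one h1, norm_div, hSn γ₀ (hTS hγ₀), div_one]
      exact hcong γ hγ γ₀ hγ₀
    · have key : ∀ γ ∈ S, InSat Pp γ := by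
        intro γ hγ
        obtain ⟨u, -, e, -, rfl⟩ := hS γ hγ
        exact ⟨1, u, fun l => e l, one_pos, by simp⟩
      rw [div_eq_mul_inv]
      exact (key γ (hTS hγ)).mul hP ((key γ₀ (hTS hγ₀)).inv hP)
  · refine ht_class hP a₀ ha U m hm hUm E Y ?_ γ₀ h0 _ ?_
    · have e1 : (3 * (D : ℝ)) ^ d = Real.exp (d * Real.log (3 * D)) := by
        rw [Real.exp_nat_mul, Real.exp_log (by linarith)]
      have e2 : (∏ l ∈ Pp, (l : ℝ) ^ E l) ^ d ≤ Real.exp (Pp.card * x) := by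
        rw [← prod_pow, Real.exp_nat_mul, ← prod_const]
        refine prod_le_prod (fun l hl => by positivity) fun l hl => ?_
        have hl0 : (0 : ℝ) < l := by exact_mod_cast (hP l hl).pos
        have hdl : 0 < (d : ℝ) * Real.log l := mul_pos (by linarith) (hlog l hl)
        have h1 : (E l : ℝ) ≤ x / (d * Real.log l) := Nat.floor_le (by positivity)
        rw [le_div_iff₀ hdl] at h1
        calc ((l : ℝ) ^ E l) ^ d = Real.exp (E l * (d * Real.log l)) := by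
              rw [← mul_assoc, ← Nat.cast_mul, Real.exp_nat_mul, Real.exp_log hl0, pow_mul]
          _ ≤ Real.exp x := Real.exp_le_exp.2 h1
      have e3 : Real.exp (n * (⌊x⌋₊ : ℝ)) ≤ Real.exp (n * x) :=
        Real.exp_le_exp.2 (mul_le_mul_of_nonneg_left (Nat.floor_le hx0) (Nat.cast_nonneg _))
      have e4 : (n : ℝ) * x + Pp.card * x = Y / 2 := by
        have : (n : ℝ) + Pp.card = r := by rw [hr]; push_cast; ring
        rw [← add_mul, this, hx]; field_simp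
      calc (∏ σ, m σ) * (∏ l ∈ Pp, (l : ℝ) ^ E l) ^ d
          ≤ (Real.exp (d * Real.log (3 * D)) * Real.exp (n * x)) * Real.exp (Pp.card * x) := by
            refine mul_le_mul (le_trans hprod ?_) e2 (by positivity) (by positivity)
            rw [e1]
            exact mul_le_mul_of_nonneg_left e3 (Real.exp_pos _).le
        _ = Real.exp (d * Real.log (3 * D) + (n * x + Pp.card * x)) := by
            rw [← Real.exp_add, ← Real.exp_add]; ring_nf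
        _ ≤ Real.exp Y := Real.exp_le_exp.2 (by rw [e4]; linarith)
    · rintro _ ⟨θ, hθ, rfl⟩
      obtain ⟨γ, hγ, rfl⟩ := mem_image.1 (mem_coe.1 hθ)
      obtain ⟨u, hu, e, he, h⟩ := hS γ (hTS hγ)
      refine ⟨u, hu, e, he, ?_⟩
      simp only [hf γ hγ]
      rw [mul_div_cancel₀ _ h0, h]
  · rw [card_image_of_injOn hinj]
    have e1 : x ^ n ≤ U.card * (500 * (D : ℝ) ^ 3) ^ d :=
      le_trans (pow_le_pow_left₀ hx0 (Nat.lt_floor_add_one x).le n) hU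
    have e2 : x ^ Pp.card ≤ (∏ l ∈ Pp, ((E l : ℝ) + 1)) * ∏ l ∈ Pp, (d * Real.log l) := by
      rw [← prod_mul_distrib, ← prod_const]
      refine prod_le_prod (fun _ _ => hx0) fun l hl => ?_
      have hdl : 0 < (d : ℝ) * Real.log l := mul_pos (by linarith) (hlog l hl)
      rw [← div_le_iff₀ hdl]
      exact (Nat.lt_floor_add_one _).le
    have e3 : (U.card : ℝ) * ∏ l ∈ Pp, ((E l : ℝ) + 1) ≤ T.card * (p : ℝ) ^ κ := by
      rw [hScard] at hT
      exact_mod_cast hT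
    have e4 : 0 ≤ ∏ l ∈ Pp, ((d : ℝ) * Real.log l) :=
      prod_nonneg fun l hl => (mul_pos (by linarith) (hlog l hl)).le
    calc x ^ r = x ^ n * x ^ Pp.card := by rw [hr, pow_add]
      _ ≤ (U.card * (500 * (D : ℝ) ^ 3) ^ d) *
          ((∏ l ∈ Pp, ((E l : ℝ) + 1)) * ∏ l ∈ Pp, (d * Real.log l)) :=
        mul_le_mul e1 e2 (by positivity) (by positivity)
      _ = ((U.card : ℝ) * ∏ l ∈ Pp, ((E l : ℝ) + 1)) *
          ((500 * (D : ℝ) ^ 3) ^ d * ∏ l ∈ Pp, (d * Real.log l)) := by ring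
      _ ≤ (T.card * (p : ℝ) ^ κ) *
          ((500 * (D : ℝ) ^ 3) ^ d * ∏ l ∈ Pp, (d * Real.log l)) :=
        mul_le_mul_of_nonneg_right e3 (by positivity)
      _ = _ := by ring

end PadicBoundAux

open PadicBoundAux in
theorem padic_bound : ∃ C : ℝ, 0 < C ∧ ∀ (K : Type) [Field K] [NumberField K] (p : ℕ)
    [Fact p.Prime] (_ : K →+* ℚ_[p]) (D κ : ℕ) (Pp : Finset ℕ) (u v : ℤ) (Λ Z : ℝ), 1 ≤ D →
    (discr K).natAbs ≤ D ^ finrank ℚ K → 256 ≤ p ^ κ →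
    2 * (finrank ℚ K : ℝ) ≤ κ * Real.log p → (∀ l ∈ Pp, l.Prime) → p ∉ Pp → Pp.Nonempty →
    u ≠ 0 → v ≠ 0 → u ≠ v → (∀ l : ℕ, l.Prime → (l : ℤ) ∣ u * v → l ∈ Pp) →
    Z = (p : ℝ) ^ κ * (500 * (D : ℝ) ^ 3) ^ finrank ℚ K *
      (∏ l ∈ Pp, (finrank ℚ K * Real.log l)) *
      (2400 * ((Units.rank K + Pp.card : ℕ) : ℝ) / (κ * Real.log p)) ^
        (Units.rank K + Pp.card - 1) →
    1 ≤ Λ → ((Units.rank K + Pp.card : ℕ) : ℝ) ≤ Λ → κ * Real.log p ≤ Λ → Real.log D ≤ Λ →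
    Real.log (|(u : ℝ)| + |(v : ℝ)|) ≤ Real.exp Λ → Z ≤ Real.exp Λ →
    Real.exp (-(C * Λ ^ 12 * 4 ^ (Units.rank K + Pp.card) * (1 + Z))) ≤
      ‖(u : ℚ_[p]) / v - 1‖ := by
  classical
  refine ⟨15000 * 19801 * 237612, by norm_num, ?_⟩
  intro K _ _ p hp φ D κ Pp u v Λ Z hD hdisc h256 hdg hP hpP hne hu hv huv hdiv hZ hΛ hrΛ hgΛ
    hDΛ hxΛ hZΛ
  set d := finrank ℚ K with hd
  set r : ℕ := Units.rank K + Pp.card with hr
  set g : ℝ := κ * Real.log p with hg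
  have hd1 : (1 : ℝ) ≤ d := by exact_mod_cast (finrank_pos : 0 < finrank ℚ K)
  have hD1 : (1 : ℝ) ≤ D := by exact_mod_cast hD
  have hm1 : 1 ≤ Pp.card := card_pos.2 hne
  have hr1 : 1 ≤ r := by omega
  have hr0 : (0 : ℝ) < r := by exact_mod_cast hr1
  have hg0 : 0 < g := by linarith
  have hp0 : (0 : ℝ) < p := by exact_mod_cast hp.out.pos
  have hlog : ∀ l ∈ Pp, 0 < Real.log l := fun l hl =>
    Real.log_pos (by exact_mod_cast (hP l hl).one_lt)
  set W : ℝ := (p : ℝ) ^ κ * (500 * (D : ℝ) ^ 3) ^ d * ∏ l ∈ Pp, ((d : ℝ) * Real.log l) with hW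
  have hW0 : 0 < W := by
    have : 0 < ∏ l ∈ Pp, ((d : ℝ) * Real.log l) :=
      prod_pos fun l hl => mul_pos (by linarith) (hlog l hl)
    positivity
  have hZ0 : 0 ≤ Z := by rw [hZ]; positivity
  have h4r : (1 : ℝ) ≤ 4 ^ r := one_le_pow₀ (by norm_num)
  by_cases hc : ‖(u : ℚ_[p]) / v - 1‖ ≤ ((p : ℝ) ^ κ)⁻¹
  swap
  · refine le_trans ?_ (not_le.1 hc).le
    have e : ((p : ℝ) ^ κ)⁻¹ = Real.exp (-g) := by
      rw [Real.exp_neg, hg, Real.exp_nat_mul, Real.exp_log hp0]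
    rw [e]
    refine Real.exp_le_exp.2 (neg_le_neg (le_trans hgΛ ?_))
    have h1 : Λ ≤ Λ ^ 12 := le_self_pow₀ hΛ (by norm_num)
    have h2 : (1 : ℝ) ≤ 4 ^ r * (1 + Z) := one_le_mul_of_one_le_of_one_le h4r (by linarith)
    have h3 : Λ ^ 12 ≤ Λ ^ 12 * (4 ^ r * (1 + Z)) :=
      le_mul_of_one_le_right (by positivity) h2
    have h4 : 0 ≤ Λ ^ 12 * (4 ^ r * (1 + Z)) := by positivity
    nlinarith
  let _ : Algebra K ℚ_[p] := φ.toAlgebra
  have hφ : algebraMap K ℚ_[p] = φ := rfl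
  obtain ⟨P, hPr, hPG, hPΩ, hPA, hPlg⟩ := exists_padic_setup K p κ h256 hdg Pp hP hne
  have huK : (u : K) ≠ 0 := by exact_mod_cast hu
  have hvK : (v : K) ≠ 0 := by exact_mod_cast hv
  have hξv : φ ((u : K) / v) = (u : ℚ_[p]) / v := by rw [map_div₀, map_intCast, map_intCast]
  let ξ : P.A := ⟨Units.mk0 ((u : K) / v) (div_ne_zero huK hvK), (hPA _).2
    ⟨by rw [hφ, Units.val_mk0, hξv]; exact hc, by
      rw [Units.val_mk0]; exact inSat_rat hP hu hv hdiv⟩⟩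
  have hval : P.val ξ = (u : K) / v := rfl
  have hξ : ξ ≠ 1 := by
    intro h
    have h1 : P.val ξ = 1 := by rw [h]; rfl
    rw [hval, div_eq_one_iff_eq hvK] at h1
    exact huv (by exact_mod_cast h1)
  set S₀ : ℕ := ⌈1320 * (d : ℝ) * (r : ℝ) ^ 2 * (30 * Λ)⌉₊ with hS₀
  have hlog3 : 0 ≤ Real.log (3 * D) := Real.log_nonneg (by linarith)
  have hlog3' : Real.log (3 * D) ≤ 2 + Λ := by
    rw [Real.log_mul (by norm_num) (by linarith)]
    have := Real.log_le_sub_one_of_pos (show (0 : ℝ) < 3 by norm_num)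
    linarith
  set Y : ℝ := 24 * d * r * S₀ * Z + g / 2 + 2 * d * Real.log (3 * D) with hY
  have hA : 0 ≤ 24 * (d : ℝ) * r * S₀ * Z := by positivity
  have hB : 0 ≤ 2 * (d : ℝ) * Real.log (3 * D) := by positivity
  have hY0 : 0 ≤ Y := by rw [hY]; linarith
  have hSle : (S₀ : ℝ) ≤ 19801 * Λ ^ 4 := S_le hΛ (by linarith) hr0.le (by linarith) hrΛ
  have hYle : Y ≤ 237612 * Λ ^ 6 * (1 + Z) :=
    Y_le hΛ hr0.le (by linarith) hrΛ (Nat.cast_nonneg _) hSle hZ0 (by linarith) hlog3 hlog3'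
  obtain ⟨T, hT1, hTA, hTH, hTc⟩ := exists_class K p φ D κ Pp hD hdisc hP hpP hne Y
    (by rw [hY]; linarith)
  have hTA' : ∀ θ ∈ T, θ ∈ P.A := fun θ hθ => (hPA θ).2 (hTA θ hθ)
  let L : Finset P.A := T.subtype fun θ => θ ∈ P.A
  have hLc : L.card = T.card := by
    rw [card_subtype, filter_true_of_mem hTA']
  have hlgle : ∀ θ : P.A, ‖P.lg θ‖ ≤ ((p : ℝ) ^ κ)⁻¹ := fun θ => by
    rw [hPlg]; exact ((hPA θ).1 θ.2).1
  have hexp : 1 ≤ Real.exp Λ := Real.one_le_exp (by linarith)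
  have hbig := big_le_exp hΛ
  have hmain := core P ξ hξ (d * Real.log (|(u : ℝ)| + |(v : ℝ)|)) Y (30 * Λ) S₀
    (by rw [hval]; exact ht_rat u v hv) L (mem_subtype.2 hT1)
    (hTH.mono (by
      rintro _ ⟨θ, hθ, rfl⟩
      exact ⟨θ, mem_coe.2 (mem_subtype.1 (mem_coe.1 hθ)), rfl⟩) le_rfl)
    (fun θ _ θ' _ => by
      rw [hPΩ, sub_eq_add_neg]
      refine le_trans (Padic.nonarchimedean _ _) (max_le (hlgle θ) ?_)
      rw [norm_neg]; exact hlgle θ')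
    (by rw [hPG, hY]; linarith) (by linarith) (by rw [hPr]; linarith)
    (by
      have h1 := pow_le_exp (show 0 ≤ Λ by linarith) 6
      have h2 : Real.exp (30 * Λ) = Real.exp (23 * Λ) * Real.exp ((6 : ℕ) * Λ) * Real.exp Λ := by
        rw [← Real.exp_add, ← Real.exp_add]; congr 1; push_cast; ring
      have h3 : Λ ^ 6 * (1 + Z) ≤ Real.exp ((6 : ℕ) * Λ) * (2 * Real.exp Λ) :=
        mul_le_mul h1 (by linarith) (by linarith) (Real.exp_pos _).le
      have h5 : 0 ≤ Real.exp ((6 : ℕ) * Λ) * Real.exp Λ := by positivity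
      have h6 := mul_le_mul_of_nonneg_right hbig h5
      rw [h2]
      linarith)
    (by
      have h1 : (d : ℝ) * Real.log (|(u : ℝ)| + |(v : ℝ)|) ≤ d * Real.exp Λ :=
        mul_le_mul_of_nonneg_left hxΛ (by linarith)
      have h2 : (d : ℝ) ≤ Real.exp (29 * Λ) := by
        have := Real.add_one_le_exp (29 * Λ)
        linarith
      have h3 : Real.exp (30 * Λ) = Real.exp (29 * Λ) * Real.exp Λ := by
        rw [← Real.exp_add]; congr 1; ring
      rw [h3]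
      exact h1.trans (mul_le_mul_of_nonneg_right h2 (Real.exp_pos _).le))
    (by
      have h1 := pow_le_exp (show 0 ≤ Λ by linarith) 4
      have h2 : Real.exp (23 * Λ) * Real.exp ((4 : ℕ) * Λ) ≤ Real.exp (30 * Λ) := by
        rw [← Real.exp_add]; refine Real.exp_le_exp.2 ?_; push_cast; linarith
      refine hSle.trans (le_trans ?_ h2)
      exact mul_le_mul (by linarith) h1 (by positivity) (Real.exp_pos _).le)
    (by rw [hPr]; exact Nat.le_ceil _)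
    (by
      rw [hPr, hPG, hLc]
      exact count_le hr1 hg0 hW0 hY0 hZ (by rw [hY]; linarith) hTc)
  rw [hPlg, hval, hφ, hξv, hPr] at hmain
  refine le_trans (Real.exp_le_exp.2 (neg_le_neg ?_)) hmain
  have h1 : (S₀ : ℝ) * Y ≤ 19801 * Λ ^ 4 * (237612 * Λ ^ 6 * (1 + Z)) :=
    mul_le_mul hSle hYle hY0 (by positivity)
  have h2 : Λ ^ 11 ≤ Λ ^ 12 := pow_le_pow_right₀ hΛ (by norm_num)
  calc 500 * 4 ^ r * (S₀ : ℝ) * Y * (30 * Λ) = 15000 * 4 ^ r * Λ * (S₀ * Y) := by ring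
    _ ≤ 15000 * 4 ^ r * Λ * (19801 * Λ ^ 4 * (237612 * Λ ^ 6 * (1 + Z))) :=
      mul_le_mul_of_nonneg_left h1 (by positivity)
    _ = 15000 * 19801 * 237612 * 4 ^ r * (1 + Z) * Λ ^ 11 := by ring
    _ ≤ 15000 * 19801 * 237612 * 4 ^ r * (1 + Z) * Λ ^ 12 :=
      mul_le_mul_of_nonneg_left h2 (by positivity)
    _ = _ := by ring

end Pool.Agent.P.MP_9ec3f0_nt.SY
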