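import Pool.Agent.P.MP_9ec3f0_nt.SY.Defs

/-! The `p`-adic exponential and logarithm on the disc of radius `1 / 4`. -/

namespace Pool.Agent.P.MP_9ec3f0_nt.SY

open NumberField IsDedekindDomain Finset Module

theorem norm_inv_factorial (p : ℕ) [Fact p.Prime] (k : ℕ) :
    ‖(k.factorial : ℚ_[p])⁻¹‖ ≤ 2 ^ (k - 1) := by
  rcases Nat.eq_zero_or_pos k with rfl | hk
  · simp
  have hp : p.Prime := Fact.out
  have h0 : (k.factorial : ℚ_[p]) ≠ 0 := by exact_mod_cast k.factorial_ne_zero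
  rw [norm_inv, Padic.norm_eq_zpow_neg_valuation h0, Padic.valuation_natCast, zpow_neg, inv_inv,
    zpow_natCast]
  have h1 := sub_one_mul_padicValNat_factorial_lt_of_ne_zero p hk.ne'
  have h2 : p ≤ 2 ^ (p - 1) := by
    have := Nat.lt_two_pow_self (n := p - 1)
    have := hp.pos
    omega
  have h3 : p ^ padicValNat p k.factorial ≤ 2 ^ (k - 1) :=
    calc p ^ padicValNat p k.factorial ≤ (2 ^ (p - 1)) ^ padicValNat p k.factorial :=
          Nat.pow_le_pow_left h2 _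
      _ = 2 ^ ((p - 1) * padicValNat p k.factorial) := by rw [pow_mul]
      _ ≤ 2 ^ (k - 1) := Nat.pow_le_pow_right (by norm_num) (by omega)
  exact_mod_cast h3

namespace PadicExpAux

variable {p : ℕ} [Fact p.Prime]

/-- the exponential series -/
noncomputable def E (w : ℚ_[p]) : ℚ_[p] := ∑' i : ℕ, w ^ i / (i.factorial : ℚ_[p])

theorem term_le {w : ℚ_[p]} (hw : ‖w‖ ≤ 1 / 4) (i : ℕ) :
    ‖w ^ (i + 1) / ((i + 1).factorial : ℚ_[p])‖ ≤ ‖w‖ * (1 / 2) ^ i := by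
  have h := norm_inv_factorial p (i + 1)
  rw [Nat.add_sub_cancel] at h
  rw [div_eq_mul_inv, norm_mul, norm_pow, pow_succ']
  have h0 := norm_nonneg w
  calc ‖w‖ * ‖w‖ ^ i * ‖((i + 1).factorial : ℚ_[p])⁻¹‖ ≤ ‖w‖ * (1 / 4) ^ i * 2 ^ i := by
        gcongr
    _ = ‖w‖ * (1 / 2) ^ i := by rw [mul_assoc, ← mul_pow]; norm_num

theorem summable_norm {w : ℚ_[p]} (hw : ‖w‖ ≤ 1 / 4) :
    Summable fun i : ℕ => ‖w ^ i / (i.factorial : ℚ_[p])‖ := by
  rw [← summable_nat_add_iff 1]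
  exact Summable.of_nonneg_of_le (fun _ => norm_nonneg _) (term_le hw)
    (summable_geometric_two.mul_left _)

theorem hasSum_E {w : ℚ_[p]} (hw : ‖w‖ ≤ 1 / 4) :
    HasSum (fun i : ℕ => w ^ i / (i.factorial : ℚ_[p])) (E w) :=
  (summable_norm hw).of_norm.hasSum

theorem norm_E_sub {w : ℚ_[p]} (hw : ‖w‖ ≤ 1 / 4) : ‖E w - 1 - w‖ ≤ ‖w‖ / 2 := by
  have h := (summable_norm hw).of_norm.sum_add_tsum_nat_add 2
  have e : E w - 1 - w = ∑' i : ℕ, w ^ (i + 2) / ((i + 2).factorial : ℚ_[p]) := by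
    rw [E, ← h]; simp [Finset.sum_range_succ]; ring
  rw [e]
  refine IsUltrametricDist.norm_tsum_le_of_forall_le fun i => (term_le hw (i + 1)).trans ?_
  have h1 : (1 / 2 : ℝ) ^ (i + 1) ≤ 1 / 2 := by
    rw [pow_succ]
    have : (1 / 2 : ℝ) ^ i ≤ 1 := pow_le_one₀ (by norm_num) (by norm_num)
    linarith
  have h0 := norm_nonneg w
  nlinarith

theorem norm_E_sub_one {w : ℚ_[p]} (hw : ‖w‖ ≤ 1 / 4) : ‖E w - 1‖ = ‖w‖ := by
  have h := norm_E_sub hw
  rcases (norm_nonneg w).eq_or_lt with h0 | h0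
  · have h1 : w = 0 := norm_eq_zero.1 h0.symm
    subst h1
    simpa using h
  · have e : E w - 1 = (E w - 1 - w) + w := by ring
    rw [e, IsUltrametricDist.norm_add_eq_max_of_norm_ne_norm (by linarith), max_eq_right]
    linarith

theorem E_add {w w' : ℚ_[p]} (hw : ‖w‖ ≤ 1 / 4) (hw' : ‖w'‖ ≤ 1 / 4) :
    E (w + w') = E w * E w' := by
  rw [E, E, E, tsum_mul_tsum_eq_tsum_sum_antidiagonal_of_summable_norm (summable_norm hw)
    (summable_norm hw')]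
  congr 1
  funext n
  rw [(Commute.all w w').add_pow', Finset.sum_div]
  refine Finset.sum_congr rfl fun x hx => ?_
  rw [← HasAntidiagonal.mem_antidiagonal.1 hx, ← Nat.add_choose_mul_factorial_mul_factorial,
    Nat.choose_symm_add, nsmul_eq_mul]
  have h1 : (x.1.factorial : ℚ_[p]) ≠ 0 := by exact_mod_cast x.1.factorial_ne_zero
  have h2 : (x.2.factorial : ℚ_[p]) ≠ 0 := by exact_mod_cast x.2.factorial_ne_zero
  have h3 : (((x.1 + x.2).choose x.2 : ℕ) : ℚ_[p]) ≠ 0 := by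
    exact_mod_cast (Nat.choose_pos (Nat.le_add_left _ _)).ne'
  push_cast
  field_simp

theorem norm_sub_le {w w' : ℚ_[p]} (hw : ‖w‖ ≤ 1 / 4) (hw' : ‖w'‖ ≤ 1 / 4) :
    ‖w - w'‖ ≤ 1 / 4 := by
  rw [sub_eq_add_neg]
  exact (IsUltrametricDist.norm_add_le_max _ _).trans (max_le hw (by simpa using hw'))

theorem contr {w w' : ℚ_[p]} (hw : ‖w‖ ≤ 1 / 4) (hw' : ‖w'‖ ≤ 1 / 4) :
    ‖(w - E w) - (w' - E w')‖ ≤ ‖w - w'‖ / 2 := by
  have hd := norm_sub_le hw hw'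
  have h1 : E w = E (w - w') * E w' := by rw [← E_add hd hw', sub_add_cancel]
  have e : (w - E w) - (w' - E w') =
      -(E (w - w') - 1 - (w - w')) + -((E w' - 1) * (E (w - w') - 1)) := by
    rw [h1]; ring
  rw [e]
  refine (IsUltrametricDist.norm_add_le_max _ _).trans (max_le ?_ ?_)
  · rw [norm_neg]; exact norm_E_sub hd
  · rw [norm_neg, norm_mul, norm_E_sub_one hw', norm_E_sub_one hd]
    have := norm_nonneg (w - w')
    nlinarith

theorem E_inj {w w' : ℚ_[p]} (hw : ‖w‖ ≤ 1 / 4) (hw' : ‖w'‖ ≤ 1 / 4) (h : E w = E w') :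
    w = w' := by
  have h1 := contr hw hw'
  rw [h, sub_sub_sub_cancel_right] at h1
  have := norm_nonneg (w - w')
  exact sub_eq_zero.1 (norm_eq_zero.1 (by linarith))

theorem E_surj {x : ℚ_[p]} (hx : ‖x - 1‖ ≤ 1 / 4) : ∃ w, ‖w‖ ≤ 1 / 4 ∧ E w = x := by
  let T : ℚ_[p] → ℚ_[p] := fun w => w - E w + x
  let s : Set ℚ_[p] := Metric.closedBall 0 (1 / 4)
  have hs : ∀ w, w ∈ s ↔ ‖w‖ ≤ 1 / 4 := fun w => by simp [s]
  have hmaps : Set.MapsTo T s s := fun w hw => by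
    rw [hs] at hw ⊢
    have e : T w = -(E w - 1 - w) + (x - 1) := by simp only [T]; ring
    rw [e]
    refine (IsUltrametricDist.norm_add_le_max _ _).trans (max_le ?_ hx)
    rw [norm_neg]
    have := norm_E_sub hw
    linarith
  have hc : ContractingWith (1 / 2) (hmaps.restrict T s s) := by
    refine ⟨by norm_num, LipschitzWith.of_dist_le_mul fun a b => ?_⟩
    rw [Subtype.dist_eq, Subtype.dist_eq, dist_eq_norm, dist_eq_norm]
    have := contr ((hs _).1 a.2) ((hs _).1 b.2)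
    simp only [Set.MapsTo.val_restrict_apply, T, add_sub_add_right_eq_sub]
    push_cast
    linarith
  obtain ⟨y, hy, hfix, -⟩ := hc.exists_fixedPoint' Metric.isClosed_closedBall.isComplete hmaps
    (x := 0) (by simp [s]) (edist_ne_top _ _)
  refine ⟨y, (hs y).1 hy, ?_⟩
  have : y - E y + x = y := hfix
  linear_combination -this

open Classical in
/-- the logarithm -/
noncomputable def L (x : ℚ_[p]) : ℚ_[p] :=
  if h : ∃ w, ‖w‖ ≤ 1 / 4 ∧ E w = x then h.choose else 0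

theorem L_spec {x : ℚ_[p]} (hx : ‖x - 1‖ ≤ 1 / 4) : ‖L x‖ ≤ 1 / 4 ∧ E (L x) = x := by
  have h := E_surj hx
  rw [L, dif_pos h]
  exact h.choose_spec

end PadicExpAux

open PadicExpAux in
theorem exists_exp_log (p : ℕ) [Fact p.Prime] : ∃ E L : ℚ_[p] → ℚ_[p],
    (∀ w, ‖w‖ ≤ 1 / 4 → HasSum (fun i : ℕ => w ^ i / (i.factorial : ℚ_[p])) (E w) ∧
      ‖E w - 1‖ = ‖w‖ ∧ L (E w) = w) ∧
    (∀ w w', ‖w‖ ≤ 1 / 4 → ‖w'‖ ≤ 1 / 4 → E (w + w') = E w * E w') ∧
    ∀ x, ‖x - 1‖ ≤ 1 / 4 → ‖L x‖ = ‖x - 1‖ ∧ E (L x) = x := by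
  refine ⟨E, L, fun w hw => ⟨hasSum_E hw, norm_E_sub_one hw, ?_⟩, fun w w' => E_add,
    fun x hx => ⟨?_, (L_spec hx).2⟩⟩
  · have h := L_spec (x := E w) (by rw [norm_E_sub_one hw]; exact hw)
    exact E_inj h.1 hw h.2
  · have h := L_spec hx
    rw [← norm_E_sub_one h.1, h.2]

end Pool.Agent.P.MP_9ec3f0_nt.SY
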