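import Pool.Agent.P.MP_9ec3f0_nt.SY.Ext

namespace Pool.Agent.P.MP_9ec3f0_nt.SY

open NumberField IsDedekindDomain Finset Module

section QuadSec
variable {F M : Type} [Field F] [NumberField F] [Field M] [NumberField M] [Algebra F M]

namespace QuadAux

omit [NumberField F] [NumberField M] in
theorem coords (h2 : finrank F M = 2) {r : M} (hn : ¬ ∃ α : F, algebraMap F M α = r) (x : M) :
    ∃ α β : F, x = algebraMap F M α + algebraMap F M β * r := by
  have hli : LinearIndependent F ![(1 : M), r] := by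
    rw [LinearIndependent.pair_iff]
    intro s t hst
    by_cases ht : t = 0
    · subst ht
      simpa using hst
    · refine absurd ⟨-(s / t), ?_⟩ hn
      have h1 : algebraMap F M t ≠ 0 := by simpa using ht
      rw [Algebra.smul_def, Algebra.smul_def, mul_one] at hst
      rw [map_neg, map_div₀]
      field_simp
      linear_combination -hst
  have hsp := hli.span_eq_top_of_card_eq_finrank (by simp [h2])
  have hx : x ∈ Submodule.span F (Set.range ![(1 : M), r]) := hsp ▸ Submodule.mem_top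
  rw [Matrix.range_cons_cons_empty, Submodule.mem_span_pair] at hx
  obtain ⟨α, β, h⟩ := hx
  exact ⟨α, β, by rw [← h, Algebra.smul_def, Algebra.smul_def, mul_one]⟩

omit [NumberField M] in
theorem galois (h2 : finrank F M = 2) : IsGalois F M := by
  haveI : Algebra.IsQuadraticExtension F M := { finrank_eq_two' := h2 }
  infer_instance

omit [NumberField F] [NumberField M] in
theorem map_eq_or (τ : M ≃ₐ[F] M) {r : M} {a : F} (hr : r ^ 2 = algebraMap F M a) :
    τ r = r ∨ τ r = -r := by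
  refine sq_eq_sq_iff_eq_or_eq_neg.mp ?_
  rw [← map_pow, hr, AlgEquiv.commutes]

omit [NumberField F] in
theorem r_not_mem (Q : Quad F M) : ¬ ∃ α : F, algebraMap F M α = Q.r := by
  rintro ⟨α, h⟩
  have h1 := Q.σ_r
  rw [← h, AlgEquiv.commutes, h] at h1
  exact Q.r_ne (self_eq_neg.mp h1)

theorem ord_zero (v : Pr F) : ord v (0 : F) = 0 := by
  simp [ord]

theorem ord_congr (v : Pr F) {x y : F} (h : v.valuation F x = v.valuation F y) :
    ord v x = ord v y := by
  simp only [ord, h]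

omit [NumberField F] in
/-- The generator `(1 + r / ξ) / 2`. -/
theorem exists_gen (Q : Quad F M) {ξ μ : F} (hξ : ξ ≠ 0) (ha : Q.a = ξ ^ 2 * (1 + 4 * μ)) :
    ∃ x : M, x * Q.σ x = -algebraMap F M μ ∧ x + Q.σ x = 1 ∧
      (x - Q.σ x) ^ 2 = algebraMap F M (1 + 4 * μ) ∧
      Q.r = algebraMap F M ξ * (x + x - 1) := by
  have h1 : algebraMap F M ξ ≠ 0 := by simpa using hξ
  have h2 : Q.r ^ 2 = algebraMap F M ξ ^ 2 * (1 + 4 * algebraMap F M μ) := by
    rw [Q.r_sq, ha, map_mul, map_pow, map_add, map_mul, map_one, map_ofNat]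
  have h3 : Q.σ ((1 + Q.r / algebraMap F M ξ) / 2) = (1 - Q.r / algebraMap F M ξ) / 2 := by
    rw [map_div₀, map_add, map_one, map_div₀, Q.σ_r, AlgEquiv.commutes, map_ofNat]
    ring
  refine ⟨(1 + Q.r / algebraMap F M ξ) / 2, ?_, ?_, ?_, ?_⟩
  · rw [h3]
    field_simp
    linear_combination -h2
  · rw [h3]
    ring
  · rw [h3, map_add, map_mul, map_one, map_ofNat]
    field_simp
    linear_combination 4 * h2
  · field_simp
    ring

end QuadAux

open QuadAux

theorem Quad.a_ne (Q : Quad F M) : Q.a ≠ 0 := by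
  intro h
  have h1 := Q.r_sq
  rw [h, map_zero] at h1
  exact Q.r_ne (pow_eq_zero_iff two_ne_zero |>.mp h1)

theorem Quad.exists_coords (Q : Quad F M) (x : M) :
    ∃ α β : F, x = algebraMap F M α + algebraMap F M β * Q.r :=
  coords Q.finrank_eq (r_not_mem Q) x

theorem Quad.σ_σ (Q : Quad F M) (x : M) : Q.σ (Q.σ x) = x := by
  obtain ⟨α, β, rfl⟩ := Q.exists_coords x
  simp only [map_add, map_mul, AlgEquiv.commutes, Q.σ_r, map_neg, neg_neg]

theorem Quad.σ_ne_one (Q : Quad F M) : Q.σ ≠ 1 := by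
  intro h
  have h1 := Q.σ_r
  rw [h, AlgEquiv.one_apply] at h1
  exact Q.r_ne (self_eq_neg.mp h1)

theorem Quad.fixed_iff (Q : Quad F M) (x : M) :
    Q.σ x = x ↔ ∃ α : F, algebraMap F M α = x := by
  constructor
  · intro h
    obtain ⟨α, β, rfl⟩ := Q.exists_coords x
    simp only [map_add, map_mul, AlgEquiv.commutes, Q.σ_r] at h
    refine ⟨α, ?_⟩
    have h1 : algebraMap F M β * Q.r = 0 := by linear_combination (-1 / 2 : M) * h
    rw [h1, add_zero]
  · rintro ⟨α, rfl⟩
    exact AlgEquiv.commutes _ _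

theorem Quad.isGalois (Q : Quad F M) : IsGalois F M := galois Q.finrank_eq

theorem Quad.eq_one_or (Q : Quad F M) (τ : M ≃ₐ[F] M) : τ = 1 ∨ τ = Q.σ := by
  refine (map_eq_or τ Q.r_sq).imp (fun h => ?_) fun h => ?_
  · ext x
    obtain ⟨α, β, rfl⟩ := Q.exists_coords x
    simp only [map_add, map_mul, AlgEquiv.commutes, h, AlgEquiv.one_apply]
  · ext x
    obtain ⟨α, β, rfl⟩ := Q.exists_coords x
    simp only [map_add, map_mul, AlgEquiv.commutes, h, Q.σ_r]

theorem Quad.isSquare_iff (Q : Quad F M) (u : F) :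
    IsSquare (algebraMap F M u) ↔ IsSquare u ∨ IsSquare (u * Q.a) := by
  have hinj := (algebraMap F M).injective
  constructor
  · rintro ⟨x, hx⟩
    rcases map_eq_or Q.σ (r := x) (a := u) (by rw [hx, sq]) with h | h
    · obtain ⟨c, rfl⟩ := (Q.fixed_iff x).mp h
      exact Or.inl ⟨c, hinj (by rw [hx, map_mul])⟩
    · obtain ⟨c, hc⟩ := (Q.fixed_iff (x * Q.r)).mp (by rw [map_mul, h, Q.σ_r, neg_mul_neg])
      refine Or.inr ⟨c, hinj ?_⟩
      rw [map_mul, map_mul, hc, hx, ← Q.r_sq]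
      ring
  · rintro (⟨c, rfl⟩ | ⟨c, hc⟩)
    · exact ⟨algebraMap F M c, map_mul _ _ _⟩
    · refine ⟨algebraMap F M c / Q.r, ?_⟩
      have h1 := congrArg (algebraMap F M) hc
      rw [map_mul, map_mul, ← Q.r_sq] at h1
      have h2 := Q.r_ne
      field_simp
      linear_combination h1

theorem Quad.not_isSquare (Q : Quad F M) : ¬ IsSquare Q.a := by
  rintro ⟨c, hc⟩
  have h1 : Q.r ^ 2 = algebraMap F M c ^ 2 := by rw [Q.r_sq, hc, map_mul, sq]
  rcases sq_eq_sq_iff_eq_or_eq_neg.mp h1 with h | h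
  · exact r_not_mem Q ⟨c, h.symm⟩
  · exact r_not_mem Q ⟨-c, by rw [map_neg, h]⟩

theorem Quad.hilbert90 (Q : Quad F M) {x : M} (hx : x * Q.σ x = 1) :
    ∃ y : M, y ≠ 0 ∧ x * y = Q.σ y := by
  by_cases h : x = -1
  · exact ⟨Q.r, Q.r_ne, by rw [h, Q.σ_r, neg_one_mul]⟩
  · refine ⟨1 + Q.σ x, fun h1 => h ?_, ?_⟩
    · have h2 : Q.σ x = -1 := by linear_combination h1
      rw [← Q.σ_σ x, h2, map_neg, map_one]
    · rw [map_add, map_one, Q.σ_σ]
      linear_combination hx

theorem exists_quad (h2 : finrank F M = 2) (σ : M ≃ₐ[F] M) (hσ : σ ≠ 1) :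
    ∃ Q : Quad F M, Q.σ = σ := by
  obtain ⟨z, hz⟩ : ∃ z, σ z ≠ z := by
    by_contra h
    push Not at h
    exact hσ (AlgEquiv.ext h)
  have hn : ¬ ∃ α : F, algebraMap F M α = z := by
    rintro ⟨α, rfl⟩
    exact hz (AlgEquiv.commutes _ _)
  obtain ⟨p, q, h⟩ := coords h2 hn (z ^ 2)
  have hr : (2 * z - algebraMap F M q) ^ 2 = algebraMap F M (4 * p + q ^ 2) := by
    rw [map_add, map_mul, map_pow, map_ofNat]
    linear_combination 4 * h
  have hne : σ (2 * z - algebraMap F M q) ≠ 2 * z - algebraMap F M q := by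
    intro h1
    rw [map_sub, map_mul, map_ofNat, AlgEquiv.commutes] at h1
    exact hz (by linear_combination (1 / 2 : M) * h1)
  exact ⟨⟨σ, 2 * z - algebraMap F M q, 4 * p + q ^ 2, h2, fun h1 => hne (by rw [h1, map_zero]), hr,
    (map_eq_or σ hr).resolve_left hne⟩, rfl⟩

theorem exists_quad_of_sq (h2 : finrank F M = 2) (r : M) (a : F) (hr : r ^ 2 = algebraMap F M a)
    (hn : ¬ ∃ α : F, algebraMap F M α = r) : ∃ Q : Quad F M, Q.r = r ∧ Q.a = a := by
  haveI := galois h2
  haveI : FiniteDimensional F M := Module.finite_of_finrank_eq_succ h2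
  have hc : Nat.card (M ≃ₐ[F] M) = 2 := (IsGalois.card_aut_eq_finrank F M).trans h2
  obtain ⟨σ, hσ, -⟩ := (Nat.card_eq_two_iff' (1 : M ≃ₐ[F] M)).mp hc
  have hne : σ r ≠ r := by
    intro h
    refine hσ ?_
    ext x
    obtain ⟨α, β, rfl⟩ := coords h2 hn x
    simp only [map_add, map_mul, AlgEquiv.commutes, h, AlgEquiv.one_apply]
  exact ⟨⟨σ, r, a, h2, fun h => hn ⟨0, by rw [h, map_zero]⟩, hr,
    (map_eq_or σ hr).resolve_left hne⟩, rfl, rfl⟩

theorem exists_quad_ext (F : Type) [Field F] [NumberField F] (a : F) (ha : ¬ IsSquare a) :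
    ∃ (M : Type) (_ : Field M) (_ : NumberField M) (_ : Algebra F M) (Q : Quad F M),
      Q.a = a := by
  have hb : ∀ b : F, b ^ 2 ≠ a := fun b hb => ha ⟨b, by rw [← hb, sq]⟩
  have hirr := X_pow_sub_C_irreducible_of_prime Nat.prime_two hb
  haveI := Fact.mk hirr
  have h2 : finrank F (AdjoinRoot (Polynomial.X ^ 2 - Polynomial.C a)) = 2 := by
    rw [(AdjoinRoot.powerBasis hirr.ne_zero).finrank, AdjoinRoot.powerBasis_dim,
      Polynomial.natDegree_X_pow_sub_C]
  haveI : Module.Finite F (AdjoinRoot (Polynomial.X ^ 2 - Polynomial.C a)) :=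
    Module.finite_of_finrank_eq_succ h2
  haveI : NumberField (AdjoinRoot (Polynomial.X ^ 2 - Polynomial.C a)) :=
    NumberField.of_module_finite F _
  have hr : AdjoinRoot.root (Polynomial.X ^ 2 - Polynomial.C a) ^ 2 =
      algebraMap F (AdjoinRoot (Polynomial.X ^ 2 - Polynomial.C a)) a :=
    root_X_pow_sub_C_pow 2 a
  obtain ⟨Q, -, hQ⟩ := exists_quad_of_sq h2 _ a hr (by
    rintro ⟨α, hα⟩
    rw [← hα, ← map_pow] at hr
    exact hb α ((algebraMap F _).injective hr))
  exact ⟨_, inferInstance, inferInstance, inferInstance, Q, hQ⟩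

theorem Quad.eq_or_cj (Q : Quad F M) {w w' : Pr M} (h : dn F w = dn F w') :
    w' = w ∨ w' = cj Q.σ w := by
  haveI := Q.isGalois
  obtain ⟨τ, hτ⟩ := exists_cj_eq h
  rcases Q.eq_one_or τ with rfl | rfl
  · exact Or.inl (by rw [← hτ, cj_one])
  · exact Or.inr hτ.symm

theorem Quad.unrP_of_not_fixes (Q : Quad F M) {w : Pr M} (h : ¬ Fixes Q.σ w) : UnrP F w := by
  classical
  obtain ⟨π, hπ, ho⟩ := exists_ord_eq {w, cj Q.σ w} (fun v => if v = w then 1 else 0)
  have h1 : ord w π = 1 := by rw [ho w (by simp), if_pos rfl]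
  have h2 : ord w (Q.σ π) = 0 := by
    rw [← ord_cj Q.σ w (Q.σ π), Q.σ_σ, ho _ (by simp), if_neg (show ¬ cj Q.σ w = w from h)]
  obtain ⟨ν, hν⟩ := (Q.fixed_iff (π * Q.σ π)).mp (by rw [map_mul, Q.σ_σ, mul_comm])
  exact ⟨ν, by rw [hν, ord_mul w hπ (by simpa using hπ), h1, h2, add_zero]⟩

theorem Quad.unrP_of_unrAt (Q : Quad F M) {w : Pr M} (h : UnrAt (dn F w) Q.a) : UnrP F w := by
  by_cases hf : Fixes Q.σ w
  swap
  · exact Q.unrP_of_not_fixes hf
  rw [fixes_iff] at hf
  obtain ⟨ξ, μ, hξ, ha, hμ, hu⟩ := h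
  obtain ⟨x, h1, h2, h3, h4⟩ := exists_gen Q hξ ha
  have hx : w.valuation M x ≤ 1 := by
    have h5 : w.valuation M x * w.valuation M x ≤ 1 := by
      nth_rewrite 2 [← hf x]
      rw [← map_mul, h1, Valuation.map_neg]
      exact (val_algebraMap_le_one_iff w μ).mpr hμ
    by_contra hc
    have h6 := not_le.mp hc
    exact absurd h5 (not_le.mpr (one_lt_mul'' h6 h6))
  have hr : w.valuation M (x - Q.σ x) = 1 := by
    have h5 : w.valuation M (x - Q.σ x) ^ 2 = 1 := by
      rw [← map_pow, h3]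
      exact (val_algebraMap_eq_one_iff w _).mpr hu
    exact (pow_eq_one_iff_left two_ne_zero).mp h5
  obtain ⟨π, hπ, ho⟩ := exists_ord_eq {w} (fun _ => 1)
  have ho1 : ord w π = 1 := ho w (mem_singleton_self w)
  obtain ⟨α₀, β₀, hc⟩ := Q.exists_coords π
  have h5 : π = algebraMap F M (α₀ - β₀ * ξ) + algebraMap F M (2 * β₀ * ξ) * x := by
    rw [hc, h4, map_sub, map_mul, map_mul, map_mul, map_ofNat]
    ring
  generalize α₀ - β₀ * ξ = α at h5
  generalize 2 * β₀ * ξ = β at h5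
  have h6 : π - Q.σ π = algebraMap F M β * (x - Q.σ x) := by
    rw [h5, map_add, map_mul, AlgEquiv.commutes, AlgEquiv.commutes]
    ring
  have h7 : w.valuation M (algebraMap F M β) ≤ w.valuation M π := by
    have := (w.valuation M).map_sub π (Q.σ π)
    rwa [h6, map_mul, hr, mul_one, hf, max_self] at this
  rcases h7.eq_or_lt with h8 | h8
  · exact ⟨β, (ord_congr w h8).trans ho1⟩
  · refine ⟨α, (ord_congr w ?_).trans ho1⟩
    have h9 : w.valuation M (algebraMap F M β * x) < w.valuation M π := by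
      rw [map_mul]
      exact lt_of_le_of_lt (mul_le_of_le_one_right' hx) h8
    rw [show algebraMap F M α = π - algebraMap F M β * x by rw [h5]; ring]
    exact (w.valuation M).map_sub_eq_of_lt_left h9

theorem Quad.not_fixes_of_splitAt (Q : Quad F M) {w : Pr M} (h : SplitAt (dn F w) Q.a) :
    ¬ Fixes Q.σ w := by
  intro hf
  rw [fixes_iff] at hf
  obtain ⟨ξ, μ, hξ, ha, hμ⟩ := h
  obtain ⟨x, h1, h2, -, -⟩ := exists_gen Q hξ ha
  have hx : w.valuation M x < 1 := by
    have h5 : w.valuation M x * w.valuation M x < 1 := by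
      nth_rewrite 2 [← hf x]
      rw [← map_mul, h1, Valuation.map_neg]
      exact (val_algebraMap_lt_one_iff w μ).mpr hμ
    by_contra hc
    have h6 := not_lt.mp hc
    exact absurd h5 (not_lt.mpr (one_le_mul h6 h6))
  have h3 := (w.valuation M).map_add x (Q.σ x)
  rw [h2, map_one, hf, max_self] at h3
  exact absurd hx (not_lt.mpr h3)

theorem Quad.even_ord_norm (Q : Quad F M) {w : Pr M} (h : Fixes Q.σ w) (x : M) :
    Even (ord w (x * Q.σ x)) := by
  by_cases hx : x = 0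
  · rw [hx, zero_mul, ord_zero]
    exact Even.zero
  · rw [fixes_iff] at h
    rw [ord_mul w hx (by simpa using hx), ord_congr w (h x)]
    exact ⟨_, rfl⟩

theorem Quad.splitAt_of_norm (Q : Quad F M) {v : Pr F} (h2 : v.valuation F 2 = 1)
    (hodd : Odd (ord v Q.a)) {u : F} (hu : v.valuation F u = 1) {x : M}
    (hx : x * Q.σ x = algebraMap F M u) : SplitAt v u := by
  obtain ⟨α, β, rfl⟩ := Q.exists_coords x
  have h1 : u = α ^ 2 - β ^ 2 * Q.a := by
    refine (algebraMap F M).injective ?_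
    rw [← hx, map_add, map_mul, AlgEquiv.commutes, AlgEquiv.commutes, Q.σ_r, map_sub, map_mul,
      map_pow, map_pow, ← Q.r_sq]
    ring
  refine splitAt_of_congr (ξ := α) h2 hu ?_
  rw [show u - α ^ 2 = -(β ^ 2 * Q.a) by rw [h1]; ring, Valuation.map_neg]
  by_cases hβ : β = 0
  · simp [hβ]
  have hne : β ^ 2 * Q.a ≠ 0 := mul_ne_zero (pow_ne_zero 2 hβ) Q.a_ne
  have ho : ord v (β ^ 2 * Q.a) = 2 * ord v β + ord v Q.a := by
    rw [ord_mul v (pow_ne_zero 2 hβ) Q.a_ne, ord_pow]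
    rfl
  obtain ⟨k, hk⟩ := hodd
  by_contra hc
  rcases (not_lt.mp hc).eq_or_lt with h3 | h3
  · have := (val_eq_one_iff v hne).mp h3.symm
    omega
  · have h4 : v.valuation F (α ^ 2) = v.valuation F (β ^ 2 * Q.a) := by
      rw [show α ^ 2 = u + β ^ 2 * Q.a by rw [h1]; ring]
      exact (v.valuation F).map_add_eq_of_lt_right (by rwa [hu])
    have h5 := ord_congr v h4
    rw [ord_pow, ho] at h5
    omega

end QuadSec

end Pool.Agent.P.MP_9ec3f0_nt.SY
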