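import Pool.Agent.P.MP_9ec3f0_nt.SY.Sat
import Pool.Agent.P.MP_9ec3f0_nt.SY.Liouville

namespace Pool.Agent.P.MP_9ec3f0_nt.SY

open NumberField IsDedekindDomain Finset Module

namespace RealSetupAux

/-- Positive rationals a power of which is an `S`-unit. -/
def grp (Pp : Finset ℕ) (hP : ∀ l ∈ Pp, l.Prime) : Subgroup ℚˣ where
  carrier := {θ | 0 < (θ : ℚ) ∧ InSat Pp (θ : ℚ)}
  mul_mem' := fun {a b} ha hb => ⟨by rw [Units.val_mul]; exact mul_pos ha.1 hb.1,
    by rw [Units.val_mul]; exact ha.2.mul hP hb.2⟩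
  one_mem' := ⟨by simp, by simpa using inSat_one Pp⟩
  inv_mem' := fun {a} ha => ⟨by rw [Units.val_inv_eq_inv_val]; exact inv_pos.2 ha.1,
    by rw [Units.val_inv_eq_inv_val]; exact ha.2.inv hP⟩

theorem pos {Pp : Finset ℕ} {hP : ∀ l ∈ Pp, l.Prime} (θ : grp Pp hP) :
    (0 : ℝ) < (((θ : ℚˣ) : ℚ) : ℝ) := by exact_mod_cast θ.2.1

theorem rank_le {Pp : Finset ℕ} (hP : ∀ l ∈ Pp, l.Prime) (r : ℕ) (hr : Units.rank ℚ + Pp.card = r)
    (s : Fin (r + 1) → grp Pp hP) : ∃ n : Fin (r + 1) → ℤ, n ≠ 0 ∧ ∏ i, s i ^ n i = 1 := by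
  subst hr
  obtain ⟨n, hn, h⟩ := inSat_rank hP (fun i => (s i : ℚˣ)) fun i => (s i).2.2
  refine ⟨n, hn, Subtype.ext ?_⟩
  simpa using h

theorem ne_one {Pp : Finset ℕ} {hP : ∀ l ∈ Pp, l.Prime} {θ : grp Pp hP} (h : θ ≠ 1) :
    ((θ : ℚˣ) : ℚ) ≠ 1 := fun e => h (Subtype.ext (Units.ext e))

theorem schwarz {G : ℝ} (hG : 1 ≤ G) (Y : ℝ) (S t n : ℕ) (_hY : G / 2 ≤ Y) (hS : 1 ≤ S)
    (ht : 18 * Y / G ≤ t) (hn : S * t ≤ 2 * n) :
    ∃ ρ σ Z B : ℝ, 0 ≤ σ ∧ σ < ρ ∧ 0 ≤ Z ∧ (∀ s : ℕ, s ≤ S → ‖(s : ℝ)‖ ≤ σ) ∧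
      (∀ s' : ℕ, s' ≤ 2 * 2 * S → ‖(s' : ℝ) / (2 : ℕ)‖ ≤ ρ ∧
        ∀ s : ℕ, s ≤ S → ‖(s' : ℝ) / (2 : ℕ) - s‖ ≤ Z) ∧
      (∀ w : ℝ, ‖w‖ ≤ Real.exp (-G) * Y / (3 * G) → ∀ N : ℕ,
        ∑ k ∈ range N, ‖w ^ k / (k.factorial : ℝ)‖ * ρ ^ k ≤ B) ∧
      B * (Z / (ρ - σ)) ^ n ≤ Real.exp (-(G * n)) := by
  have hS' : (1 : ℝ) ≤ S := by exact_mod_cast hS
  have he : 1 ≤ Real.exp G := Real.one_le_exp (by linarith)
  have hn' : (S : ℝ) * t ≤ 2 * n := by exact_mod_cast hn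
  have hρ : (27 : ℝ) * S ≤ 27 * Real.exp G * S := by nlinarith
  refine ⟨27 * Real.exp G * S, S, 2 * S, Real.exp n, by positivity, by linarith, by positivity,
    fun s hs => ?_, fun s' hs' => ?_, fun w hw N => ?_, ?_⟩
  · rw [Real.norm_natCast]; exact_mod_cast hs
  · have h1 : (s' : ℝ) ≤ 2 * 2 * S := by exact_mod_cast hs'
    have h0 : (0 : ℝ) ≤ s' := by positivity
    refine ⟨?_, fun s hs => ?_⟩
    · rw [Real.norm_eq_abs, abs_le]
      push_cast
      constructor <;> linarith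
    · have h2 : (s : ℝ) ≤ S := by exact_mod_cast hs
      have h3 : (0 : ℝ) ≤ s := by positivity
      rw [Real.norm_eq_abs, abs_le]
      push_cast
      constructor <;> linarith
  · have h1 : ‖w‖ * (27 * Real.exp G * S) ≤ n := by
      have e : Real.exp (-G) * Y / (3 * G) * (27 * Real.exp G * S) = 18 * Y / G * S / 2 := by
        rw [Real.exp_neg]; field_simp; ring
      have h2 := mul_le_mul_of_nonneg_right hw (show 0 ≤ 27 * Real.exp G * S by positivity)
      have h3 := mul_le_mul_of_nonneg_right ht (show (0 : ℝ) ≤ S by positivity)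
      rw [e] at h2
      linarith
    refine le_trans (Finset.sum_le_sum fun k _ => ?_)
      (Real.sum_le_exp_of_nonneg (x := n) (by positivity) N)
    rw [norm_div, norm_pow, Real.norm_natCast, div_mul_eq_mul_div, ← mul_pow]
    gcongr
  · have e1 : Real.exp n = Real.exp 1 ^ n := by rw [← Real.exp_nat_mul, mul_one]
    have e2 : Real.exp (-(G * n)) = (Real.exp G)⁻¹ ^ n := by
      rw [← Real.exp_neg, ← Real.exp_nat_mul]; congr 1; ring
    rw [e1, e2, ← mul_pow]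
    have hd : 0 < 27 * Real.exp G * S - S := by linarith
    refine pow_le_pow_left₀ (by positivity) ?_ n
    rw [← mul_div_assoc, div_le_iff₀ hd, inv_mul_eq_div, le_div_iff₀ (by positivity)]
    have h3 : Real.exp 1 ≤ 3 := Real.exp_one_lt_d9.le.trans (by norm_num)
    have h4 : (S : ℝ) ≤ Real.exp G * S := by nlinarith
    have h5 : Real.exp 1 * (Real.exp G * S) ≤ 3 * (Real.exp G * S) := by gcongr
    nlinarith

end RealSetupAux

open RealSetupAux in
theorem exists_real_setup (G : ℝ) (hG : 1 ≤ G) (Pp : Finset ℕ) (hP : ∀ l ∈ Pp, l.Prime)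
    (hne : Pp.Nonempty) :
    ∃ P : Setup ℚ ℝ, P.r = Pp.card ∧ P.G = G ∧
      (∀ Y, P.Ω Y = Real.exp (-G) * Y / (3 * G)) ∧
      (∀ θ : ℚˣ, θ ∈ P.A ↔ 0 < (θ : ℚ) ∧ InSat Pp (θ : ℚ)) ∧
      ∀ θ : P.A, P.lg θ = Real.log ((P.val θ : ℚ) : ℝ) := by
  have hG0 : 0 < G := by linarith
  refine ⟨{ q := 2
            hq := Or.inl rfl
            A := grp Pp hP
            r := Pp.card
            hr := hne.card_pos
            rank_le := rank_le hP _ (by simp [Units.rank])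
            lg := fun θ => Real.log (((θ : ℚˣ) : ℚ) : ℝ)
            lg_mul := fun θ η => ?_
            y := fun θ => Real.sqrt (((θ : ℚˣ) : ℚ) : ℝ)
            y_mul := fun θ η => ?_
            y_pow := fun θ => ?_
            roots := fun z hz => ?_
            closed := fun θ η h => ?_
            G := G
            hG := hG
            Ω := fun Y => Real.exp (-G) * Y / (3 * G)
            Ω_div := fun Y => ?_
            Ω_le := fun Y t hY ht => ?_
            hasSum := fun θ s => ?_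
            norm_inv_nat := fun n hn => ?_
            norm_inv_fact := fun k => ?_
            norm_val := fun θ => ?_
            schwarz := schwarz hG
            liou := liou_real ℚ
            gap := fun θ Y h1 hH => gap_rat θ.2.1 (ne_one h1) hH
            fin := fun θ Y h1 hY hH hl => ?_ }, rfl, rfl, fun _ => rfl, fun _ => Iff.rfl,
    fun _ => rfl⟩
  · rw [← Real.log_mul (pos θ).ne' (pos η).ne']
    simp
  · rw [← Real.sqrt_mul (pos θ).le]
    simp
  · rw [Real.sq_sqrt (pos θ).le, eq_ratCast]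
  · rcases sq_eq_one_iff.1 hz with rfl | rfl
    · exact ⟨1, by simp⟩
    · exact ⟨-1, by simp⟩
  · rw [eq_ratCast] at h
    have h0 : (0 : ℝ) < ((η : ℚ) : ℝ) := h ▸ Real.sqrt_pos.2 (pos θ)
    have h2 : ((η : ℚ) : ℝ) ^ 2 = (((θ : ℚˣ) : ℚ) : ℝ) := by rw [h, Real.sq_sqrt (pos θ).le]
    have h3 : (η : ℚ) ^ 2 = ((θ : ℚˣ) : ℚ) := by exact_mod_cast h2
    exact ⟨by exact_mod_cast h0, InSat.of_pow two_pos (h3 ▸ θ.2.2)⟩
  · apply le_of_eq
    simp only [Nat.cast_ofNat, norm_inv, Real.norm_ofNat]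
    ring
  · refine le_trans ?_ ht
    have h1 : Real.exp (-G) ≤ 1 := Real.exp_le_one_iff.2 (by linarith)
    have h2 : 0 < Y := by linarith
    rw [div_le_div_iff₀ (by positivity) hG0]
    have := mul_pos h2 hG0
    nlinarith
  · have h := NormedSpace.expSeries_div_hasSum_exp
      ((s : ℝ) / (2 : ℕ) * Real.log (((θ : ℚˣ) : ℚ) : ℝ))
    rw [← Real.exp_eq_exp_ℝ] at h
    convert h using 1
    rw [Real.sqrt_eq_rpow, Real.rpow_def_of_pos (pos θ), ← Real.exp_nat_mul]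
    congr 1
    push_cast
    ring
  · have h1 : (1 : ℝ) ≤ n := by exact_mod_cast hn
    rw [norm_inv, Real.norm_natCast]
    exact (inv_le_one_of_one_le₀ h1).trans h1
  · have h1 : (1 : ℝ) ≤ k.factorial := by exact_mod_cast k.factorial_pos
    rw [norm_inv, Real.norm_natCast]
    exact (inv_le_one_of_one_le₀ h1).trans (one_le_pow₀ one_le_two)
  · rw [eq_ratCast, Real.norm_of_nonneg (pos θ).le]
    conv_lhs => rw [← Real.exp_log (pos θ)]
    exact Real.exp_le_exp.2 (le_abs_self _)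
  · have h2 := liouville_sub_one (liou_real ℚ) (ne_one h1) hH
    rw [eq_ratCast, finrank_self, Nat.cast_one, one_mul, neg_add, Real.exp_add, Real.exp_neg,
      Real.exp_log two_pos] at h2
    have h3 : Real.exp (-G) ≤ 1 := Real.exp_le_one_iff.2 (by linarith)
    have h4 : Real.exp (-G) * Y / (3 * G) ≤ Real.exp (-G) / 6 := by
      rw [div_le_div_iff₀ (by positivity) (by norm_num)]
      have := Real.exp_pos (-G)
      nlinarith
    have h5 := hl.trans h4
    have h6 := Real.abs_exp_sub_one_le (x := Real.log (((θ : ℚˣ) : ℚ) : ℝ))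
      (h5.trans (by linarith))
    rw [Real.exp_log (pos θ)] at h6
    have h7 : Real.exp (-G) ≤ Real.exp (-Y) := Real.exp_le_exp.2 (by linarith)
    have := Real.exp_pos (-G)
    rw [Real.norm_eq_abs] at h2 h5
    linarith

end Pool.Agent.P.MP_9ec3f0_nt.SY
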