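import Pool.Agent.P.MP_9ec3f0_nt.SY.Core
import Pool.Agent.P.MP_9ec3f0_nt.SY.RealSetup

namespace Pool.Agent.P.MP_9ec3f0_nt.SY

open NumberField IsDedekindDomain Finset Module

namespace RealBoundAux

lemma half_le_log {l : ℕ} (hl : l.Prime) : 1 / 2 ≤ Real.log l := by
  have h1 : Real.log 2 ≤ Real.log l := Real.log_le_log two_pos (by exact_mod_cast hl.two_le)
  linarith [Real.log_two_gt_d9]

/-- Many integers built from the primes of `Pp` below `exp Y`. -/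
lemma many (Pp : Finset ℕ) (hP : ∀ l ∈ Pp, l.Prime) (hne : Pp.Nonempty) {Y : ℝ} (hY : 0 ≤ Y) :
    ∃ B : Finset ℕ, (Y / Pp.card) ^ Pp.card ≤ B.card * ∏ l ∈ Pp, Real.log l ∧
      ∀ b ∈ B, 0 < b ∧ Real.log b ≤ Y ∧ ∀ l : ℕ, l.Prime → l ∣ b → l ∈ Pp := by
  classical
  have hm : (0 : ℝ) < Pp.card := by exact_mod_cast hne.card_pos
  have lp : ∀ l : Pp, 0 < Real.log (l : ℕ) := fun l => by linarith [half_le_log (hP l l.2)]
  set E : Pp → ℕ := fun l => ⌊Y / Pp.card / Real.log (l : ℕ)⌋₊ with hE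
  set β : (Pp → ℕ) → ℕ := fun e => ∏ l : Pp, (l : ℕ) ^ e l with hβ
  have fac : ∀ e l0, (β e).factorization (l0 : Pp) = e l0 := fun e l0 => by
    simp only [hβ]
    rw [Nat.factorization_prod fun (l : Pp) _ => pow_ne_zero _ (hP l l.2).ne_zero,
      Finsupp.finsetSum_apply, Finset.sum_eq_single l0]
    · simp [(hP _ l0.2).factorization_pow]
    · intro l _ hl
      rw [(hP _ l.2).factorization_pow, Finsupp.single_eq_of_ne]
      exact fun h => hl (Subtype.ext h.symm)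
    · simp
  have inj : Function.Injective β := fun e e' h => funext fun l => by rw [← fac e l, h, fac]
  refine ⟨(Fintype.piFinset fun l => range (E l + 1)).image β, ?_, fun b hb => ?_⟩
  · rw [card_image_of_injective _ inj, Fintype.card_piFinset, ← prod_coe_sort Pp, Nat.cast_prod,
      ← prod_mul_distrib]
    have : (Y / Pp.card) ^ Pp.card = ∏ _l : Pp, Y / Pp.card := by
      rw [prod_const, card_univ, Fintype.card_coe]
    rw [this]
    refine prod_le_prod (fun _ _ => by positivity) fun l _ => ?_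
    rw [← div_le_iff₀ (lp l), card_range]
    push_cast
    exact (Nat.lt_floor_add_one _).le
  · obtain ⟨e, he, rfl⟩ := mem_image.1 hb
    refine ⟨prod_pos fun l _ => pow_pos (hP l l.2).pos _, ?_, fun l hl hd => ?_⟩
    · simp only [hβ]
      rw [Nat.cast_prod, Real.log_prod fun (l : Pp) _ =>
        Nat.cast_ne_zero.2 (pow_ne_zero _ (hP l l.2).ne_zero)]
      have : Y = ∑ _l : Pp, Y / Pp.card := by simp; field_simp
      rw [this]
      refine sum_le_sum fun l _ => ?_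
      rw [Nat.cast_pow, Real.log_pow, ← le_div_iff₀ (lp l)]
      have h1 : e l ≤ E l := Nat.lt_succ_iff.1 (mem_range.1 (Fintype.mem_piFinset.1 he l))
      have h2 : 0 ≤ Y / Pp.card / Real.log (l : ℕ) := div_nonneg (div_nonneg hY hm.le) (lp l).le
      have h3 : (e l : ℝ) ≤ E l := Nat.cast_le.2 h1
      exact h3.trans (Nat.floor_le h2)
    · obtain ⟨l', -, h⟩ := (hl.prime.dvd_finsetProd_iff _).1 hd
      rw [(Nat.prime_dvd_prime_iff_eq hl (hP l' l'.2)).1 (hl.dvd_of_dvd_pow h)]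
      exact l'.2

/-- Pigeonhole on the logarithms. -/
lemma cluster (B : Finset ℕ) {Y Ω N x : ℝ} (hΩ : 0 < Ω) (hB : ∀ b ∈ B, 0 < b ∧ Real.log b ≤ Y)
    (hY : 0 ≤ Y) (hN : Y / Ω + 1 ≤ N) (hx : 0 ≤ x) (h : N * x ≤ B.card) :
    ∃ F ⊆ B, x ≤ F.card ∧ ∀ b ∈ F, ∀ b' ∈ F, |Real.log b - Real.log b'| ≤ Ω := by
  classical
  obtain ⟨y, -, hy⟩ := exists_le_card_fiber_of_nsmul_le_card_of_maps_to (s := B)
    (t := range (⌊Y / Ω⌋₊ + 1)) (f := fun b => ⌊Real.log b / Ω⌋₊) (b := x)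
    (fun b hb => mem_range.2 (Nat.lt_succ_of_le (Nat.floor_le_floor
      (div_le_div_of_nonneg_right (hB b hb).2 hΩ.le)))) ⟨0, by simp⟩ (by
      rw [card_range, nsmul_eq_mul]
      refine le_trans (mul_le_mul_of_nonneg_right ?_ hx) h
      push_cast
      linarith [Nat.floor_le (div_nonneg hY hΩ.le)])
  refine ⟨_, filter_subset _ _, hy, fun b hb b' hb' => ?_⟩
  have h1 := (mem_filter.1 hb).2
  have h2 := (mem_filter.1 hb').2
  have a1 := Nat.floor_le (div_nonneg (Real.log_natCast_nonneg b) hΩ.le)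
  have a2 := Nat.floor_le (div_nonneg (Real.log_natCast_nonneg b') hΩ.le)
  have a3 := Nat.lt_floor_add_one (Real.log b / Ω)
  have a4 := Nat.lt_floor_add_one (Real.log b' / Ω)
  rw [h1, le_div_iff₀ hΩ] at a1
  rw [h2, le_div_iff₀ hΩ] at a2
  rw [h1, div_lt_iff₀ hΩ] at a3
  rw [h2, div_lt_iff₀ hΩ] at a4
  rw [abs_le]
  constructor <;> linarith

lemma two_pow_le (k : ℕ) : (2 : ℝ) ^ k ≤ Real.exp k := by
  rw [← Real.exp_one_pow]
  exact pow_le_pow_left₀ two_pos.le (by linarith [Real.add_one_le_exp (1 : ℝ)]) k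

end RealBoundAux

open RealBoundAux in
theorem real_bound : ∃ C : ℝ, 0 < C ∧ ∀ (Pp : Finset ℕ) (u v : ℕ) (Λ : ℝ),
    (∀ l ∈ Pp, l.Prime) → 0 < u → 0 < v → u ≠ v →
    (∀ l : ℕ, l.Prime → l ∣ u * v → l ∈ Pp) → 1 ≤ Λ → ∑ l ∈ Pp, Real.log l ≤ Λ →
    Real.log ((u : ℝ) + v) ≤ Real.exp Λ →
    Real.exp (-(C * Λ ^ 30 * ∏ l ∈ Pp, (C * Real.log l))) ≤ |Real.log ((u : ℝ) / v)| := by
  classical
  refine ⟨10 ^ 18, by positivity, fun Pp u v Λ hP hu hv huv hdiv hΛ hsum hx => ?_⟩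
  have hne : Pp.Nonempty := by
    have h1 : u * v ≠ 1 := fun h => huv (by
      rw [Nat.eq_one_of_mul_eq_one_right h, Nat.eq_one_of_mul_eq_one_left h])
    exact ⟨_, hdiv _ (Nat.minFac_prime h1) (Nat.minFac_dvd _)⟩
  obtain ⟨k, hk⟩ : ∃ k, Pp.card = k + 1 := ⟨Pp.card - 1, by have := hne.card_pos; omega⟩
  set m : ℝ := (Pp.card : ℝ) with hm
  have m1 : 1 ≤ m := by rw [hm]; exact_mod_cast hne.card_pos
  have mΛ : m ≤ 2 * Λ := by
    have := sum_le_sum fun l hl => half_le_log (hP l hl)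
    rw [sum_const, nsmul_eq_mul] at this
    linarith
  set Pi := ∏ l ∈ Pp, Real.log l with hPi
  have Pi0 : 0 < Pi := prod_pos fun l hl => by linarith [half_le_log (hP l hl)]
  have Pi1 : 1 ≤ Real.exp m * Pi := by
    have h1 : (1 / 2 : ℝ) ^ Pp.card ≤ Pi := by
      rw [← prod_const]
      exact prod_le_prod (fun _ _ => by positivity) fun l hl => half_le_log (hP l hl)
    calc (1 : ℝ) = 2 ^ Pp.card * (1 / 2) ^ Pp.card := by rw [← mul_pow]; simp
      _ ≤ _ := mul_le_mul (two_pow_le _) h1 (by positivity) (by positivity)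
  have Pi2 : Pi ≤ Real.exp Λ := by
    refine le_trans ?_ (Real.exp_le_exp.2 hsum)
    rw [Real.exp_sum]
    exact prod_le_prod (fun l _ => Real.log_natCast_nonneg l) fun l _ => by
      linarith [Real.add_one_le_exp (Real.log l)]
  obtain ⟨P, Pr, PG, PΩ, PA, Plg⟩ := exists_real_setup m m1 Pp hP hne
  have elt : ∀ a b : ℕ, 0 < a → 0 < b → (∀ l : ℕ, l.Prime → l ∣ a * b → l ∈ Pp) →
      ∃ θ : P.A, P.val θ = (a : ℚ) / b := fun a b ha hb h => by
    have h0 : (0 : ℚ) < (a : ℚ) / b := by positivity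
    refine ⟨⟨Units.mk0 _ h0.ne', (PA _).2 ⟨h0, ?_⟩⟩, rfl⟩
    have := inSat_rat (K := ℚ) hP (u := a) (v := b) (by omega) (by omega)
      fun l hl hd => h l hl (by exact_mod_cast hd)
    simpa using this
  obtain ⟨ξ, hξ⟩ := elt u v hu hv hdiv
  set S₀ : ℕ := ⌈1320 * m ^ 2 * (60 * Λ)⌉₊ with hS₀
  have S1 : 1320 * m ^ 2 * (60 * Λ) ≤ S₀ := Nat.le_ceil _
  have Λ3 : 1 ≤ Λ ^ 3 := one_le_pow₀ hΛ
  have m2 : m ^ 2 ≤ (2 * Λ) ^ 2 := by gcongr
  have S2 : (S₀ : ℝ) ≤ 316801 * Λ ^ 3 := by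
    have h1 := (Nat.ceil_lt_add_one (show 0 ≤ 1320 * m ^ 2 * (60 * Λ) by positivity)).le
    have h2 : 1320 * m ^ 2 * (60 * Λ) ≤ 1320 * (2 * Λ) ^ 2 * (60 * Λ) := by gcongr
    linarith
  have S3 : (1 : ℝ) ≤ S₀ := by nlinarith [one_le_pow₀ (n := 2) m1]
  set Y := 48 * m ^ 2 * S₀ * (Real.exp m * Pi) * 600 ^ k with hY
  have p6 : (1 : ℝ) ≤ 600 ^ k := one_le_pow₀ (by norm_num)
  have mY : m ≤ Y := by
    have : 48 * m ^ 2 * 1 * 1 * 1 ≤ Y := by rw [hY]; gcongr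
    nlinarith
  have Y0 : 0 < Y := by linarith
  have hS : 48 * m ^ 2 * S₀ ≤ 2 ^ 26 * Λ ^ 5 := by
    have : 48 * m ^ 2 * S₀ ≤ 48 * (2 * Λ) ^ 2 * (316801 * Λ ^ 3) := by gcongr
    have h5 : 0 ≤ Λ ^ 5 := by positivity
    linarith
  have eΛ : ∀ j : ℕ, Λ ^ j ≤ Real.exp (j * Λ) := fun j => by
    rw [Real.exp_nat_mul]
    exact pow_le_pow_left₀ (by linarith) (by linarith [Real.add_one_le_exp Λ]) j
  have e2 : ∀ j : ℕ, (2 : ℝ) ^ j ≤ Real.exp (j * Λ) := fun j =>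
    (two_pow_le j).trans (Real.exp_le_exp.2 (le_mul_of_one_le_right (Nat.cast_nonneg j) hΛ))
  have YΛ : Y ≤ Real.exp (60 * Λ) := by
    have h1 : (600 : ℝ) ^ k ≤ Real.exp (20 * Λ) := by
      calc (600 : ℝ) ^ k ≤ (2 ^ 10) ^ k := by gcongr; norm_num
        _ = 2 ^ (10 * k) := by rw [pow_mul]
        _ ≤ Real.exp ((10 * k : ℕ) : ℝ) := two_pow_le _
        _ ≤ _ := by
          have : m = k + 1 := by rw [hm, hk]; push_cast; ring
          apply Real.exp_le_exp.2; push_cast; linarith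
    have h2 : Real.exp m ≤ Real.exp (2 * Λ) := Real.exp_le_exp.2 mΛ
    have h3 : 48 * m ^ 2 * S₀ ≤ Real.exp ((26 : ℕ) * Λ) * Real.exp ((5 : ℕ) * Λ) :=
      hS.trans (mul_le_mul (e2 26) (eΛ 5) (by positivity) (by positivity))
    calc Y ≤ Real.exp ((26 : ℕ) * Λ) * Real.exp ((5 : ℕ) * Λ) *
          (Real.exp (2 * Λ) * Real.exp Λ) * Real.exp (20 * Λ) := by rw [hY]; gcongr
      _ ≤ _ := by
        simp only [← Real.exp_add]
        apply Real.exp_le_exp.2; push_cast; linarith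
  obtain ⟨B, hB1, hB2⟩ := many Pp hP hne Y0.le
  have Ω0 : 0 < P.Ω Y := by rw [PΩ]; positivity
  obtain ⟨F, FB, hF1, hF2⟩ := cluster B Ω0 (fun b hb => ⟨(hB2 b hb).1, (hB2 b hb).2.1⟩) Y0.le
    (N := 4 * m * Real.exp m) (x := 12 * S₀ * (600 * Y / m) ^ k) (by
      have e : Y / P.Ω Y = 3 * m * Real.exp m := by
        rw [PΩ, Real.exp_neg]; field_simp
      rw [e]
      nlinarith [Real.add_one_le_exp m]) (by positivity) (by
      refine le_of_mul_le_mul_right (le_trans (le_of_eq ?_) hB1) Pi0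
      rw [← hm, hk, pow_succ, mul_div_assoc, mul_pow]
      have : Y / m = 48 * m * S₀ * (Real.exp m * Pi) * 600 ^ k := by rw [hY]; field_simp
      generalize (Y / m) ^ k = z
      rw [this]; ring)
  obtain ⟨b₀, hb₀⟩ : F.Nonempty := by
    rw [← card_pos, ← Nat.cast_pos (α := ℝ)]
    exact lt_of_lt_of_le (by positivity) hF1
  have b0 : 0 < b₀ := (hB2 b₀ (FB hb₀)).1
  have b0q : (0 : ℚ) < b₀ := by exact_mod_cast b0
  have b0r : (0 : ℝ) < b₀ := by exact_mod_cast b0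
  have ex : ∀ b ∈ F, ∃ θ : P.A, P.val θ = (b : ℚ) / b₀ := fun b hb =>
    elt b b₀ (hB2 b (FB hb)).1 b0 fun l hl hd => by
      rcases (Nat.Prime.dvd_mul hl).1 hd with h | h
      · exact (hB2 b (FB hb)).2.2 l hl h
      · exact (hB2 b₀ (FB hb₀)).2.2 l hl h
  choose! g hg using ex
  have ginj : Set.InjOn g F := fun b hb b' hb' h => by
    have := (hg b hb).symm.trans (h ▸ hg b' hb')
    rw [div_left_inj' b0q.ne'] at this
    exact_mod_cast this
  have key := core P ξ (by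
      rintro rfl
      have : (1 : ℚ) = (u : ℚ) / v := hξ
      rw [eq_div_iff (by positivity), one_mul] at this
      exact huv (by exact_mod_cast this.symm))
    (Real.log ((u : ℝ) + v)) Y (60 * Λ) S₀ (by
      have := ht_rat (K := ℚ) u v (by omega)
      rw [hξ]
      simpa using this)
    (F.image g) (mem_image.2 ⟨b₀, hb₀, Subtype.ext (Units.ext
      ((hg b₀ hb₀).trans (div_self b0q.ne')))⟩)
    (by
      refine ⟨1, b₀, fun _ => Real.exp Y / b₀, one_pos, b0q.ne', ?_, fun _ => by positivity, ?_, ?_⟩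
      · rintro _ ⟨θ, hθ, rfl⟩
        obtain ⟨b, hb, rfl⟩ := mem_image.1 hθ
        rw [hg b hb, pow_one, mul_div_cancel₀ _ b0q.ne']
        exact isIntegral_natCast b
      · rintro _ ⟨θ, hθ, rfl⟩ σ
        obtain ⟨b, hb, rfl⟩ := mem_image.1 hθ
        rw [hg b hb, map_div₀, map_natCast, map_natCast, norm_div, Complex.norm_natCast,
          Complex.norm_natCast]
        refine div_le_div_of_nonneg_right ?_ b0r.le
        exact (Real.log_le_iff_le_exp (by exact_mod_cast (hB2 b (FB hb)).1)).1 (hB2 b (FB hb)).2.1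
      · rw [Fintype.prod_subsingleton _ (Rat.castHom ℂ), map_natCast, Complex.norm_natCast, pow_one,
          mul_div_cancel₀ _ b0r.ne']
        simp)
    (by
      intro θ hθ θ' hθ'
      obtain ⟨b, hb, rfl⟩ := mem_image.1 hθ
      obtain ⟨b', hb', rfl⟩ := mem_image.1 hθ'
      have p1 : (0 : ℝ) < b := by exact_mod_cast (hB2 b (FB hb)).1
      have p2 : (0 : ℝ) < b' := by exact_mod_cast (hB2 b' (FB hb')).1
      rw [Plg, Plg, hg b hb, hg b' hb']
      push_cast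
      rw [Real.log_div p1.ne' b0r.ne', Real.log_div p2.ne' b0r.ne', sub_sub_sub_cancel_right]
      exact hF2 b hb b' hb')
    (PG ▸ mY) (by linarith) (by rw [Pr]; linarith) YΛ
    (hx.trans (Real.exp_le_exp.2 (by linarith)))
    (le_trans (by nlinarith [one_le_pow₀ (n := 2) m1, le_mul_of_one_le_left (by positivity :
      (0 : ℝ) ≤ S₀) (one_le_pow₀ (n := 2) m1)] : (S₀ : ℝ) ≤ 48 * m ^ 2 * S₀) (le_trans (by
        have : 48 * m ^ 2 * S₀ * 1 * 1 ≤ Y := by rw [hY]; gcongr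
        linarith) YΛ))
    (by rw [Pr]; simpa using S1)
    (by rw [Pr, PG, card_image_of_injOn ginj, hk]; simpa using hF1)
  rw [Plg, hξ] at key
  push_cast at key
  refine le_trans (Real.exp_le_exp.2 (neg_le_neg ?_)) key
  rw [prod_mul_distrib, prod_const, ← hPi, Pr, hY]
  have h1 : Real.exp m ≤ 3 ^ Pp.card := by
    rw [hm, ← Real.exp_one_pow]
    exact pow_le_pow_left₀ (by positivity) (by linarith [Real.exp_one_lt_d9]) _
  have h2 : (600 : ℝ) ^ k ≤ 600 ^ Pp.card := pow_le_pow_right₀ (by norm_num) (by omega)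
  have h3 : (4 * 3 * 600 : ℝ) ^ Pp.card ≤ (10 ^ 18) ^ Pp.card := by gcongr; norm_num
  have h4 : Λ ^ 9 ≤ Λ ^ 30 := pow_le_pow_right₀ hΛ (by norm_num)
  calc 500 * 4 ^ Pp.card * (S₀ : ℝ) * (48 * m ^ 2 * S₀ * (Real.exp m * Pi) * 600 ^ k) * (60 * Λ)
      ≤ 500 * 4 ^ Pp.card * (316801 * Λ ^ 3) *
        (2 ^ 26 * Λ ^ 5 * (3 ^ Pp.card * Pi) * 600 ^ Pp.card) * (60 * Λ) := by gcongr
    _ = (500 * 316801 * 2 ^ 26 * 60) * Λ ^ 9 * ((4 * 3 * 600) ^ Pp.card * Pi) := by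
      rw [mul_pow, mul_pow]; ring
    _ ≤ 10 ^ 18 * Λ ^ 30 * ((10 ^ 18) ^ Pp.card * Pi) := by gcongr; norm_num

end Pool.Agent.P.MP_9ec3f0_nt.SY
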