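import Pool.Agent.P.MP_9ec3f0_nt.SY.Ext

namespace Pool.Agent.P.MP_9ec3f0_nt.SY

open NumberField IsDedekindDomain Finset Module

namespace SelAux

open scoped nonZeroDivisors
open FractionalIdeal

variable {K : Type} [Field K] [NumberField K]

theorem ord_int (v : Pr K) {n : 𝓞 K} (hn : n ≠ 0) :
    ord v (algebraMap (𝓞 K) K n) =
      ((Associates.mk v.asIdeal).count (Associates.mk (Ideal.span {n})).factors : ℤ) := by
  have h := v.valuation_of_algebraMap (K := K) n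
  rw [v.intValuation_if_neg hn] at h
  have h' : v.valuation K (algebraMap (𝓞 K) K n) = _ := h
  rw [ord, h', WithZero.log_exp, neg_neg]

theorem count_span (v : Pr K) {x : K} (hx : x ≠ 0) :
    count K v (spanSingleton (𝓞 K)⁰ x) = ord v x := by
  obtain ⟨n, d, hd, rfl⟩ := IsFractionRing.div_surjective (A := 𝓞 K) x
  have hd0 : d ≠ 0 := nonZeroDivisors.ne_zero hd
  have hn0 : n ≠ 0 := by
    rintro rfl
    simp at hx
  have hinj := IsFractionRing.injective (𝓞 K) K
  have hd1 : algebraMap (𝓞 K) K d ≠ 0 := (map_ne_zero_iff _ hinj).2 hd0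
  have hn1 : algebraMap (𝓞 K) K n ≠ 0 := (map_ne_zero_iff _ hinj).2 hn0
  rw [count_well_defined K v (a := d) (J := Ideal.span {n}) (spanSingleton_ne_zero_iff.2 hx),
    ord_div v hn1 hd1, ord_int v hn0, ord_int v hd0]
  rw [coeIdeal_span_singleton, spanSingleton_mul_spanSingleton, div_eq_inv_mul]

theorem ext_count {I J : FractionalIdeal (𝓞 K)⁰ K} (hI : I ≠ 0) (hJ : J ≠ 0)
    (h : ∀ v : Pr K, count K v I = count K v J) : I = J := by
  rw [← finprod_heightOneSpectrum_factorization' K hI,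
    ← finprod_heightOneSpectrum_factorization' K hJ]
  exact finprod_congr fun v => by rw [h v]

theorem exists_count (n : Pr K → ℤ) (hn : {v | n v ≠ 0}.Finite) :
    ∃ I : (FractionalIdeal (𝓞 K)⁰ K)ˣ, ∀ v : Pr K, count K v I = n v := by
  let e : Pr K →₀ ℤ := Finsupp.ofSupportFinite n hn
  have h0 : e.prod (fun v m => (v.asIdeal : FractionalIdeal (𝓞 K)⁰ K) ^ m) ≠ 0 :=
    Finset.prod_ne_zero_iff.2 fun v _ => zpow_ne_zero _ (coeIdeal_ne_zero.mpr v.ne_bot)
  exact ⟨Units.mk0 _ h0, fun v => count_finsuppProd K v e⟩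

theorem mk_eq_one {I : (FractionalIdeal (𝓞 K)⁰ K)ˣ} :
    ClassGroup.mk K I = 1 ↔ ∃ x : K, x ≠ 0 ∧ ∀ v : Pr K, count K v I = ord v x := by
  rw [ClassGroup.mk_eq_one_iff]
  constructor
  · intro hI
    have h := eq_spanSingleton_of_principal (I : FractionalIdeal (𝓞 K)⁰ K)
    have h0 : Submodule.IsPrincipal.generator (I : Submodule (𝓞 K) K) ≠ 0 := by
      intro h0
      apply I.ne_zero
      rw [h, h0, spanSingleton_zero]
    exact ⟨_, h0, fun v => by rw [← count_span v h0, ← h]⟩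
  · rintro ⟨x, hx, h⟩
    have h1 : (I : FractionalIdeal (𝓞 K)⁰ K) = spanSingleton (𝓞 K)⁰ x :=
      ext_count I.ne_zero (spanSingleton_ne_zero_iff.2 hx) fun v => by rw [h v, count_span v hx]
    exact ⟨⟨x, by rw [h1, coe_spanSingleton]⟩⟩

theorem exists_mk (c : ClassGroup (𝓞 K)) :
    ∃ I : (FractionalIdeal (𝓞 K)⁰ K)ˣ, ClassGroup.mk K I = c :=
  ClassGroup.induction K (P := fun c => ∃ I : (FractionalIdeal (𝓞 K)⁰ K)ˣ, ClassGroup.mk K I = c)
    (fun I => ⟨I, rfl⟩) c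

theorem count_umul (v : Pr K) (I J : (FractionalIdeal (𝓞 K)⁰ K)ˣ) :
    count K v ((I * J : (FractionalIdeal (𝓞 K)⁰ K)ˣ) : FractionalIdeal (𝓞 K)⁰ K) =
      count K v I + count K v J := by
  rw [Units.val_mul, count_mul K v I.ne_zero J.ne_zero]

theorem count_uinv (v : Pr K) (I : (FractionalIdeal (𝓞 K)⁰ K)ˣ) :
    count K v ((I⁻¹ : (FractionalIdeal (𝓞 K)⁰ K)ˣ) : FractionalIdeal (𝓞 K)⁰ K) =
      - count K v I := by
  rw [Units.val_inv_eq_inv_val, count_inv]

theorem exists_inj {G : Type} [CommGroup G] [Finite G] (φ : G →* G) :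
    ∃ e : G ⧸ φ.range → φ.ker, Function.Injective e := by
  have h1 := φ.range.card_mul_index
  have h2 := φ.ker.card_mul_index
  rw [Subgroup.index_ker] at h2
  have h3 : Nat.card (G ⧸ φ.range) = Nat.card φ.ker := by
    have hp : 0 < Nat.card φ.range := Nat.card_pos
    refine Nat.eq_of_mul_eq_mul_left hp ?_
    rw [mul_comm _ (Nat.card φ.ker), h2, ← h1]
    rfl
  obtain ⟨e⟩ := Finite.card_eq.1 h3
  exact ⟨e, e.injective⟩

end SelAux

section Selmer
variable {k L : Type} [Field k] [NumberField k] [Field L] [NumberField L] [Algebra k L]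

theorem even_adjust [IsGalois k L] (hunr : Unr k L) {ι : Type} (α : ι → L) (h0 : ∀ i, α i ≠ 0)
    (hinv : ∀ i (g : L ≃ₐ[k] L), ∃ β : L, g (α i) = α i * β ^ 2) :
    ∃ f : ι → (powMonoidHom 2 : ClassGroup (𝓞 k) →* ClassGroup (𝓞 k)).ker,
      ∀ i j, f i = f j → ∃ y : k, y ≠ 0 ∧
        ∀ w : Pr L, Even (ord w (α i / α j * algebraMap k L y)) := by
  choose up hup using exists_above (F := k) L
  have hfin (i : ι) : {v : Pr k | ord (up v) (α i) ≠ 0}.Finite :=
    ((finite_ord (h0 i)).image (dn k)).subset fun v hv => ⟨up v, hv, hup v⟩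
  choose I hI using fun i => SelAux.exists_count _ (hfin i)
  obtain ⟨e, he⟩ := SelAux.exists_inj (powMonoidHom 2 : ClassGroup (𝓞 k) →* ClassGroup (𝓞 k))
  refine ⟨fun i => e (QuotientGroup.mk (ClassGroup.mk k (I i))), fun i j hij => ?_⟩
  obtain ⟨c, hc⟩ := QuotientGroup.eq.1 (he hij)
  obtain ⟨J, rfl⟩ := SelAux.exists_mk c
  have h1 : ClassGroup.mk k ((I i)⁻¹ * I j * (J * J)⁻¹) = 1 := by
    rw [map_mul, map_mul, map_inv, ← hc, map_inv, map_mul, powMonoidHom_apply, sq, mul_inv_cancel]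
  obtain ⟨y, hy, h2⟩ := SelAux.mk_eq_one.1 h1
  refine ⟨y, hy, fun w => ?_⟩
  obtain ⟨σ, hσ⟩ := exists_cj_eq (F := k) (hup (dn k w))
  have key (l : ι) : ∃ b : ℤ, ord (up (dn k w)) (α l) = ord w (α l) + 2 * b := by
    obtain ⟨β, hβ⟩ := hinv l σ
    have hβ0 : β ≠ 0 := by
      rintro rfl
      exact h0 l (by simpa using hβ)
    refine ⟨ord w β, ?_⟩
    rw [← ord_cj σ, hσ, hβ, ord_mul w (h0 l) (pow_ne_zero 2 hβ0), ord_pow]
    rfl
  obtain ⟨b, hb⟩ := key i
  obtain ⟨b', hb'⟩ := key j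
  have h3 := h2 (dn k w)
  simp only [SelAux.count_umul, SelAux.count_uinv, hI] at h3
  rw [ord_mul w (div_ne_zero (h0 i) (h0 j)) ((map_ne_zero _).2 hy), ord_div w (h0 i) (h0 j),
    ord_of_unrP (hunr w), ← h3, hb, hb']
  exact ⟨b' - b - FractionalIdeal.count k (dn k w) J, by ring⟩

theorem sel_family (k : Type) [Field k] [NumberField k] :
    ∃ x : (powMonoidHom 2 : ClassGroup (𝓞 k) →* ClassGroup (𝓞 k)).ker → k,
      (∀ c, x c ≠ 0 ∧ ∀ v : Pr k, Even (ord v (x c))) ∧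
      ∀ c c', c ≠ c' → ¬ IsSquare (x c / x c') := by
  choose I hI using SelAux.exists_mk (K := k)
  have h1 (c : (powMonoidHom 2 : ClassGroup (𝓞 k) →* ClassGroup (𝓞 k)).ker) :
      ClassGroup.mk k (I c * I c) = 1 := by
    have := c.2
    rw [MonoidHom.mem_ker, powMonoidHom_apply, sq] at this
    rw [map_mul, hI, this]
  choose x hx0 hx using fun c => SelAux.mk_eq_one.1 (h1 c)
  simp only [SelAux.count_umul] at hx
  refine ⟨x, fun c => ⟨hx0 c, fun v => ⟨_, (hx c v).symm⟩⟩, fun c c' hne ⟨y, hy⟩ => hne ?_⟩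
  have hy0 : y ≠ 0 := by
    rintro rfl
    exact div_ne_zero (hx0 c) (hx0 c') (by simpa using hy)
  have h2 : ClassGroup.mk k (I c * (I c')⁻¹) = 1 := by
    refine SelAux.mk_eq_one.2 ⟨y, hy0, fun v => ?_⟩
    have h3 := ord_div v (hx0 c) (hx0 c')
    rw [hy, ord_mul v hy0 hy0, ← hx, ← hx] at h3
    rw [SelAux.count_umul, SelAux.count_uinv]
    omega
  rw [map_mul, map_inv, hI, hI, mul_inv_eq_one] at h2
  exact Subtype.ext h2

theorem card_le_hom [IsGalois k L] (X : Finset k) (h0 : ∀ x ∈ X, x ≠ 0)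
    (hsq : ∀ x ∈ X, IsSquare (algebraMap k L x))
    (hne : ∀ x ∈ X, ∀ y ∈ X, x ≠ y → ¬ IsSquare (x / y)) :
    X.card ≤ Nat.card ((L ≃ₐ[k] L) →* ℤˣ) := by
  classical
  choose r hr using fun x : X => hsq x x.2
  have hr0 (x : X) : r x ≠ 0 := by
    intro h
    have := hr x
    rw [h, mul_zero, map_eq_zero] at this
    exact h0 x x.2 this
  have hneg (x : X) : -r x ≠ r x := fun h => hr0 x (by linear_combination (-1 / 2 : L) * h)
  have hpm (x : X) (g : L ≃ₐ[k] L) : g (r x) = r x ∨ g (r x) = -r x := by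
    refine mul_self_eq_mul_self_iff.1 ?_
    rw [← map_mul, ← hr, AlgEquiv.commutes]
  let χ : X → ((L ≃ₐ[k] L) →* ℤˣ) := fun x =>
    MonoidHom.mk' (fun g => if g (r x) = r x then 1 else -1) fun g h => by
      rcases hpm x g with h1 | h1 <;> rcases hpm x h with h2 | h2 <;>
        simp [AlgEquiv.mul_apply, h1, h2, hneg x]
  have hχ : Function.Injective χ := by
    intro x y hxy
    by_contra hc
    refine hne x x.2 y y.2 (fun h => hc (Subtype.ext h)) ?_
    have h1 (g : L ≃ₐ[k] L) : g (r x / r y) = r x / r y := by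
      have h2 : (if g (r x) = r x then (1 : ℤˣ) else -1) = if g (r y) = r y then 1 else -1 :=
        DFunLike.congr_fun hxy g
      rw [map_div₀]
      rcases hpm x g with h3 | h3 <;> rcases hpm y g with h4 | h4
      · rw [h3, h4]
      · simp [h3, h4, hneg y] at h2
      · simp [h3, h4, hneg x] at h2
      · rw [h3, h4, neg_div_neg_eq]
    obtain ⟨z, hz⟩ := (IsGalois.mem_range_algebraMap_iff_fixed (F := k) _).2 h1
    refine ⟨z, (algebraMap k L).injective ?_⟩
    rw [map_div₀, map_mul, hz, hr, hr, div_mul_div_comm]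
  have : Finite ((L ≃ₐ[k] L) →* ℤˣ) := Finite.of_injective _ DFunLike.coe_injective
  rw [← Nat.card_eq_finsetCard]
  exact Nat.card_le_card_of_injective χ hχ

end Selmer

end Pool.Agent.P.MP_9ec3f0_nt.SY
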