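import Pool.Agent.P.MP_9ec3f0_nt.SY.Deviss
import Pool.Agent.P.MP_9ec3f0_nt.SY.GS
import Pool.Agent.P.MP_9ec3f0_nt.SY.Omega
import Pool.Agent.P.MP_9ec3f0_nt.SY.Selmer

namespace Pool.Agent.P.MP_9ec3f0_nt.SY

open NumberField IsDedekindDomain Finset Module

theorem tower_step {k L : Type} [Field k] [NumberField k] [Field L] [NumberField L] [Algebra k L]
    [IsGalois k L] [IsTotallyComplex k] (hk : finrank ℚ k = 2)
    (h2 : ∀ v : Pr k, ord v (2 : k) ≤ 1) (hG : IsPGroup 2 (L ≃ₐ[k] L)) (hunr : Unr k L)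
    (h9 : 2 ^ 9 ≤ Nat.card ((L ≃ₐ[k] L) →* ℤˣ))
    (hcl : Nat.card (powMonoidHom 2 : ClassGroup (𝓞 k) →* ClassGroup (𝓞 k)).ker ≤
      16 * Nat.card ((L ≃ₐ[k] L) →* ℤˣ)) :
    ∃ α β : L, (∀ w : Pr L, UnrAt w α) ∧ (∀ w : Pr L, UnrAt w β) ∧
      ¬ IsSquare α ∧ ¬ IsSquare β ∧ ¬ IsSquare (α * β) := by
  classical
  set h := Nat.card ((L ≃ₐ[k] L) →* ℤˣ) with hh
  have h0 : h ≠ 0 := by omega
  set d := Nat.log 2 h with hd
  have hd1 : 2 ^ d ≤ h := Nat.pow_log_le_self 2 h0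
  have hd2 : h < 2 ^ (d + 1) := Nat.lt_pow_succ_log_self (by norm_num) h
  have hd9 : 9 ≤ d := Nat.le_log_of_pow_le (by norm_num) h9
  obtain ⟨R, c, hR, hc, hne⟩ := golod_shafarevich (L ≃ₐ[k] L) hG d (by omega) hd1
  have hR' : d + 11 ≤ R := by nlinarith
  obtain ⟨α, hα, hαne⟩ := alpha_family hG hunr c hc hne
  obtain ⟨f, hf⟩ := even_adjust hunr α (fun i => (hα i).1) (fun i => (hα i).2)
  letI : Fintype (powMonoidHom 2 : ClassGroup (𝓞 k) →* ClassGroup (𝓞 k)).ker :=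
    Fintype.ofFinite _
  have hcard : Fintype.card (powMonoidHom 2 : ClassGroup (𝓞 k) →* ClassGroup (𝓞 k)).ker * 32 <
      Fintype.card (Fin (2 ^ R)) := by
    rw [Fintype.card_fin, ← Nat.card_eq_fintype_card]
    have e1 : 2 ^ (d + 11) ≤ 2 ^ R := Nat.pow_le_pow_right (by norm_num) hR'
    have e2 : 2 ^ (d + 11) = 1024 * 2 ^ (d + 1) := by ring
    omega
  obtain ⟨b, hb⟩ := Fintype.exists_lt_card_fiber_of_mul_lt_card f hcard
  set T : Finset (Fin (2 ^ R)) := {x | f x = b} with hT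
  obtain ⟨j0, hj0⟩ : T.Nonempty := card_pos.1 (by omega)
  have hy : ∀ i : T, ∃ y : k, y ≠ 0 ∧
      ∀ w : Pr L, Even (ord w (α i / α j0 * algebraMap k L y)) := fun i =>
    hf i j0 ((mem_filter.1 i.2).2.trans (mem_filter.1 hj0).2.symm)
  choose y hy0 hy using hy
  set a : T → L := fun i => α i / α j0 * algebraMap k L (y i) with ha
  have hyL : ∀ i, algebraMap k L (y i) ≠ 0 := fun i => (map_ne_zero _).2 (hy0 i)
  have ha0 : ∀ i, a i ≠ 0 := fun i => mul_ne_zero (div_ne_zero (hα _).1 (hα _).1) (hyL i)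
  have hinv : ∀ i (g : L ≃ₐ[k] L), ∃ β : L, g (a i) = a i * β ^ 2 := by
    intro i g
    obtain ⟨β1, h1⟩ := (hα i).2 g
    obtain ⟨β0, h0⟩ := (hα j0).2 g
    refine ⟨β1 / β0, ?_⟩
    simp only [ha, map_mul, map_div₀, AlgEquiv.commutes, h1, h0]
    rw [div_pow, mul_div_mul_comm]; ring
  have h2L : ∀ w : Pr L, ord w (2 : L) ≤ 1 := by
    intro w
    have := ord_of_unrP (hunr w) (2 : k)
    rw [map_ofNat] at this
    rw [this]; exact h2 _
  obtain ⟨f', hf'⟩ := omega_class hk h2L a ha0 hy hinv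
  have hcard' : Fintype.card (Fin 16) * 2 < Fintype.card T := by
    rw [Fintype.card_fin, Fintype.card_coe]; omega
  obtain ⟨b', hb'⟩ := Fintype.exists_lt_card_fiber_of_mul_lt_card f' hcard'
  obtain ⟨i1, m1, i2, m2, i3, m3, n12, n13, n23⟩ := two_lt_card.1 hb'
  have e1 := (mem_filter.1 m1).2
  have e2 := (mem_filter.1 m2).2
  have e3 := (mem_filter.1 m3).2
  have key : ∀ i j : T, i ≠ j → ∀ x : L, a i ≠ a j * x ^ 2 := by
    intro i j hij x hx
    refine hαne i j (fun e => hij (Subtype.ext e)) ⟨y j / y i, x, ?_⟩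
    have h1 := hyL i
    have h3 := (hα j0).1
    simp only [ha] at hx
    rw [map_div₀]
    field_simp at hx ⊢
    linear_combination hx
  refine ⟨a i1 / a i3, a i2 / a i3, hf' _ _ (e1.trans e3.symm), hf' _ _ (e2.trans e3.symm),
    ?_, ?_, ?_⟩
  · rintro ⟨x, hx⟩
    refine key i1 i3 n13 x ?_
    have := ha0 i3
    field_simp at hx
    linear_combination hx
  · rintro ⟨x, hx⟩
    refine key i2 i3 n23 x ?_
    have := ha0 i3
    field_simp at hx
    linear_combination hx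
  · rintro ⟨x, hx⟩
    refine key i1 i2 n12 (a i3 * x / a i2) ?_
    have := ha0 i3
    have := ha0 i2
    field_simp at hx ⊢
    linear_combination hx

theorem base_family {k : Type} [Field k] [NumberField k] (hk : finrank ℚ k = 2)
    (h2 : ∀ v : Pr k, ord v (2 : k) ≤ 1) :
    ∃ X : Finset k,
      Nat.card (powMonoidHom 2 : ClassGroup (𝓞 k) →* ClassGroup (𝓞 k)).ker ≤ 16 * X.card ∧
      (∀ x ∈ X, x ≠ 0 ∧ ∀ v : Pr k, UnrAt v x) ∧
      ∀ x ∈ X, ∀ y ∈ X, x ≠ y → ¬ IsSquare (x / y) := by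
  classical
  obtain ⟨x, hx, hne⟩ := sel_family k
  obtain ⟨f, hf⟩ := omega_class (k := k) (L := k) hk h2 x (fun c => (hx c).1) (fun c => (hx c).2)
    (fun c g => ⟨1, by simpa using g.commutes (x c)⟩)
  letI : Fintype (powMonoidHom 2 : ClassGroup (𝓞 k) →* ClassGroup (𝓞 k)).ker :=
    Fintype.ofFinite _
  obtain ⟨b, -, hb⟩ := exists_max_image (univ : Finset (Fin 16)) (fun b => #{c | f c = b})
    univ_nonempty
  set T := (univ.filter fun c => f c = b) with hT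
  have hcard : Nat.card (powMonoidHom 2 : ClassGroup (𝓞 k) →* ClassGroup (𝓞 k)).ker ≤
      16 * #T := by
    rw [Nat.card_eq_fintype_card, ← card_univ,
      card_eq_sum_card_fiberwise (f := f) (t := univ) (fun _ _ => mem_coe.2 (mem_univ _))]
    refine (sum_le_sum fun b' _ => hb b' (mem_univ _)).trans ?_
    simp
  rcases T.eq_empty_or_nonempty with hT0 | ⟨c0, hc0⟩
  · refine ⟨∅, ?_, by simp, by simp⟩
    rw [hT0] at hcard
    simpa using hcard
  have hq : ∀ c c', x c / x c0 / (x c' / x c0) = x c / x c' := fun c c' =>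
    div_div_div_cancel_right₀ (hx c0).1 _ _
  refine ⟨T.image fun c => x c / x c0, ?_, ?_, ?_⟩
  · rw [card_image_of_injOn]
    · exact hcard
    · intro c _ c' _ h
      by_contra hcc
      apply hne c c' hcc
      have h' : x c / x c0 = x c' / x c0 := h
      rw [← hq, h', div_self (div_ne_zero (hx c').1 (hx c0).1)]
      exact IsSquare.one
  · intro z hz
    obtain ⟨c, hc, rfl⟩ := mem_image.1 hz
    exact ⟨div_ne_zero (hx c).1 (hx c0).1,
      hf c c0 ((mem_filter.1 hc).2.trans (mem_filter.1 hc0).2.symm)⟩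
  · intro z hz z' hz' hzz
    obtain ⟨c, -, rfl⟩ := mem_image.1 hz
    obtain ⟨c', -, rfl⟩ := mem_image.1 hz'
    rw [hq]
    exact hne c c' fun e => hzz (by rw [e])

end Pool.Agent.P.MP_9ec3f0_nt.SY
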