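import Pool.Agent.P.MP_9ec3f0_nt.SY.Defs

namespace Pool.Agent.P.MP_9ec3f0_nt.SY

open NumberField IsDedekindDomain Finset Module

section Val
variable {K : Type} [Field K] [NumberField K]

namespace ValAux

theorem val_ne (v : Pr K) {x : K} (hx : x ≠ 0) : v.valuation K x ≠ 0 :=
  (Valuation.ne_zero_iff _).mpr hx

theorem val_eq_exp (v : Pr K) {x : K} (hx : x ≠ 0) :
    v.valuation K x = WithZero.exp (- ord v x) := by
  rw [ord, neg_neg, WithZero.exp_log (val_ne v hx)]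

theorem ord_of_val_eq (v : Pr K) {x : K} {n : ℤ} (h : v.valuation K x = WithZero.exp (-n)) :
    ord v x = n := by
  rw [ord, h, WithZero.log_exp, neg_neg]

theorem val_four_le (v : Pr K) : v.valuation K 4 ≤ 1 := by
  have := v.valuation_le_one (K := K) (4 : 𝓞 K)
  simpa [Algebra.cast, map_ofNat] using this

end ValAux

open ValAux

theorem ord_mul (v : Pr K) {x y : K} (hx : x ≠ 0) (hy : y ≠ 0) :
    ord v (x * y) = ord v x + ord v y := by
  simp only [ord, map_mul, WithZero.log_mul (val_ne v hx) (val_ne v hy)]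
  ring
theorem ord_inv (v : Pr K) (x : K) : ord v x⁻¹ = - ord v x := by
  simp only [ord, map_inv₀, WithZero.log_inv]
theorem ord_div (v : Pr K) {x y : K} (hx : x ≠ 0) (hy : y ≠ 0) :
    ord v (x / y) = ord v x - ord v y := by
  rw [div_eq_mul_inv, ord_mul v hx (inv_ne_zero hy), ord_inv, sub_eq_add_neg]
theorem ord_pow (v : Pr K) (x : K) (n : ℕ) : ord v (x ^ n) = n * ord v x := by
  simp only [ord, map_pow, WithZero.log_pow, nsmul_eq_mul]
  ring
theorem ord_zpow (v : Pr K) (x : K) (n : ℤ) : ord v (x ^ n) = n * ord v x := by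
  simp only [ord, map_zpow₀, WithZero.log_zpow, smul_eq_mul]
  ring
theorem ord_one (v : Pr K) : ord v (1 : K) = 0 := by
  simp [ord]
theorem ord_neg (v : Pr K) (x : K) : ord v (-x) = ord v x := by
  simp only [ord, Valuation.map_neg]
theorem val_eq_one_iff (v : Pr K) {x : K} (hx : x ≠ 0) : v.valuation K x = 1 ↔ ord v x = 0 := by
  rw [val_eq_exp v hx, WithZero.exp_eq_one, neg_eq_zero]
theorem val_le_one_iff (v : Pr K) {x : K} (hx : x ≠ 0) : v.valuation K x ≤ 1 ↔ 0 ≤ ord v x := by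
  rw [val_eq_exp v hx, ← WithZero.exp_zero, WithZero.exp_le_exp, neg_nonpos]
theorem val_lt_one_iff (v : Pr K) {x : K} (hx : x ≠ 0) : v.valuation K x < 1 ↔ 0 < ord v x := by
  rw [val_eq_exp v hx, ← WithZero.exp_zero, WithZero.exp_lt_exp, neg_lt_zero]
theorem val_le_val_iff (v : Pr K) {x y : K} (hx : x ≠ 0) (hy : y ≠ 0) :
    v.valuation K x ≤ v.valuation K y ↔ ord v y ≤ ord v x := by
  rw [val_eq_exp v hx, val_eq_exp v hy, WithZero.exp_le_exp, neg_le_neg_iff]

namespace ValAux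

open scoped nonZeroDivisors

theorem ord_int (v : Pr K) {a : 𝓞 K} (ha : a ≠ 0) :
    ord v (algebraMap (𝓞 K) K a) =
      FractionalIdeal.count K v (FractionalIdeal.spanSingleton (𝓞 K)⁰ (algebraMap (𝓞 K) K a)) := by
  classical
  rw [← FractionalIdeal.coeIdeal_span_singleton, FractionalIdeal.count_coe K v
    (by simpa [Ideal.span_singleton_eq_bot] using ha)]
  apply ord_of_val_eq
  have := v.valuation_of_algebraMap (K := K) a
  rw [Algebra.cast] at this
  rw [this, v.intValuation_if_neg ha]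

theorem ord_eq_count (v : Pr K) {x : K} (hx : x ≠ 0) :
    ord v x = FractionalIdeal.count K v (FractionalIdeal.spanSingleton (𝓞 K)⁰ x) := by
  obtain ⟨a, b, hb, rfl⟩ := IsFractionRing.div_surjective (A := 𝓞 K) x
  have hb0 : b ≠ 0 := nonZeroDivisors.ne_zero hb
  have hb' : algebraMap (𝓞 K) K b ≠ 0 := by
    simpa using hb0
  have ha' : algebraMap (𝓞 K) K a ≠ 0 := by
    intro h
    exact hx (by rw [h, zero_div])
  have ha0 : a ≠ 0 := by
    rintro rfl
    exact ha' (map_zero _)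
  rw [ord_div v ha' hb', ord_int v ha0, ord_int v hb0, div_eq_mul_inv,
    ← FractionalIdeal.spanSingleton_mul_spanSingleton, FractionalIdeal.count_mul K v
      (FractionalIdeal.spanSingleton_ne_zero_iff.mpr ha')
      (FractionalIdeal.spanSingleton_ne_zero_iff.mpr (inv_ne_zero hb')),
    ← FractionalIdeal.spanSingleton_inv, FractionalIdeal.count_inv, sub_eq_add_neg]

theorem exists_ord_eq_nat (S : Finset (Pr K)) (m : Pr K → ℕ) :
    ∃ x : K, x ≠ 0 ∧ ∀ v ∈ S, ord v x = m v := by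
  rcases S.eq_empty_or_nonempty with rfl | ⟨v₀, hv₀⟩
  · exact ⟨1, one_ne_zero, by simp⟩
  choose π hπ using fun v : Pr K => v.intValuation_exists_uniformizer
  obtain ⟨y, hy⟩ := IsDedekindDomain.exists_forall_sub_mem_ideal (s := S)
    (fun v : Pr K => v.asIdeal) (fun v => m v + 1) (fun v _ => v.prime)
    (fun v _ w _ hvw h => hvw (HeightOneSpectrum.ext h)) (fun v => π v ^ m v)
  have key : ∀ v ∈ S, v.intValuation y = WithZero.exp (-(m v : ℤ)) := by
    intro v hv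
    have h1 : v.intValuation (π v ^ m v) = WithZero.exp (-(m v : ℤ)) := by
      rw [map_pow, hπ, ← WithZero.exp_nsmul]
      simp
    have h2 : v.intValuation (y - π v ^ m v) < v.intValuation (π v ^ m v) := by
      have := (v.intValuation_le_pow_iff_mem _ _).mpr (hy v hv)
      refine lt_of_le_of_lt this ?_
      rw [h1, WithZero.exp_lt_exp]
      push_cast
      omega
    rw [← h1, ← Valuation.map_add_eq_of_lt_right _ h2, sub_add_cancel]
  have hy0 : y ≠ 0 := by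
    rintro rfl
    have := key v₀ hv₀
    rw [map_zero] at this
    exact WithZero.exp_ne_zero this.symm
  refine ⟨algebraMap (𝓞 K) K y, by simpa using hy0, fun v hv => ?_⟩
  apply ord_of_val_eq
  have := v.valuation_of_algebraMap (K := K) y
  rw [Algebra.cast] at this
  rw [this, key v hv]

end ValAux

theorem finite_ord {x : K} (hx : x ≠ 0) : {v : Pr K | ord v x ≠ 0}.Finite := by
  simp only [ord_eq_count _ hx]
  exact Filter.eventually_cofinite.mp (FractionalIdeal.finite_factors _)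
theorem exists_ord_eq (S : Finset (Pr K)) (n : Pr K → ℤ) :
    ∃ x : K, x ≠ 0 ∧ ∀ v ∈ S, ord v x = n v := by
  obtain ⟨x, hx, h1⟩ := exists_ord_eq_nat S (fun v => (n v).toNat)
  obtain ⟨y, hy, h2⟩ := exists_ord_eq_nat S (fun v => (-n v).toNat)
  refine ⟨x / y, div_ne_zero hx hy, fun v hv => ?_⟩
  rw [ord_div v hx hy, h1 v hv, h2 v hv]
  omega

open scoped nonZeroDivisors in
theorem exists_classGen (K : Type) [Field K] [NumberField K] :
    ∃ S : Finset (Pr K), ClassGen S := by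
  classical
  choose J hJ using ClassGroup.mk0_surjective (R := 𝓞 K)
  have hfin : (⋃ c : ClassGroup (𝓞 K), {v : Pr K |
      ¬ FractionalIdeal.count K v ((J c : Ideal (𝓞 K)) : FractionalIdeal (𝓞 K)⁰ K) = 0}).Finite :=
    Set.finite_iUnion fun c => Filter.eventually_cofinite.mp (FractionalIdeal.finite_factors _)
  refine ⟨hfin.toFinset, fun n hn => ?_⟩
  set e : Pr K →₀ ℤ := Finsupp.ofSupportFinite n hn with he
  set I : FractionalIdeal (𝓞 K)⁰ K :=
    e.prod (fun v k => (v.asIdeal : FractionalIdeal (𝓞 K)⁰ K) ^ k) with hI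
  have hI0 : I ≠ 0 := by
    rw [hI, Finsupp.prod]
    exact Finset.prod_ne_zero_iff.mpr fun v _ =>
      zpow_ne_zero _ (FractionalIdeal.coeIdeal_ne_zero.mpr v.ne_bot)
  have hIc : ∀ v : Pr K, FractionalIdeal.count K v I = n v := fun v => by
    rw [hI, FractionalIdeal.count_finsuppProd]
    rfl
  set c : ClassGroup (𝓞 K) := (ClassGroup.mk K (Units.mk0 I hI0))⁻¹ with hc
  have h1 : ClassGroup.mk K (Units.mk0 I hI0 * FractionalIdeal.mk0 K (J c)) = 1 := by
    rw [map_mul, ClassGroup.mk_mk0, hJ, hc, mul_inv_cancel]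
  rw [ClassGroup.mk_eq_one_iff] at h1
  obtain ⟨x, hx⟩ := (FractionalIdeal.isPrincipal_iff _).mp h1
  rw [Units.val_mul, Units.val_mk0, FractionalIdeal.coe_mk0] at hx
  have hJ0 : ((J c : Ideal (𝓞 K)) : FractionalIdeal (𝓞 K)⁰ K) ≠ 0 :=
    FractionalIdeal.coeIdeal_ne_zero.mpr (nonZeroDivisors.ne_zero (J c).2)
  have hx0 : x ≠ 0 := by
    rw [← FractionalIdeal.spanSingleton_ne_zero_iff (R := 𝓞 K) (S := (𝓞 K)⁰), ← hx]
    exact mul_ne_zero hI0 hJ0
  refine ⟨x, hx0, fun v hv => ?_⟩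
  rw [ord_eq_count v hx0, ← hx, FractionalIdeal.count_mul K v hI0 hJ0, hIc]
  have : FractionalIdeal.count K v ((J c : Ideal (𝓞 K)) : FractionalIdeal (𝓞 K)⁰ K) = 0 := by
    by_contra h
    exact hv (hfin.mem_toFinset.mpr (Set.mem_iUnion.mpr ⟨c, h⟩))
  rw [this, add_zero]
theorem ClassGen.mono {S T : Finset (Pr K)} (h : ClassGen S) (hST : S ⊆ T) : ClassGen T := by
  intro n hn
  obtain ⟨x, hx, h1⟩ := h n hn
  exact ⟨x, hx, fun v hv => h1 v fun hS => hv (hST hS)⟩
theorem mem_SU (S : Finset (Pr K)) (x : Kˣ) : x ∈ SU S ↔ ∀ v, v ∉ S → ord v (x : K) = 0 := by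
  change (∀ v : Pr K, v ∉ (S : Set (Pr K)) → v.valuation K (x : K) = 1) ↔ _
  simp only [Finset.mem_coe, val_eq_one_iff _ x.ne_zero]

namespace ValAux

theorem val_one_add_four {v : Pr K} {μ : K} (h : v.valuation K μ < 1) :
    v.valuation K (1 + 4 * μ) = 1 := by
  apply Valuation.map_one_add_of_lt
  rw [map_mul]
  exact lt_of_le_of_lt (mul_le_of_le_one_left' (val_four_le v)) h

theorem val_four_eq {v : Pr K} (h2 : v.valuation K 2 = 1) : v.valuation K 4 = 1 := by
  rw [show (4 : K) = 2 ^ 2 by norm_num, map_pow, h2, one_pow]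

end ValAux

theorem SplitAt.unrAt {v : Pr K} {a : K} (h : SplitAt v a) : UnrAt v a := by
  obtain ⟨ξ, μ, hξ, ha, hμ⟩ := h
  exact ⟨ξ, μ, hξ, ha, hμ.le, val_one_add_four hμ⟩
theorem UnrAt.ne_zero {v : Pr K} {a : K} (h : UnrAt v a) : a ≠ 0 := by
  obtain ⟨ξ, μ, hξ, rfl, -, h1⟩ := h
  refine mul_ne_zero (pow_ne_zero _ hξ) fun h0 => ?_
  rw [h0, map_zero] at h1
  exact zero_ne_one h1
theorem SplitAt.ne_zero {v : Pr K} {a : K} (h : SplitAt v a) : a ≠ 0 := h.unrAt.ne_zero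
theorem UnrAt.even {v : Pr K} {a : K} (h : UnrAt v a) : Even (ord v a) := by
  obtain ⟨ξ, μ, hξ, rfl, -, h1⟩ := h
  have h0 : 1 + 4 * μ ≠ 0 := fun h0 => by
    rw [h0, map_zero] at h1
    exact zero_ne_one h1
  rw [ord_mul v (pow_ne_zero _ hξ) h0, ord_pow, (val_eq_one_iff v h0).mp h1, add_zero]
  exact ⟨ord v ξ, by push_cast; ring⟩
theorem splitAt_sq (v : Pr K) {x : K} (hx : x ≠ 0) : SplitAt v (x ^ 2) :=
  ⟨x, 0, hx, by ring, by simp⟩
theorem SplitAt.mul {v : Pr K} {a b : K} (ha : SplitAt v a) (hb : SplitAt v b) :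
    SplitAt v (a * b) := by
  obtain ⟨ξ, μ, hξ, rfl, hμ⟩ := ha
  obtain ⟨η, ν, hη, rfl, hν⟩ := hb
  refine ⟨ξ * η, μ + ν * (1 + 4 * μ), mul_ne_zero hξ hη, by ring, ?_⟩
  apply Valuation.map_add_lt _ hμ
  rw [map_mul, val_one_add_four hμ, mul_one]
  exact hν
theorem SplitAt.inv {v : Pr K} {a : K} (ha : SplitAt v a) : SplitAt v a⁻¹ := by
  have h0 := ha.ne_zero
  have := ha.mul (splitAt_sq v (inv_ne_zero h0))
  rwa [show a * a⁻¹ ^ 2 = a⁻¹ by field_simp] at this
theorem UnrAt.mul {v : Pr K} {a b : K} (ha : UnrAt v a) (hb : UnrAt v b) :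
    UnrAt v (a * b) := by
  obtain ⟨ξ, μ, hξ, rfl, hμ, h1⟩ := ha
  obtain ⟨η, ν, hη, rfl, hν, h2⟩ := hb
  refine ⟨ξ * η, μ + ν * (1 + 4 * μ), mul_ne_zero hξ hη, by ring, ?_, ?_⟩
  · apply Valuation.map_add_le _ hμ
    rw [map_mul, h1, mul_one]
    exact hν
  · rw [show 1 + 4 * (μ + ν * (1 + 4 * μ)) = (1 + 4 * μ) * (1 + 4 * ν) by ring, map_mul, h1, h2,
      mul_one]
theorem UnrAt.inv {v : Pr K} {a : K} (ha : UnrAt v a) : UnrAt v a⁻¹ := by
  have h0 := ha.ne_zero
  have := ha.mul (splitAt_sq v (inv_ne_zero h0)).unrAt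
  rwa [show a * a⁻¹ ^ 2 = a⁻¹ by field_simp] at this
theorem unrAt_of_odd {v : Pr K} (h2 : v.valuation K 2 = 1) {a : K} (ha : a ≠ 0)
    (he : Even (ord v a)) : UnrAt v a := by
  obtain ⟨k, hk⟩ := he
  obtain ⟨ξ, hξ, h1⟩ := exists_ord_eq {v} (fun _ => k)
  have h1 := h1 v (Finset.mem_singleton_self v)
  have hu0 : a / ξ ^ 2 ≠ 0 := div_ne_zero ha (pow_ne_zero _ hξ)
  have hu : v.valuation K (a / ξ ^ 2) = 1 := by
    rw [val_eq_one_iff v hu0, ord_div v ha (pow_ne_zero _ hξ), ord_pow, h1, hk]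
    push_cast
    ring
  have he : 1 + 4 * ((a / ξ ^ 2 - 1) / 4) = a / ξ ^ 2 := by ring
  refine ⟨ξ, (a / ξ ^ 2 - 1) / 4, hξ, ?_, ?_, ?_⟩
  · rw [he]
    field_simp
  · rw [map_div₀, val_four_eq h2, div_one]
    exact Valuation.map_sub_le _ hu.le (by simp)
  · rw [he, hu]
theorem splitAt_of_congr {v : Pr K} (h2 : v.valuation K 2 = 1) {a ξ : K}
    (ha : v.valuation K a = 1) (h : v.valuation K (a - ξ ^ 2) < 1) : SplitAt v a := by
  have h1 : v.valuation K (ξ ^ 2) = 1 := by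
    rw [show ξ ^ 2 = a - (a - ξ ^ 2) by ring, Valuation.map_sub_eq_of_lt_left _ (by rwa [ha]), ha]
  have hξ : ξ ≠ 0 := by
    rintro rfl
    simp at h1
  refine ⟨ξ, (a - ξ ^ 2) / (4 * ξ ^ 2), hξ, ?_, ?_⟩
  · field_simp
    ring
  · rw [map_div₀, map_mul, val_four_eq h2, h1, mul_one, div_one]
    exact h

namespace ValAux

theorem exists_int_close (v : Pr K) {a : K} (ha : v.valuation K a ≤ 1) :
    ∃ α : 𝓞 K, v.valuation K (a - algebraMap (𝓞 K) K α) < 1 := by
  obtain ⟨α, hα⟩ := v.exists_valuation_sub_lt_of_integer ha 1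
  exact ⟨α, by rwa [Valuation.map_sub_swap]⟩

theorem val_lt_of_mk_eq (v : Pr K) {α β : 𝓞 K}
    (h : Ideal.Quotient.mk v.asIdeal α = Ideal.Quotient.mk v.asIdeal β) :
    v.valuation K (algebraMap (𝓞 K) K α - algebraMap (𝓞 K) K β) < 1 := by
  rw [← map_sub]
  exact (v.valuation_lt_one_iff_mem (K := K) _).mpr (Ideal.Quotient.eq.mp h)

theorem splitAt_of_isSquare {v : Pr K} (h2 : v.valuation K 2 = 1) {a : K} {α : 𝓞 K}
    (ha : v.valuation K a = 1) (hα : v.valuation K (a - algebraMap (𝓞 K) K α) < 1)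
    (hs : IsSquare (Ideal.Quotient.mk v.asIdeal α)) : SplitAt v a := by
  obtain ⟨r, hr⟩ := hs
  obtain ⟨ξ, rfl⟩ := Ideal.Quotient.mk_surjective r
  rw [← map_mul] at hr
  have h1 := val_lt_of_mk_eq v hr
  apply splitAt_of_congr h2 ha (ξ := algebraMap (𝓞 K) K ξ)
  have := Valuation.map_add_lt _ hα h1
  rwa [map_mul, sub_add_sub_cancel, ← sq] at this

theorem isSquare_mul {F : Type} [Field F] [Finite F] {a b : F} (ha : ¬ IsSquare a)
    (hb : ¬ IsSquare b) : IsSquare (a * b) := by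
  classical
  have := Fintype.ofFinite F
  have ha0 : a ≠ 0 := by
    rintro rfl
    exact ha IsSquare.zero
  have hb0 : b ≠ 0 := by
    rintro rfl
    exact hb IsSquare.zero
  rw [← quadraticChar_one_iff_isSquare (mul_ne_zero ha0 hb0), map_mul,
    quadraticChar_neg_one_iff_not_isSquare.mpr ha, quadraticChar_neg_one_iff_not_isSquare.mpr hb]
  norm_num

end ValAux

theorem splitAt_mul_of_not {v : Pr K} (h2 : v.valuation K 2 = 1) {a b : K}
    (ha : v.valuation K a = 1) (hb : v.valuation K b = 1)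
    (hna : ¬ SplitAt v a) (hnb : ¬ SplitAt v b) : SplitAt v (a * b) := by
  obtain ⟨α, hα⟩ := exists_int_close v ha.le
  obtain ⟨β, hβ⟩ := exists_int_close v hb.le
  have := v.isMaximal
  let := Ideal.Quotient.field v.asIdeal
  have : Finite (𝓞 K ⧸ v.asIdeal) := Ideal.finiteQuotientOfFreeOfNeBot v.asIdeal v.ne_bot
  have hs := isSquare_mul (fun h => hna (splitAt_of_isSquare h2 ha hα h))
    (fun h => hnb (splitAt_of_isSquare h2 hb hβ h))
  refine splitAt_of_isSquare h2 (α := α * β) (by rw [map_mul, ha, hb, mul_one]) ?_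
    (by rw [map_mul]; exact hs)
  rw [show a * b - algebraMap (𝓞 K) K (α * β) = a * (b - algebraMap (𝓞 K) K β) +
    algebraMap (𝓞 K) K β * (a - algebraMap (𝓞 K) K α) by rw [map_mul]; ring]
  apply Valuation.map_add_lt
  · rw [map_mul, ha, one_mul]
    exact hβ
  · rw [map_mul]
    exact lt_of_le_of_lt (mul_le_of_le_one_left' (v.valuation_le_one β)) hα

end Val

end Pool.Agent.P.MP_9ec3f0_nt.SY
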